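import Pool.Agent.Work.MP_c6c039_lc.CL.Defs
import Pool.Agent.Work.MP_c6c039_lc.NC.P3

/-!
# Polynomial time for the search of block CL (helper87)
-/

set_option autoImplicit false

namespace Pool.Agent.Work.MP_c6c039_lc.CL

open Pool.Agent.PT Pool.Agent.Work.MP_c6c039_lc.FP Pool.Agent.Work.MP_c6c039_lc.NC Function

variable {α : Type} [Enc α]

@[fun_prop]
theorem ptf_vs {A : α → Rt} (hA : PTF A) : PTF (fun a => vs (A a)) := by
  unfold vs
  fun_prop

@[fun_prop]
theorem ptf_lb {A : α → Rt} (hA : PTF A) : PTF (fun a => lb (A a)) := by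
  unfold lb
  fun_prop

@[fun_prop]
theorem ptf_hd {A : α → Rt} (hA : PTF A) : PTF (fun a => hd (A a)) := by
  unfold hd
  exact PTF.headD (ptf_vs hA) (PTF.const _)

@[fun_prop]
theorem ptf_mk {A : α → Rt} (hA : PTF A) : PTF (fun a => mk (A a)) := by
  unfold mk
  fun_prop

@[fun_prop]
theorem ptf_bg {F : α → Ft} (hF : PTF F) : PTF (fun a => bg (F a)) := by
  unfold bg
  fun_prop

@[fun_prop]
theorem ptf_nxt {I : α → In} {S : α → Rt} {p : α → ℕ} (hI : PTF I) (hS : PTF S) (hp : PTF p) :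
    PTF (fun a => nxt (I a) (S a) (p a)) := by
  unfold nxt
  exact PTF.headD (by fun_prop) (by fun_prop)

@[fun_prop]
theorem ptf_vt {S : α → Rt} {p : α → ℕ} (hS : PTF S) (hp : PTF p) :
    PTF (fun a => vt (S a) (p a)) := by
  unfold vt
  fun_prop

@[fun_prop]
theorem ptf_cons {I : α → In} {S : α → Rt} (hI : PTF I) (hS : PTF S) :
    PTF (fun a => cons (I a) (S a)) := by
  unfold cons
  fun_prop

@[fun_prop]
theorem ptf_rv {I : α → In} {S : α → Rt} (hI : PTF I) (hS : PTF S) :
    PTF (fun a => rv (I a) (S a)) := by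
  unfold rv
  fun_prop

@[fun_prop]
theorem ptf_bas {I : α → In} {F : α → Ft} (hI : PTF I) (hF : PTF F) :
    PTF (fun a => bas (I a) (F a)) := by
  have h : PTF (fun a => (F a).2.2.isEmpty) := PTF.isEmpty (by fun_prop)
  have h1 : PTF (fun a => (F a).1.tail) := PTF.tail (by fun_prop)
  have h2 : PTF (fun a => (F a).2.1.tail) := PTF.tail (by fun_prop)
  unfold bas
  fun_prop

@[fun_prop]
theorem ptf_es {A B C : α → Rt} {x y : α → ℕ} (hA : PTF A) (hB : PTF B) (hC : PTF C)
    (hx : PTF x) (hy : PTF y) : PTF (fun a => es (A a) (B a) (C a) (x a) (y a)) := by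
  unfold es
  fun_prop

@[fun_prop]
theorem ptf_lo {I : α → In} {A B C : α → Rt} {x : α → ℕ} (hI : PTF I) (hA : PTF A) (hB : PTF B)
    (hC : PTF C) (hx : PTF x) : PTF (fun a => lo (I a) (A a) (B a) (C a) (x a)) := by
  unfold lo
  fun_prop

@[fun_prop]
theorem ptf_rz {I : α → In} {A B C : α → Rt} {J K : α → List ℕ} {x : α → ℕ} (hI : PTF I)
    (hA : PTF A) (hB : PTF B) (hC : PTF C) (hJ : PTF J) (hK : PTF K) (hx : PTF x) :
    PTF (fun a => rz (I a) (A a) (B a) (C a) (J a) (K a) (x a)) := by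
  unfold rz
  fun_prop

@[fun_prop]
theorem ptf_cmt {I : α → In} {A B C : α → Rt} {J K L : α → List ℕ} (hI : PTF I)
    (hA : PTF A) (hB : PTF B) (hC : PTF C) (hJ : PTF J) (hK : PTF K) (hL : PTF L) :
    PTF (fun a => cmt (I a) (A a) (B a) (C a) (J a) (K a) (L a)) := by
  unfold cmt
  fun_prop

@[fun_prop]
theorem ptf_cmb {I : α → In} {F G H : α → Ft} (hI : PTF I) (hF : PTF F) (hG : PTF G)
    (hH : PTF H) : PTF (fun a => cmb (I a) (F a) (G a) (H a)) := by
  unfold cmb
  fun_prop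

@[fun_prop]
theorem ptf_rule {I : α → In} {L : α → List Ft} {F : α → Ft} (hI : PTF I) (hL : PTF L)
    (hF : PTF F) : PTF (fun a => rule (I a) (L a) (F a)) := by
  unfold rule
  fun_prop

@[fun_prop]
theorem ptf_allT (k : ℕ) {I : α → In} (hI : PTF I) : PTF (fun a => allT k (I a)) := by
  unfold allT
  fun_prop

@[fun_prop]
theorem ptf_stp (k : ℕ) {I : α → In} {L : α → List Ft} (hI : PTF I) (hL : PTF L) :
    PTF (fun a => stp k (I a) (L a)) := by
  unfold stp
  fun_prop

theorem ptf_sat0 (k : ℕ) : PTF (fun I : In => sat k I) := by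
  refine PTF.nat_iterate (n := fun I : In => (allT k I).length + 1) (init := fun _ => [])
    (step := fun p : In × List Ft => stp k p.1 p.2) (by fun_prop) (by fun_prop) (by fun_prop)
    (fun I => sz (allT k I) + 1) ?_ ?_
  · exact (PTF.size (ptf_allT k PTF.id)).add (PB.const 1)
  · intro a i _
    cases i with
    | zero =>
      rw [iterate_zero, id_eq, sz_nil]
      omega
    | succ i =>
      rw [iterate_succ_apply']
      exact (sz_filter_le _ _).trans (Nat.le_succ _)

@[fun_prop]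
theorem ptf_sat (k : ℕ) {I : α → In} (hI : PTF I) : PTF (fun a => sat k (I a)) :=
  (ptf_sat0 k).comp hI

@[fun_prop]
theorem ptf_fin {I : α → In} {F : α → Ft} (hI : PTF I) (hF : PTF F) :
    PTF (fun a => fin (I a) (F a)) := by
  unfold fin
  fun_prop

@[fun_prop]
theorem ptf_lay (k : ℕ) {I : α → In} (hI : PTF I) : PTF (fun a => lay k (I a)) := by
  unfold lay
  fun_prop

end Pool.Agent.Work.MP_c6c039_lc.CL
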