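import Pool.Agent.Work.MP_c6c039_lc.CL.StmtsW

/-!
# Block CL, item Ap: a nonnegative symmetric weight of the triangles is zero
-/

set_option autoImplicit false

namespace Pool.Agent.Work.MP_c6c039_lc.CL

open Pool.Agent.Work.MP_c6c039_lc.FP Pool.Agent.Work.MP_c6c039_lc.NC

namespace IAp

open Classical in
/-- the apex over a segment -/
noncomputable def ap (I : In) (E : ℕ → ℕ → Prop) (p : ℕ × ℕ) : ℕ :=
  if h : ∃ c, Tr I E p.1 p.2 c then h.choose else 0

/-- the rotation -/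
noncomputable def ro (I : In) (E : ℕ → ℕ → Prop) (p : ℕ × ℕ) : ℕ × ℕ := (p.2, ap I E p)

open Classical in
/-- the segments with a triangle on the left -/
noncomputable def PT (I : In) (E : ℕ → ℕ → Prop) : Finset (ℕ × ℕ) :=
  (Finset.range (nn I) ×ˢ Finset.range (nn I)).filter fun p => ∃ c, Tr I E p.1 p.2 c

theorem ap_spec {I : In} {E : ℕ → ℕ → Prop} {p : ℕ × ℕ} (h : ∃ c, Tr I E p.1 p.2 c) :
    Tr I E p.1 p.2 (ap I E p) := by
  unfold ap
  rw [dif_pos h]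
  exact h.choose_spec

open Classical in
theorem mem_PT {I : In} {E : ℕ → ℕ → Prop} (hM : Mx I E) {p : ℕ × ℕ} :
    p ∈ PT I E ↔ ∃ c, Tr I E p.1 p.2 c := by
  unfold PT
  rw [Finset.mem_filter, Finset.mem_product, Finset.mem_range, Finset.mem_range]
  constructor
  · exact fun h => h.2
  · intro h
    obtain ⟨c, hc⟩ := h
    exact ⟨⟨(hM.lt _ _ hc.e1).1, (hM.lt _ _ hc.e1).2.1⟩, c, hc⟩

section
variable {I : In} {E : ℕ → ℕ → Prop}
  (hu1 : ∀ a b c, Tr I E a b c → Tr I E b c a)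
  (hu2 : ∀ a b c c', Tr I E a b c → Tr I E a b c' → c = c') (hM : Mx I E)

include hu1 hM in
theorem ro_mem {p : ℕ × ℕ} (hp : p ∈ PT I E) : ro I E p ∈ PT I E := by
  rw [mem_PT hM] at hp ⊢
  exact ⟨p.1, hu1 _ _ _ (ap_spec hp)⟩

include hu1 hu2 hM in
theorem ap_ro {p : ℕ × ℕ} (hp : p ∈ PT I E) : ap I E (ro I E p) = p.1 := by
  have h1 := (mem_PT hM).1 (ro_mem hu1 hM hp)
  have h2 := ap_spec h1
  have h3 := hu1 _ _ _ (ap_spec ((mem_PT hM).1 hp))
  exact hu2 _ _ _ _ h2 h3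

include hu1 hu2 hM in
theorem ro3 {p : ℕ × ℕ} (hp : p ∈ PT I E) : ro I E (ro I E (ro I E p)) = p := by
  have h1 := ap_ro hu1 hu2 hM hp
  have h2 := ap_ro hu1 hu2 hM (ro_mem hu1 hM hp)
  have e : ro I E (ro I E (ro I E p)) =
      (ap I E (ro I E p), ap I E (ro I E (ro I E p))) := rfl
  rw [e, h1, h2]
  rfl

include hu1 hu2 hM in
theorem sum_ro (f : ℕ × ℕ → ℝ) : ∑ p ∈ PT I E, f (ro I E p) = ∑ p ∈ PT I E, f p :=
  Finset.sum_nbij' (fun p => ro I E p) (fun p => ro I E (ro I E p))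
    (fun _ hp => ro_mem hu1 hM hp) (fun _ hp => ro_mem hu1 hM (ro_mem hu1 hM hp))
    (fun _ hp => ro3 hu1 hu2 hM hp) (fun _ hp => ro3 hu1 hu2 hM hp) (fun _ _ => rfl)

end

end IAp

open IAp in
theorem pr_Ap (hUq : St_Uq) : St_Ap := by
  classical
  intro I hR E hM w hw h0 hs x y
  obtain ⟨hu1, hu2⟩ := hUq I hR E hM
  obtain ⟨X, Y, hpos, -⟩ := hR
  by_cases hxy : ∃ c, Tr I E x y c
  swap
  · exact hw.out x y hxy
  obtain ⟨α, hα⟩ : ∃ α : ℕ × ℕ → ℝ, ∀ p, α p = X p.1 * Y p.2 - X p.2 * Y p.1 :=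
    ⟨fun p => X p.1 * Y p.2 - X p.2 * Y p.1, fun _ => rfl⟩
  obtain ⟨W, hW⟩ : ∃ W : ℕ × ℕ → ℝ, ∀ p, W p = (w p.1 p.2 : ℝ) :=
    ⟨fun p => (w p.1 p.2 : ℝ), fun _ => rfl⟩
  -- the sum is zero
  have hS0 : ∑ p ∈ Finset.range (nn I) ×ˢ Finset.range (nn I), W p * α p = 0 := by
    have h1 : ∑ p ∈ Finset.range (nn I) ×ˢ Finset.range (nn I), W p * α p =
        ∑ p ∈ Finset.range (nn I) ×ˢ Finset.range (nn I), W p.swap * α p.swap := by
      rw [Finset.sum_product, Finset.sum_product, Finset.sum_comm]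
      rfl
    have h2 : ∑ p ∈ Finset.range (nn I) ×ˢ Finset.range (nn I), W p.swap * α p.swap =
        - ∑ p ∈ Finset.range (nn I) ×ˢ Finset.range (nn I), W p * α p := by
      rw [← Finset.sum_neg_distrib]
      refine Finset.sum_congr rfl fun p _ => ?_
      rw [hW, hW, hα, hα, Prod.fst_swap, Prod.snd_swap, hs p.2 p.1]
      ring
    linarith [h1.trans h2]
  have hS : ∑ p ∈ PT I E, W p * α p = 0 := by
    rw [← hS0]
    unfold PT
    rw [Finset.sum_filter]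
    refine Finset.sum_congr rfl fun p _ => ?_
    by_cases h : ∃ c, Tr I E p.1 p.2 c
    · rw [if_pos h]
    · rw [if_neg h, hW, hw.out _ _ h, Int.cast_zero, zero_mul]
  have hWr : ∀ p ∈ PT I E, W (ro I E p) = W p := by
    intro p hp
    rw [hW, hW]
    have h1 := hw.rot _ _ _ (ap_spec ((mem_PT hM).1 hp))
    rw [h1]
    rfl
  have hS1 : ∑ p ∈ PT I E, W p * α (ro I E p) = 0 := by
    rw [← hS, ← sum_ro hu1 hu2 hM fun p => W p * α p]
    refine Finset.sum_congr rfl fun p hp => ?_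
    rw [hWr p hp]
  have hS2 : ∑ p ∈ PT I E, W p * α (ro I E (ro I E p)) = 0 := by
    rw [← hS1, ← sum_ro hu1 hu2 hM fun p => W p * α (ro I E p)]
    refine Finset.sum_congr rfl fun p hp => ?_
    rw [hWr p hp]
  have har : ∀ p ∈ PT I E, 0 < α p + α (ro I E p) + α (ro I E (ro I E p)) := by
    intro p hp
    have ht := ap_spec ((mem_PT hM).1 hp)
    have h1 := (hpos p.1 p.2 (ap I E p) (hM.lt _ _ ht.e1).1 (hM.lt _ _ ht.e1).2.1
      (hM.lt _ _ ht.e2).2.1).1 ht.pos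
    have h2 : ro I E (ro I E p) = (ap I E p, p.1) := by
      have h3 := ap_ro hu1 hu2 hM hp
      have e : ro I E (ro I E p) = (ap I E p, ap I E (ro I E p)) := rfl
      rw [e, h3]
    have h3 : ro I E p = (p.2, ap I E p) := rfl
    rw [h2, h3, hα, hα, hα]
    unfold ar at h1
    nlinarith [h1]
  have hsum : ∑ p ∈ PT I E, W p * (α p + α (ro I E p) + α (ro I E (ro I E p))) = 0 := by
    have e : ∑ p ∈ PT I E, W p * (α p + α (ro I E p) + α (ro I E (ro I E p))) =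
        ∑ p ∈ PT I E, W p * α p + ∑ p ∈ PT I E, W p * α (ro I E p) +
          ∑ p ∈ PT I E, W p * α (ro I E (ro I E p)) := by
      rw [← Finset.sum_add_distrib, ← Finset.sum_add_distrib]
      refine Finset.sum_congr rfl fun p _ => ?_
      ring
    rw [e, hS, hS1, hS2]
    norm_num
  have hW0 : ∀ p, 0 ≤ W p := by
    intro p
    rw [hW]
    exact_mod_cast h0 p.1 p.2
  have hall := (Finset.sum_eq_zero_iff_of_nonneg fun p hp =>
    mul_nonneg (hW0 p) (har p hp).le).1 hsum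
  have hxyP : (x, y) ∈ PT I E := (mem_PT hM).2 hxy
  have h1 := hall (x, y) hxyP
  rcases mul_eq_zero.1 h1 with h | h
  · rw [hW] at h
    exact_mod_cast h
  · exact absurd h (har _ hxyP).ne'

end Pool.Agent.Work.MP_c6c039_lc.CL
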