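import Pool.Agent.Work.MP_c6c039_lc.CL.StmtsL

/-!
# Item At of block CL: the true facts are in the list of all facts
-/

set_option autoImplicit false

namespace Pool.Agent.Work.MP_c6c039_lc.CL

open Pool.Agent.Work.MP_c6c039_lc.FP Pool.Agent.Work.MP_c6c039_lc.NC

namespace IAt

theorem route (hAl : NC.St_Al) (hRt : St_Rt) (hLa : St_La) {I : In} {E : ℕ → ℕ → Prop}
    {par ly : ℕ → ℕ} {k : ℕ} {l : List ℕ} (hP : PX I E par ly k l) {x : ℕ} (hx : x < nn I) :
    lr l (rl I par k x) ∈ allL k (List.product (List.range (nn I)) (List.range (nn I + 1))) := by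
  obtain ⟨_, _, h1, _, h2, _⟩ := hRt I E par ly k hP.cx x hx
  rw [hAl]
  constructor
  · unfold lr
    rw [List.length_map]
    exact h1
  · intro a ha
    obtain ⟨v, hv, rfl⟩ := List.mem_map.mp ha
    have h3 := h2 v hv
    have h4 := (hLa I E par ly k l hP).1 v h3
    refine List.mem_product.mpr ⟨List.mem_range.mpr h3, List.mem_range.mpr ?_⟩
    exact Nat.lt_succ_of_le h4.2.1

theorem len (hRt : St_Rt) {I : In} {E : ℕ → ℕ → Prop} {par ly : ℕ → ℕ} {k : ℕ} {l : List ℕ}
    (hP : PX I E par ly k l) {u v : ℕ} (hu : u < nn I) (hv : v < nn I) :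
    (mk (sg I par k l u v)).length ≤ 2 * k + 1 := by
  have h1 := (hRt I E par ly k hP.cx u hu).2.2.1
  have h2 := (hRt I E par ly k hP.cx v hv).2.2.1
  have h3 : (mk (sg I par k l u v)).length =
      (rl I par k u).length + (rl I par k v).length + 1 := by
    unfold mk lb sg lr
    rw [List.length_cons, List.length_map, List.length_append, List.length_map, List.length_map]
  omega

end IAt

theorem pr_At (hAl : NC.St_Al) (hRt : St_Rt) (hLa : St_La) : St_At := by
  intro I E par ly k l hP w u v hu hv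
  unfold tf allT
  refine List.mem_product.mpr ⟨IAt.route hAl hRt hLa hP hu,
    List.mem_product.mpr ⟨IAt.route hAl hRt hLa hP hv, ?_⟩⟩
  rw [hAl]
  have h1 : ∀ p ∈ jt I E par k l w u v, p ∈ List.range (nn I + 1) ∧
      p ∈ mk (sg I par k l u v) := by
    classical
    intro p hp
    unfold jt at hp
    rw [List.mem_filter, decide_eq_true_iff] at hp
    exact ⟨hp.1, hp.2.1⟩
  refine ⟨?_, fun p hp => (h1 p hp).1⟩
  have h2 : (jt I E par k l w u v).Nodup := by
    unfold jt
    exact List.nodup_range.filter _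
  exact (List.subperm_of_subset h2 fun p hp => (h1 p hp).2).length_le.trans (IAt.len hRt hP hu hv)

end Pool.Agent.Work.MP_c6c039_lc.CL
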