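import Pool.Agent.Work.MP_c6c039_lc.CL.StmtsL

/-!
# Block CL, item Bt: the empty region
-/

set_option autoImplicit false

namespace Pool.Agent.Work.MP_c6c039_lc.CL

open Pool.Agent.Work.MP_c6c039_lc.FP Pool.Agent.Work.MP_c6c039_lc.NC

namespace IBt

/-- A step of a route: a step of the tree, or an edge of the hull. -/
theorem step (hSy : FP.St_Sy) (hHl : FP.St_Hl) (hRt : St_Rt) (I : In) (E : ℕ → ℕ → Prop)
    (par ly : ℕ → ℕ) (k : ℕ) (hC : Cx I E par ly k) (u v : ℕ) (hu : u < nn I) (hv : v < nn I)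
    (hne : u ≠ hp I 0) (hpf : v = pf I par u) :
    rl I par k u = u :: rl I par k v ∨
      (rl I par k u = [u] ∧ rl I par k v = [v] ∧
        ∃ i, i < mm I - 1 ∧ u = hp I (i + 1) ∧ v = hp I i) := by
  obtain ⟨-, hmem, -⟩ := hHl I (hSy I hC.good.real) hC.good.hull
  rcases hext : ext I u with _ | _
  · left
    have h1 := (hRt I E par ly k hC u hu).2.1 hext
    have h2 : pf I par u = par u := by
      unfold pf
      rw [if_neg (by rw [hext]; simp)]
    rw [h1, hpf, h2]
  · right
    have hpv : v = hp I (px (FP.hu I) u - 1) := by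
      rw [hpf]
      unfold pf
      rw [if_pos hext]
    have huh : u ∈ FP.hu I := (hmem u).2 ⟨hu, hext⟩
    have hj : px (FP.hu I) u < mm I := List.idxOf_lt_length_of_mem huh
    have hget : hp I (px (FP.hu I) u) = u := by
      unfold hp
      rw [Nat.mod_eq_of_lt hj]
      have hj' : px (FP.hu I) u < (FP.hu I).length := hj
      rw [List.getD_eq_getElem _ _ hj']
      exact List.getElem_idxOf hj'
    have hj0 : px (FP.hu I) u ≠ 0 := by
      intro h0
      rw [h0] at hget
      exact hne hget.symm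
    have hvh : v ∈ FP.hu I := by
      rw [hpv]
      unfold hp
      have hlt : px (FP.hu I) u - 1 < mm I := by omega
      rw [Nat.mod_eq_of_lt hlt]
      have hlt' : px (FP.hu I) u - 1 < (FP.hu I).length := hlt
      rw [List.getD_eq_getElem _ _ hlt']
      exact List.getElem_mem _
    refine ⟨(hRt I E par ly k hC u hu).1 hext,
      (hRt I E par ly k hC v hv).1 ((hmem v).1 hvh).2, px (FP.hu I) u - 1, by omega, ?_, hpv⟩
    rw [Nat.sub_add_cancel (by omega)]
    exact hget.symm

end IBt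

/-- Bt. -/
theorem pr_Bt (hSy : FP.St_Sy) (hHl : FP.St_Hl) (hLx : St_Lx) (hRt : St_Rt) (hKv : St_Kv)
    (hLb : St_Lb) : St_Bt := by
  classical
  intro I E par ly k l hPX w u v hRG hw
  have hC := hPX.cx
  obtain ⟨hu, hv, huv⟩ := hC.mx.lt u v hRG.e
  have hst : (u ≠ hp I 0 ∧ v = pf I par u) ∨ (v ≠ hp I 0 ∧ u = pf I par v) := by
    by_contra hcon
    rw [not_or] at hcon
    have h1 := (hKv I E par ly k hC).2.2 u v hu hv huv hcon.1 hcon.2
    have h2 := hRG.bdy u v
    rw [hw, hw, h1] at h2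
    norm_num at h2
  have hjt : jt I E par k l w u v = [] := by
    unfold jt
    rw [List.filter_eq_nil_iff]
    intro p _ hp
    obtain ⟨-, ⟨i, h1, h2, h3, h4⟩, h5⟩ := of_decide_eq_true hp
    have h6 := h5 i h1 h2 h3 h4
    rcases (hLx I hC.good.real E hC.mx _ _ h6.1).2 hC.n3 with ⟨c, hc⟩ | ⟨c, hc⟩
    · have := h6.2.2.2.1 c hc
      rw [hw] at this
      norm_num at this
    · have := h6.2.2.2.2 c hc
      rw [hw] at this
      norm_num at this
  obtain ⟨hb1, hb2, hb3, hb4⟩ := hLb I E par ly k l hPX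
  have hcons : cons I (lr l (rl I par k u) ++ lr l (rl I par k v)) = true := by
    rw [← hb2]
    refine (hb3 _ ?_).1
    intro a ha
    rcases List.mem_append.1 ha with h | h
    · exact (hRt I E par ly k hC u hu).2.2.2.2.1 a h
    · exact (hRt I E par ly k hC v hv).2.2.2.2.1 a h
  unfold bas tf bg
  simp only [Bool.and_eq_true]
  refine ⟨⟨hb4 u hu, hb4 v hv, hcons⟩, ?_, ?_⟩
  · rw [hjt]
    rfl
  · simp only [Bool.or_eq_true, decide_eq_true_eq, Bool.and_eq_true, List.any_eq_true,
      List.mem_range, beq_iff_eq]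
    rcases hst with ⟨h1, h2⟩ | ⟨h1, h2⟩
    · rcases IBt.step hSy hHl hRt I E par ly k hC u v hu hv h1 h2 with h3 | ⟨h3, h4, i, h5, h6, h7⟩
      · left
        rw [h3]
        rfl
      · right
        right
        refine ⟨⟨by rw [h3]; rfl, by rw [h4]; rfl⟩, i, h5, Or.inr ⟨?_, ?_⟩⟩
        · rw [(hb1 _).2, h3]
          exact h6
        · rw [(hb1 _).2, h4]
          exact h7
    · rcases IBt.step hSy hHl hRt I E par ly k hC v u hv hu h1 h2 with h3 | ⟨h3, h4, i, h5, h6, h7⟩
      · right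
        left
        rw [h3]
        rfl
      · right
        right
        refine ⟨⟨by rw [h4]; rfl, by rw [h3]; rfl⟩, i, h5, Or.inl ⟨?_, ?_⟩⟩
        · rw [(hb1 _).2, h4]
          exact h7
        · rw [(hb1 _).2, h3]
          exact h6

end Pool.Agent.Work.MP_c6c039_lc.CL
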