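import Pool.Agent.Work.MP_c6c039_lc.CL.StmtsS

/-!
# Block CL, item Ca: the new gaps
-/

set_option autoImplicit false

namespace Pool.Agent.Work.MP_c6c039_lc.CL

open Pool.Agent.PT Pool.Agent.Work.MP_c6c039_lc.FP Pool.Agent.Work.MP_c6c039_lc.NC

namespace ICa

theorem mem_ed {α : Type} (l : List α) (i : ℕ) (h : i + 1 < l.length) :
    (l[i], l[i + 1]) ∈ ed l := by
  unfold ed
  rw [List.mem_iff_getElem]
  refine ⟨i, ?_, ?_⟩
  · rw [List.length_zip, List.length_tail]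
    omega
  · rw [List.getElem_zip, List.getElem_tail]

theorem AD_mono {I : In} {T T' : List (ℕ × (ℕ × ℕ))} {x y : ℕ} (h : ∀ t ∈ T, t ∈ T')
    (hA : AD I T x y) : AD I T' x y :=
  ⟨hA.1, hA.2.imp fun t ht => ⟨h t ht.1, ht.2⟩⟩

/-- the unfolded condition -/
theorem cmt_un {I : In} {A B C : Rt} {J JA JB : List ℕ} (h : cmt I A B C J JA JB = true) :
    (rv I A = true ∧ rv I C = true ∧ cons I (A ++ (B ++ C)) = true) ∧
    (∀ p ∈ JA, nxt I (A ++ C) p = nxt I (A ++ (B ++ C)) p) ∧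
    (∀ p ∈ JB, nxt I (C ++ B) p = nxt I (A ++ (B ++ C)) p) ∧
    (∀ p ∈ J, p ∈ mk (A ++ B)) ∧
    ∀ p ∈ J, ∀ r ∈ mk (A ++ (B ++ C)), r < p ∨ nxt I (A ++ B) p ≤ r ∨
      rz I A B C JA JB r = true := by
  unfold cmt at h
  simp only [Bool.and_eq_true, List.all_eq_true, decide_eq_true_eq, beq_iff_eq,
    Bool.not_eq_true', decide_eq_false_iff_not] at h
  obtain ⟨⟨⟨hA, hB, hC, hco⟩, -⟩, ⟨hJA, hJB⟩, hJ, hmk⟩ := h
  refine ⟨⟨hA, hC, hco⟩, fun p hp => (hJA p hp).2.1, fun p hp => (hJB p hp).2, hJ, ?_⟩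
  intro p hp r hr
  have h1 := hmk p (hJ p hp)
  rw [if_pos hp, List.all_eq_true] at h1
  have h2 := h1 r hr
  rw [Bool.or_eq_true, Bool.or_eq_true, decide_eq_true_eq, decide_eq_true_eq] at h2
  exact h2

theorem es_un {A B C : Rt} {x y : ℕ} (h : es A B C x y = true) :
    (x = hd A ∧ y = hd C) ∨ (x = hd C ∧ y = hd B) ∨ ((x, y) ∈ ed (vs C) ∧ x ∉ vs A) := by
  unfold es at h
  rw [Bool.or_eq_true, Bool.or_eq_true] at h
  rcases h with h | h | h
  · rw [Bool.and_eq_true, beq_iff_eq, beq_iff_eq] at h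
    exact Or.inl h
  · rw [Bool.and_eq_true, beq_iff_eq, beq_iff_eq] at h
    exact Or.inr (Or.inl h)
  · rw [Bool.and_eq_true, Bool.and_eq_true, List.any_eq_true] at h
    obtain ⟨⟨i, hi, h1⟩, h2, -⟩ := h
    rw [Bool.and_eq_true, beq_iff_eq, beq_iff_eq] at h1
    rw [List.mem_range] at hi
    have hl : i + 1 < (vs C).length := by
      unfold vs
      rw [List.length_map]
      omega
    refine Or.inr (Or.inr ⟨?_, ?_⟩)
    · have h3 := mem_ed (vs C) i hl
      rw [List.getD_eq_getElem _ _ (by omega), List.getD_eq_getElem _ _ hl] at h1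
      rw [h1.1, h1.2] at h3
      exact h3
    · simpa using h2

theorem side {I : In} (hI : Good I) (hKc : St_Kc) (hEr : St_Er) {A B C : Rt}
    {T1 T2 : List (ℕ × (ℕ × ℕ))} (hA : rv I A = true) (hC : rv I C = true)
    (hb : ∀ x y, bd T1 x y = kp I (vs A) (vs C) x y) {x y : ℕ} (h : es A B C x y = true) :
    ∃ t ∈ (hd A, (hd B, hd C)) :: (T1 ++ T2), (x, y) ∈ sl t ∨ (y, x) ∈ sl t := by
  have h0 : (hd A, (hd B, hd C)) ∈ (hd A, (hd B, hd C)) :: (T1 ++ T2) := List.mem_cons_self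
  have hs : sl (hd A, (hd B, hd C)) = [(hd A, hd B), (hd B, hd C), (hd C, hd A)] := rfl
  rcases es_un h with ⟨h1, h2⟩ | ⟨h1, h2⟩ | ⟨h1, h2⟩
  · refine ⟨_, h0, Or.inr ?_⟩
    rw [hs, h1, h2]
    simp
  · refine ⟨_, h0, Or.inr ?_⟩
    rw [hs, h1, h2]
    simp
  · rcases hEr I hI A C hA hC x y h1 h2 with ⟨h3, -⟩ | ⟨h3, h4⟩
    · rw [← hb] at h3
      obtain ⟨t, ht, h4⟩ := hKc.2.2 T1 x y h3
      exact ⟨t, List.mem_cons_of_mem _ (List.mem_append_left _ ht), h4⟩
    · refine ⟨_, h0, Or.inl ?_⟩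
      rw [hs, h3, h4]
      simp

theorem lo_un {I : In} {A B C : Rt} {p : ℕ} (h : lo I A B C p = true) :
    nxt I (A ++ (B ++ C)) p = p + 1 ∧ (p = 0 ∨ p = nn I ∨
      (co I (vt (A ++ (B ++ C)) p) ≠ co I (vt (A ++ (B ++ C)) (p + 1)) ∧
        (es A B C (vt (A ++ (B ++ C)) p) (vt (A ++ (B ++ C)) (p + 1)) = true ∨
          es A B C (vt (A ++ (B ++ C)) (p + 1)) (vt (A ++ (B ++ C)) p) = true))) := by
  unfold lo at h
  rw [Bool.and_eq_true, beq_iff_eq, Bool.or_eq_true, Bool.or_eq_true, beq_iff_eq, beq_iff_eq,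
    Bool.and_eq_true, Bool.or_eq_true] at h
  refine ⟨h.1, ?_⟩
  rcases h.2 with h | h | h
  · exact Or.inl h
  · exact Or.inr (Or.inl h)
  · refine Or.inr (Or.inr ⟨?_, h.2⟩)
    simpa using h.1

end ICa

open ICa in
theorem pr_Ca (hNx : St_Nx) (hKc : St_Kc) (hEr : St_Er) (hGa : St_Ga) : St_Ca := by
  rintro I hI ⟨A, B, J⟩ ⟨A', C', JA⟩ ⟨C, B', JB⟩ T1 T2 g1 g2 hcmb hG hH p hp i hpi hip h0 hn
  unfold cmb at hcmb
  rw [Bool.and_eq_true, Bool.and_eq_true, Bool.and_eq_true, decide_eq_true_eq,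
    decide_eq_true_eq, decide_eq_true_eq] at hcmb
  obtain ⟨⟨hAA, hBB, hCC⟩, hcmt⟩ := hcmb
  change A = A' at hAA
  change B = B' at hBB
  change C' = C at hCC
  change cmt I A B C J JA JB = true at hcmt
  change p ∈ J at hp
  change i < nxt I (A ++ B) p at hip
  subst hAA hBB hCC
  show AD I ((hd A, (hd B, hd C')) :: (T1 ++ T2)) (gc I A B C' JA g1 g2 i)
    (gc I A B C' JA g1 g2 (i + 1))
  obtain ⟨⟨hrA, hrC, hcons⟩, hJA, hJB, hJ, hrz⟩ := cmt_un hcmt
  obtain ⟨ga1, ga2, ga3⟩ := hGa I A B C' J JA JB g1 g2 hcmt hG.lab hH.lab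
  obtain ⟨-, nx2, nx3, -, nx5, -⟩ := hNx I (A ++ (B ++ C'))
  obtain ⟨r, hr, hri, hir⟩ := nx5 i hn.le
  have hpr : p ≤ r := by
    by_contra hlt
    push Not at hlt
    have h1 : p ∈ lb (A ++ (B ++ C')) := by
      have h2 := hJ p hp
      unfold mk at h2
      rcases List.mem_cons.1 h2 with h3 | h3
      · omega
      · unfold lb at h3 ⊢
        rw [List.map_append, List.mem_append] at h3
        rw [List.map_append, List.map_append, List.mem_append, List.mem_append]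
        tauto
    have h4 := nx3 r p h1 (by omega) hlt
    omega
  have hz : rz I A B C' JA JB r = true := by
    rcases hrz p hp r hr with h | h | h
    · omega
    · omega
    · exact h
  unfold rz at hz
  rw [Bool.or_eq_true, Bool.or_eq_true, decide_eq_true_eq, decide_eq_true_eq] at hz
  rcases hz with hz | hz | hz
  · have h1 := hG.adj r hz i hri (by
      show i < nxt I (A ++ C') r
      rw [hJA r hz]
      exact hir) h0 hn
    rw [ga1 r hz i hri hir.le h0 hn.le, ga1 r hz (i + 1) (by omega) (by omega) (by omega) (by omega)]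
    exact AD_mono (fun t ht => List.mem_cons_of_mem _ (List.mem_append_left _ ht)) h1
  · have h1 := hH.adj r hz i hri (by
      show i < nxt I (C' ++ B) r
      rw [hJB r hz]
      exact hir) h0 hn
    rw [ga2 r hz i hri hir.le h0 hn.le, ga2 r hz (i + 1) (by omega) (by omega) (by omega) (by omega)]
    exact AD_mono (fun t ht => List.mem_cons_of_mem _ (List.mem_append_right _ ht)) h1
  · obtain ⟨h1, h2⟩ := lo_un hz
    have hir' : i = r := by omega
    subst hir'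
    have h3 : co I (vt (A ++ (B ++ C')) i) ≠ co I (vt (A ++ (B ++ C')) (i + 1)) ∧
        (es A B C' (vt (A ++ (B ++ C')) i) (vt (A ++ (B ++ C')) (i + 1)) = true ∨
          es A B C' (vt (A ++ (B ++ C')) (i + 1)) (vt (A ++ (B ++ C')) i) = true) := by
      rcases h2 with h2 | h2 | h2
      · omega
      · omega
      · exact h2
    have hl1 : i ∈ lb (A ++ (B ++ C')) := by
      unfold mk at hr
      rcases List.mem_cons.1 hr with h | h
      · omega
      · exact h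
    have hl2 : i + 1 ∈ lb (A ++ (B ++ C')) := by
      rcases nx2 i with h | h
      · omega
      · rw [h1] at h
        exact h
    have e1 : gc I A B C' JA g1 g2 i = vt (A ++ (B ++ C')) i := by
      unfold gc
      rw [if_pos hl1]
    have e2 : gc I A B C' JA g1 g2 (i + 1) = vt (A ++ (B ++ C')) (i + 1) := by
      unfold gc
      rw [if_pos hl2]
    rw [e1, e2]
    refine ⟨h3.1, ?_⟩
    rcases h3.2 with h | h
    · exact side hI hKc hEr hrA hrC hG.bdy h
    · obtain ⟨t, ht, h5⟩ := side (T2 := T2) hI hKc hEr hrA hrC hG.bdy h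
      exact ⟨t, ht, h5.symm⟩

end Pool.Agent.Work.MP_c6c039_lc.CL
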