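import Pool.Agent.Work.MP_c6c039_lc.CL.StmtsS

/-!
# Block CL, item Cb (helper58): one step of the derivation
-/

set_option autoImplicit false

namespace Pool.Agent.Work.MP_c6c039_lc.CL

open Pool.Agent.Work.MP_c6c039_lc.FP Pool.Agent.Work.MP_c6c039_lc.NC

namespace ICb

/-- the head of a route is a vertex with a label -/
theorem hd_mem (I : In) (A : Rt) (h : rv I A = true) : ∃ x ∈ A, x.1 = hd A := by
  cases A with
  | nil => simp [rv] at h
  | cons a l => exact ⟨a, by simp, by simp [hd, vs]⟩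

theorem facts (I : In) (A B C : Rt) (J JA JB : List ℕ) (h : cmt I A B C J JA JB = true) :
    rv I A = true ∧ rv I B = true ∧ rv I C = true ∧ cons I (A ++ (B ++ C)) = true ∧
    chi I (hd A) (hd B) (hd C) = true ∧
    (∀ x, x < nn I → x ≠ hd A → x ≠ hd B → x ≠ hd C → inT I (hd A) (hd B) (hd C) x = false) ∧
    (∀ p ∈ J, p ∈ mk (A ++ B)) := by
  unfold cmt at h
  simp only [Bool.and_eq_true] at h
  obtain ⟨⟨⟨h1, h2, h3, h4⟩, h5, h6⟩, ⟨_, _⟩, h7, _⟩ := h
  refine ⟨h1, h2, h3, h4, h5, ?_, ?_⟩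
  · intro x hx xa xb xc
    rw [List.all_eq_true] at h6
    have := h6 x (List.mem_range.2 hx)
    simpa [xa, xb, xc] using this
  · intro p hp
    rw [List.all_eq_true] at h7
    simpa using h7 p hp

end ICb

open ICb in
theorem pr_Cb (hVt : St_Vt) (hKc : St_Kc) (hGa : St_Ga) (hCa : St_Ca) (hCc : St_Cc) : St_Cb := by
  intro I hI F G H T1 T2 g1 g2 hc sG sH
  have hc0 := hc
  unfold cmb at hc
  simp only [Bool.and_eq_true, decide_eq_true_eq] at hc
  obtain ⟨⟨e1, e2, e3⟩, hm⟩ := hc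
  obtain ⟨r1, r2, r3, hcs, hpos, hemp, hjm⟩ := facts I _ _ _ _ _ _ hm
  obtain ⟨v1, v2, v3⟩ := hVt I _ hcs
  have bgG : bg G = F.1 ++ H.1 := by rw [bg, e3, ← e1]
  have bgH : bg H = H.1 ++ F.2.1 := by rw [bg, ← e2]
  obtain ⟨ga1, ga2, ga3⟩ := hGa I F.1 F.2.1 H.1 F.2.2 G.2.2 H.2.2 g1 g2 hm
    (fun x hx => sG.lab x (by rw [bgG]; exact hx)) (fun x hx => sH.lab x (by rw [bgH]; exact hx))
  have ltA : hd F.1 < nn I := by
    obtain ⟨x, hx, h⟩ := hd_mem I _ r1
    rw [← h]; exact (v1 x (by simp [hx])).1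
  have ltB : hd F.2.1 < nn I := by
    obtain ⟨x, hx, h⟩ := hd_mem I _ r2
    rw [← h]; exact (v1 x (by simp [hx])).1
  have ltC : hd H.1 < nn I := by
    obtain ⟨x, hx, h⟩ := hd_mem I _ r3
    rw [← h]; exact (v1 x (by simp [hx])).1
  refine ⟨(hd F.1, (hd F.2.1, hd H.1)) :: (T1 ++ T2), gc I F.1 F.2.1 H.1 G.2.2 g1 g2,
    { r1 := r1, r2 := r2, cs := v3 _ ?_, tr := ?_, bdy := ?_, jm := hjm, lab := ?_,
      adj := hCa I hI F G H T1 T2 g1 g2 hc0 sG sH, cov := hCc I F G H T1 T2 g1 g2 hc0 sG sH }⟩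
  · intro x hx
    rw [bg, List.mem_append] at hx
    simp only [List.mem_append]
    tauto
  · intro t ht
    rcases List.mem_cons.1 ht with rfl | ht
    · refine ⟨⟨ltA, ltB, ltC⟩, hpos, ?_⟩
      intro x hx
      obtain ⟨hn, hl⟩ := hx
      simp only [List.nodup_cons, List.mem_cons, List.not_mem_nil, or_false, not_or] at hn
      exact hemp x (hl x (by simp)) (fun h => hn.1.2.2 h.symm) (fun h => hn.2.1.2 h.symm)
        (fun h => hn.2.2.1 h.symm)
    · rcases List.mem_append.1 ht with ht | ht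
      · exact sG.tr t ht
      · exact sH.tr t ht
  · intro x y
    have b1 := sG.bdy x y
    have b2 := sH.bdy x y
    rw [e3, ← e1] at b1
    rw [← e2] at b2
    have k := hKc.1 I (vs F.1) (vs F.2.1) (vs H.1) x y
    have a1 := hKc.2.1 T1 T2 x y
    have a0 : bd ((hd F.1, (hd F.2.1, hd H.1)) :: (T1 ++ T2)) x y =
        (dl (hd F.1) (hd F.2.1) x y + (dl (hd F.2.1) (hd H.1) x y + dl (hd H.1) (hd F.1) x y)) +
          bd (T1 ++ T2) x y := by
      simp [bd]
    rw [a0, a1, b1, b2, k]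
    rfl
  · intro x hx
    refine ga3 x ?_
    rw [bg, List.mem_append] at hx
    simp only [List.mem_append]
    tauto

end Pool.Agent.Work.MP_c6c039_lc.CL
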