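import Pool.Agent.Work.MP_c6c039_lc.CL.StmtsS

/-!
# Block CL, item Cc: the new vertices
-/

set_option autoImplicit false

namespace Pool.Agent.Work.MP_c6c039_lc.CL

open Pool.Agent.Work.MP_c6c039_lc.FP Pool.Agent.Work.MP_c6c039_lc.NC

namespace ICc

/-- what is used of `cmt` -/
structure CM (I : In) (A B C : Rt) (J JA JB : List ℕ) : Prop where
  ra : rv I A = true
  rb : rv I B = true
  rc : rv I C = true
  cs : cons I (A ++ (B ++ C)) = true
  ja : ∀ p ∈ JA, p ∈ mk (A ++ C) ∧ nxt I (A ++ C) p = nxt I (A ++ (B ++ C)) p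
  jb : ∀ p ∈ JB, p ∈ mk (C ++ B) ∧ nxt I (C ++ B) p = nxt I (A ++ (B ++ C)) p
  nj : ∀ p ∈ mk (A ++ B), p ∉ J → nxt I (A ++ (B ++ C)) p = nxt I (A ++ B) p ∧ p ∉ JA ∧ p ∉ JB

theorem cm {I : In} {A B C : Rt} {J JA JB : List ℕ} (h : cmt I A B C J JA JB = true) :
    CM I A B C J JA JB := by
  unfold cmt at h
  rw [Bool.and_eq_true] at h
  obtain ⟨h1, h2⟩ := h
  rw [Bool.and_eq_true] at h1 h2
  obtain ⟨h1, _⟩ := h1
  obtain ⟨h2, h3⟩ := h2
  rw [Bool.and_eq_true, Bool.and_eq_true, Bool.and_eq_true] at h1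
  rw [Bool.and_eq_true, List.all_eq_true, List.all_eq_true] at h2 h3
  refine ⟨h1.1, h1.2.1, h1.2.2.1, h1.2.2.2, fun p hp => ?_, fun p hp => ?_, fun p hp hpJ => ?_⟩
  · have := h2.1 p hp
    rw [Bool.and_eq_true, Bool.and_eq_true, decide_eq_true_iff, beq_iff_eq] at this
    exact ⟨this.1, this.2.1⟩
  · have := h2.2 p hp
    rw [Bool.and_eq_true, decide_eq_true_iff, beq_iff_eq] at this
    exact this
  · have := h3.2 p hp
    rw [if_neg hpJ, Bool.and_eq_true, Bool.and_eq_true, beq_iff_eq, Bool.not_eq_true',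
      Bool.not_eq_true', decide_eq_false_iff_not, decide_eq_false_iff_not] at this
    exact this

theorem mem_lb {S : Rt} {x : ℕ × ℕ} (h : x ∈ S) : x.2 ∈ lb S := by
  unfold lb
  exact List.mem_map_of_mem h

theorem mem_vs {S : Rt} {x : ℕ × ℕ} (h : x ∈ S) : x.1 ∈ vs S := by
  unfold vs
  exact List.mem_map_of_mem h

theorem of_vs {S : Rt} {v : ℕ} (h : v ∈ vs S) : ∃ x ∈ S, x.1 = v := by
  unfold vs at h
  exact List.mem_map.1 h

theorem of_lb {S : Rt} {v : ℕ} (h : v ∈ lb S) : ∃ x ∈ S, x.2 = v := by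
  unfold lb at h
  exact List.mem_map.1 h

theorem mk_cases {S : Rt} {p : ℕ} (h : p ∈ mk S) : p = 0 ∨ p ∈ lb S := by
  unfold mk at h
  exact List.mem_cons.1 h

theorem mk_mono {S S' : Rt} (h : ∀ x ∈ S, x ∈ S') {p : ℕ} (hp : p ∈ mk S) : p ∈ mk S' := by
  rcases mk_cases hp with h0 | h0
  · unfold mk
    rw [h0]
    exact List.mem_cons_self
  · obtain ⟨x, hx, rfl⟩ := of_lb h0
    unfold mk
    exact List.mem_cons_of_mem _ (mem_lb (h x hx))

theorem lb_mono {S S' : Rt} (h : ∀ x ∈ S, x ∈ S') {p : ℕ} (hp : p ∈ lb S) : p ∈ lb S' := by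
  obtain ⟨x, hx, rfl⟩ := of_lb hp
  exact mem_lb (h x hx)

theorem hd_mem {I : In} {A : Rt} (h : rv I A = true) : ∃ x ∈ A, x.1 = hd A := by
  unfold rv at h
  rw [Bool.and_eq_true, decide_eq_true_iff] at h
  obtain ⟨h1, _⟩ := h
  cases A with
  | nil => simp at h1
  | cons a l => exact ⟨a, by simp, by simp [hd, vs]⟩

end ICc

open ICc in
theorem pr_Cc (hNx : St_Nx) (hVt : St_Vt) (hGa : St_Ga) : St_Cc := by
  intro I F G H T1 T2 g1 g2 hc hG hH
  obtain ⟨A, B, J⟩ := F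
  obtain ⟨A', C', JA⟩ := G
  obtain ⟨C, B', JB⟩ := H
  unfold cmb at hc
  rw [Bool.and_eq_true, Bool.and_eq_true, Bool.and_eq_true, decide_eq_true_iff,
    decide_eq_true_iff, decide_eq_true_iff] at hc
  obtain ⟨⟨e1, e2, e3⟩, hc⟩ := hc
  simp only at e1 e2 e3 hc
  subst e1 e2 e3
  have hCM := cm hc
  have hsAB : ∀ x ∈ A ++ B, x ∈ A ++ (B ++ C') := by
    intro x hx
    simp only [List.mem_append] at hx ⊢
    tauto
  have hsAC : ∀ x ∈ A ++ C', x ∈ A ++ (B ++ C') := by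
    intro x hx
    simp only [List.mem_append] at hx ⊢
    tauto
  have hsCB : ∀ x ∈ C' ++ B, x ∈ A ++ (B ++ C') := by
    intro x hx
    simp only [List.mem_append] at hx ⊢
    tauto
  obtain ⟨hV1, hV2, hV3⟩ := hVt I _ hCM.cs
  obtain ⟨hGa1, hGa2, hGa3⟩ := hGa I A B C' J JA JB g1 g2 hc
    (fun x hx => hG.lab x hx) (fun x hx => hH.lab x hx)
  obtain ⟨nS1, nS2, nS3, nS4, nS5, nS6⟩ := hNx I (A ++ (B ++ C'))
  obtain ⟨nB1, nB2, nB3, nB4, nB5, nB6⟩ := hNx I (A ++ B)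
  -- marks are at most `nn I`
  have hmkle : ∀ p ∈ mk (A ++ (B ++ C')), p ≤ nn I := by
    intro p hp
    rcases mk_cases hp with h0 | h0
    · omega
    · obtain ⟨x, hx, rfl⟩ := of_lb h0
      exact (hV1 x hx).2.2.1
  -- vertices of the routes
  have K1 : ∀ x ∈ A ++ (B ++ C'), x.1 ∈ vs (A ++ B) ∨
      ∃ p ∈ J, ∃ i, p < i ∧ i < nxt I (A ++ B) p ∧ gc I A B C' JA g1 g2 i = x.1 := by
    intro x hx
    by_cases hv : x.1 ∈ vs (A ++ B)
    · exact Or.inl hv
    right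
    obtain ⟨hx1, hx2, hx3, hx4⟩ := hV1 x hx
    have hnl : x.2 ∉ lb (A ++ B) := by
      intro h
      obtain ⟨y, hy, hyx⟩ := of_lb h
      have := (hV2 y (hsAB y hy) x hx).2 hyx
      exact hv (this ▸ mem_vs hy)
    obtain ⟨p, hp, hpi, hin⟩ := nB5 x.2 hx3
    have hpne : p ≠ x.2 := by
      intro h
      rcases mk_cases hp with h0 | h0
      · omega
      · exact hnl (h ▸ h0)
    have hplt : p < x.2 := lt_of_le_of_ne hpi hpne
    have h5 : nxt I (A ++ (B ++ C')) p ≤ x.2 := nS3 p x.2 (mem_lb hx) hx3 hplt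
    have hpJ : p ∈ J := by
      by_contra hpJ
      have := (hCM.nj p hp hpJ).1
      omega
    exact ⟨p, hpJ, x.2, hplt, hin, hGa3 x hx⟩
  have K2 : ∀ (p' i : ℕ) , p' ∈ mk (A ++ (B ++ C')) → p' < i → i < nxt I (A ++ (B ++ C')) p' →
      (p' ∈ JA ∨ p' ∈ JB) → ∃ p ∈ J, p < i ∧ i < nxt I (A ++ B) p := by
    intro p' i hp' h1 h2 h3
    have hi : i ≤ nn I := by
      have := (nS1 p' (hmkle p' hp')).2
      omega
    have hil : i ∉ lb (A ++ (B ++ C')) := by
      intro h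
      have := nS3 p' i h hi h1
      omega
    obtain ⟨p, hp, hpi, hin⟩ := nB5 i hi
    have hpne : p ≠ i := by
      intro h
      rcases mk_cases hp with h0 | h0
      · omega
      · exact hil (lb_mono hsAB (h ▸ h0))
    have hplt : p < i := lt_of_le_of_ne hpi hpne
    refine ⟨p, ?_, hplt, hin⟩
    by_contra hpJ
    obtain ⟨h4, h5, h6⟩ := hCM.nj p hp hpJ
    have h7 := nS6 i p p' hi (mk_mono hsAB hp) hp' hpi (by omega) h1.le h2
    subst h7
    rcases h3 with h3 | h3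
    · exact h5 h3
    · exact h6 h3
  intro t ht e he
  rw [List.mem_cons, List.mem_append] at ht
  rcases ht with rfl | ht | ht
  · have h1 : e.1 = hd A ∨ e.1 = hd B ∨ e.1 = hd C' := by
      unfold sl at he
      simp only [List.mem_cons, List.not_mem_nil, or_false] at he
      rcases he with rfl | rfl | rfl <;> simp
    obtain ⟨x, hx, hxe⟩ : ∃ x ∈ A ++ (B ++ C'), x.1 = e.1 := by
      rcases h1 with h1 | h1 | h1
      · obtain ⟨x, hx, hx1⟩ := hd_mem hCM.ra
        exact ⟨x, by simp only [List.mem_append]; tauto, hx1.trans h1.symm⟩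
      · obtain ⟨x, hx, hx1⟩ := hd_mem hCM.rb
        exact ⟨x, by simp only [List.mem_append]; tauto, hx1.trans h1.symm⟩
      · obtain ⟨x, hx, hx1⟩ := hd_mem hCM.rc
        exact ⟨x, by simp only [List.mem_append]; tauto, hx1.trans h1.symm⟩
    have := K1 x hx
    rw [hxe] at this
    exact this
  · rcases hG.cov t ht e he with h | ⟨p, hp, i, hpi, hin, hgi⟩
    · obtain ⟨x, hx, hxe⟩ := of_vs h
      have := K1 x (hsAC x hx)
      rw [hxe] at this
      exact this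
    · right
      obtain ⟨hm, hn⟩ := hCM.ja p hp
      have hin' : i < nxt I (A ++ C') p := hin
      rw [hn] at hin'
      have hpm := mk_mono hsAC hm
      obtain ⟨q, hq, hqi, hqn⟩ := K2 p i hpm hpi hin' (Or.inl hp)
      refine ⟨q, hq, i, hqi, hqn, ?_⟩
      have := (nS1 p (hmkle p hpm)).2
      exact (hGa1 p hp i hpi.le hin'.le (by omega) (by omega)).trans hgi
  · rcases hH.cov t ht e he with h | ⟨p, hp, i, hpi, hin, hgi⟩
    · obtain ⟨x, hx, hxe⟩ := of_vs h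
      have := K1 x (hsCB x hx)
      rw [hxe] at this
      exact this
    · right
      obtain ⟨hm, hn⟩ := hCM.jb p hp
      have hin' : i < nxt I (C' ++ B) p := hin
      rw [hn] at hin'
      have hpm := mk_mono hsCB hm
      obtain ⟨q, hq, hqi, hqn⟩ := K2 p i hpm hpi hin' (Or.inr hp)
      refine ⟨q, hq, i, hqi, hqn, ?_⟩
      have := (nS1 p (hmkle p hpm)).2
      exact (hGa2 p hp i hpi.le hin'.le (by omega) (by omega)).trans hgi

end Pool.Agent.Work.MP_c6c039_lc.CL
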