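import Pool.Agent.Work.MP_c6c039_lc.CL.StmtsL

/-!
# Block CL, item Cf: completeness
-/

set_option autoImplicit false

namespace Pool.Agent.Work.MP_c6c039_lc.CL

open Pool.Agent.Work.MP_c6c039_lc.FP Pool.Agent.Work.MP_c6c039_lc.NC

namespace ICf

/-- two points: the colours differ -/
theorem two (I : In) (l : List ℕ) (hl : SP I l) (hn : nn I = 2) : co I 0 ≠ co I 1 := by
  have hp : l.Perm (List.range 2) := by
    rw [List.perm_ext_iff_of_nodup hl.nodup List.nodup_range]
    intro a
    rw [hl.span a, hn, List.mem_range]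
  have hlen : l.length = 2 := by rw [hp.length_eq, List.length_range]
  obtain ⟨a, b, rfl⟩ := List.length_eq_two.1 hlen
  have halt := hl.alt 0 (by simp)
  have ha : a < 2 := by rw [← hn]; exact (hl.span a).1 (by simp)
  have hb : b < 2 := by rw [← hn]; exact (hl.span b).1 (by simp)
  have hab : a ≠ b := by
    have := hl.nodup
    simpa using this
  have h0 : [a, b].getD 0 0 = a := rfl
  have h1 : [a, b].getD (0 + 1) 0 = b := rfl
  rw [h0, h1] at halt
  have hcase : (a = 0 ∧ b = 1) ∨ (a = 1 ∧ b = 0) := by omega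
  rcases hcase with ⟨rfl, rfl⟩ | ⟨rfl, rfl⟩
  · exact halt
  · exact halt.symm

end ICf

theorem pr_Cf (hEm : St_Em) (hRf : St_Rf) : St_Cf := by
  classical
  intro I hG k hLY hp
  obtain ⟨l, hl⟩ := hp
  by_cases h3 : nn I < 3
  · unfold lay
    rw [if_pos h3]
    by_cases h2 : nn I < 2
    · rw [decide_eq_true h2, Bool.true_or]
    · have hn : nn I = 2 := by omega
      have h := ICf.two I l hl hn
      have h4 : (co I 0 == co I 1) = false := by
        rw [beq_eq_false_iff_ne]
        exact h
      rw [h4, Bool.not_false, Bool.or_true]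
  · obtain ⟨E, hMx, hed⟩ := hEm I hG.real l hl
    obtain ⟨ly, hly, hpar⟩ := hLY
    have hex : ∃ par : ℕ → ℕ, ∀ v, v < nn I → ext I v = false →
        E v (par v) ∧ ly (par v) < ly v := by
      refine ⟨fun v => if h : v < nn I ∧ ext I v = false then
        (hpar E hMx v h.1 h.2).choose else 0, fun v hv he => ?_⟩
      have h5 := (hpar E hMx v hv he).choose_spec
      have h6 : v < nn I ∧ ext I v = false := ⟨hv, he⟩
      simp only [dif_pos h6]
      exact h5
    obtain ⟨par, hpar'⟩ := hex
    exact hRf I E par ly k l ⟨⟨hG, by omega, hMx, hly, hpar'⟩, hl, hed⟩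

end Pool.Agent.Work.MP_c6c039_lc.CL
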