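import Pool.Agent.Work.MP_c6c039_lc.CL.StmtsW

/-! # Item Ck of block CL: the curve of two routes is a closed chain -/

set_option autoImplicit false

namespace Pool.Agent.Work.MP_c6c039_lc.CL

open Pool.Agent.Work.MP_c6c039_lc.FP Pool.Agent.Work.MP_c6c039_lc.NC

namespace ICk

/-- the head of a route -/
theorem rl_head (I : In) (par : ℕ → ℕ) (k v : ℕ) : (rl I par k v).headD 0 = v := by
  cases k with
  | zero => rfl
  | succ f =>
    unfold rl
    split
    · rfl
    · rfl

/-- the chain of one edge is not zero only at its ends -/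
theorem dl_ne (u v x y : ℕ) (h : dl u v x y ≠ 0) : (u = x ∧ v = y) ∨ (u = y ∧ v = x) := by
  by_contra hc
  rw [not_or] at hc
  apply h
  unfold dl
  rw [if_neg hc.1, if_neg hc.2, sub_zero]

/-- the sum over the second point of one edge -/
theorem sum_dl (n u v x : ℕ) (hu : u < n) (hv : v < n) :
    ∑ y ∈ Finset.range n, dl u v x y =
      (if u = x then (1 : ℤ) else 0) - (if v = x then 1 else 0) := by
  unfold dl
  rw [Finset.sum_sub_distrib]
  congr 1
  · by_cases h : u = x
    · have h1 : ∀ y, (if u = x ∧ v = y then (1 : ℤ) else 0) = if v = y then 1 else 0 := by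
        intro y
        simp [h]
      simp only [h1, if_pos h]
      rw [Finset.sum_ite_eq, if_pos (Finset.mem_range.2 hv)]
    · simp [h]
  · by_cases h : v = x
    · have h1 : ∀ y, (if u = y ∧ v = x then (1 : ℤ) else 0) = if u = y then 1 else 0 := by
        intro y
        simp [h]
      simp only [h1, if_pos h]
      rw [Finset.sum_ite_eq, if_pos (Finset.mem_range.2 hu)]
    · simp [h]

/-- the sum over the second point of the route -/
theorem sum_ch (hDl : St_Dl) (hFo : St_Fo) (I : In) (E : ℕ → ℕ → Prop) (par ly : ℕ → ℕ) (k : ℕ)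
    (hC : Cx I E par ly k) (n : ℕ) : ∀ v, v < nn I → rn I ly v < n → ∀ x,
    ∑ y ∈ Finset.range (nn I), ch (fo I par k v) x y =
      (if v = x then (1 : ℤ) else 0) - (if hp I 0 = x then 1 else 0) := by
  obtain ⟨hF0, hF⟩ := hFo I E par ly k hC
  induction n with
  | zero => intro v _ h; exact absurd h (Nat.not_lt_zero _)
  | succ n ih =>
    intro v hv hr x
    by_cases hv0 : v = hp I 0
    · rw [hv0, hF0]
      have h1 : ∀ y, ch [hp I 0] x y = 0 := by
        intro y
        unfold ch ed
        simp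
      simp [h1]
    · obtain ⟨h1, -, h3, h4⟩ := (hF v hv).1 hv0
      have h5 : ∃ t, fo I par k (pf I par v) = pf I par v :: t := by
        by_cases hp0 : pf I par v = hp I 0
        · rw [hp0, hF0]
          exact ⟨[], rfl⟩
        · exact ⟨_, ((hF _ h3).1 hp0).1⟩
      obtain ⟨t, ht⟩ := h5
      have h6 : ∀ y, ch (fo I par k v) x y =
          dl v (pf I par v) x y + ch (fo I par k (pf I par v)) x y := by
        intro y
        rw [h1, ht]
        exact hDl.2.1 v (pf I par v) x y t
      simp only [h6]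
      rw [Finset.sum_add_distrib, sum_dl _ _ _ _ hv h3, ih _ h3 (by omega)]
      ring

end ICk

open ICk in
theorem pr_Ck (hDl : St_Dl) (hFo : St_Fo) : St_Ck := by
  intro I E par ly k hC u v huv
  obtain ⟨hF0, hF⟩ := hFo I E par ly k hC
  obtain ⟨hu, hv, -⟩ := hC.mx.lt u v huv
  have hkp : ∀ x y, kp I (rl I par k u) (rl I par k v) x y =
      dl u v x y + (ch (fo I par k v) x y - ch (fo I par k u) x y) := by
    intro x y
    unfold kp
    rw [rl_head, rl_head]
    rfl
  have hsup : ∀ w, w < nn I → ∀ x y, ch (fo I par k w) x y ≠ 0 → E x y := by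
    intro w hw x y hne
    obtain ⟨-, hnd, hlt, -, -, -, hed, -⟩ := hF w hw
    rcases (hDl.2.2.2 _ x y hnd).2 hne with h | h
    · obtain ⟨h1, h2, h3⟩ := (hed x y).1 h
      rw [h3]
      exact ((hF x (hlt x h1).1).1 h2).2.1
    · obtain ⟨h1, h2, h3⟩ := (hed y x).1 h
      rw [h3]
      exact hC.mx.sym _ _ ((hF y (hlt y h1).1).1 h2).2.1
  refine ⟨?_, ?_, ?_⟩
  · intro x y
    show kp I (rl I par k u) (rl I par k v) x y = - kp I (rl I par k u) (rl I par k v) y x
    rw [hkp, hkp, (hDl.1 u v x y).1, (hDl.2.2.1 (fo I par k v) x y).1,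
      (hDl.2.2.1 (fo I par k u) x y).1]
    ring
  · intro x y hne
    have hne' : kp I (rl I par k u) (rl I par k v) x y ≠ 0 := hne
    rw [hkp] at hne'
    by_cases h1 : dl u v x y = 0
    · by_cases h2 : ch (fo I par k v) x y = 0
      · by_cases h3 : ch (fo I par k u) x y = 0
        · exact absurd (by rw [h1, h2, h3]; ring) hne'
        · exact hsup u hu x y h3
      · exact hsup v hv x y h2
    · rcases dl_ne u v x y h1 with ⟨rfl, rfl⟩ | ⟨rfl, rfl⟩
      · exact huv
      · exact hC.mx.sym _ _ huv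
  · intro x
    show ∑ y ∈ Finset.range (nn I), kp I (rl I par k u) (rl I par k v) x y = 0
    simp only [hkp]
    rw [Finset.sum_add_distrib, Finset.sum_sub_distrib, sum_dl _ _ _ _ hu hv,
      sum_ch hDl hFo I E par ly k hC _ v hv (Nat.lt_succ_self _) x,
      sum_ch hDl hFo I E par ly k hC _ u hu (Nat.lt_succ_self _) x]
    ring

end Pool.Agent.Work.MP_c6c039_lc.CL
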