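import Pool.Agent.Work.MP_c6c039_lc.CL.StmtsS

/-!
# Block CL, item Cn
-/

set_option autoImplicit false

namespace Pool.Agent.Work.MP_c6c039_lc.CL

open Pool.Agent.PT Pool.Agent.Work.MP_c6c039_lc.FP Pool.Agent.Work.MP_c6c039_lc.NC

namespace ICn

/-- the sign of a nonzero number, with both negations -/
theorem sg {x : ℝ} (h : x ≠ 0) : (x < 0 ∧ ¬ 0 < x) ∨ (0 < x ∧ ¬ x < 0) := by
  rcases lt_or_gt_of_ne h with h | h
  · exact Or.inl ⟨h, h.not_gt⟩
  · exact Or.inr ⟨h, h.not_gt⟩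

/-- the crossings of a triangle -/
theorem key (α β γ A B C : ℝ) (hα : α ≠ 0) (hβ : β ≠ 0) (hγ : γ ≠ 0) (hA : A ≠ 0) (hB : B ≠ 0)
    (hC : C ≠ 0) (hs : 0 < A + B + C) (h : A * α + B * β + C * γ = 0)
    (p q r p' q' r' i : Prop) [Decidable p] [Decidable q] [Decidable r] [Decidable p']
    [Decidable q'] [Decidable r']
    (hp : p ↔ (β < 0 ∧ 0 < α ∧ 0 < C)) (hp' : p' ↔ (α < 0 ∧ 0 < β ∧ C < 0))
    (hq : q ↔ (γ < 0 ∧ 0 < β ∧ 0 < A)) (hq' : q' ↔ (β < 0 ∧ 0 < γ ∧ A < 0))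
    (hr : r ↔ (α < 0 ∧ 0 < γ ∧ 0 < B)) (hr' : r' ↔ (γ < 0 ∧ 0 < α ∧ B < 0))
    (hi : i ↔ (0 < C ∧ 0 < A ∧ 0 < B)) :
    (i → ((if p then (1 : ℤ) else 0) - (if p' then 1 else 0)) +
      (((if q then 1 else 0) - (if q' then 1 else 0)) +
        ((if r then 1 else 0) - (if r' then 1 else 0))) = 1) ∧
    (¬ i → ((if p then (1 : ℤ) else 0) - (if p' then 1 else 0)) +
      (((if q then 1 else 0) - (if q' then 1 else 0)) +
        ((if r then 1 else 0) - (if r' then 1 else 0))) = 0) := by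
  rcases sg hα with ⟨a1, a2⟩ | ⟨a1, a2⟩ <;> rcases sg hβ with ⟨b1, b2⟩ | ⟨b1, b2⟩ <;>
  rcases sg hγ with ⟨c1, c2⟩ | ⟨c1, c2⟩ <;> rcases sg hA with ⟨d1, d2⟩ | ⟨d1, d2⟩ <;>
  rcases sg hB with ⟨e1, e2⟩ | ⟨e1, e2⟩ <;> rcases sg hC with ⟨f1, f2⟩ | ⟨f1, f2⟩ <;>
  simp only [hp, hp', hq, hq', hr, hr', hi, a1, a2, b1, b2, c1, c2, d1, d2, e1, e2, f1, f2,
    and_true, and_false, true_and, if_true, if_false, not_true_eq_false,
    not_false_eq_true, false_implies, forall_const] <;>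
  first
  | (norm_num; done)
  | (exfalso; linarith)
  | (exfalso; nlinarith)

end ICn

theorem pr_Cn : St_Cn := by
  classical
  rintro I X Y hRL ⟨a, b, c⟩ z ht hg
  obtain ⟨⟨ha, hb, hc⟩, hchi⟩ := ht
  obtain ⟨g1, g2⟩ := hg
  change a < nn I at ha
  change b < nn I at hb
  change c < nn I at hc
  change chi I a b c = true at hchi
  have hD : 0 < ar X Y a b c := (hRL.1 a b c ha hb hc).mp hchi
  have hab : a ≠ b := by
    rintro rfl
    have : ar X Y a a c = 0 := by unfold ar; ring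
    rw [this] at hD
    exact lt_irrefl _ hD
  have hbc : b ≠ c := by
    rintro rfl
    have : ar X Y a b b = 0 := by unfold ar; ring
    rw [this] at hD
    exact lt_irrefl _ hD
  have hca : c ≠ a := by
    rintro rfl
    have : ar X Y c b c = 0 := by unfold ar; ring
    rw [this] at hD
    exact lt_irrefl _ hD
  have e1 : az X Y b c z + az X Y c a z + az X Y a b z = ar X Y a b c := by
    unfold az ar; ring
  have e2 : az X Y b c z * (X a - z.1) + az X Y c a z * (X b - z.1) +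
      az X Y a b z * (X c - z.1) = 0 := by
    unfold az; ring
  have k := ICn.key (X a - z.1) (X b - z.1) (X c - z.1) (az X Y b c z) (az X Y c a z)
    (az X Y a b z) (sub_ne_zero.mpr (g1 a ha).symm) (sub_ne_zero.mpr (g1 b hb).symm)
    (sub_ne_zero.mpr (g1 c hc).symm) (g2 b c hb hc hbc) (g2 c a hc ha hca) (g2 a b ha hb hab)
    (by rw [e1]; exact hD) e2
    (X b < z.1 ∧ z.1 < X a ∧ 0 < az X Y a b z) (X c < z.1 ∧ z.1 < X b ∧ 0 < az X Y b c z)
    (X a < z.1 ∧ z.1 < X c ∧ 0 < az X Y c a z)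
    (X a < z.1 ∧ z.1 < X b ∧ az X Y a b z < 0) (X b < z.1 ∧ z.1 < X c ∧ az X Y b c z < 0)
    (X c < z.1 ∧ z.1 < X a ∧ az X Y c a z < 0)
    (0 < az X Y a b z ∧ 0 < az X Y b c z ∧ 0 < az X Y c a z)
    (by rw [sub_neg, sub_pos]) (by rw [sub_neg, sub_pos])
    (by rw [sub_neg, sub_pos]) (by rw [sub_neg, sub_pos])
    (by rw [sub_neg, sub_pos]) (by rw [sub_neg, sub_pos]) Iff.rfl
  exact k

end Pool.Agent.Work.MP_c6c039_lc.CL
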