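import Pool.Agent.Work.MP_c6c039_lc.CL.StmtsL

/-! # Item Ct of block CL: all true facts are found -/

set_option autoImplicit false

namespace Pool.Agent.Work.MP_c6c039_lc.CL

open Pool.Agent.Work.MP_c6c039_lc.FP Pool.Agent.Work.MP_c6c039_lc.NC

namespace ICt

/-- the total weight -/
def M (I : In) (w : ℕ → ℕ → ℤ) : ℤ :=
  ∑ x ∈ Finset.range (nn I), ∑ y ∈ Finset.range (nn I), w x y

theorem M_nonneg (I : In) (w : ℕ → ℕ → ℤ) (h : ∀ x y, 0 ≤ w x y) : 0 ≤ M I w :=
  Finset.sum_nonneg fun x _ => Finset.sum_nonneg fun y _ => h x y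

theorem M_add (I : In) (w w1 w2 w3 : ℕ → ℕ → ℤ) (h : ∀ x y, w x y = w1 x y + (w2 x y + w3 x y)) :
    M I w = M I w1 + (M I w2 + M I w3) := by
  unfold M
  simp only [h, Finset.sum_add_distrib]

theorem M_pos (I : In) (w : ℕ → ℕ → ℤ) (h : ∀ x y, 0 ≤ w x y) {u v : ℕ} (hu : u < nn I)
    (hv : v < nn I) (h1 : 1 ≤ w u v) : 1 ≤ M I w := by
  have e1 : w u v ≤ ∑ y ∈ Finset.range (nn I), w u y :=
    Finset.single_le_sum (f := fun y => w u y) (fun y _ => h u y) (Finset.mem_range.2 hv)
  have e2 : ∑ y ∈ Finset.range (nn I), w u y ≤ M I w :=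
    Finset.single_le_sum (f := fun x => ∑ y ∈ Finset.range (nn I), w x y)
      (fun x _ => Finset.sum_nonneg fun y _ => h x y) (Finset.mem_range.2 hu)
  linarith

theorem ot_nonneg (u v c x y : ℕ) : 0 ≤ ot u v c x y := by
  unfold ot
  split_ifs <;> norm_num

theorem ot_self (u v c : ℕ) : ot u v c u v = 1 := by
  unfold ot
  rw [if_pos]
  simp [sl]

/-- a region is empty or can be cut -/
theorem step (hAp : St_Ap) (hKv : St_Kv) (hSp : St_Sp) {I : In} {E : ℕ → ℕ → Prop}
    {par ly : ℕ → ℕ} {k : ℕ} (hC : Cx I E par ly k) {w : ℕ → ℕ → ℤ} {u v : ℕ}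
    (hR : RG I E par k w u v) (h0 : ¬ ∀ x y, w x y = 0) :
    ∃ c wA wB, SL I E par k w wA wB u v c ∧ M I wA < M I w ∧ M I wB < M I w ∧ 0 ≤ M I wA ∧
      0 ≤ M I wB := by
  obtain ⟨hu, hv, huv⟩ := hC.mx.lt u v hR.e
  obtain ⟨-, hk2, hk3⟩ := hKv I E par ly k hC
  have hnn : ∀ x y, 0 ≤ w x y := fun x y => by
    rcases hR.v01 x y with h | h <;> rw [h] <;> norm_num
  have hsym : ¬ ∀ x y, kp I (rl I par k u) (rl I par k v) x y = 0 := by
    intro h
    apply h0
    refine hAp I hC.good.real E hC.mx w hR.ri hnn ?_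
    intro x y
    have := hR.bdy x y
    rw [h x y] at this
    linarith
  have n1 : ¬ (u ≠ hp I 0 ∧ v = pf I par u) := by
    rintro ⟨h1, h2⟩
    apply hsym
    intro x y
    rw [h2]
    exact (hk2 u hu h1 x y).1
  have n2 : ¬ (v ≠ hp I 0 ∧ u = pf I par v) := by
    rintro ⟨h1, h2⟩
    apply hsym
    intro x y
    rw [h2]
    exact (hk2 v hv h1 x y).2
  have hk := hk3 u v hu hv huv n1 n2
  have hb := hR.bdy u v
  rw [hk] at hb
  have h1 : w u v = 1 := by
    rcases hR.v01 u v with h | h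
    · rcases hR.v01 v u with h' | h' <;> rw [h, h'] at hb <;> norm_num at hb
    · exact h
  have hT : ∃ c, Tr I E u v c := by
    by_contra hT
    have := hR.ri.out u v hT
    rw [h1] at this
    norm_num at this
  obtain ⟨c, hT⟩ := hT
  obtain ⟨wA, wB, rA, rB, vA, vB, bA, bB, a0, b0, hs⟩ :=
    hSp I E par ly k hC u v c hT w hR.ri hR.v01 hR.bdy h1
  have hSL : SL I E par k w wA wB u v c :=
    { t := hT
      r0 := hR
      ra := { e := hC.mx.sym _ _ hT.e3, ri := rA, v01 := vA, bdy := bA }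
      rb := { e := hC.mx.sym _ _ hT.e2, ri := rB, v01 := vB, bdy := bB }
      w1 := h1
      a0 := a0
      b0 := b0
      sum := hs }
  have hA : 0 ≤ M I wA := M_nonneg I wA fun x y => by
    rcases vA x y with h | h <;> rw [h] <;> norm_num
  have hB : 0 ≤ M I wB := M_nonneg I wB fun x y => by
    rcases vB x y with h | h <;> rw [h] <;> norm_num
  have hO : 1 ≤ M I (ot u v c) :=
    M_pos I (ot u v c) (ot_nonneg u v c) hu hv (ot_self u v c).ge
  have hM := M_add I w wA wB (ot u v c) hs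
  exact ⟨c, wA, wB, hSL, by linarith, by linarith, hA, hB⟩

end ICt

open ICt in
theorem pr_Ct (hAp : St_Ap) (hKv : St_Kv) (hSp : St_Sp) (hT4 : St_T4) (hBt : St_Bt)
    (hAt : St_At) (hFx : St_Fx) : St_Ct := by
  intro I E par ly k l hP
  have hC := hP.cx
  have key : ∀ N : ℕ, ∀ (w : ℕ → ℕ → ℤ) (u v : ℕ), RG I E par k w u v → M I w < N →
      tf I E par k l w u v ∈ sat k I := by
    intro N
    induction N with
    | zero =>
      intro w u v hR hM
      have : 0 ≤ M I w := M_nonneg I w fun x y => by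
        rcases hR.v01 x y with h | h <;> rw [h] <;> norm_num
      push_cast at hM
      linarith
    | succ N ih =>
      intro w u v hR hM
      obtain ⟨hu, hv, huv⟩ := hC.mx.lt u v hR.e
      refine hFx k I _ (hAt I E par ly k l hP w u v hu hv) ?_
      unfold rule
      by_cases h0 : ∀ x y, w x y = 0
      · rw [hBt I E par ly k l hP w u v hR h0]
        rfl
      · obtain ⟨c, wA, wB, hSL, hA, hB, -, -⟩ := step hAp hKv hSp hC hR h0
        push_cast at hM
        have h1 := ih wA u c hSL.ra (by linarith)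
        have h2 := ih wB c v hSL.rb (by linarith)
        rw [Bool.or_eq_true]
        right
        rw [List.any_eq_true]
        refine ⟨_, h1, ?_⟩
        rw [List.any_eq_true]
        exact ⟨_, h2, hT4 I E par ly k l hP w wA wB u v c hSL⟩
  intro w u v hR
  refine key ((M I w).toNat + 1) w u v hR ?_
  push_cast
  have := Int.self_le_toNat (M I w)
  linarith

end Pool.Agent.Work.MP_c6c039_lc.CL
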