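import Pool.Agent.Work.MP_c6c039_lc.CL.StmtsS

/-!
# Block CL, item Cv: every point is a vertex of a triangle
-/

set_option autoImplicit false

namespace Pool.Agent.Work.MP_c6c039_lc.CL

open Pool.Agent.Work.MP_c6c039_lc.FP Pool.Agent.Work.MP_c6c039_lc.NC

namespace ICv

theorem az_cont (X Y : ℕ → ℝ) (a b : ℕ) : Continuous fun z : ℝ × ℝ => az X Y a b z := by
  unfold az
  fun_prop

theorem az_eq (X Y : ℕ → ℝ) (a b w : ℕ) : az X Y a b (X w, Y w) = ar X Y a b w := rfl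

/-- the points on the wrong side of a side of `t` -/
def VV (X Y : ℕ → ℝ) (t : ℕ × (ℕ × ℕ)) : Set (ℝ × ℝ) :=
  {z | az X Y t.1 t.2.1 z < 0} ∪ ({z | az X Y t.2.1 t.2.2 z < 0} ∪ {z | az X Y t.2.2 t.1 z < 0})

theorem VV_open (X Y : ℕ → ℝ) (t : ℕ × (ℕ × ℕ)) : IsOpen (VV X Y t) :=
  (isOpen_lt (az_cont X Y _ _) continuous_const).union
    ((isOpen_lt (az_cont X Y _ _) continuous_const).union
      (isOpen_lt (az_cont X Y _ _) continuous_const))

theorem VV_not (X Y : ℕ → ℝ) (t : ℕ × (ℕ × ℕ)) (z : ℝ × ℝ) (hz : z ∈ VV X Y t) :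
    ¬ iz X Y t z := by
  rintro ⟨h1, h2, h3⟩
  rcases hz with h | h | h
  · exact absurd h (not_lt.2 h1.le)
  · exact absurd h (not_lt.2 h2.le)
  · exact absurd h (not_lt.2 h3.le)

theorem iz_open (X Y : ℕ → ℝ) (t : ℕ × (ℕ × ℕ)) : IsOpen {z | iz X Y t z} :=
  (isOpen_lt continuous_const (az_cont X Y _ _)).inter
    ((isOpen_lt continuous_const (az_cont X Y _ _)).inter
      (isOpen_lt continuous_const (az_cont X Y _ _)))

/-- an end of a side is the first vertex of a side -/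
theorem side_snd (t : ℕ × (ℕ × ℕ)) (x y : ℕ) (h : (x, y) ∈ sl t) : ∃ e ∈ sl t, e.1 = y := by
  unfold sl at h ⊢
  simp only [List.mem_cons, List.not_mem_nil, or_false, Prod.mk.injEq] at h
  rcases h with ⟨-, rfl⟩ | ⟨-, rfl⟩ | ⟨-, rfl⟩
  · exact ⟨(t.2.1, t.2.2), by simp, rfl⟩
  · exact ⟨(t.2.2, t.1), by simp, rfl⟩
  · exact ⟨(t.1, t.2.1), by simp, rfl⟩

theorem az_neg {I : In} {X Y : ℕ → ℝ} (hR : RL I X Y) {a b w : ℕ} (ha : a < nn I) (hb : b < nn I)
    (hw : w < nn I) (h1 : a ≠ b) (h2 : b ≠ w) (h3 : a ≠ w) (hc : chi I a b w = false) :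
    az X Y a b (X w, Y w) < 0 := by
  rw [az_eq]
  have h4 := hR.2 a b w ha hb hw h1 h2 h3
  have h5 : ¬ 0 < ar X Y a b w := by
    intro h6
    have h7 := (hR.1 a b w ha hb hw).2 h6
    rw [hc] at h7
    exact Bool.noConfusion h7
  exact lt_of_le_of_ne (not_lt.1 h5) h4

theorem main (hSy : FP.St_Sy) {I : In} (hI : Good I) {X Y : ℕ → ℝ} (hR : RL I X Y)
    {t : ℕ × (ℕ × ℕ)} (ht : TP I t) {w : ℕ} (hw : w < nn I) (h1 : t.1 ≠ w) (h2 : t.2.1 ≠ w)
    (h3 : t.2.2 ≠ w) : (X w, Y w) ∈ VV X Y t := by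
  have hCH := hSy I hI.real
  obtain ⟨l1, l2, l3⟩ := ht.lt
  have n1 : t.1 ≠ t.2.1 := by
    intro h
    have h4 := (hCH.deg t.2.1 t.2.2 l2 l3).1
    have h5 := ht.pos
    rw [h, h4] at h5
    exact Bool.noConfusion h5
  have n2 : t.2.1 ≠ t.2.2 := by
    intro h
    have h4 := (hCH.deg t.1 t.2.2 l1 l3).2.2
    have h5 := ht.pos
    rw [h, h4] at h5
    exact Bool.noConfusion h5
  have n3 : t.1 ≠ t.2.2 := by
    intro h
    have h4 := (hCH.deg t.2.2 t.2.1 l3 l2).2.1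
    have h5 := ht.pos
    rw [h, h4] at h5
    exact Bool.noConfusion h5
  have hDs : Ds I [t.1, t.2.1, t.2.2, w] := by
    refine ⟨?_, ?_⟩
    · simp only [List.nodup_cons, List.mem_cons, List.not_mem_nil, or_false, not_or,
        List.nodup_nil, and_true, not_false_eq_true]
      exact ⟨⟨n1, n3, h1⟩, ⟨n2, h2⟩, h3⟩
    · intro a ha
      simp only [List.mem_cons, List.not_mem_nil, or_false] at ha
      rcases ha with rfl | rfl | rfl | rfl
      · exact l1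
      · exact l2
      · exact l3
      · exact hw
  have hemp := ht.emp w hDs
  by_contra hcon
  have e1 : chi I t.1 t.2.1 w = true := by
    cases hc : chi I t.1 t.2.1 w
    · exact absurd (Or.inl (az_neg hR l1 l2 hw n1 h2 h1 hc)) hcon
    · rfl
  have e2 : chi I t.2.1 t.2.2 w = true := by
    cases hc : chi I t.2.1 t.2.2 w
    · exact absurd (Or.inr (Or.inl (az_neg hR l2 l3 hw n2 h3 h2 hc))) hcon
    · rfl
  have e3 : chi I t.2.2 t.1 w = true := by
    cases hc : chi I t.2.2 t.1 w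
    · exact absurd (Or.inr (Or.inr (az_neg hR l3 l1 hw n3.symm h1 h3 hc))) hcon
    · rfl
  unfold inT at hemp
  rw [e1, e2, e3] at hemp
  exact absurd hemp (by decide)

end ICv

theorem pr_Cv (hSy : FP.St_Sy) (hHC : FP.St_HC) (hKc : St_Kc) (hMq : St_Mq) (hHb : St_Hb)
    (hFa : St_Fa) (hFc : St_Fc) (hGn : St_Gn) : St_Cv := by
  intro I hI hn T hT hbd w hw
  cases hext : ext I w
  · -- an inner point
    obtain ⟨X, Y, hRL⟩ := hI.real
    have hR : RL I X Y := hRL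
    by_contra hcon
    have hcon' : ∀ t ∈ T, t.1 ≠ w ∧ t.2.1 ≠ w ∧ t.2.2 ≠ w := by
      intro t ht
      refine ⟨fun h => hcon ⟨t, ht, (t.1, t.2.1), ?_, h⟩, fun h => hcon ⟨t, ht, (t.2.1, t.2.2), ?_, h⟩,
        fun h => hcon ⟨t, ht, (t.2.2, t.1), ?_, h⟩⟩
      · unfold sl
        simp
      · unfold sl
        simp
      · unfold sl
        simp
    obtain ⟨t0, ht0, hiz⟩ := hFc I hI hn X Y hR w hw hext
    obtain ⟨hFa1, hFa2, -⟩ := hFa I hI hn
    have hopen : IsOpen ({z | iz X Y t0 z} ∩ ⋂ t ∈ {t | t ∈ T}, ICv.VV X Y t) :=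
      (ICv.iz_open X Y t0).inter
        ((List.finite_toSet T).isOpen_biInter fun t _ => ICv.VV_open X Y t)
    have hne : ({z | iz X Y t0 z} ∩ ⋂ t ∈ {t | t ∈ T}, ICv.VV X Y t).Nonempty := by
      refine ⟨(X w, Y w), hiz, ?_⟩
      rw [Set.mem_iInter₂]
      intro t ht
      obtain ⟨g1, g2, g3⟩ := hcon' t ht
      exact ICv.main hSy hI hR (hT t ht) hw g1 g2 g3
    obtain ⟨z, ⟨hz1, hz2⟩, hz3⟩ := hGn I X Y hR hn _ hopen hne
    rw [Set.mem_iInter₂] at hz2
    have hmz := hMq I X Y hR T (fan I) z (fun t ht => ⟨(hT t ht).lt, (hT t ht).pos⟩) hFa1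
      (fun x y => (hbd x y).trans (hFa2 x y).symm) hz3
    have h0 : mz X Y T z = 0 := by
      unfold mz
      refine List.sum_eq_zero ?_
      intro x hx
      obtain ⟨t, ht, rfl⟩ := List.mem_map.1 hx
      exact if_neg (ICv.VV_not X Y t z (hz2 t ht))
    have h1 : 1 ≤ mz X Y (fan I) z := by
      unfold mz
      refine List.single_le_sum ?_ _ ?_
      · intro x hx
        obtain ⟨t, -, rfl⟩ := List.mem_map.1 hx
        split_ifs
        · exact zero_le_one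
        · exact le_rfl
      · exact List.mem_map.2 ⟨t0, ht0, if_pos hz1⟩
    rw [← hmz, h0] at h1
    exact absurd h1 (by decide)
  · -- a point of the hull
    have hC := hHC I hI (by omega)
    obtain ⟨j, -, -, hj⟩ := hC.sur 0 w hw hext
    have h1 := ((hHb I hI hn).1 j).1
    have h2 : bd T (hp I j) (hp I (j + 1)) ≠ 0 := by
      rw [hbd, h1]
      decide
    obtain ⟨t, ht, h3 | h3⟩ := hKc.2.2 T _ _ h2
    · exact ⟨t, ht, _, h3, hj⟩
    · obtain ⟨e, he, h4⟩ := ICv.side_snd t _ _ h3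
      exact ⟨t, ht, e, he, h4.trans hj⟩

end Pool.Agent.Work.MP_c6c039_lc.CL
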