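import Pool.Agent.Work.MP_c6c039_lc.CL.StmtsW

/-!
# Block CL, item Di: the inside of a closed curve
-/

set_option autoImplicit false

namespace Pool.Agent.Work.MP_c6c039_lc.CL

open Pool.Agent.Work.MP_c6c039_lc.FP Pool.Agent.Work.MP_c6c039_lc.NC

namespace IDi

variable {I : In} {E : ℕ → ℕ → Prop} {par ly : ℕ → ℕ} {k : ℕ}

/-- a function of a weight is a weight -/
lemma RI_comp {w : ℕ → ℕ → ℤ} (hw : RI I E w) (φ : ℤ → ℤ) (h0 : φ 0 = 0) :
    RI I E (fun x y => φ (w x y)) where
  rot a b c h := by
    show φ (w a b) = φ (w b c)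
    rw [hw.rot a b c h]
  out a b h := by
    show φ (w a b) = 0
    rw [hw.out a b h, h0]

/-- the chain of the curve is supported on the segment and on the steps -/
lemma step_of_ne (hKv : St_Kv) (hcx : Cx I E par ly k) {u v : ℕ} (huv : E u v) {x y : ℕ}
    (h : kp I (rl I par k u) (rl I par k v) x y ≠ 0) (h1 : ¬ (u = x ∧ v = y))
    (h2 : ¬ (u = y ∧ v = x)) :
    (x ≠ hp I 0 ∧ y = pf I par x) ∨ (y ≠ hp I 0 ∧ x = pf I par y) := by
  classical
  obtain ⟨hu, hv, -⟩ := hcx.mx.lt u v huv
  rw [(hKv I E par ly k hcx).1 u v hu hv x y] at h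
  by_contra hc
  rw [not_or] at hc
  apply h
  unfold dl tc
  rw [if_neg h1, if_neg h2, if_neg (fun h3 => hc.1 ⟨h3.2.1, h3.2.2⟩),
    if_neg (fun h3 => hc.2 ⟨h3.2.1, h3.2.2⟩), if_neg (fun h3 => hc.1 ⟨h3.2.1, h3.2.2⟩),
    if_neg (fun h3 => hc.2 ⟨h3.2.1, h3.2.2⟩)]
  rfl

/-- the main tool: a nonnegative function of the weight, with the same value on both sides of the
segment, is zero -/
lemma key (hAp : St_Ap) (hCl : St_Cl) (hKv : St_Kv) (hTs : St_Ts) (hcx : Cx I E par ly k) {u v : ℕ}
    (huv : E u v) {w : ℕ → ℕ → ℤ} (hw : RI I E w)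
    (hk : ∀ x y, w x y - w y x = kp I (rl I par k u) (rl I par k v) x y)
    (φ : ℤ → ℤ) (h0 : φ 0 = 0) (hn : ∀ t, 0 ≤ φ t) (heq : φ (w u v) = φ (w v u)) (x y : ℕ) :
    φ (w x y) = 0 := by
  have hR := RI_comp hw φ h0
  have hC := hCl I hcx.good.real E hcx.mx _ hR
  have hz := hTs I E par ly k hcx _ hC (by
    intro x y hxy
    have h1 : ¬ (u = x ∧ v = y) := by
      rintro ⟨rfl, rfl⟩
      exact hxy (by rw [heq, sub_self])
    have h2 : ¬ (u = y ∧ v = x) := by
      rintro ⟨rfl, rfl⟩
      exact hxy (by rw [heq, sub_self])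
    refine step_of_ne hKv hcx huv ?_ h1 h2
    rw [← hk x y]
    intro hc
    apply hxy
    rw [sub_eq_zero] at hc ⊢
    rw [hc])
  exact hAp I hcx.good.real E hcx.mx _ hR (fun x y => hn _)
    (fun x y => sub_eq_zero.1 (hz x y)) x y

end IDi

open IDi in
/-- item Di -/
theorem pr_Di (hAp : St_Ap) (hCl : St_Cl) (hKv : St_Kv) (hTs : St_Ts) : St_Di := by
  intro I E par ly k hcx u v huv w hw hk
  -- no value at least `l`
  have up : ∀ l : ℤ, 1 ≤ l → (l ≤ w u v ↔ l ≤ w v u) → ∀ x y, w x y < l := by
    intro l hl heq x y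
    have h := key hAp hCl hKv hTs hcx huv hw hk (fun t => if l ≤ t then 1 else 0)
      (by rw [if_neg (by omega)]) (fun t => by split_ifs <;> norm_num)
      (by simp only [heq]) x y
    by_contra hc
    rw [if_pos (by omega)] at h
    exact one_ne_zero h
  -- no value smaller than `l`
  have lo : ∀ l : ℤ, l ≤ 0 → (w u v < l ↔ w v u < l) → ∀ x y, l ≤ w x y := by
    intro l hl heq x y
    have h := key hAp hCl hKv hTs hcx huv hw hk (fun t => if t < l then 1 else 0)
      (by rw [if_neg (by omega)]) (fun t => by split_ifs <;> norm_num)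
      (by simp only [heq]) x y
    by_contra hc
    rw [if_pos (by omega)] at h
    exact one_ne_zero h
  obtain ⟨hu, hv, huv'⟩ := hcx.mx.lt u v huv
  obtain ⟨-, k2, k3⟩ := hKv I E par ly k hcx
  have hkuv := hk u v
  by_cases h1 : u ≠ hp I 0 ∧ v = pf I par u
  · have e1 : w u v = w v u := by
      have := (k2 u hu h1.1 u v).1
      rw [← h1.2] at this
      rw [this] at hkuv
      omega
    have a1 := up 1 le_rfl (by rw [e1])
    have a2 := lo 0 le_rfl (by rw [e1])
    left
    refine ⟨?_, fun x y => Or.inl ?_⟩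
    · have := a1 v u
      have := a2 v u
      omega
    · have := a1 x y
      have := a2 x y
      omega
  · by_cases h2 : v ≠ hp I 0 ∧ u = pf I par v
    · have e1 : w u v = w v u := by
        have := (k2 v hv h2.1 u v).2
        rw [← h2.2] at this
        rw [this] at hkuv
        omega
      have a1 := up 1 le_rfl (by rw [e1])
      have a2 := lo 0 le_rfl (by rw [e1])
      left
      refine ⟨?_, fun x y => Or.inl ?_⟩
      · have := a1 v u
        have := a2 v u
        omega
      · have := a1 x y
        have := a2 x y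
        omega
    · rw [k3 u v hu hv huv' h1 h2] at hkuv
      rcases le_or_gt 0 (w v u) with ha | ha
      · have a0 := lo 0 le_rfl (by constructor <;> intro h <;> omega)
        have ha0 : w v u = 0 := by
          by_contra hc
          have := up 1 le_rfl (by constructor <;> intro h <;> omega) v u
          omega
        have a2 := up 2 (by norm_num) (by constructor <;> intro h <;> omega)
        left
        refine ⟨ha0, fun x y => ?_⟩
        have := a0 x y
        have := a2 x y
        omega
      · have a1 := up 1 le_rfl (by constructor <;> intro h <;> omega)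
        have ha1 : w v u = -1 := by
          by_contra hc
          have := lo 0 le_rfl (by constructor <;> intro h <;> omega) v u
          omega
        have a2 := lo (-1) (by norm_num) (by constructor <;> intro h <;> omega)
        right
        refine ⟨ha1, fun x y => ?_⟩
        have := a1 x y
        have := a2 x y
        omega

end Pool.Agent.Work.MP_c6c039_lc.CL
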