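import Pool.Agent.Work.MP_c6c039_lc.CL.StmtsS

/-! # Item Dl of block CL: chains of walks -/

set_option autoImplicit false

namespace Pool.Agent.Work.MP_c6c039_lc.CL

open Pool.Agent.Work.MP_c6c039_lc.FP Pool.Agent.Work.MP_c6c039_lc.NC

namespace IDl

/-- antisymmetry in the arguments -/
theorem dl_swap (u v x y : ℕ) : dl u v x y = - dl u v y x := by
  unfold dl
  ring

/-- antisymmetry in the edge -/
theorem dl_rev (u v x y : ℕ) : dl v u x y = - dl u v x y := by
  unfold dl
  have h1 : (if v = x ∧ u = y then (1 : ℤ) else 0) = if u = y ∧ v = x then 1 else 0 :=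
    if_congr and_comm rfl rfl
  have h2 : (if v = y ∧ u = x then (1 : ℤ) else 0) = if u = x ∧ v = y then 1 else 0 :=
    if_congr and_comm rfl rfl
  rw [h1, h2]
  ring

/-- the edge is `x y` or `y x` if the value is not `0` -/
theorem dl_ne (u v x y : ℕ) (h : dl u v x y ≠ 0) : (u = x ∧ v = y) ∨ (u = y ∧ v = x) := by
  by_contra hc
  rw [not_or] at hc
  apply h
  unfold dl
  rw [if_neg hc.1, if_neg hc.2, sub_zero]

/-- the first edge -/
theorem ch_cons (a b x y : ℕ) (l : List ℕ) :
    ch (a :: b :: l) x y = dl a b x y + ch (b :: l) x y := by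
  unfold ch ed
  simp

/-- one point -/
theorem ch_one (a x y : ℕ) : ch [a] x y = 0 := by
  unfold ch ed
  simp

/-- no point -/
theorem ch_nil (x y : ℕ) : ch [] x y = 0 := by
  unfold ch ed
  simp

/-- antisymmetry -/
theorem ch_swap (l : List ℕ) (x y : ℕ) : ch l x y = - ch l y x := by
  unfold ch
  induction ed l with
  | nil => simp
  | cons e L ih =>
    rw [List.map_cons, List.sum_cons, List.map_cons, List.sum_cons, ih, dl_swap e.1 e.2 x y]
    ring

/-- the ends of the edges are points -/
theorem ed_mem (l : List ℕ) (e : ℕ × ℕ) (h : e ∈ ed l) : e.1 ∈ l ∧ e.2 ∈ l := by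
  unfold ed at h
  obtain ⟨a, b⟩ := e
  have := List.of_mem_zip h
  exact ⟨this.1, List.mem_of_mem_tail this.2⟩

/-- value different from zero -/
theorem ch_ne (l : List ℕ) (x y : ℕ) (h : ch l x y ≠ 0) : (x, y) ∈ ed l ∨ (y, x) ∈ ed l := by
  by_contra hc
  rw [not_or] at hc
  apply h
  unfold ch
  apply List.sum_eq_zero
  intro z hz
  rw [List.mem_map] at hz
  obtain ⟨e, he, rfl⟩ := hz
  by_contra hne
  rcases dl_ne _ _ _ _ hne with ⟨h1, h2⟩ | ⟨h1, h2⟩
  · exact hc.1 (by rw [← h1, ← h2]; exact he)
  · exact hc.2 (by rw [← h1, ← h2]; exact he)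

/-- outside the list -/
theorem ch_out (l : List ℕ) (x y : ℕ) (h : x ∉ l ∨ y ∉ l) : ch l x y = 0 := by
  by_contra hne
  rcases ch_ne l x y hne with h1 | h1
  · have := ed_mem l _ h1
    rcases h with h | h
    · exact h this.1
    · exact h this.2
  · have := ed_mem l _ h1
    rcases h with h | h
    · exact h this.2
    · exact h this.1

/-- the last edge -/
theorem ch_last (a b x y : ℕ) (l : List ℕ) :
    ch (l ++ [a, b]) x y = ch (l ++ [a]) x y + dl a b x y := by
  induction l with
  | nil =>
    rw [List.nil_append, List.nil_append, ch_cons, ch_one, ch_one]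
    ring
  | cons c l ih =>
    cases l with
    | nil =>
      simp only [List.cons_append, List.nil_append]
      rw [ch_cons c a x y [b], ch_cons a b x y [], ch_cons c a x y [], ch_one b, ch_one a]
      ring
    | cons d l =>
      simp only [List.cons_append] at ih ⊢
      rw [ch_cons, ih, ch_cons]
      ring

/-- the reversed walk -/
theorem ch_reverse (l : List ℕ) (x y : ℕ) : ch l.reverse x y = - ch l x y := by
  induction l with
  | nil =>
    rw [List.reverse_nil, ch_nil, neg_zero]
  | cons a l ih =>
    cases l with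
    | nil =>
      rw [List.reverse_singleton, ch_one, neg_zero]
    | cons b l =>
      have h1 : (a :: b :: l).reverse = l.reverse ++ [b, a] := by
        simp
      have h2 : (b :: l).reverse = l.reverse ++ [b] := by
        simp
      rw [h1, ch_last, ← h2, ih, ch_cons, dl_rev a b x y]
      ring

/-- an edge of a list without repetitions -/
theorem ch_edge (l : List ℕ) (x y : ℕ) (hl : l.Nodup) (h : (x, y) ∈ ed l) : ch l x y = 1 := by
  induction l with
  | nil =>
    unfold ed at h
    simp at h
  | cons a l ih =>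
    cases l with
    | nil =>
      unfold ed at h
      simp at h
    | cons b t =>
      have hed : ed (a :: b :: t) = (a, b) :: ed (b :: t) := rfl
      rw [hed, List.mem_cons] at h
      have hl' := List.nodup_cons.1 hl
      have hab : a ≠ b := fun e => hl'.1 (by rw [e]; exact List.mem_cons_self)
      rw [ch_cons]
      rcases h with h | h
      · rw [Prod.mk.injEq] at h
        obtain ⟨rfl, rfl⟩ := h
        rw [ch_out (y :: t) x y (Or.inl hl'.1)]
        unfold dl
        rw [if_pos ⟨rfl, rfl⟩, if_neg (fun e => hab e.1)]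
        ring
      · have hm := ed_mem _ _ h
        have hx : a ≠ x := fun e => hl'.1 (by rw [e]; exact hm.1)
        have hy : a ≠ y := fun e => hl'.1 (by rw [e]; exact hm.2)
        rw [ih hl'.2 h]
        unfold dl
        rw [if_neg (fun e => hx e.1), if_neg (fun e => hy e.1)]
        ring

end IDl

/-- Dl. -/
theorem pr_Dl : St_Dl :=
  ⟨fun u v x y => ⟨IDl.dl_swap u v x y, IDl.dl_rev u v x y⟩,
    fun a b x y l => IDl.ch_cons a b x y l,
    fun l x y => ⟨IDl.ch_swap l x y, IDl.ch_out l x y, IDl.ch_reverse l x y⟩,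
    fun l x y hl => ⟨IDl.ch_edge l x y hl, IDl.ch_ne l x y⟩⟩

end Pool.Agent.Work.MP_c6c039_lc.CL
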