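import Pool.Agent.Work.MP_c6c039_lc.CL.StmtsG

/-!
# Block CL, item Em: existence of a maximal noncrossing set containing a path
-/

set_option autoImplicit false

namespace Pool.Agent.Work.MP_c6c039_lc.CL

open Pool.Agent.Work.MP_c6c039_lc.FP Pool.Agent.Work.MP_c6c039_lc.NC

namespace IEm

/-- the admissible sets of pairs -/
structure Ad (I : In) (l : List ℕ) (S : Finset (ℕ × ℕ)) : Prop where
  lt : ∀ a b, (a, b) ∈ S → a < nn I ∧ b < nn I ∧ a ≠ b
  sym : ∀ a b, (a, b) ∈ S → (b, a) ∈ S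
  nc : ∀ a b c d, (a, b) ∈ S → (c, d) ∈ S → Ds I [a, b, c, d] → cr I a b c d = false
  ed : ∀ e ∈ ed l, e ∈ S

theorem ds_iff (I : In) (a b c d : ℕ) : Ds I [a, b, c, d] ↔
    (a ≠ b ∧ a ≠ c ∧ a ≠ d ∧ b ≠ c ∧ b ≠ d ∧ c ≠ d) ∧
      a < nn I ∧ b < nn I ∧ c < nn I ∧ d < nn I := by
  unfold Ds
  simp only [List.nodup_cons, List.mem_cons, List.not_mem_nil, or_false, not_or, not_false_eq_true,
    and_true, List.nodup_nil, forall_eq_or_imp, forall_eq]
  tauto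

theorem ds_swap (I : In) (a b c d : ℕ) (h : Ds I [a, b, c, d]) : Ds I [b, a, c, d] := by
  rw [ds_iff] at h ⊢
  obtain ⟨⟨h1, h2, h3, h4, h5, h6⟩, h7, h8, h9, h10⟩ := h
  exact ⟨⟨h1.symm, h4, h5, h2, h3, h6⟩, h8, h7, h9, h10⟩

theorem ds_rot (I : In) (a b c d : ℕ) (h : Ds I [a, b, c, d]) : Ds I [c, d, a, b] := by
  rw [ds_iff] at h ⊢
  obtain ⟨⟨h1, h2, h3, h4, h5, h6⟩, h7, h8, h9, h10⟩ := h
  exact ⟨⟨h6, h2.symm, h4.symm, h3.symm, h5.symm, h1⟩, h9, h10, h7, h8⟩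

theorem ds_dj (I : In) (a b c d : ℕ) (h : Ds I [a, b, c, d]) : dj (a, b) (c, d) := by
  rw [ds_iff] at h
  exact ⟨h.1.2.1, h.1.2.2.1, h.1.2.2.2.1, h.1.2.2.2.2.1⟩

theorem mem_ed (l : List ℕ) (e : ℕ × ℕ) (h : e ∈ ed l) : e.1 ∈ l ∧ e.2 ∈ l := by
  unfold NC.ed at h
  have h1 := List.of_mem_zip (show (e.1, e.2) ∈ l.zip l.tail from h)
  exact ⟨h1.1, List.mem_of_mem_tail h1.2⟩

/-- the edges of the path in both directions -/
def S0 (l : List ℕ) : Finset (ℕ × ℕ) :=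
  (ed l).toFinset ∪ ((ed l).map Prod.swap).toFinset

theorem mem_S0 (l : List ℕ) (a b : ℕ) : (a, b) ∈ S0 l ↔ (a, b) ∈ ed l ∨ (b, a) ∈ ed l := by
  unfold S0
  rw [Finset.mem_union, List.mem_toFinset, List.mem_toFinset, List.mem_map]
  constructor
  · rintro (h | ⟨⟨x, y⟩, h, h'⟩)
    · exact Or.inl h
    · right
      have h1 : y = a := congrArg Prod.fst h'
      have h2 : x = b := congrArg Prod.snd h'
      rw [← h1, ← h2]
      exact h
  · rintro (h | h)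
    · exact Or.inl h
    · exact Or.inr ⟨(b, a), h, rfl⟩

theorem ad0 (hCs : FP.St_Cs) (hNc : NC.St_Nc) (I : In) (hI : CH I) (l : List ℕ) (hl : SP I l) :
    Ad I l (S0 l) := by
  have h1 := (hNc I l hl.nodup).1.1 hl.nc
  have h2 := (hNc I l hl.nodup).2.1 hl.alt
  refine ⟨fun a b h => ?_, fun a b h => ?_, fun a b c d hab hcd hd => ?_, fun e he => ?_⟩
  · rw [mem_S0] at h
    rcases h with h | h
    · have h3 := mem_ed l _ h
      exact ⟨(hl.span a).1 h3.1, (hl.span b).1 h3.2, fun hab => h2 _ h (by rw [hab])⟩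
    · have h3 := mem_ed l _ h
      exact ⟨(hl.span a).1 h3.2, (hl.span b).1 h3.1, fun hab => h2 _ h (by rw [hab])⟩
  · rw [mem_S0] at h ⊢
    exact h.symm
  · rw [mem_S0] at hab hcd
    have hc := hCs I hI a b c d hd
    rcases hab with hab | hab
    · rcases hcd with hcd | hcd
      · exact h1 _ hab _ hcd (ds_dj I a b c d hd)
      · rw [← hc.2.1]
        have hd' : Ds I [a, b, d, c] := ds_rot I _ _ _ _ (ds_swap I _ _ _ _ (ds_rot I _ _ _ _ hd))
        exact h1 _ hab _ hcd (ds_dj I a b d c hd')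
    · rcases hcd with hcd | hcd
      · rw [← hc.1]
        exact h1 _ hab _ hcd (ds_dj I b a c d (ds_swap I _ _ _ _ hd))
      · have hd' : Ds I [b, a, c, d] := ds_swap I _ _ _ _ hd
        have hd'' : Ds I [b, a, d, c] :=
          ds_rot I _ _ _ _ (ds_swap I _ _ _ _ (ds_rot I _ _ _ _ hd'))
        rw [← hc.1, ← (hCs I hI b a c d hd').2.1]
        exact h1 _ hab _ hcd (ds_dj I b a d c hd'')
  · rw [show e = (e.1, e.2) from rfl, mem_S0]
    exact Or.inl he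

/-- adding a segment which crosses none -/
theorem ad_insert (hCs : FP.St_Cs) (I : In) (hI : CH I) (l : List ℕ) (S : Finset (ℕ × ℕ))
    (hS : Ad I l S) (a b : ℕ) (ha : a < nn I) (hb : b < nn I) (hab : a ≠ b)
    (h : ∀ c d, (c, d) ∈ S → Ds I [a, b, c, d] → cr I a b c d = false) :
    Ad I l (insert (a, b) (insert (b, a) S)) := by
  have hmem : ∀ x y, (x, y) ∈ insert (a, b) (insert (b, a) S) ↔
      (x = a ∧ y = b) ∨ (x = b ∧ y = a) ∨ (x, y) ∈ S := by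
    intro x y
    rw [Finset.mem_insert, Finset.mem_insert, Prod.mk.injEq, Prod.mk.injEq]
  have h' : ∀ c d, (c, d) ∈ S → Ds I [b, a, c, d] → cr I b a c d = false := by
    intro c d hcd hd
    rw [← (hCs I hI b a c d hd).1]
    exact h c d hcd (ds_swap I _ _ _ _ hd)
  refine ⟨fun x y hxy => ?_, fun x y hxy => ?_, fun x y z w hxy hzw hd => ?_, fun e he => ?_⟩
  · rcases (hmem x y).1 hxy with ⟨h1, h2⟩ | ⟨h1, h2⟩ | h1
    · rw [h1, h2]
      exact ⟨ha, hb, hab⟩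
    · rw [h1, h2]
      exact ⟨hb, ha, hab.symm⟩
    · exact hS.lt x y h1
  · rw [hmem]
    rcases (hmem x y).1 hxy with ⟨h1, h2⟩ | ⟨h1, h2⟩ | h1
    · exact Or.inr (Or.inl ⟨h2, h1⟩)
    · exact Or.inl ⟨h2, h1⟩
    · exact Or.inr (Or.inr (hS.sym x y h1))
  · have hd1 := (ds_iff I x y z w).1 hd
    have hrot : cr I x y z w = cr I z w x y := (hCs I hI x y z w hd).2.2.symm
    rcases (hmem x y).1 hxy with ⟨h1, h2⟩ | ⟨h1, h2⟩ | h1
    · rcases (hmem z w).1 hzw with ⟨h3, h4⟩ | ⟨h3, h4⟩ | h3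
      · exact absurd (h1.trans h3.symm) hd1.1.2.1
      · exact absurd (h1.trans h4.symm) hd1.1.2.2.1
      · rw [h1, h2] at hd ⊢
        exact h z w h3 hd
    · rcases (hmem z w).1 hzw with ⟨h3, h4⟩ | ⟨h3, h4⟩ | h3
      · exact absurd (h1.trans h4.symm) hd1.1.2.2.1
      · exact absurd (h1.trans h3.symm) hd1.1.2.1
      · rw [h1, h2] at hd ⊢
        exact h' z w h3 hd
    · rcases (hmem z w).1 hzw with ⟨h3, h4⟩ | ⟨h3, h4⟩ | h3
      · rw [hrot, h3, h4]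
        rw [h3, h4] at hd
        exact h x y h1 (ds_rot I _ _ _ _ hd)
      · rw [hrot, h3, h4]
        rw [h3, h4] at hd
        exact h' x y h1 (ds_rot I _ _ _ _ hd)
      · exact hS.nc x y z w h1 h3 hd
  · exact Finset.mem_insert_of_mem (Finset.mem_insert_of_mem (hS.ed e he))

theorem exists_max (I : In) (l : List ℕ) (S1 : Finset (ℕ × ℕ)) (h1 : Ad I l S1) :
    ∃ S, Ad I l S ∧ ∀ S', Ad I l S' → S'.card ≤ S.card := by
  classical
  have hsub : ∀ S, Ad I l S → S ∈ (Finset.range (nn I) ×ˢ Finset.range (nn I)).powerset := by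
    intro S hS
    rw [Finset.mem_powerset]
    rintro ⟨a, b⟩ hab
    rw [Finset.mem_product, Finset.mem_range, Finset.mem_range]
    exact ⟨(hS.lt a b hab).1, (hS.lt a b hab).2.1⟩
  obtain ⟨S, hS, hmax⟩ := Finset.exists_max_image
    ((Finset.range (nn I) ×ˢ Finset.range (nn I)).powerset.filter fun S => Ad I l S)
    Finset.card ⟨S1, Finset.mem_filter.2 ⟨hsub S1 h1, h1⟩⟩
  exact ⟨S, (Finset.mem_filter.1 hS).2, fun S' hS' =>
    hmax S' (Finset.mem_filter.2 ⟨hsub S' hS', hS'⟩)⟩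

end IEm

open IEm in
theorem pr_Em (hSy : FP.St_Sy) (hCs : FP.St_Cs) (hNc : NC.St_Nc) : St_Em := by
  intro I hI l hl
  obtain ⟨S, hS, hmax⟩ := exists_max I l (S0 l) (ad0 hCs hNc I (hSy I hI) l hl)
  refine ⟨fun a b => (a, b) ∈ S, ⟨hS.lt, hS.sym, hS.nc, fun a b ha hb hab h => ?_⟩,
    fun e he => hS.ed e he⟩
  by_contra hn
  have h1 := hmax _ (ad_insert hCs I (hSy I hI) l S hS a b ha hb hab h)
  have h2 : S ⊂ insert (a, b) (insert (b, a) S) := by
    rw [Finset.ssubset_iff_of_subset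
      ((Finset.subset_insert _ _).trans (Finset.subset_insert _ _))]
    exact ⟨(a, b), Finset.mem_insert_self _ _, hn⟩
  exact absurd (Finset.card_lt_card h2) (not_lt.2 h1)

end Pool.Agent.Work.MP_c6c039_lc.CL
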