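import Pool.Agent.Work.MP_c6c039_lc.CL.StmtsS

/-! # Item Er of block CL: a new step of a route is on the boundary -/

set_option autoImplicit false

namespace Pool.Agent.Work.MP_c6c039_lc.CL

open Pool.Agent.Work.MP_c6c039_lc.FP Pool.Agent.Work.MP_c6c039_lc.NC

namespace IEr

theorem ed_cc (a b : ℕ) (l : List ℕ) : ed (a :: b :: l) = (a, b) :: ed (b :: l) := by
  simp [ed]

/-- the edges of an initial part -/
theorem ed_app (l l' : List ℕ) (e : ℕ × ℕ) (h : e ∈ ed l) : e ∈ ed (l ++ l') := by
  induction l with
  | nil => simp [ed] at h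
  | cons a l ih =>
    cases l with
    | nil => simp [ed] at h
    | cons b l =>
      rw [ed_cc] at h
      show e ∈ ed (a :: b :: (l ++ l'))
      rw [ed_cc]
      rcases List.mem_cons.1 h with h | h
      · exact List.mem_cons.2 (Or.inl h)
      · exact List.mem_cons.2 (Or.inr (ih h))

/-- the first vertex of an edge is not the last vertex of the list -/
theorem ed_idx (l : List ℕ) (x y : ℕ) (h : (x, y) ∈ ed l) :
    ∃ i, i + 1 < l.length ∧ l.getD i 0 = x := by
  induction l with
  | nil => simp [ed] at h
  | cons a l ih =>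
    cases l with
    | nil => simp [ed] at h
    | cons b l =>
      rw [ed_cc] at h
      rcases List.mem_cons.1 h with h | h
      · exact ⟨0, by simp, by simpa using (Prod.mk.inj h).1.symm⟩
      · obtain ⟨i, hi, hx⟩ := ih h
        exact ⟨i + 1, by simpa using hi, by simpa using hx⟩

theorem mem_getD (l : List ℕ) (x : ℕ) (h : x ∈ l) : ∃ i, i < l.length ∧ l.getD i 0 = x := by
  obtain ⟨i, hi, rfl⟩ := List.getElem_of_mem h
  exact ⟨i, hi, List.getD_eq_getElem _ _ hi⟩

theorem getLastD_eq (l : List ℕ) : l.getLastD 0 = l.getD (l.length - 1) 0 := by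
  rw [List.getLastD_eq_getLast?, List.getLast?_eq_getElem?, List.getD_eq_getElem?_getD]

/-- a point is not among the elements before its first occurrence -/
theorem not_mem_take (l : List ℕ) (v : ℕ) : v ∉ l.take (px l v) := by
  unfold px
  induction l with
  | nil => simp
  | cons a l ih =>
    rw [List.idxOf_cons]
    by_cases h : a = v
    · simp [h]
    · have h' : (a == v) = false := by simpa using h
      rw [h']
      simp only [cond_false, List.take_succ_cons, List.mem_cons, not_or]
      exact ⟨fun hh => h hh.symm, ih⟩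

theorem headD_mem (l : List ℕ) (h : l ≠ []) : l.headD 0 ∈ l := by
  cases l with
  | nil => exact absurd rfl h
  | cons a l => simp

end IEr

open IEr in
theorem pr_Er (hSy : FP.St_Sy) (hHl : FP.St_Hl) (hRv : St_Rv) (hDl : St_Dl) : St_Er := by
  intro I hI A C hA hC x y hxy hxA
  obtain ⟨hA0, hAn, hAh⟩ := (hRv I A).1 hA
  obtain ⟨hC0, hCn, hCh⟩ := (hRv I C).1 hC
  obtain ⟨-, -, hD3, hD4⟩ := hDl
  have hCHI : CH I := hSy I hI.real
  obtain ⟨hun, -, -⟩ := hHl I hCHI hI.hull
  -- the point is not on the hull
  have hxhu : x ∉ hu I := by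
    obtain ⟨i, hi, hix⟩ := ed_idx _ _ _ hxy
    intro hx
    rw [← hix] at hx
    have := (hCh i (by omega)).1 hx
    omega
  -- the first chain
  have h1 : ch (fr I (vs A)) x y = 0 := by
    refine (hD3 (fr I (vs A)) x y).2.1 (Or.inl ?_)
    unfold fr
    intro hx
    rcases List.mem_append.1 hx with h | h
    · exact hxA h
    · exact hxhu (List.mem_of_mem_take (List.mem_reverse.1 h))
  -- the second chain
  have h2 : ch (fr I (vs C)) x y = 1 := by
    refine (hD4 (fr I (vs C)) x y ?_).1 (ed_app _ _ _ hxy)
    unfold fr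
    refine List.Nodup.append hCn (List.nodup_reverse.2 ((List.take_sublist _ _).nodup hun)) ?_
    intro z hz hz'
    have hz2 := List.mem_reverse.1 hz'
    obtain ⟨i, hi, hiz⟩ := mem_getD _ _ hz
    have hzh : z ∈ hu I := List.mem_of_mem_take hz2
    rw [← hiz] at hzh
    have hi' := (hCh i hi).1 hzh
    have hlast : (vs C).getLastD 0 = z := by
      rw [getLastD_eq, ← hiz]
      have : (vs C).length - 1 = i := by omega
      rw [this]
    rw [hlast] at hz2
    exact not_mem_take _ _ hz2
  have hAx : hd A ≠ x := by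
    intro h
    apply hxA
    rw [← h]
    exact headD_mem _ hA0
  by_cases hc : x = hd C ∧ y = hd A
  · exact Or.inr hc
  · left
    have hk1 : dl ((vs A).headD 0) ((vs C).headD 0) x y = 0 := by
      unfold dl
      rw [if_neg (fun h => hAx h.1), if_neg (fun h => hc ⟨h.2.symm, h.1.symm⟩), sub_zero]
    have hk2 : dl ((vs C).headD 0) ((vs A).headD 0) x y = 0 := by
      unfold dl
      rw [if_neg (fun h => hc ⟨h.1.symm, h.2.symm⟩), if_neg (fun h => hAx h.2), sub_zero]
    unfold kp
    rw [h1, h2, hk1, hk2]
    constructor <;> norm_num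

end Pool.Agent.Work.MP_c6c039_lc.CL
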