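import Pool.Agent.Work.MP_c6c039_lc.CL.StmtsS

/-!
# Item Fa of the block CL: the fan
-/

set_option autoImplicit false

namespace Pool.Agent.Work.MP_c6c039_lc.CL

open Pool.Agent.PT Pool.Agent.Work.MP_c6c039_lc.FP Pool.Agent.Work.MP_c6c039_lc.NC

namespace IFa

theorem dl_anti (u v x y : ℕ) : dl v u x y = - dl u v x y := by
  unfold dl
  have e1 : (v = x ∧ u = y) ↔ (u = y ∧ v = x) := and_comm
  have e2 : (v = y ∧ u = x) ↔ (u = x ∧ v = y) := and_comm
  rw [if_congr e1 rfl rfl, if_congr e2 rfl rfl]
  ring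

theorem ch_cons (a b : ℕ) (l : List ℕ) (x y : ℕ) :
    ch (a :: b :: l) x y = dl a b x y + ch (b :: l) x y := by
  unfold ch ed
  simp

theorem ch_sum (l : List ℕ) (x y : ℕ) :
    ch l x y = ∑ j ∈ Finset.range (l.length - 1), dl (l.getD j 0) (l.getD (j + 1) 0) x y := by
  induction l with
  | nil => simp [ch, ed]
  | cons a t ih =>
    cases t with
    | nil => simp [ch, ed]
    | cons b t =>
      rw [ch_cons, ih]
      have e1 : (a :: b :: t).length - 1 = ((b :: t).length - 1) + 1 := by simp
      rw [e1, Finset.sum_range_succ', add_comm]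
      rfl

/-- telescoping -/
theorem tel (h : ℕ → ℕ) (x y n : ℕ) :
    ((List.range n).map fun j => dl (h 0) (h (j + 1)) x y +
      (dl (h (j + 1)) (h (j + 2)) x y + dl (h (j + 2)) (h 0) x y)).sum =
    dl (h (n + 1)) (h 0) x y + ∑ j ∈ Finset.range (n + 1), dl (h j) (h (j + 1)) x y := by
  induction n with
  | zero =>
    simp only [List.range_zero, List.map_nil, List.sum_nil, zero_add, Finset.range_one,
      Finset.sum_singleton]
    rw [dl_anti (h 0) (h 1)]
    ring
  | succ k ih =>
    rw [List.range_succ, List.map_append, List.sum_append, ih, Finset.sum_range_succ _ (k + 1)]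
    simp only [List.map_cons, List.map_nil, List.sum_cons, List.sum_nil, add_zero]
    rw [dl_anti (h 0) (h (k + 1))]
    ring

open Classical in
/-- at most one -/
theorem one (p : ℕ → Prop) (n : ℕ) (hp : ∀ i j, i < j → j < n → p i → p j → False) :
    ((List.range n).map fun j => if p j then (1 : ℤ) else 0).sum ≤ 1 ∧
      ((∀ j, j < n → ¬ p j) → ((List.range n).map fun j => if p j then (1 : ℤ) else 0).sum = 0) := by
  induction n with
  | zero => simp
  | succ k ih =>
    obtain ⟨h1, h2⟩ := ih fun i j hij hj => hp i j hij (by omega)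
    rw [List.range_succ, List.map_append, List.sum_append]
    simp only [List.map_cons, List.map_nil, List.sum_cons, List.sum_nil, add_zero]
    constructor
    · by_cases hk : p k
      · rw [if_pos hk, h2 fun j hj hpj => hp j k hj (by omega) hpj hk]
        norm_num
      · rw [if_neg hk]
        linarith
    · intro h
      rw [if_neg (h k (by omega)), h2 fun j hj => h j (by omega)]
      norm_num

/-- the geometry -/
theorem geo (c1 c2 u1 u2 v1 v2 w1 w2 : ℝ) (h1 : 0 < c1 * u2 - c2 * u1) (_h2 : 0 < c1 * v2 - c2 * v1)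
    (h3 : 0 < u1 * v2 - u2 * v1) (h4 : u1 * w2 - u2 * w1 < 0) (h5 : 0 < v1 * w2 - v2 * w1)
    (h6 : 0 < c1 * w2 - c2 * w1) : False := by
  have e : (c1 * v2 - c2 * v1) * (u1 * w2 - u2 * w1) =
      (c1 * u2 - c2 * u1) * (v1 * w2 - v2 * w1) + (c1 * w2 - c2 * w1) * (u1 * v2 - u2 * v1) := by
    ring
  have a1 := mul_pos h1 h5
  have a2 := mul_pos h6 h3
  have a3 := mul_neg_of_pos_of_neg _h2 h4
  linarith

end IFa

open IFa in
theorem pr_Fa (hSy : FP.St_Sy) (hHC : FP.St_HC) (hHs : St_Hs) : St_Fa := by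
  intro I hI hn
  have C := hSy I hI.real
  have H := hHC I hI (by omega)
  obtain ⟨hm, hs⟩ := hHs I hI hn
  refine ⟨?_, ?_, ?_⟩
  · intro t ht
    unfold fan at ht
    rw [List.mem_map] at ht
    obtain ⟨j, hj, rfl⟩ := ht
    rw [List.mem_range] at hj
    exact ⟨⟨H.lt _, H.lt _, H.lt _⟩, H.cyc 0 (j + 1) (j + 2) (by omega) (by omega) (by omega)⟩
  · intro x y
    unfold bd fan
    rw [List.map_map]
    have h1 := tel (hp I) x y (mm I - 2)
    have e1 : mm I - 2 + 1 = mm I - 1 := by omega
    rw [e1] at h1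
    unfold hb
    rw [ch_sum]
    refine Eq.trans (Eq.trans ?_ h1) ?_
    · rfl
    · congr 1
      apply Finset.sum_congr rfl
      intro j hj
      rw [Finset.mem_range] at hj
      have e2 : hp I j = (hu I).getD j 0 := by
        unfold hp
        rw [Nat.mod_eq_of_lt (by omega)]
      have e3 : hp I (j + 1) = (hu I).getD (j + 1) 0 := by
        unfold hp
        rw [Nat.mod_eq_of_lt (by omega)]
      rw [e2, e3]
  · intro X Y z hRL
    classical
    unfold mz fan
    rw [List.map_map]
    have key := (one (fun j => iz X Y (hp I 0, (hp I (j + 1), hp I (j + 2))) z) (mm I - 2) ?_).1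
    · exact key
    · intro i j hij hj hi hj'
      obtain ⟨a1, a2, a3⟩ := hi
      obtain ⟨b1, b2, b3⟩ := hj'
      have pos : ∀ p q r : ℕ, p < q → q < r → r < mm I →
          0 < ar X Y (hp I p) (hp I q) (hp I r) := fun p q r h1 h2 h3 =>
        (hRL.1 _ _ _ (H.lt p) (H.lt q) (H.lt r)).mp (H.cyc p q r h1 h2 (by omega))
      simp only [az] at a1 a3 b1
      rcases Nat.lt_or_ge (i + 2) (j + 1) with hlt | hge
      · have c1 := pos 0 (i + 1) (i + 2) (by omega) (by omega) (by omega)
        have c2 := pos 0 (i + 1) (j + 1) (by omega) (by omega) (by omega)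
        have c3 := pos 0 (i + 2) (j + 1) (by omega) (by omega) (by omega)
        simp only [ar] at c1 c2 c3
        refine geo _ _ _ _ _ _ (z.1 - X (hp I 0)) (z.2 - Y (hp I 0)) c1 c2 c3 ?_ b1 a1
        nlinarith
      · have e : i + 2 = j + 1 := by omega
        rw [e] at a3
        nlinarith

end Pool.Agent.Work.MP_c6c039_lc.CL
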