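import Pool.Agent.Work.MP_c6c039_lc.CL.StmtsS

/-!
# Item Fc of the block CL: every inner point is inside a triangle of the fan
-/

set_option autoImplicit false

namespace Pool.Agent.Work.MP_c6c039_lc.CL

open Pool.Agent.PT Pool.Agent.Work.MP_c6c039_lc.FP Pool.Agent.Work.MP_c6c039_lc.NC

namespace IFc

/-- the last place where a property holds -/
theorem last (P : ℕ → Prop) (h1 : P 1) (n : ℕ) (hn : ¬ P (n + 1)) (hn1 : 1 ≤ n + 1) :
    ∃ j, 1 ≤ j ∧ j ≤ n ∧ P j ∧ ¬ P (j + 1) := by
  induction n with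
  | zero => exact absurd h1 hn
  | succ k ih =>
    by_cases hk : P (k + 1)
    · exact ⟨k + 1, by omega, le_rfl, hk, hn⟩
    · obtain ⟨j, a, b, c, d⟩ := ih hk (by omega)
      exact ⟨j, a, by omega, c, d⟩

end IFc

open IFc in
theorem pr_Fc (hSy : FP.St_Sy) (hHC : FP.St_HC) (hHs : St_Hs) : St_Fc := by
  intro I hI hn X Y hRL w hw hext
  have C := hSy I hI.real
  have H := hHC I hI (by omega)
  obtain ⟨hm, hs⟩ := hHs I hI hn
  have hne : ∀ j, w ≠ hp I j := by
    intro j h
    have := H.ex j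
    rw [← h, hext] at this
    exact Bool.false_ne_true this
  have hside : ∀ j, chi I (hp I j) (hp I (j + 1)) w = true := fun j =>
    hs j w hw (hne j) (hne (j + 1))
  have hanti : ∀ a, 0 < a → a < mm I → chi I (hp I a) (hp I 0) w = !chi I (hp I 0) (hp I a) w := by
    intro a ha ham
    apply C.anti
    refine ⟨?_, ?_⟩
    · have h1 : hp I 0 ≠ hp I a := H.inj 0 a ha (by omega)
      simp only [List.nodup_cons, List.mem_cons, List.not_mem_nil, or_false, not_or,
        not_false_eq_true, List.nodup_nil, and_true]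
      exact ⟨⟨h1, (hne 0).symm⟩, (hne a).symm⟩
    · intro x hx
      simp only [List.mem_cons, List.not_mem_nil, or_false] at hx
      rcases hx with h | h | h
      · rw [h]; exact H.lt 0
      · rw [h]; exact H.lt a
      · rw [h]; exact hw
  have hlast : ¬ chi I (hp I 0) (hp I (mm I - 2 + 1)) w = true := by
    have e1 : mm I - 2 + 1 = mm I - 1 := by omega
    rw [e1]
    have h1 := hside (mm I - 1)
    have e2 : mm I - 1 + 1 = 0 + mm I := by omega
    rw [e2, H.per 0, hanti (mm I - 1) (by omega) (by omega)] at h1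
    intro h2
    rw [h2] at h1
    exact Bool.false_ne_true h1
  obtain ⟨j, hj1, hj2, hj3, hj4⟩ := last (fun j => chi I (hp I 0) (hp I j) w = true)
    (hside 0) (mm I - 2) hlast (by omega)
  obtain ⟨i, rfl⟩ : ∃ i, j = i + 1 := ⟨j - 1, by omega⟩
  refine ⟨(hp I 0, (hp I (i + 1), hp I (i + 2))), ?_, ?_, ?_, ?_⟩
  · unfold fan
    rw [List.mem_map]
    exact ⟨i, List.mem_range.mpr (by omega), rfl⟩
  · exact (hRL.1 _ _ _ (H.lt 0) (H.lt (i + 1)) hw).mp hj3
  · exact (hRL.1 _ _ _ (H.lt (i + 1)) (H.lt (i + 2)) hw).mp (hside (i + 1))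
  · have h1 : chi I (hp I (i + 2)) (hp I 0) w = true := by
      rw [hanti (i + 2) (by omega) (by omega)]
      have h2 : ¬ chi I (hp I 0) (hp I (i + 2)) w = true := hj4
      rw [Bool.not_eq_true] at h2
      rw [h2]
      rfl
    exact (hRL.1 _ _ _ (H.lt (i + 2)) (H.lt 0) hw).mp h1

end Pool.Agent.Work.MP_c6c039_lc.CL
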