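import Pool.Agent.Work.MP_c6c039_lc.CL.StmtsW

/-!
# Item Fn of block CL: the fan between two neighbours of a point (helper2)
-/

set_option autoImplicit false

namespace Pool.Agent.Work.MP_c6c039_lc.CL

open Pool.Agent.Work.MP_c6c039_lc.FP Pool.Agent.Work.MP_c6c039_lc.NC

namespace IFn

theorem pl (X Y : ℕ → ℝ) (z a p q b : ℕ) :
    ar X Y z a q * ar X Y z p b = ar X Y z a p * ar X Y z q b + ar X Y z a b * ar X Y z p q := by
  unfold ar
  ring

/-- the closed cone -/
def Cn (I : In) (z a b u : ℕ) : Prop :=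
  u < nn I ∧ (u = a ∨ u = b ∨ (chi I z a u = true ∧ chi I z u b = true))

section

variable {I : In} {X Y : ℕ → ℝ}
  (hc : ∀ a b c, a < nn I → b < nn I → c < nn I → (chi I a b c = true ↔ 0 < ar X Y a b c))

include hc

theorem t1 {z a p q b : ℕ} (hz : z < nn I) (ha : a < nn I) (hp : p < nn I) (hq : q < nn I)
    (hb : b < nn I) (h1 : chi I z a p = true) (h2 : chi I z p q = true)
    (h3 : chi I z a q = true) (h4 : chi I z q b = true) (h5 : chi I z a b = true) :
    chi I z p b = true := by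
  rw [hc z p b hz hp hb]
  rw [hc z a p hz ha hp] at h1
  rw [hc z p q hz hp hq] at h2
  rw [hc z a q hz ha hq] at h3
  rw [hc z q b hz hq hb] at h4
  rw [hc z a b hz ha hb] at h5
  have h := pl X Y z a p q b
  have h6 : 0 < ar X Y z a q * ar X Y z p b := by
    rw [h]
    exact add_pos (mul_pos h1 h4) (mul_pos h5 h2)
  exact (mul_pos_iff_of_pos_left h3).1 h6

theorem t2 {z a p q b : ℕ} (hz : z < nn I) (ha : a < nn I) (hp : p < nn I) (hq : q < nn I)
    (hb : b < nn I) (h1 : chi I z a p = true) (h2 : chi I z p q = true)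
    (h3 : chi I z p b = true) (h4 : chi I z q b = true) (h5 : chi I z a b = true) :
    chi I z a q = true := by
  rw [hc z a q hz ha hq]
  rw [hc z a p hz ha hp] at h1
  rw [hc z p q hz hp hq] at h2
  rw [hc z p b hz hp hb] at h3
  rw [hc z q b hz hq hb] at h4
  rw [hc z a b hz ha hb] at h5
  have h := pl X Y z a p q b
  have h6 : 0 < ar X Y z p b * ar X Y z a q := by
    rw [mul_comm, h]
    exact add_pos (mul_pos h1 h4) (mul_pos h5 h2)
  exact (mul_pos_iff_of_pos_left h3).1 h6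

theorem irr {z u : ℕ} (hz : z < nn I) (hu : u < nn I) : ¬ chi I z u u = true := by
  rw [hc z u u hz hu hu]
  have h : ar X Y z u u = 0 := by
    unfold ar
    ring
  rw [h]
  exact lt_irrefl _

theorem cl {z a x b u : ℕ} (hz : z < nn I) (ha : a < nn I) (hx : x < nn I) (hb : b < nn I)
    (h1 : chi I z a x = true) (h2 : chi I z x b = true) (h5 : chi I z a b = true)
    (hu : Cn I z a x u) : Cn I z a b u := by
  obtain ⟨h, rfl | rfl | ⟨h3, h4⟩⟩ := hu
  · exact ⟨h, Or.inl rfl⟩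
  · exact ⟨h, Or.inr (Or.inr ⟨h1, h2⟩)⟩
  · exact ⟨h, Or.inr (Or.inr ⟨h3, t1 hc hz ha h hx hb h3 h4 h1 h2 h5⟩)⟩

theorem cr' {z a x b u : ℕ} (hz : z < nn I) (ha : a < nn I) (hx : x < nn I) (hb : b < nn I)
    (h1 : chi I z a x = true) (h2 : chi I z x b = true) (h5 : chi I z a b = true)
    (hu : Cn I z x b u) : Cn I z a b u := by
  obtain ⟨h, rfl | rfl | ⟨h3, h4⟩⟩ := hu
  · exact ⟨h, Or.inr (Or.inr ⟨h1, h2⟩)⟩
  · exact ⟨h, Or.inr (Or.inl rfl)⟩
  · exact ⟨h, Or.inr (Or.inr ⟨t2 hc hz ha hx h hb h1 h3 h2 h4 h5, h4⟩)⟩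

end

theorem add {I : In} {E : ℕ → ℕ → Prop} {w w' : ℕ → ℕ → ℤ} (h : RI I E w) (h' : RI I E w') :
    RI I E (fun x y => w x y + w' x y) where
  rot := by
    intro a b c ht
    show w a b + w' a b = w b c + w' b c
    rw [h.rot a b c ht, h'.rot a b c ht]
  out := by
    intro a b ht
    show w a b + w' a b = 0
    rw [h.out a b ht, h'.out a b ht]
    rfl

/-- the weight of one triangle -/
def w1 (z a b x y : ℕ) : ℤ :=
  (if z = x ∧ a = y then 1 else 0) + (if a = x ∧ b = y then 1 else 0) +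
    (if b = x ∧ z = y then 1 else 0)

theorem w1_bd (z a b x y : ℕ) :
    w1 z a b x y - w1 z a b y x = dl z a x y + dl a b x y + dl b z x y := by
  unfold w1 dl
  ring

theorem w1_RI (hUq : St_Uq) {I : In} (hR : Rl I) {E : ℕ → ℕ → Prop} (hM : Mx I E) {z a b : ℕ}
    (ht : Tr I E z a b) : RI I E (w1 z a b) := by
  obtain ⟨u1, u2⟩ := hUq I hR E hM
  have t2 := u1 z a b ht
  have t3 := u1 a b z t2
  have key : ∀ p q r s t u : ℕ, Tr I E p q r → Tr I E s t u →
      ((p = s ∧ q = t) ↔ (q = t ∧ r = u)) := by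
    intro p q r s t u h1 h2
    constructor
    · rintro ⟨rfl, rfl⟩
      exact ⟨rfl, u2 _ _ _ _ h1 h2⟩
    · rintro ⟨rfl, rfl⟩
      exact ⟨(u2 _ _ _ _ (u1 _ _ _ h1) (u1 _ _ _ h2)), rfl⟩
  constructor
  · intro p q r h
    have e1 := key z a b p q r ht h
    have e2 := key a b z p q r t2 h
    have e3 := key b z a p q r t3 h
    unfold w1
    simp only [e1, e2, e3]
    ring
  · intro p q h
    unfold w1
    rw [if_neg, if_neg, if_neg]
    · rfl
    · rintro ⟨rfl, rfl⟩
      exact h ⟨a, t3⟩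
    · rintro ⟨rfl, rfl⟩
      exact h ⟨z, t2⟩
    · rintro ⟨rfl, rfl⟩
      exact h ⟨b, ht⟩

open Classical in
/-- the neighbours strictly between -/
noncomputable def S (I : In) (E : ℕ → ℕ → Prop) (z a b : ℕ) : Finset ℕ :=
  (Finset.range (nn I)).filter fun x => E z x ∧ chi I z a x = true ∧ chi I z x b = true

theorem mem_S {I : In} {E : ℕ → ℕ → Prop} {z a b x : ℕ} :
    x ∈ S I E z a b ↔ x < nn I ∧ E z x ∧ chi I z a x = true ∧ chi I z x b = true := by
  classical
  unfold S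
  rw [Finset.mem_filter, Finset.mem_range]

theorem main (hTi : St_Ti) (hUq : St_Uq) {I : In} (hR : Rl I) {E : ℕ → ℕ → Prop} (hM : Mx I E)
    (z : ℕ) (N : ℕ) : ∀ a b, (S I E z a b).card = N → E z a → E z b → chi I z a b = true →
      ∃ w, RI I E w ∧ ∀ x y, (w x y - w y x) - (dl z a x y + dl b z x y) ≠ 0 →
        Cn I z a b x ∧ Cn I z a b y := by
  obtain ⟨X, Y, hc, -⟩ := id hR
  induction N using Nat.strong_induction_on with
  | _ N ih =>
    intro a b hN hza hzb hab
    have hz := (hM.lt _ _ hza).1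
    have ha := (hM.lt _ _ hza).2.1
    have hb := (hM.lt _ _ hzb).2.1
    by_cases hS : ∃ x, E z x ∧ chi I z a x = true ∧ chi I z x b = true
    · obtain ⟨x, hx1, hx2, hx3⟩ := hS
      have hx := (hM.lt _ _ hx1).2.1
      have hxS : x ∈ S I E z a b := mem_S.2 ⟨hx, hx1, hx2, hx3⟩
      have c1 : (S I E z a x).card < N := by
        rw [← hN]
        apply Finset.card_lt_card
        refine ⟨?_, ?_⟩
        · intro u hu
          obtain ⟨g1, g2, g3, g4⟩ := mem_S.1 hu
          exact mem_S.2 ⟨g1, g2, g3, t1 hc hz ha g1 hx hb g3 g4 hx2 hx3 hab⟩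
        · intro h
          exact irr hc hz hx (mem_S.1 (h hxS)).2.2.2
      have c2 : (S I E z x b).card < N := by
        rw [← hN]
        apply Finset.card_lt_card
        refine ⟨?_, ?_⟩
        · intro u hu
          obtain ⟨g1, g2, g3, g4⟩ := mem_S.1 hu
          exact mem_S.2 ⟨g1, g2, t2 hc hz ha hx g1 hb hx2 g3 hx3 g4 hab, g4⟩
        · intro h
          exact irr hc hz hx (mem_S.1 (h hxS)).2.2.1
      obtain ⟨w, hw1, hw2⟩ := ih _ c1 a x rfl hza hx1 hx2
      obtain ⟨w', hw1', hw2'⟩ := ih _ c2 x b rfl hx1 hzb hx3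
      refine ⟨fun p q => w p q + w' p q, add hw1 hw1', ?_⟩
      intro p q hpq
      have e : (w p q + w' p q - (w q p + w' q p)) - (dl z a p q + dl b z p q) =
          ((w p q - w q p) - (dl z a p q + dl x z p q)) +
            ((w' p q - w' q p) - (dl z x p q + dl b z p q)) := by
        have e1 : dl x z p q + dl z x p q = 0 := by
          unfold dl
          have e2 : (x = p ∧ z = q) ↔ (z = q ∧ x = p) := And.comm
          have e3 : (x = q ∧ z = p) ↔ (z = p ∧ x = q) := And.comm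
          simp only [e2, e3]
          ring
        linarith
      have hpq' : ((w p q - w q p) - (dl z a p q + dl x z p q)) +
            ((w' p q - w' q p) - (dl z x p q + dl b z p q)) ≠ 0 := by
        rw [← e]
        exact hpq
      by_cases g : (w p q - w q p) - (dl z a p q + dl x z p q) = 0
      · rw [g, zero_add] at hpq'
        obtain ⟨k1, k2⟩ := hw2' p q hpq'
        exact ⟨cr' hc hz ha hx hb hx2 hx3 hab k1, cr' hc hz ha hx hb hx2 hx3 hab k2⟩
      · obtain ⟨k1, k2⟩ := hw2 p q g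
        exact ⟨cl hc hz ha hx hb hx2 hx3 hab k1, cl hc hz ha hx hb hx2 hx3 hab k2⟩
    · have ht : Tr I E z a b := hTi I hR E hM z a b hza hzb hab fun x h1 h2 => hS ⟨x, h1, h2⟩
      refine ⟨w1 z a b, w1_RI hUq hR hM ht, ?_⟩
      intro p q hpq
      rw [w1_bd] at hpq
      have e : dl z a p q + dl a b p q + dl b z p q - (dl z a p q + dl b z p q) = dl a b p q := by
        ring
      rw [e] at hpq
      unfold dl at hpq
      by_cases g1 : a = p ∧ b = q
      · obtain ⟨rfl, rfl⟩ := g1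
        exact ⟨⟨ha, Or.inl rfl⟩, ⟨hb, Or.inr (Or.inl rfl)⟩⟩
      · by_cases g2 : a = q ∧ b = p
        · obtain ⟨rfl, rfl⟩ := g2
          exact ⟨⟨hb, Or.inr (Or.inl rfl)⟩, ⟨ha, Or.inl rfl⟩⟩
        · rw [if_neg g1, if_neg g2] at hpq
          exact absurd rfl hpq

end IFn

theorem pr_Fn (hTi : St_Ti) (hUq : St_Uq) : St_Fn := by
  intro I hR E hM z a b hza hzb hab
  obtain ⟨w, h1, h2⟩ := IFn.main hTi hUq hR hM z _ a b rfl hza hzb hab
  exact ⟨w, h1, fun x y hxy => ⟨(h2 x y hxy).1.2, (h2 x y hxy).2.2⟩⟩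

end Pool.Agent.Work.MP_c6c039_lc.CL
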