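import Pool.Agent.Work.MP_c6c039_lc.CL.StmtsW

/-! Item Fo of block CL -/

set_option autoImplicit false

namespace Pool.Agent.Work.MP_c6c039_lc.CL

open Pool.Agent.Work.MP_c6c039_lc.FP Pool.Agent.Work.MP_c6c039_lc.NC

namespace IFo

theorem px_lt (C : List ℕ) (v : ℕ) (h : v ∈ C) : px C v < C.length := by
  unfold px
  exact List.idxOf_lt_length_iff.mpr h

theorem getD_px (C : List ℕ) (v : ℕ) (h : v ∈ C) : C.getD (px C v) 0 = v := by
  have h1 := px_lt C v h
  rw [List.getD_eq_getElem _ _ h1]
  unfold px
  exact List.getElem_idxOf _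

theorem px_getD (C : List ℕ) (hn : C.Nodup) (i : ℕ) (hi : i < C.length) :
    px C (C.getD i 0) = i := by
  rw [List.getD_eq_getElem _ _ hi]
  unfold px
  exact hn.idxOf_getElem i hi

theorem take_rev (C : List ℕ) (i : ℕ) (hi : i < C.length) :
    (C.take (i + 1)).reverse = C.getD i 0 :: (C.take i).reverse := by
  rw [List.take_succ_eq_append_getElem hi, List.reverse_append, List.getD_eq_getElem _ _ hi]
  rfl

theorem getLastD_cons (v : ℕ) (L : List ℕ) (hL : L ≠ []) :
    (v :: L).getLastD 0 = L.getLastD 0 := by
  cases L with
  | nil => exact absurd rfl hL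
  | cons a l => rfl

theorem ed_cons (v w : ℕ) (L : List ℕ) : ed (v :: w :: L) = (v, w) :: ed (w :: L) := by
  unfold ed
  rfl

end IFo

open IFo in
theorem pr_Fo (hSy : FP.St_Sy) (hHl : FP.St_Hl) (hHx : St_Hx) (hRt : St_Rt) : St_Fo := by
  intro I E par ly k hC
  obtain ⟨hnd, hmem, _⟩ := hHl I (hSy I hC.good.real) hC.good.hull
  have hm0 : 0 < mm I := by
    obtain ⟨_, _, _, _, _, _, h7, h8, _, _⟩ := hRt I E par ly k hC 0 (by have := hC.n3; omega)
    have hl : 0 < (rl I par k 0).length := List.length_pos_of_mem h7
    have := (h8 ((rl I par k 0).length - 1) (by omega)).mpr (by omega)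
    exact List.length_pos_of_mem this
  have hp0 : hp I 0 = (hu I).getD 0 0 := by
    unfold hp
    rw [Nat.zero_mod]
  have hp0m : hp I 0 ∈ hu I := by
    rw [hp0, List.getD_eq_getElem _ _ hm0]
    exact List.getElem_mem _
  have hp0e := (hmem _).mp hp0m
  have hpx0 : px (hu I) (hp I 0) = 0 := by
    rw [hp0]
    exact px_getD _ hnd 0 hm0
  -- the route of an extreme point
  have hext : ∀ v, v < nn I → ext I v = true →
      fo I par k v = v :: ((hu I).take (px (hu I) v)).reverse := by
    intro v hv he
    unfold fo fr
    rw [(hRt I E par ly k hC v hv).1 he]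
    rfl
  have h1 : fo I par k (hp I 0) = [hp I 0] := by
    rw [hext _ hp0e.1 hp0e.2, hpx0]
    rfl
  refine ⟨h1, ?_⟩
  have hA : ∀ v, v < nn I → v ≠ hp I 0 → fo I par k v = v :: fo I par k (pf I par v) ∧
      E v (pf I par v) ∧ pf I par v < nn I ∧ rn I ly (pf I par v) < rn I ly v := by
    intro v hv hv0
    by_cases he : ext I v = true
    · have hvm : v ∈ hu I := (hmem v).mpr ⟨hv, he⟩
      have hj := px_lt _ _ hvm
      have hg := getD_px _ _ hvm
      have hj0 : px (hu I) v ≠ 0 := by
        intro h
        rw [h] at hg
        exact hv0 (by rw [hp0]; exact hg.symm)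
      obtain ⟨j, hjj⟩ : ∃ j, px (hu I) v = j + 1 := ⟨px (hu I) v - 1, by omega⟩
      have hmmj : j + 1 < mm I := by
        unfold mm
        omega
      have hpj : hp I j = (hu I).getD j 0 := by
        unfold hp
        rw [Nat.mod_eq_of_lt (by omega)]
      have hpj1 : hp I (j + 1) = v := by
        unfold hp
        rw [Nat.mod_eq_of_lt hmmj, ← hjj]
        exact hg
      have hpf : pf I par v = hp I j := by
        unfold pf
        rw [if_pos he, hjj, Nat.add_sub_cancel]
      have hjl : j < (hu I).length := by
        unfold mm at hmmj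
        omega
      have hpm : hp I j ∈ hu I := by
        rw [hpj, List.getD_eq_getElem _ _ hjl]
        exact List.getElem_mem _
      have hpe := (hmem _).mp hpm
      have hpxj : px (hu I) (hp I j) = j := by
        rw [hpj]
        exact px_getD _ hnd j hjl
      rw [hpf]
      refine ⟨?_, ?_, hpe.1, ?_⟩
      · rw [hext v hv he, hext _ hpe.1 hpe.2, hjj, hpxj, take_rev _ _ hjl, ← hpj]
      · have := (hHx I hC.good hC.n3 E hC.mx j).1
        rw [hpj1] at this
        exact hC.mx.sym _ _ this
      · unfold rn
        rw [if_pos hpe.2, if_pos he, hpxj, hjj]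
        omega
    · have he' : ext I v = false := by
        cases h : ext I v with
        | true => exact absurd h he
        | false => rfl
      obtain ⟨hEv, hly⟩ := hC.pa v hv he'
      have hpn := (hC.mx.lt _ _ hEv).2.1
      have hpf : pf I par v = par v := by
        unfold pf
        rw [if_neg he]
      rw [hpf]
      refine ⟨?_, hEv, hpn, ?_⟩
      · unfold fo fr
        have hne : rl I par k (par v) ≠ [] := by
          have := (hRt I E par ly k hC (par v) hpn).2.2.2.2.2.2.1
          exact List.ne_nil_of_mem this
        rw [(hRt I E par ly k hC v hv).2.1 he', getLastD_cons _ _ hne, List.cons_append]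
      · unfold rn
        rw [if_neg he]
        by_cases hep : ext I (par v) = true
        · rw [if_pos hep]
          have := px_lt _ _ ((hmem _).mpr ⟨hpn, hep⟩)
          unfold mm
          omega
        · rw [if_neg hep]
          omega
  -- the other clauses
  have hB : ∀ n v, v < nn I → rn I ly v = n →
      (fo I par k v).Nodup ∧ (∀ a ∈ fo I par k v, a < nn I ∧ rn I ly a ≤ rn I ly v) ∧
      v ∈ fo I par k v ∧ hp I 0 ∈ fo I par k v ∧
      (∀ a ∈ fo I par k v, ∀ b ∈ fo I par k a, b ∈ fo I par k v) ∧
      (∀ x y, (x, y) ∈ ed (fo I par k v) ↔ (x ∈ fo I par k v ∧ x ≠ hp I 0 ∧ y = pf I par x)) := by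
    intro n
    induction n using Nat.strong_induction_on with
    | _ n ih =>
      intro v hv hn
      by_cases hv0 : v = hp I 0
      · rw [hv0, h1]
        refine ⟨List.nodup_singleton _, ?_, List.mem_singleton.mpr rfl,
          List.mem_singleton.mpr rfl, ?_, ?_⟩
        · intro a ha
          rw [List.mem_singleton] at ha
          rw [ha]
          exact ⟨hp0e.1, le_rfl⟩
        · intro a ha b hb
          rw [List.mem_singleton] at ha
          rw [ha, h1] at hb
          exact hb
        · intro x y
          constructor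
          · intro h
            simp [ed] at h
          · rintro ⟨h2, h3, _⟩
            rw [List.mem_singleton] at h2
            exact absurd h2 h3
      · obtain ⟨hf, hE, hpn, hrn⟩ := hA v hv hv0
        obtain ⟨i1, i2, i3, i4, i5, i6⟩ := ih (rn I ly (pf I par v)) (by omega) _ hpn rfl
        have hhead : ∃ L, fo I par k (pf I par v) = pf I par v :: L := by
          by_cases hw : pf I par v = hp I 0
          · exact ⟨[], by rw [hw, h1]⟩
          · exact ⟨_, (hA _ hpn hw).1⟩
        obtain ⟨L, hL⟩ := hhead
        rw [hf]
        refine ⟨?_, ?_, List.mem_cons_self, List.mem_cons_of_mem _ i4, ?_, ?_⟩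
        · rw [List.nodup_cons]
          refine ⟨?_, i1⟩
          intro hmem'
          have := (i2 v hmem').2
          omega
        · intro a ha
          rcases List.mem_cons.mp ha with rfl | ha
          · exact ⟨hv, le_rfl⟩
          · have := i2 a ha
            exact ⟨this.1, by omega⟩
        · intro a ha b hb
          rcases List.mem_cons.mp ha with rfl | ha
          · rw [hf] at hb
            exact hb
          · exact List.mem_cons_of_mem _ (i5 a ha b hb)
        · intro x y
          rw [hL, ed_cons, ← hL, List.mem_cons, List.mem_cons, i6 x y]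
          constructor
          · rintro (h | ⟨h2, h3, h4⟩)
            · rw [Prod.mk.injEq] at h
              obtain ⟨rfl, rfl⟩ := h
              exact ⟨Or.inl rfl, hv0, rfl⟩
            · exact ⟨Or.inr h2, h3, h4⟩
          · rintro ⟨h2 | h2, h3, h4⟩
            · left
              rw [h4, h2]
            · exact Or.inr ⟨h2, h3, h4⟩
  intro v hv
  obtain ⟨b1, b2, b3, b4, b5, b6⟩ := hB _ v hv rfl
  refine ⟨hA v hv, b1, b2, b3, b4, b5, b6, ?_, ?_⟩
  · intro a ha hea
    unfold fo fr at ha
    rcases List.mem_append.mp ha with h | h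
    · exact h
    · rw [List.mem_reverse] at h
      have := (hmem a).mp (List.mem_of_mem_take h)
      rw [hea] at this
      exact absurd this.2 (by decide)
  · intro a ha
    unfold fo fr
    exact List.mem_append_left _ ha

end Pool.Agent.Work.MP_c6c039_lc.CL
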