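import Pool.Agent.Work.MP_c6c039_lc.CL.StmtsL

/-!
# Block CL, item Fx: saturation
-/

set_option autoImplicit false

namespace Pool.Agent.Work.MP_c6c039_lc.CL

open Pool.Agent.PT Pool.Agent.Work.MP_c6c039_lc.FP Pool.Agent.Work.MP_c6c039_lc.NC

namespace IFx

theorem rule_mono (I : In) {L L' : List Ft} (h : ∀ x ∈ L, x ∈ L') (F : Ft)
    (hr : rule I L F = true) : rule I L' F = true := by
  unfold rule at hr ⊢
  rw [Bool.or_eq_true] at hr ⊢
  rcases hr with h1 | h1
  · exact Or.inl h1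
  · right
    rw [List.any_eq_true] at h1 ⊢
    obtain ⟨G, hG, h2⟩ := h1
    refine ⟨G, h G hG, ?_⟩
    rw [List.any_eq_true] at h2 ⊢
    obtain ⟨H, hH, h3⟩ := h2
    exact ⟨H, h H hH, h3⟩

theorem mem_stp (k : ℕ) (I : In) (L : List Ft) (F : Ft) :
    F ∈ stp k I L ↔ F ∈ allT k I ∧ (F ∈ L ∨ rule I L F = true) := by
  unfold stp
  rw [List.mem_filter, Bool.or_eq_true, decide_eq_true_eq]

/-- the facts after `t` rounds -/
def Lt (k : ℕ) (I : In) (t : ℕ) : List Ft := (stp k I)^[t] []

theorem Lt_succ (k : ℕ) (I : In) (t : ℕ) : Lt k I (t + 1) = stp k I (Lt k I t) :=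
  Function.iterate_succ_apply' _ _ _

theorem mono (k : ℕ) (I : In) (t : ℕ) : ∀ F ∈ Lt k I t, F ∈ Lt k I (t + 1) := by
  induction t with
  | zero =>
    intro F hF
    exact absurd hF List.not_mem_nil
  | succ t ih =>
    intro F hF
    rw [Lt_succ, mem_stp] at hF
    rw [Lt_succ, mem_stp]
    refine ⟨hF.1, ?_⟩
    rcases hF.2 with h | h
    · exact Or.inl (ih F h)
    · exact Or.inr (rule_mono I ih F h)

theorem sub (k : ℕ) (I : In) (t : ℕ) : (Lt k I (t + 1)).Sublist (Lt k I (t + 2)) := by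
  rw [Lt_succ k I t, Lt_succ k I (t + 1)]
  unfold stp
  refine List.monotone_filter_right _ ?_
  intro F hF
  rw [Bool.or_eq_true, decide_eq_true_eq] at hF ⊢
  rcases hF with h | h
  · exact Or.inl (mono k I t F h)
  · exact Or.inr (rule_mono I (mono k I t) F h)

theorem len (k : ℕ) (I : In) (t : ℕ) : (Lt k I (t + 1)).length ≤ (allT k I).length := by
  rw [Lt_succ]
  exact List.length_filter_le _ _

theorem const (k : ℕ) (I : In) (t : ℕ) (h : Lt k I (t + 1) = Lt k I (t + 2)) (m : ℕ) :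
    Lt k I (t + 1 + m) = Lt k I (t + 2 + m) := by
  induction m with
  | zero => exact h
  | succ m ih =>
    show Lt k I ((t + 1 + m) + 1) = Lt k I ((t + 2 + m) + 1)
    rw [Lt_succ, Lt_succ, ih]

theorem stable (k : ℕ) (I : In) : stp k I (sat k I) = sat k I := by
  have h0 : sat k I = Lt k I ((allT k I).length + 1) := rfl
  obtain ⟨N, hN⟩ : ∃ N, N = (allT k I).length := ⟨_, rfl⟩
  rw [h0, ← hN, ← Lt_succ]
  by_contra hne
  have h1 : ∀ t ≤ N, Lt k I (t + 1) ≠ Lt k I (t + 2) := by
    intro t ht h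
    have h2 := const k I t h (N - t)
    rw [show t + 1 + (N - t) = N + 1 by omega, show t + 2 + (N - t) = N + 1 + 1 by omega] at h2
    exact hne h2.symm
  have h2 : ∀ t ≤ N, (Lt k I (t + 1)).length + 1 ≤ (Lt k I (t + 2)).length := by
    intro t ht
    have h3 := (sub k I t).length_le
    have h4 : (Lt k I (t + 1)).length ≠ (Lt k I (t + 2)).length := fun e =>
      h1 t ht ((sub k I t).eq_of_length e)
    omega
  have h3 : ∀ t ≤ N + 1, t ≤ (Lt k I (t + 1)).length := by
    intro t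
    induction t with
    | zero => exact fun _ => Nat.zero_le _
    | succ t ih =>
      intro ht
      have h4 := ih (by omega)
      have h5 := h2 t (by omega)
      show t + 1 ≤ (Lt k I (t + 2)).length
      omega
  have h4 := h3 (N + 1) le_rfl
  have h5 := len k I (N + 1)
  omega

end IFx

theorem pr_Fx : St_Fx := by
  intro k I F hF hr
  rw [← IFx.stable, IFx.mem_stp]
  exact ⟨hF, Or.inr hr⟩

end Pool.Agent.Work.MP_c6c039_lc.CL
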