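import Pool.Agent.Work.MP_c6c039_lc.CL.Defs

/-!
# Block CL, part S: soundness (captain helper87)

Every docstring is the complete proof.  Item `X`: statement `St_X`, file `CL/I_X.lean`, theorem
`pr_X`, with the statements named after USES as hypotheses `(hA : St_A)` (a name `FP.A` means
`(hA : FP.St_A)`, a proved statement of block FP, files FP/StmtsG.lean); namespace as here, auxiliary
lemmas in the NEW sub-namespace `IX`.  `T`/`F` are `true`/`false`.
-/

set_option autoImplicit false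

namespace Pool.Agent.Work.MP_c6c039_lc.CL

open Pool.Agent.Work.MP_c6c039_lc.FP Pool.Agent.Work.MP_c6c039_lc.NC

/-! ## Marks and labels -/

/-- Nx (EASY-MEDIUM).  `nxt I S p` is the first element of the increasing list of the `q ≤ nn I`, `q > p`, which are labels, or
`nn I + 1` if this list is empty (`List.filter` of `List.range`: a head, `List.pairwise_lt_range`).  Last but one: for `i ≤ nn I` let
`p` be the greatest element of `mk S` which is `≤ i` (`0 ∈ mk S`).  Last: `p < p'` would give `nxt p ≤ p' ≤ i`. -/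
def St_Nx : Prop := ∀ (I : In) (S : Rt),
  (∀ p, p ≤ nn I → p < nxt I S p ∧ nxt I S p ≤ nn I + 1) ∧
  (∀ p, nxt I S p = nn I + 1 ∨ nxt I S p ∈ lb S) ∧
  (∀ p q, q ∈ lb S → q ≤ nn I → p < q → nxt I S p ≤ q) ∧
  (∀ (S' : Rt) (p : ℕ), (∀ q ∈ lb S, q ∈ lb S') → nxt I S' p ≤ nxt I S p) ∧
  (∀ i, i ≤ nn I → ∃ p ∈ mk S, p ≤ i ∧ i < nxt I S p) ∧
  ∀ i p p', i ≤ nn I → p ∈ mk S → p' ∈ mk S → p ≤ i → i < nxt I S p → p' ≤ i →
    i < nxt I S p' → p = p'

/-- Vt (EASY).  Unfold `cons` (`List.all_eq_true`, `Bool.and_eq_true`, `beq_iff_eq`, `decide_eq_true_iff`); `vt S x.2`: the filter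
contains `x` and all its elements have the label `x.2`, so the vertex `x.1`. -/
def St_Vt : Prop := ∀ (I : In) (S : Rt), cons I S = true →
  (∀ x ∈ S, x.1 < nn I ∧ 0 < x.2 ∧ x.2 ≤ nn I ∧ vt S x.2 = x.1) ∧
  (∀ x ∈ S, ∀ y ∈ S, x.1 = y.1 ↔ x.2 = y.2) ∧
  ∀ S' : Rt, (∀ x ∈ S', x ∈ S) → cons I S' = true

/-- Rv (EASY).  Unfold `rv`, `ndp` (`ndp l = T` iff `l.Nodup`). -/
def St_Rv : Prop := ∀ (I : In) (A : Rt), rv I A = true ↔ (vs A ≠ [] ∧ (vs A).Nodup ∧
  ∀ i, i < (vs A).length → ((vs A).getD i 0 ∈ hu I ↔ i + 1 = (vs A).length))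

/-! ## Chains -/

/-- Dl (EASY).  `dl` is antisymmetric; `ch (a :: b :: l) = dl a b + ch (b :: l)` (by definition of `ed`), `ch [] = ch [a] = 0`;
a chain is `0` at pairs with a point outside the list; `ch` of the reversed list is `- ch` (induction, with the formula for
`ch (l ++ [a, b])`); for a list without repetitions `ch A x y = 1` if `(x, y) ∈ ed A` (it occurs once, `(y, x)` does not occur). -/
def St_Dl : Prop := (∀ u v x y : ℕ, dl u v x y = - dl u v y x ∧ dl v u x y = - dl u v x y) ∧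
  (∀ (a b x y : ℕ) (l : List ℕ), ch (a :: b :: l) x y = dl a b x y + ch (b :: l) x y) ∧
  (∀ (l : List ℕ) (x y : ℕ), ch l x y = - ch l y x ∧ (x ∉ l ∨ y ∉ l → ch l x y = 0) ∧
    ch l.reverse x y = - ch l x y) ∧
  ∀ (l : List ℕ) (x y : ℕ), l.Nodup → ((x, y) ∈ ed l → ch l x y = 1) ∧
    (ch l x y ≠ 0 → (x, y) ∈ ed l ∨ (y, x) ∈ ed l)

/-- Kc (EASY).  Unfold `kp`, `bd`; `hd A = (vs A).headD 0`; antisymmetry of `dl` (Dl).  `bd (t :: T) = .. + bd T`,
`bd (T ++ T') = bd T + bd T'`.  Last: `bd T x y ≠ 0` gives `t ∈ T` with a `dl` of a side different from `0`. -/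
def St_Kc : Prop := (∀ (I : In) (A B C : List ℕ) (x y : ℕ), kp I A B x y =
    (dl (A.headD 0) (B.headD 0) x y + (dl (B.headD 0) (C.headD 0) x y +
      dl (C.headD 0) (A.headD 0) x y)) + (kp I A C x y + kp I C B x y)) ∧
  (∀ (T T' : List (ℕ × (ℕ × ℕ))) (x y : ℕ), bd (T ++ T') x y = bd T x y + bd T' x y) ∧
  ∀ (T : List (ℕ × (ℕ × ℕ))) (x y : ℕ), bd T x y ≠ 0 → ∃ t ∈ T, (x, y) ∈ sl t ∨ (y, x) ∈ sl t

/-- Kb (EASY-MEDIUM).  `vs F.1 = x :: vs F.2.1` (from `F.1.tail = F.2.1`, both not empty): `getLastD` is the same, so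
`fr (x :: B) = x :: fr B`, `ch (fr (x :: B)) = dl x (head B) + ch (fr B)` (Dl), `kp = 0`.  `vs F.2.1 = x :: vs F.1`: the same with
`dl u x + dl x u = 0`.  Hull: `vs F.1 = [hp j]`, `vs F.2.1 = [hp (j + 1)]`, `j + 1 < mm I`: `px (hu I) (hp (j + 1)) = j + 1`
(`hu I` nodup), `fr [hp (j + 1)] = hp (j + 1) :: hp j :: ..= hp (j + 1) :: fr [hp j]`.  `hu` nodup: FP.Hl with FP.Sy.
USES FP.Sy FP.Hl Rv Dl. -/
def St_Kb : Prop := ∀ I : In, Good I → ∀ F : Ft, bas I F = true →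
  ∀ x y, kp I (vs F.1) (vs F.2.1) x y = 0

/-- Kh (EASY).  `px (hu I) (hp 0) = 0`, so `fr [hp 0] = [hp 0]`, `ch = 0`; `fr [hp (mm - 1)] = (hu I).reverse` (the last element, and
the others reversed; `hu I = (hu I).take (mm - 1) ++ [hp (mm - 1)]`), `ch (hu I).reverse = - ch (hu I)` (Dl).
USES FP.Sy FP.Hl Dl. -/
def St_Kh : Prop := ∀ I : In, Good I → 0 < mm I →
  ∀ x y, kp I [hp I (mm I - 1)] [hp I 0] x y = hb I x y

/-- Er (EASY-MEDIUM).  A NEW STEP OF THE ROUTE `C` IS ON THE BOUNDARY.  `x` is not the last element of `vs C`, so `x ∉ hu I` (Rv).  So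
`x ∉ fr I (vs A)` (`= vs A ++` hull points), `ch (fr I (vs A)) x y = 0` (Dl).  `fr I (vs C)` is nodup: `vs C` is, its last element is
the hull point `hp j`, the others are no hull points, and the added ones are `hp (j - 1), .., hp 0`; and `(x, y) ∈ ed (fr I (vs C))`: so
`ch = 1` (Dl).  `dl (hd A) (hd C) x y`: `hd A ∈ vs A` is not `x`; it is `0` or (`y = hd A` and `x = hd C`).
USES FP.Sy FP.Hl Rv Dl. -/
def St_Er : Prop := ∀ I : In, Good I → ∀ A C : Rt, rv I A = true → rv I C = true →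
  ∀ x y, (x, y) ∈ ed (vs C) → x ∉ vs A →
    (kp I (vs A) (vs C) x y ≠ 0 ∧ kp I (vs C) (vs A) x y ≠ 0) ∨ (x = hd C ∧ y = hd A)

/-! ## One step -/

/-- Sb (EASY).  `T = []`, `g l = vt (bg F) l` (Vt); `bd [] = 0` (Kb); `F.2.2 = []`.  USES Vt Kb. -/
def St_Sb : Prop := ∀ I : In, Good I → ∀ F : Ft, bas I F = true → ∃ T g, SM I F T g

open Classical in
/-- the vertices on the places `1, .., n` after a step -/
noncomputable def gc (I : In) (A B C : Rt) (JA : List ℕ) (g1 g2 : ℕ → ℕ) (i : ℕ) : ℕ :=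
  if i ∈ lb (A ++ (B ++ C)) then vt (A ++ (B ++ C)) i
  else if ∃ p ∈ JA, p < i ∧ i < nxt I (A ++ (B ++ C)) p then g1 i else g2 i

/-- Ga (EASY-MEDIUM).  THE NEW FUNCTION AGREES WITH THE OLD ONES.  `S = A ++ (B ++ C)`.  Let `p ∈ JA`, `nxt (A ++ C) p = nxt S p` (`cmt`).  For
`p < i < nxt S p`: `i` is no label of `S` (Nx), so `gc i = g1 i`.  For `i = p > 0`: `p ∈ mk (A ++ C)`, so `p` is a label of `A ++ C`,
`g1 p` is its vertex (`SM.lab`), and so is `vt S p` (Vt).  For `i = nxt S p ≤ nn I`: `nxt (A ++ C) p` is a label of `A ++ C` (Nx).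
For `p ∈ JB` the same, and `i` is not in a gap of `p' ∈ JA` (Nx: `p' = p`, but `JA` and `JB` are disjoint).
USES Nx Vt. -/
def St_Ga : Prop := ∀ (I : In) (A B C : Rt) (J JA JB : List ℕ) (g1 g2 : ℕ → ℕ),
  cmt I A B C J JA JB = true → (∀ x ∈ A ++ C, g1 x.2 = x.1) → (∀ x ∈ C ++ B, g2 x.2 = x.1) →
  (∀ p ∈ JA, ∀ i, p ≤ i → i ≤ nxt I (A ++ (B ++ C)) p → 0 < i → i ≤ nn I →
    gc I A B C JA g1 g2 i = g1 i) ∧
  (∀ p ∈ JB, ∀ i, p ≤ i → i ≤ nxt I (A ++ (B ++ C)) p → 0 < i → i ≤ nn I →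
    gc I A B C JA g1 g2 i = g2 i) ∧
  ∀ x ∈ A ++ (B ++ C), gc I A B C JA g1 g2 x.2 = x.1

/-- Ca (MEDIUM).  THE NEW GAPS.  `S = A ++ (B ++ C)`, `T = (hd A, hd B, hd C) :: (T1 ++ T2)`.  Let `p ∈ J`, `p ≤ i < nxt (A ++ B) p`,
`0 < i < nn I`.  By Nx there is `r ∈ mk S`, `r ≤ i < nxt S r`; `r ≥ p` (`p ∈ mk S`, so `r < p` would give `nxt S r ≤ p ≤ i`),
`r < nxt (A ++ B) p`; so `rz r = T`.  `r ∈ JA`: `nxt (A ++ C) r = nxt S r`, so `SM.adj` for `G`, and Ga for `i`, `i + 1`.  `r ∈ JB`: the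
same.  `lo r = T`: `nxt S r = r + 1`, so `i = r`, `r ≠ 0`, `r ≠ nn I`: the colours of `x = vt S r`, `y = vt S (r + 1)` differ and
`es x y` or `es y x`; `gc r = x`, `gc (r + 1) = y` (`r`, `r + 1 = nxt S r ≤ nn I` are labels of `S`).  `es x y`: sides `hd A hd C`,
`hd C hd B` of the new triangle, or a step `(x, y) ∈ ed (vs C)` with `x ∉ vs A`: Er for `A`, `C`: `kp (vs A) (vs C) x y ≠ 0`, so `bd T1 x y ≠ 0` and a
side of `T1` (Kc), or `x y` is the side `hd C hd A`.  USES Nx Vt Kc Er Ga. -/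
def St_Ca : Prop := ∀ I : In, Good I → ∀ (F G H : Ft) (T1 T2 : List (ℕ × (ℕ × ℕ))) (g1 g2 : ℕ → ℕ),
  cmb I F G H = true → SM I G T1 g1 → SM I H T2 g2 →
  ∀ p ∈ F.2.2, ∀ i, p ≤ i → i < nxt I (bg F) p → 0 < i → i < nn I →
    AD I ((hd F.1, (hd F.2.1, hd H.1)) :: (T1 ++ T2)) (gc I F.1 F.2.1 H.1 G.2.2 g1 g2 i)
      (gc I F.1 F.2.1 H.1 G.2.2 g1 g2 (i + 1))

/-- Cc (MEDIUM).  THE NEW VERTICES.  `S = A ++ (B ++ C)`, `g = gc ..`.  (1) Let `x` be a vertex of `S` with the label `i`.  If `x ∉ vs (A ++ B)`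
then `i ∉ lb (A ++ B)` (Vt), so `i` is strictly between a `p ∈ mk (A ++ B)` and `nxt (A ++ B) p` (Nx), and `nxt S p ≤ i`, so `p ∈ J` by
`cmt`; `g i = x` (Ga).  (2) Let `x = g1 i`, `p' ∈ JA`, `p' < i < nxt (A ++ C) p' = nxt S p'`.  `g i = g1 i` (Ga).  There is `p ∈ mk (A ++ B)`,
`p ≤ i < nxt (A ++ B) p`, and `p < i` since `i` is no label of `S`.  If `p ∉ J` then `nxt S p = nxt (A ++ B) p`, so `p` and `p'`
have gaps of `S` that contain `i`, `p = p'` (Nx), but `p ∉ JA` by `cmt`.  So `p ∈ J`.  The same for `JB`.  Now a side `e` of a triangle of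
`T`: `e.1` is `hd A`, `hd B`, `hd C`, or `cov` for `G` or `H`: a vertex of `A ++ C` or `C ++ B` (1), or (2).
USES Nx Vt Ga. -/
def St_Cc : Prop := ∀ I : In, ∀ (F G H : Ft) (T1 T2 : List (ℕ × (ℕ × ℕ))) (g1 g2 : ℕ → ℕ),
  cmb I F G H = true → SM I G T1 g1 → SM I H T2 g2 →
  ∀ t ∈ (hd F.1, (hd F.2.1, hd H.1)) :: (T1 ++ T2), ∀ e ∈ sl t, e.1 ∈ vs (bg F) ∨
    ∃ p ∈ F.2.2, ∃ i, p < i ∧ i < nxt I (bg F) p ∧ gc I F.1 F.2.1 H.1 G.2.2 g1 g2 i = e.1

/-- Cb (EASY).  `T = (hd A, hd B, hd C) :: (T1 ++ T2)`, `g = gc ..`; `tr`: `cmt`; `bdy`: Kc (`kp A B = .. + kp A C + kp C B`);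
`cs`: Vt; `lab`: Ga; `adj`: Ca; `cov`: Cc.  USES Vt Kc Ga Ca Cc. -/
def St_Cb : Prop := ∀ I : In, Good I → ∀ (F G H : Ft) (T1 T2 : List (ℕ × (ℕ × ℕ))) (g1 g2 : ℕ → ℕ),
  cmb I F G H = true → SM I G T1 g1 → SM I H T2 g2 → ∃ T g, SM I F T g

/-- So (EASY).  Induction on the number of rounds: `F ∈ stp k I L` is in `L`, or `rule I L F = T`: Sb or Cb.  USES Sb Cb. -/
def St_So : Prop := ∀ I : In, Good I → ∀ (k : ℕ) (F : Ft), F ∈ sat k I → ∃ T g, SM I F T g

/-! ## Triangles which fill the hull -/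

/-- coordinates of the instance -/
def RL (I : In) (X Y : ℕ → ℝ) : Prop :=
  (∀ a b c, a < nn I → b < nn I → c < nn I → (chi I a b c = true ↔ 0 < ar X Y a b c)) ∧
  ∀ a b c, a < nn I → b < nn I → c < nn I → a ≠ b → b ≠ c → a ≠ c → ar X Y a b c ≠ 0

/-- twice the area of the triangle with the vertices `a`, `b` and `z` -/
def az (X Y : ℕ → ℝ) (a b : ℕ) (z : ℝ × ℝ) : ℝ :=
  (X b - X a) * (z.2 - Y a) - (Y b - Y a) * (z.1 - X a)

/-- `z` is in the interior of the positively oriented triangle `t` -/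
def iz (X Y : ℕ → ℝ) (t : ℕ × (ℕ × ℕ)) (z : ℝ × ℝ) : Prop :=
  0 < az X Y t.1 t.2.1 z ∧ 0 < az X Y t.2.1 t.2.2 z ∧ 0 < az X Y t.2.2 t.1 z

/-- `z` is on no line through two points and on no vertical line through a point -/
def gn (I : In) (X Y : ℕ → ℝ) (z : ℝ × ℝ) : Prop :=
  (∀ a, a < nn I → z.1 ≠ X a) ∧ ∀ a b, a < nn I → b < nn I → a ≠ b → az X Y a b z ≠ 0

open Classical in
/-- signed crossing of the segment `a b` with the ray from `z` upwards -/
noncomputable def cz (X Y : ℕ → ℝ) (z : ℝ × ℝ) (a b : ℕ) : ℤ :=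
  (if X b < z.1 ∧ z.1 < X a ∧ 0 < az X Y a b z then 1 else 0) -
    (if X a < z.1 ∧ z.1 < X b ∧ az X Y a b z < 0 then 1 else 0)

open Classical in
/-- the number of triangles of `T` around `z` -/
noncomputable def mz (X Y : ℕ → ℝ) (T : List (ℕ × (ℕ × ℕ))) (z : ℝ × ℝ) : ℤ :=
  (T.map fun t => if iz X Y t z then 1 else 0).sum

/-- a positively oriented triangle -/
def TQ (I : In) (t : ℕ × (ℕ × ℕ)) : Prop :=
  (t.1 < nn I ∧ t.2.1 < nn I ∧ t.2.2 < nn I) ∧ chi I t.1 t.2.1 t.2.2 = true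

/-- the fan from `hp I 0` -/
def fan (I : In) : List (ℕ × (ℕ × ℕ)) :=
  (List.range (mm I - 2)).map fun j => (hp I 0, (hp I (j + 1), hp I (j + 2)))

/-- Cn (EASY-MEDIUM).  Let `t = (a, b, c)`, `D = ar a b c > 0`, `A = az b c z`, `B = az c a z`, `C = az a b z`.  Identities (`ring`):
`A + B + C = D`, `A (X a - z.1) + B (X b - z.1) + C (X c - z.1) = 0`.  `z.1` is none of `X a, X b, X c`, none of `A, B, C` is `0`.
By the signs of `X a - z.1`, `X b - z.1`, `X c - z.1` (8 cases): all equal: all `cz` are `0`, and `A, B, C > 0` is impossible.  One of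
them different, say that of `a`, the others equal: then the segment `b c` does not cross, and by the second identity
`C (X c - z.1) + B (X b - z.1) = A (z.1 - X a)` determines the possible signs: check the sum for the signs of `A`, `B`, `C`
(use `mul_pos`, `nlinarith` for the impossible combinations). -/
def St_Cn : Prop := ∀ (I : In) (X Y : ℕ → ℝ), RL I X Y → ∀ (t : ℕ × (ℕ × ℕ)) (z : ℝ × ℝ), TQ I t →
  gn I X Y z → (iz X Y t z →
    cz X Y z t.1 t.2.1 + (cz X Y z t.2.1 t.2.2 + cz X Y z t.2.2 t.1) = 1) ∧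
  (¬ iz X Y t z → cz X Y z t.1 t.2.1 + (cz X Y z t.2.1 t.2.2 + cz X Y z t.2.2 t.1) = 0)

/-- Mq (MEDIUM).  THE COVERING NUMBER DEPENDS ONLY ON THE BOUNDARY.  `cz z b a = - cz z a b` (`az b a z = - az a b z`).  For `a, b < n`:
`Σ_{x, y < n} dl a b x y * cz z x y = cz z a b - cz z b a = 2 cz z a b` (`Finset.sum_ite_eq` twice).  So
`Σ_{x, y < n} bd T x y * cz z x y = Σ_{t ∈ T} 2 (cz + cz + cz) = 2 mz T z` (Cn; induction on `T`).  The left side is the same for `T` and `T'`.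
USES Cn. -/
def St_Mq : Prop := ∀ (I : In) (X Y : ℕ → ℝ), RL I X Y → ∀ (T T' : List (ℕ × (ℕ × ℕ))) (z : ℝ × ℝ),
  (∀ t ∈ T, TQ I t) → (∀ t ∈ T', TQ I t) → (∀ x y, bd T x y = bd T' x y) → gn I X Y z →
  mz X Y T z = mz X Y T' z

/-- Hs (MEDIUM).  THE HULL.  (1) Let `f` be a function `p X + q Y + r` (real numbers, `(p, q) ≠ 0`) and let `v < n` have the
greatest value, then there is an extreme point with the same value, in fact `v` is extreme: the proof is that of G0 in FP/StmtsG.lean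
(a point in the triangle `d e g` of other points is a convex combination with positive coefficients, so all three have the same value
and are collinear).  (2) `mm ≥ 3`: otherwise all extreme points are on one line (FP.Ex: there is one), given by `f = 0`; as `n ≥ 3`
there is a point with `f ≠ 0` (general position), so `f` or `- f` has a positive maximum, at an extreme point: contradiction.
(3) Let `u = hp j`, `v = hp (j + 1)`, `x` another point and `chi u v x = F`: `f = - ar u v ·` has a positive maximum, at an extreme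
point `hp i`, different from `u`, `v`; but `chi u v (hp i) = T` by `HC.cyc` (choose `i` with `j + 1 < i < j + mm`, `HC.sur`).
USES FP.Sy FP.Xt FP.Ex FP.HC. -/
def St_Hs : Prop := ∀ I : In, Good I → 3 ≤ nn I → 3 ≤ mm I ∧ ∀ j x, x < nn I → x ≠ hp I j →
  x ≠ hp I (j + 1) → chi I (hp I j) (hp I (j + 1)) x = true

/-- Hb (EASY-MEDIUM).  `hb x y ≠ 0` iff `{x, y}` is an edge of the hull: with `m = mm I ≥ 3`, `hu I` nodup: by Dl `ch (hu I) x y ≠ 0`
iff `(x, y)` or `(y, x)` is `(hp j, hp (j + 1))` with `j + 1 < m`, and the value is `± 1`; `dl (hp (m - 1)) (hp 0)` is at another pair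
(`m ≥ 3`).  `hp (m - 1 + 1) = hp m = hp 0`.  USES FP.Sy FP.Hl Dl Hs. -/
def St_Hb : Prop := ∀ I : In, Good I → 3 ≤ nn I →
  (∀ j, hb I (hp I j) (hp I (j + 1)) = 1 ∧ hb I (hp I (j + 1)) (hp I j) = -1) ∧
  ∀ x y, hb I x y ≠ 0 → ∃ j, j < mm I ∧
    ((x = hp I j ∧ y = hp I (j + 1)) ∨ (y = hp I j ∧ x = hp I (j + 1)))

/-- Fa (EASY-MEDIUM).  THE FAN.  `chi (hp 0) (hp (j + 1)) (hp (j + 2)) = T` (FP.Hl).  `bd (fan I) x y`: the sum over `j < m - 2` of
`dl h0 h(j+1) + dl h(j+1) h(j+2) + dl h(j+2) h0`; the first and third terms telescope to `dl h0 h1 - dl h0 h(m-1)` (`dl` antisymmetric),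
so the sum is `Σ_{j < m - 1} dl hj h(j+1) + dl h(m-1) h0 = hb` (`ch (hu I)` is this sum: `ed (hu I)`).  Third: let `z` be in the
triangles `j < j'`: `az h(j+2) h0 z > 0`, that is `z` is to the right of `h0 -> h(j+2)`, and `az h0 h(j'+1) z > 0`, to the left of
`h0 -> h(j'+1)`, `j + 2 ≤ j' + 1`; equal: contradiction; otherwise `u = h(j+2) - h0`, `v = h(j'+1) - h0`, `w = z - h0` satisfy `u × v > 0`,
`u × w < 0`, `v × w > 0`; and both `az h0 h(j+1) z > 0` with `c = h(j+1) - h0`, `c × w > 0`, `c × u > 0`, `c × v > 0` (FP.Hl):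
`(c × v) (u × w) = (c × u)(v × w) + (c × w)(u × v)` (`ring`), contradiction of signs.  So at most one `j`.  USES FP.Sy FP.Hl Dl Hs. -/
def St_Fa : Prop := ∀ I : In, Good I → 3 ≤ nn I → (∀ t ∈ fan I, TQ I t) ∧
  (∀ x y, bd (fan I) x y = hb I x y) ∧
  ∀ (X Y : ℕ → ℝ) (z : ℝ × ℝ), RL I X Y → mz X Y (fan I) z ≤ 1

/-- Fc (MEDIUM).  EVERY INNER POINT IS INSIDE A TRIANGLE OF THE FAN.  `w` is not extreme, so `chi h(j) h(j+1) w = T` for all `j` (Hs).  Let `j ≥ 1`
be the greatest number `≤ m - 1` with `chi h0 hj w = T` (`j = 1` has the property by Hs); `j < m - 1`, because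
`chi h(m-1) h0 w = T` gives `chi h0 h(m-1) w = F`.  Then `chi h0 h(j+1) w = F`, `chi h(j+1) h0 w = T` (`w`, `h0`, `h(j+1)` distinct;
FP.Sy).  With `chi hj h(j+1) w = T` this is the triangle `j - 1` of the fan.  Areas from `RL`: `az X Y a b (X w, Y w) = ar X Y a b w`.
USES FP.Sy FP.HC Hs. -/
def St_Fc : Prop := ∀ I : In, Good I → 3 ≤ nn I → ∀ (X Y : ℕ → ℝ), RL I X Y → ∀ w, w < nn I →
  ext I w = false → ∃ t ∈ fan I, iz X Y t (X w, Y w)

/-- Gn (EASY-MEDIUM).  GENERIC POINTS.  The excluded set is a finite union of lines, each of measure 0 (`MeasureTheory.Measure.addHaar_affineSubspace`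
or `addHaar_submodule`, or: every set `{z | p z.1 + q z.2 = r}`, `(p, q) ≠ 0`, is closed and has empty interior, and a finite union of such
sets has empty interior: `interior_iUnion_of_closed_of_empty_interior` or induction with `interior_union_isClosed_of_interior_empty`).
The lines: `z.1 = X a`; `az X Y a b z = 0` with `(X a, Y a) ≠ (X b, Y b)`, which holds since there is a third point
(`nn I ≥ 3`) and `ar ≠ 0`. -/
def St_Gn : Prop := ∀ (I : In) (X Y : ℕ → ℝ), RL I X Y → 3 ≤ nn I → ∀ U : Set (ℝ × ℝ), IsOpen U →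
  U.Nonempty → ∃ z ∈ U, gn I X Y z

/-- Ns (MEDIUM-HARD).  SIDES OF TRIANGLES DO NOT CROSS.  Let `(a, b) ∈ sl t`, `(c, d) ∈ sl s`, `t, s ∈ T`, and suppose `cr a b c d = T`.
(1) `{c, d}` is no edge of the hull: `chi c d a ≠ chi c d b`, but all points are on one side of a hull edge (Hs).  So `bd T c d = hb c d = 0`
(Hb); the part of `t'` in `bd T c d` is `1` if `(c, d) ∈ sl t'`, `- 1` if `(d, c) ∈ sl t'`, `0` otherwise (three distinct vertices); so there
is `s' ∈ T` with `(d, c) ∈ sl s'`.  (2) Let `x` be the common point of the open segments: `x = a + λ (b - a)`, `0 < λ < 1`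
(`λ = ar c d a / (ar c d a - ar c d b)`), also `x = c + μ (d - c)`.  For the apex `e` of `t` over `a b`: `az b e x > 0`, `az e a x > 0`; so
near `x`: `iz t z` iff `az a b z > 0`.  Near `x`: `iz s z` iff `az c d z > 0`, `iz s' z` iff `az c d z < 0`.  (3) `b - a` and `d - c` are linearly
independent, so there are vectors `v` with `(b - a) × v > 0` and any sign of `(d - c) × v`; the points `x + δ v`, small `δ > 0`, show that the
open sets `{iz t ∧ iz s}`, `{iz t ∧ iz s'}` are not empty: generic points `z1`, `z2` in them (Gn).  `mz T z = mz (fan I) z ≤ 1` (Mq, Fa).  If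
`t ≠ s` then `mz T z1 ≥ 2` (two different elements of the list); so `t = s`, in the same way `t = s'`; but `(c, d)` and `(d, c)` are not both
sides of a triangle with three distinct vertices.  USES Mq Hs Hb Fa Gn. -/
def St_Ns : Prop := ∀ I : In, Good I → 3 ≤ nn I → ∀ T : List (ℕ × (ℕ × ℕ)), (∀ t ∈ T, TQ I t) →
  (∀ x y, bd T x y = hb I x y) → ∀ t ∈ T, ∀ s ∈ T, ∀ e ∈ sl t, ∀ f ∈ sl s,
    Ds I [e.1, e.2, f.1, f.2] → cr I e.1 e.2 f.1 f.2 = false

/-- Cv (MEDIUM).  EVERY POINT IS A VERTEX.  `w = hp j` on the hull: `bd T (hp j) (hp (j + 1)) = 1` (Hb), so a triangle with a side at `w` (Kc;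
if `(hp (j + 1), w) ∈ sl t` then another side of `t` begins in `w`).  `w` not extreme: Fc: `W = (X w, Y w)` is in the open set `U = {z | iz t0 z}`,
`t0 ∈ fan I`.  If `w` is no vertex of `t ∈ T` then one of `az .. W` for the three sides of `t` is negative: they are `ar .. w ≠ 0`, and if all
were positive, `inT = T`, against `TP.emp`.  So a neighbourhood of `W` contains no point of `iz t`; intersect over `T` and with `U`, take a
generic point `z` (Gn): `mz T z = 0`, but `mz T z = mz (fan I) z ≥ 1` (Mq, Fa).  So `w` is a vertex of some `t ∈ T`, and the first vertex of a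
side.  USES FP.Sy FP.HC Kc Mq Hb Fa Fc Gn. -/
def St_Cv : Prop := ∀ I : In, Good I → 3 ≤ nn I → ∀ T : List (ℕ × (ℕ × ℕ)), (∀ t ∈ T, TP I t) →
  (∀ x y, bd T x y = hb I x y) → ∀ w, w < nn I → ∃ t ∈ T, ∃ e ∈ sl t, e.1 = w

/-- Fi (MEDIUM).  SOUNDNESS.  `n = nn I < 3`: `n ≤ 1`: `p = List.range n`; `n = 2`, colours differ: `[0, 1]`.  `n ≥ 3`: `F ∈ sat`, `fin I F = T`,
`SM I F T g` (So), `S = bg F = [(h', l1), (h, l2)]`, `h' = hp (mm - 1) ≠ h = hp 0`; `bd T = hb` (Kh).  (1) For `0 < i < n`: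
`AD T (g i) (g (i + 1))`: Nx: `p ∈ mk S`, `p ≤ i < nxt p`; `p ∈ J`: `SM.adj`; otherwise `nxt p = p + 1`, so `i = p` is `l1` or `l2`, and `p + 1` is
the other one (a label, `≤ n`), colours differ, `{h', h}` is a side because `bd T h' h = hb ≠ 0` (Hb: `j = mm - 1`; Kc).  (2) `g i < n` for
`1 ≤ i ≤ n` (vertices of triangles, `n ≥ 3`).  (3) Every `w < n` is `g i` for some `1 ≤ i ≤ n`: Cv and `SM.cov` (vertices of `S`: `SM.lab`,
labels are in `1..n`, Vt).  So `p = (List.range n).map fun i => g (i + 1)` contains every `w < n`, has length `n`, so it is nodup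
(`List.Nodup` from `List.toFinset` card) and has no other elements.  `alt`: (1).  `nc`: (1), Ns, with FP.Cs for the directions of the two sides.
USES FP.Sy FP.Cs FP.HC Nx Vt Kc Kh So Hs Hb Ns Cv. -/
def St_Fi : Prop := ∀ I : In, Good I → ∀ k : ℕ, lay k I = true → ∃ p, SP I p

end Pool.Agent.Work.MP_c6c039_lc.CL
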