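import Mathlib
import Pool.Agent.Work.MP_c6c039_lc.CL.StmtsS

/-!
# Block CL, item Ga: the new function agrees with the old ones

Author: helper57.
-/

set_option autoImplicit false

namespace Pool.Agent.Work.MP_c6c039_lc.CL

open Pool.Agent.Work.MP_c6c039_lc.FP Pool.Agent.Work.MP_c6c039_lc.NC

namespace IGa

theorem mem_lb {S : Rt} {i : ℕ} : i ∈ lb S ↔ ∃ x ∈ S, x.2 = i := by
  unfold lb
  rw [List.mem_map]

theorem core (hNx : St_Nx) (hVt : St_Vt) {I : In} {S X : Rt} (hX : ∀ x ∈ X, x ∈ S)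
    (hc : cons I S = true) {g : ℕ → ℕ} (hg : ∀ x ∈ X, g x.2 = x.1) {p : ℕ} (hp : p ∈ mk X)
    (hn : nxt I X p = nxt I S p) {i : ℕ} (h1 : p ≤ i) (h2 : i ≤ nxt I S p) (h3 : 0 < i)
    (h4 : i ≤ nn I) :
    (i ∈ lb S → vt S i = g i) ∧ (i ∉ lb S → p < i ∧ i < nxt I S p) := by
  have hsub : ∀ j, j ∈ lb X → j ∈ lb S := by
    intro j hj
    obtain ⟨x, hx, hxj⟩ := mem_lb.1 hj
    exact mem_lb.2 ⟨x, hX x hx, hxj⟩
  have hlab : ∀ j, j ∈ lb X → vt S j = g j := by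
    intro j hj
    obtain ⟨x, hx, rfl⟩ := mem_lb.1 hj
    rw [((hVt I S hc).1 x (hX x hx)).2.2.2, hg x hx]
  have hp' : i = p → i ∈ lb X := by
    intro h
    unfold mk at hp
    rw [← h] at hp
    rcases List.mem_cons.1 hp with h5 | h5
    · omega
    · exact h5
  have hn' : i = nxt I S p → i ∈ lb X := by
    intro h
    rcases (hNx I X).2.1 p with h5 | h5
    · rw [hn, ← h] at h5
      omega
    · rwa [hn, ← h] at h5
  constructor
  · intro hi
    by_cases h5 : i = p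
    · exact hlab i (hp' h5)
    · by_cases h6 : i = nxt I S p
      · exact hlab i (hn' h6)
      · have h7 := (hNx I S).2.2.1 p i hi h4 (by omega)
        omega
  · intro hi
    have h5 : i ≠ p := fun h => hi (hsub i (hp' h))
    have h6 : i ≠ nxt I S p := fun h => hi (hsub i (hn' h))
    omega

end IGa

theorem pr_Ga (hNx : St_Nx) (hVt : St_Vt) : St_Ga := by
  intro I A B C J JA JB g1 g2 hcm hg1 hg2
  unfold cmt at hcm
  simp only [Bool.and_eq_true, List.all_eq_true, decide_eq_true_iff, beq_iff_eq,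
    Bool.not_eq_true', decide_eq_false_iff_not] at hcm
  obtain ⟨⟨⟨-, -, -, hc⟩, -⟩, ⟨hJA, hJB⟩, -⟩ := hcm
  have hXA : ∀ x ∈ A ++ C, x ∈ A ++ (B ++ C) := by
    intro x hx
    rw [List.mem_append] at hx
    rw [List.mem_append, List.mem_append]
    tauto
  have hXB : ∀ x ∈ C ++ B, x ∈ A ++ (B ++ C) := by
    intro x hx
    rw [List.mem_append] at hx
    rw [List.mem_append, List.mem_append]
    tauto
  have hmk : ∀ X : Rt, (∀ x ∈ X, x ∈ A ++ (B ++ C)) → ∀ p ∈ mk X, p ∈ mk (A ++ (B ++ C)) := by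
    intro X hX p hp
    unfold mk at hp ⊢
    rcases List.mem_cons.1 hp with h | h
    · exact List.mem_cons.2 (Or.inl h)
    · obtain ⟨x, hx, hxp⟩ := IGa.mem_lb.1 h
      exact List.mem_cons.2 (Or.inr (IGa.mem_lb.2 ⟨x, hX x hx, hxp⟩))
  refine ⟨?_, ?_, ?_⟩
  · intro p hp i h1 h2 h3 h4
    obtain ⟨k1, k2, k3⟩ := hJA p hp
    obtain ⟨m1, m2⟩ := IGa.core hNx hVt hXA hc hg1 k1 k2 h1 h2 h3 h4
    unfold gc
    by_cases hi : i ∈ lb (A ++ (B ++ C))
    · rw [if_pos hi]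
      exact m1 hi
    · rw [if_neg hi, if_pos ⟨p, hp, m2 hi⟩]
  · intro p hp i h1 h2 h3 h4
    obtain ⟨k1, k2⟩ := hJB p hp
    obtain ⟨m1, m2⟩ := IGa.core hNx hVt hXB hc hg2 k1 k2 h1 h2 h3 h4
    unfold gc
    by_cases hi : i ∈ lb (A ++ (B ++ C))
    · rw [if_pos hi]
      exact m1 hi
    · rw [if_neg hi, if_neg]
      rintro ⟨p', hp', h5, h6⟩
      obtain ⟨l1, l2, l3⟩ := hJA p' hp'
      obtain ⟨h7, h8⟩ := m2 hi
      have h9 := (hNx I (A ++ (B ++ C))).2.2.2.2.2 i p p' h4 (hmk _ hXB p k1)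
        (hmk _ hXA p' l1) h1 h8 h5.le h6
      rw [← h9] at l3
      exact l3 hp
  · intro x hx
    unfold gc
    rw [if_pos (IGa.mem_lb.2 ⟨x, hx, rfl⟩)]
    exact ((hVt I _ hc).1 x hx).2.2.2

end Pool.Agent.Work.MP_c6c039_lc.CL
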