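import Pool.Agent.Work.MP_c6c039_lc.CL.StmtsS

/-!
# Block CL, item Gn: generic points
-/

set_option autoImplicit false

namespace Pool.Agent.Work.MP_c6c039_lc.CL

open Pool.Agent.Work.MP_c6c039_lc.FP Pool.Agent.Work.MP_c6c039_lc.NC

namespace IGn

/-- one line -/
theorem one (p q r : ℝ) (hpq : p ≠ 0 ∨ q ≠ 0) (U : Set (ℝ × ℝ)) (hU : IsOpen U)
    (hne : U.Nonempty) : (U ∩ {z | p * z.1 + q * z.2 ≠ r}).Nonempty := by
  obtain ⟨z0, hz0⟩ := hne
  by_cases h : p * z0.1 + q * z0.2 = r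
  · have hc : Continuous fun t : ℝ => ((z0.1 + t * p, z0.2 + t * q) : ℝ × ℝ) := by
      fun_prop
    have hmem : (fun t : ℝ => ((z0.1 + t * p, z0.2 + t * q) : ℝ × ℝ)) 0 ∈ U := by
      simpa using hz0
    have h1 : ∀ᶠ t : ℝ in nhds 0, ((z0.1 + t * p, z0.2 + t * q) : ℝ × ℝ) ∈ U :=
      hc.continuousAt.eventually_mem (hU.mem_nhds hmem)
    have h2 : ∀ᶠ t : ℝ in nhdsWithin 0 {0}ᶜ, ((z0.1 + t * p, z0.2 + t * q) : ℝ × ℝ) ∈ U :=
      h1.filter_mono nhdsWithin_le_nhds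
    have h3 : ∀ᶠ t : ℝ in nhdsWithin 0 {0}ᶜ, t ≠ 0 := self_mem_nhdsWithin
    obtain ⟨t, ht, ht0⟩ := (h2.and h3).exists
    refine ⟨_, ht, ?_⟩
    show p * (z0.1 + t * p) + q * (z0.2 + t * q) ≠ r
    have h4 : p * (z0.1 + t * p) + q * (z0.2 + t * q) = r + t * (p ^ 2 + q ^ 2) := by
      rw [← h]
      ring
    rw [h4]
    have h5 : 0 < p ^ 2 + q ^ 2 := by
      rcases hpq with h | h
      · have := sq_nonneg q
        have : 0 < p ^ 2 := by positivity
        linarith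
      · have := sq_nonneg p
        have : 0 < q ^ 2 := by positivity
        linarith
    intro h6
    have h7 : t * (p ^ 2 + q ^ 2) = 0 := by linarith
    rcases mul_eq_zero.1 h7 with h8 | h8
    · exact ht0 h8
    · exact h5.ne' h8
  · exact ⟨z0, hz0, h⟩

/-- finitely many lines -/
theorem many {ι : Type} [DecidableEq ι] (s : Finset ι) (p q r : ι → ℝ) :
    (∀ i ∈ s, p i ≠ 0 ∨ q i ≠ 0) → ∀ U : Set (ℝ × ℝ), IsOpen U → U.Nonempty →
    ∃ V ⊆ U, IsOpen V ∧ V.Nonempty ∧ ∀ z ∈ V, ∀ i ∈ s, p i * z.1 + q i * z.2 ≠ r i := by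
  induction s using Finset.induction_on with
  | empty =>
    intro _ U hU hne
    exact ⟨U, subset_rfl, hU, hne, fun z _ i hi => absurd hi (Finset.notMem_empty i)⟩
  | insert a s _ ih =>
    intro hpq U hU hne
    obtain ⟨V, hV1, hV2, hV3, hV4⟩ := ih (fun i hi => hpq i (Finset.mem_insert_of_mem hi)) U hU hne
    refine ⟨V ∩ {z | p a * z.1 + q a * z.2 ≠ r a}, Set.inter_subset_left.trans hV1,
      hV2.inter ?_, one _ _ _ (hpq a (Finset.mem_insert_self a s)) V hV2 hV3, ?_⟩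
    · exact isOpen_ne_fun (by fun_prop) continuous_const
    · intro z hz i hi
      rcases Finset.mem_insert.1 hi with rfl | hi
      · exact hz.2
      · exact hV4 z hz.1 i hi

end IGn

/-- Gn. -/
theorem pr_Gn : St_Gn := by
  intro I X Y hRL h3 U hU hne
  obtain ⟨V, hV1, hV2, hV3, hV4⟩ := IGn.many (Finset.range (nn I)) (fun _ => (1 : ℝ))
    (fun _ => (0 : ℝ)) X (fun _ _ => Or.inl one_ne_zero) U hU hne
  obtain ⟨W, hW1, -, hW3, hW4⟩ := IGn.many ((Finset.range (nn I) ×ˢ Finset.range (nn I)).filter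
    fun e => e.1 ≠ e.2) (fun e => -(Y e.2 - Y e.1)) (fun e => X e.2 - X e.1)
    (fun e => (X e.2 - X e.1) * Y e.1 - (Y e.2 - Y e.1) * X e.1) (by
      rintro ⟨a, b⟩ he
      rw [Finset.mem_filter, Finset.mem_product, Finset.mem_range, Finset.mem_range] at he
      obtain ⟨⟨ha, hb⟩, hab⟩ := he
      show -(Y b - Y a) ≠ 0 ∨ X b - X a ≠ 0
      by_contra hcon
      rw [not_or, not_not, not_not] at hcon
      obtain ⟨c, hc, hac, hbc⟩ : ∃ c, c < nn I ∧ a ≠ c ∧ b ≠ c := by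
        by_cases h0 : a ≠ 0 ∧ b ≠ 0
        · exact ⟨0, by omega, h0.1, h0.2⟩
        · by_cases h1 : a ≠ 1 ∧ b ≠ 1
          · exact ⟨1, by omega, h1.1, h1.2⟩
          · exact ⟨2, by omega, by omega, by omega⟩
      refine hRL.2 a b c ha hb hc hab hbc hac ?_
      unfold ar
      have h5 : Y b - Y a = 0 := neg_eq_zero.1 hcon.1
      rw [h5, hcon.2]
      ring) V hV2 hV3
  obtain ⟨z, hz⟩ := hW3
  refine ⟨z, hV1 (hW1 hz), fun a ha h => ?_, fun a b ha hb hab h => ?_⟩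
  · refine hV4 z (hW1 hz) a (Finset.mem_range.2 ha) ?_
    rw [h]
    ring
  · refine hW4 z hz (a, b) (Finset.mem_filter.2 ⟨Finset.mem_product.2
      ⟨Finset.mem_range.2 ha, Finset.mem_range.2 hb⟩, hab⟩) ?_
    show -(Y b - Y a) * z.1 + (X b - X a) * z.2 = (X b - X a) * Y a - (Y b - Y a) * X a
    unfold az at h
    linarith

end Pool.Agent.Work.MP_c6c039_lc.CL
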