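import Pool.Agent.Work.MP_c6c039_lc.CL.StmtsL

/-! # Item Gp of block CL: all edges of a gap are inside, or none -/

set_option autoImplicit false

namespace Pool.Agent.Work.MP_c6c039_lc.CL

open Pool.Agent.Work.MP_c6c039_lc.FP Pool.Agent.Work.MP_c6c039_lc.NC

namespace IGp

/-- a point of a list gives a label -/
theorem mem_lb (l A : List ℕ) (y : ℕ) (h : y ∈ A) : la l y ∈ lb (lr l A) := by
  unfold lb lr
  rw [List.map_map]
  exact List.mem_map.2 ⟨y, h, rfl⟩

theorem lb_append (A B : Rt) : lb (A ++ B) = lb A ++ lb B := by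
  unfold lb
  exact List.map_append

/-- segments inside are symmetric -/
theorem in_symm (I : In) (E : ℕ → ℕ → Prop) (hE : ∀ a b, E a b → E b a) (w : ℕ → ℕ → ℤ)
    (u v x y : ℕ) (h : IN I E w u v x y) : IN I E w u v y x := by
  obtain ⟨h1, h2, h3, h4, h5⟩ := h
  exact ⟨hE _ _ h1, fun h => h3 ⟨h.2, h.1⟩, fun h => h2 ⟨h.2, h.1⟩, h5, h4⟩

/-- one step -/
theorem step (hNx : St_Nx) (hLa : St_La) (hI4 : St_I4) (I : In) (E : ℕ → ℕ → Prop)
    (par ly : ℕ → ℕ) (k : ℕ) (l : List ℕ) (hP : PX I E par ly k l) (w : ℕ → ℕ → ℤ) (u v : ℕ)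
    (hR : RG I E par k w u v) (p i : ℕ) (h1 : p ≤ i)
    (h2 : i + 1 < nxt I (sg I par k l u v) p) (h3 : 0 < i) (h4 : i + 1 < nn I) :
    IN I E w u v (lv l i) (lv l (i + 1)) ↔ IN I E w u v (lv l (i + 1)) (lv l (i + 1 + 1)) := by
  obtain ⟨-, hL2, hL3⟩ := hLa I E par ly k l hP
  have hnl : i + 1 ∉ lb (sg I par k l u v) := by
    intro h
    have := (hNx I (sg I par k l u v)).2.2.1 p (i + 1) h (by omega) (by omega)
    omega
  obtain ⟨hyn, hyl⟩ := hL2 (i + 1) (by omega) (by omega)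
  have hyu : lv l (i + 1) ∉ rl I par k u := by
    intro h
    apply hnl
    unfold sg
    rw [lb_append, List.mem_append]
    left
    have := mem_lb l _ _ h
    rw [hyl] at this
    exact this
  have hyv : lv l (i + 1) ∉ rl I par k v := by
    intro h
    apply hnl
    unfold sg
    rw [lb_append, List.mem_append]
    right
    have := mem_lb l _ _ h
    rw [hyl] at this
    exact this
  have hsym := hP.cx.mx.sym
  have e1 : E (lv l (i + 1)) (lv l i) := hsym _ _ (hL3 i h3 (by omega)).1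
  have e2 : E (lv l (i + 1)) (lv l (i + 1 + 1)) := (hL3 (i + 1) (by omega) h4).1
  constructor
  · intro h
    exact hI4 I E par ly k hP.cx w u v hR _ hyn hyu hyv _ _ e1 e2 (in_symm I E hsym w u v _ _ h)
  · intro h
    exact in_symm I E hsym w u v _ _
      (hI4 I E par ly k hP.cx w u v hR _ hyn hyu hyv _ _ e2 e1 h)

/-- several steps -/
theorem steps (hNx : St_Nx) (hLa : St_La) (hI4 : St_I4) (I : In) (E : ℕ → ℕ → Prop)
    (par ly : ℕ → ℕ) (k : ℕ) (l : List ℕ) (hP : PX I E par ly k l) (w : ℕ → ℕ → ℤ) (u v : ℕ)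
    (hR : RG I E par k w u v) (p i : ℕ) (h1 : p ≤ i) (h3 : 0 < i) (d : ℕ)
    (h2 : i + d < nxt I (sg I par k l u v) p) (h4 : i + d < nn I) :
    IN I E w u v (lv l i) (lv l (i + 1)) ↔ IN I E w u v (lv l (i + d)) (lv l (i + d + 1)) := by
  induction d with
  | zero => exact Iff.rfl
  | succ d ih =>
    rw [ih (by omega) (by omega)]
    exact step hNx hLa hI4 I E par ly k l hP w u v hR p (i + d) (by omega) (by omega)
      (by omega) (by omega)

end IGp

open IGp in
/-- Gp. -/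
theorem pr_Gp (hNx : St_Nx) (hLa : St_La) (hI4 : St_I4) : St_Gp := by
  intro I E par ly k l hP w u v hR p hp
  have key : ∀ i j, p ≤ i → i < nxt I (sg I par k l u v) p → 0 < i → i < nn I → p ≤ j →
      j < nxt I (sg I par k l u v) p → 0 < j → j < nn I →
      IN I E w u v (lv l i) (lv l (i + 1)) → IN I E w u v (lv l j) (lv l (j + 1)) := by
    intro i j hi1 hi2 hi3 hi4 hj1 hj2 hj3 hj4 h
    rcases le_total i j with hij | hij
    · obtain ⟨d, rfl⟩ := Nat.exists_eq_add_of_le hij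
      exact (steps hNx hLa hI4 I E par ly k l hP w u v hR p i hi1 hi3 d hj2 hj4).1 h
    · obtain ⟨d, rfl⟩ := Nat.exists_eq_add_of_le hij
      exact (steps hNx hLa hI4 I E par ly k l hP w u v hR p j hj1 hj3 d hi2 hi4).2 h
  refine ⟨key, ?_⟩
  classical
  unfold jt
  rw [List.mem_filter, decide_eq_true_iff, List.mem_range]
  constructor
  · rintro ⟨-, -, ⟨i, h1, h2, h3, h4⟩, h5⟩
    exact ⟨i, h1, h2, h3, h4, h5 i h1 h2 h3 h4⟩
  · rintro ⟨i, h1, h2, h3, h4, h5⟩
    exact ⟨by omega, hp, ⟨i, h1, h2, h3, h4⟩, fun j g1 g2 g3 g4 =>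
      key i j h1 h2 h3 h4 g1 g2 g3 g4 h5⟩

end Pool.Agent.Work.MP_c6c039_lc.CL
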