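import Pool.Agent.Work.MP_c6c039_lc.CL.StmtsW

/-!
# Block CL, item H1: every closed chain is a boundary
-/

set_option autoImplicit false

namespace Pool.Agent.Work.MP_c6c039_lc.CL

open Pool.Agent.Work.MP_c6c039_lc.FP Pool.Agent.Work.MP_c6c039_lc.NC

namespace IH1

/-- `x` is above `z` -/
def Ab (X Y : ℕ → ℝ) (z x : ℕ) : Prop := Y z < Y x ∨ (Y z = Y x ∧ X z < X x)

theorem Ab.trans' {X Y : ℕ → ℝ} {x y z : ℕ} (h1 : Ab X Y x y) (h2 : Ab X Y y z) : Ab X Y x z := by
  unfold Ab at *
  rcases h1 with h1 | ⟨h1, h1'⟩ <;> rcases h2 with h2 | ⟨h2, h2'⟩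
  · exact Or.inl (h1.trans h2)
  · exact Or.inl (by linarith)
  · exact Or.inl (by linarith)
  · exact Or.inr ⟨by linarith, by linarith⟩

theorem Ab.irr {X Y : ℕ → ℝ} {x : ℕ} (h : Ab X Y x x) : False := by
  unfold Ab at h
  rcases h with h | ⟨-, h⟩ <;> exact lt_irrefl _ h

open Classical in
/-- the number of points above `z` -/
noncomputable def Nb (n : ℕ) (X Y : ℕ → ℝ) (z : ℕ) : ℕ :=
  ((Finset.range n).filter fun x => Ab X Y z x).card

open Classical in
theorem Nb_lt (n : ℕ) (X Y : ℕ → ℝ) (z x : ℕ) (hx : x < n) (h : Ab X Y z x) :
    Nb n X Y x < Nb n X Y z := by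
  unfold Nb
  apply Finset.card_lt_card
  rw [Finset.ssubset_iff_of_subset]
  · exact ⟨x, Finset.mem_filter.2 ⟨Finset.mem_range.2 hx, h⟩, fun h' =>
      Ab.irr (Finset.mem_filter.1 h').2⟩
  · intro y hy
    rw [Finset.mem_filter] at hy ⊢
    exact ⟨hy.1, h.trans' hy.2⟩

open Classical in
theorem Nb_le (n : ℕ) (X Y : ℕ → ℝ) (z : ℕ) : Nb n X Y z ≤ n := by
  unfold Nb
  calc _ ≤ (Finset.range n).card := Finset.card_filter_le _ _
    _ = n := Finset.card_range _

/-- A point between two points above `z` is above `z`. -/
theorem cone (X Y : ℕ → ℝ) (z a b x : ℕ) (ha : Ab X Y z a) (hb : Ab X Y z b)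
    (h1 : 0 < ar X Y z a b) (h2 : 0 < ar X Y z a x) (h3 : 0 < ar X Y z x b) : Ab X Y z x := by
  unfold Ab at *
  unfold ar at *
  obtain ⟨a1, ha1⟩ : ∃ t, t = X a - X z := ⟨_, rfl⟩
  obtain ⟨a2, ha2⟩ : ∃ t, t = Y a - Y z := ⟨_, rfl⟩
  obtain ⟨b1, hb1⟩ : ∃ t, t = X b - X z := ⟨_, rfl⟩
  obtain ⟨b2, hb2⟩ : ∃ t, t = Y b - Y z := ⟨_, rfl⟩
  obtain ⟨x1, hx1⟩ : ∃ t, t = X x - X z := ⟨_, rfl⟩
  obtain ⟨x2, hx2⟩ : ∃ t, t = Y x - Y z := ⟨_, rfl⟩
  rw [← ha1, ← ha2, ← hb1, ← hb2] at h1
  rw [← ha1, ← ha2, ← hx1, ← hx2] at h2
  rw [← hb1, ← hb2, ← hx1, ← hx2] at h3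
  have hA : 0 ≤ a2 := by rcases ha with h | ⟨h, -⟩ <;> linarith
  have hB : 0 ≤ b2 := by rcases hb with h | ⟨h, -⟩ <;> linarith
  have hAB : 0 < a2 ∨ 0 < b2 := by
    by_contra hcon
    push Not at hcon
    have e1 : a2 = 0 := le_antisymm hcon.1 hA
    have e2 : b2 = 0 := le_antisymm hcon.2 hB
    rw [e1, e2] at h1
    simp at h1
  have key : (a1 * b2 - a2 * b1) * x2 =
      a2 * (x1 * b2 - x2 * b1) + b2 * (a1 * x2 - a2 * x1) := by ring
  have hpos : 0 < (a1 * b2 - a2 * b1) * x2 := by
    rw [key]
    rcases hAB with h | h
    · exact add_pos_of_pos_of_nonneg (mul_pos h h3) (mul_nonneg hB h2.le)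
    · exact add_pos_of_nonneg_of_pos (mul_nonneg hA h3.le) (mul_pos h h2)
  have : 0 < x2 := (pos_iff_pos_of_mul_pos hpos).1 h1
  left
  linarith

theorem RI_zero (I : In) (E : ℕ → ℕ → Prop) : RI I E (fun _ _ => 0) :=
  ⟨fun _ _ _ _ => rfl, fun _ _ _ => rfl⟩

theorem RI_add (I : In) (E : ℕ → ℕ → Prop) (w v : ℕ → ℕ → ℤ) (hw : RI I E w) (hv : RI I E v) :
    RI I E (fun x y => w x y + v x y) :=
  ⟨fun a b c h => by show w a b + v a b = w b c + v b c; rw [hw.rot a b c h, hv.rot a b c h],
    fun a b h => by show w a b + v a b = 0; rw [hw.out a b h, hv.out a b h]; rfl⟩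

theorem RI_neg (I : In) (E : ℕ → ℕ → Prop) (w : ℕ → ℕ → ℤ) (hw : RI I E w) :
    RI I E (fun x y => - w x y) :=
  ⟨fun a b c h => by show - w a b = - w b c; rw [hw.rot a b c h],
    fun a b h => by show - w a b = 0; rw [hw.out a b h]; rfl⟩

theorem CC_sub (I : In) (E : ℕ → ℕ → Prop) (γ δ : ℕ → ℕ → ℤ) (hγ : CC I E γ) (hδ : CC I E δ) :
    CC I E (fun x y => γ x y - δ x y) := by
  refine ⟨?_, ?_, ?_⟩
  · intro x y
    show γ x y - δ x y = -(γ y x - δ y x)
    rw [hγ.anti x y, hδ.anti x y]
    ring
  · intro x y h
    by_cases h1 : γ x y = 0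
    · by_cases h2 : δ x y = 0
      · exact absurd (show γ x y - δ x y = 0 by rw [h1, h2]; rfl) h
      · exact hδ.sup x y h2
    · exact hγ.sup x y h1
  · intro x
    show ∑ y ∈ Finset.range (nn I), (γ x y - δ x y) = 0
    rw [Finset.sum_sub_distrib, hγ.clo, hδ.clo]
    rfl

end IH1

/-- **Item H1**. -/
theorem pr_H1 (hSy : FP.St_Sy) (hCl : St_Cl) (hFn : St_Fn) : St_H1 := by
  intro I hI E hE
  have hC : CH I := hSy I hI
  by_cases h3 : nn I < 3
  · -- few points
    intro γ hγ
    have h0 : ∀ x y, γ x y = 0 := by
      intro x y
      by_contra hne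
      have hxy := hE.lt x y (hγ.sup x y hne)
      have hd : ∀ v, γ v v = 0 := fun v => by have := hγ.anti v v; omega
      have hn : nn I = 2 := by omega
      have c := hγ.clo x
      rw [hn, Finset.sum_range_succ, Finset.sum_range_succ, Finset.sum_range_zero] at c
      have hx : x = 0 ∨ x = 1 := by omega
      rcases hx with rfl | rfl
      · have hy : y = 1 := by omega
        rw [hy] at hne
        rw [hd 0] at c
        exact hne (by omega)
      · have hy : y = 0 := by omega
        rw [hy] at hne
        rw [hd 1] at c
        exact hne (by omega)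
    exact ⟨fun _ _ => 0, IH1.RI_zero I E, fun x y => by rw [h0 x y]; rfl⟩
  rw [not_lt] at h3
  obtain ⟨X, Y, hp, hg⟩ := hI
  have hI : Rl I := ⟨X, Y, hp, hg⟩
  -- the order is total
  have tot : ∀ x z, x < nn I → z < nn I → x ≠ z → IH1.Ab X Y z x ∨ IH1.Ab X Y x z := by
    intro x z hx hz hne
    by_contra hcon
    rw [not_or] at hcon
    obtain ⟨c1, c2⟩ := hcon
    unfold IH1.Ab at c1 c2
    rw [not_or] at c1 c2
    have eY : Y z = Y x := le_antisymm (not_lt.1 c2.1) (not_lt.1 c1.1)
    have eX : X z = X x := by
      have d1 : ¬ X z < X x := fun h => c1.2 ⟨eY, h⟩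
      have d2 : ¬ X x < X z := fun h => c2.2 ⟨eY.symm, h⟩
      exact le_antisymm (not_lt.1 d2) (not_lt.1 d1)
    obtain ⟨y, hy, hyx, hyz⟩ : ∃ y, y < nn I ∧ y ≠ x ∧ y ≠ z := by
      by_cases e0 : (0 ≠ x ∧ 0 ≠ z)
      · exact ⟨0, by omega, e0.1, e0.2⟩
      · by_cases e1 : (1 ≠ x ∧ 1 ≠ z)
        · exact ⟨1, by omega, e1.1, e1.2⟩
        · exact ⟨2, by omega, by omega, by omega⟩
    have := hg x z y hx hz hy hne (Ne.symm hyz) (Ne.symm hyx)
    apply this
    unfold ar
    rw [eX, eY]
    ring
  obtain ⟨N, hN⟩ : ∃ N : ℕ → ℕ, N = IH1.Nb (nn I) X Y := ⟨_, rfl⟩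
  have N2 : ∀ z x, x < nn I → IH1.Ab X Y z x → N x < N z := by
    intro z x hx h
    rw [hN]
    exact IH1.Nb_lt _ X Y z x hx h
  have N1 : ∀ z x, x < nn I → z < nn I → x ≠ z → N x ≤ N z → IH1.Ab X Y z x := by
    intro z x hx hz hne hle
    rcases tot x z hx hz hne with h | h
    · exact h
    · exact absurd (N2 x z hz h) (not_lt.2 hle)
  have Ds3 : ∀ a b c, a < nn I → b < nn I → c < nn I → a ≠ b → a ≠ c → b ≠ c →
      Ds I [a, b, c] := by
    intro x y z hx hy hz h1 h2 h3
    refine ⟨?_, ?_⟩
    · simp only [List.nodup_cons, List.mem_cons, List.not_mem_nil, or_false, not_or,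
        List.nodup_nil, and_true, not_false_eq_true]
      exact ⟨⟨h1, h2⟩, h3⟩
    · intro w hw
      simp only [List.mem_cons, List.not_mem_nil, or_false] at hw
      rcases hw with rfl | rfl | rfl <;> assumption
  -- one fan
  have one : ∀ z a b, IH1.Ab X Y z a → IH1.Ab X Y z b → E z a → E z b → chi I z a b = true →
      ∃ w, RI I E w ∧ (∀ y, w z y - w y z = (if a = y then 1 else 0) - (if b = y then 1 else 0)) ∧
        ∀ x y, w x y - w y x ≠ 0 → N x ≤ N z := by
    intro z a b ha hb ea eb hab
    obtain ⟨w, hw, hw2⟩ := hFn I hI E hE z a b ea eb hab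
    obtain ⟨lz, la, nza⟩ := hE.lt z a ea
    obtain ⟨-, lb, nzb⟩ := hE.lt z b eb
    refine ⟨w, hw, ?_, ?_⟩
    · intro y
      have h0 : (w z y - w y z) - (dl z a z y + dl b z z y) = 0 := by
        by_contra hne
        rcases (hw2 z y hne).1 with h | h | ⟨h, -⟩
        · exact nza h
        · exact nzb h
        · rw [(hC.deg z a lz la).2.1] at h
          exact Bool.noConfusion h
      have e1 : dl z a z y = if a = y then 1 else 0 := by
        unfold dl
        rw [if_neg (c := z = y ∧ a = z) (fun h => nza h.2.symm)]
        simp
      have e2 : dl b z z y = - (if b = y then 1 else 0) := by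
        unfold dl
        rw [if_neg (c := b = z ∧ z = y) (fun h => nzb h.1.symm)]
        simp
      rw [e1, e2] at h0
      linarith
    · intro x y hne
      by_cases h0 : (w x y - w y x) - (dl z a x y + dl b z x y) = 0
      · have h1 : dl z a x y + dl b z x y ≠ 0 := by
          intro h
          rw [h] at h0
          exact hne (by linarith)
        have h2 : x = z ∨ x = a ∨ x = b := by
          by_contra hcon
          rw [not_or, not_or] at hcon
          apply h1
          unfold dl
          rw [if_neg (fun h => hcon.1 h.1.symm), if_neg (fun h => hcon.2.1 h.2.symm),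
            if_neg (fun h => hcon.2.2 h.1.symm), if_neg (fun h => hcon.1 h.2.symm)]
          rfl
        rcases h2 with rfl | rfl | rfl
        · exact le_refl _
        · exact (N2 z x la ha).le
        · exact (N2 z x lb hb).le
      · rcases (hw2 x y h0).1 with h | h | ⟨h1, h2⟩
        · rw [h]; exact (N2 z a la ha).le
        · rw [h]; exact (N2 z b lb hb).le
        · have lx : x < nn I := by
            by_contra hcon
            have hout : ∀ u v, (x = u ∨ x = v) → ¬ ∃ c, Tr I E u v c := by
              rintro u v huv ⟨c, hc⟩
              have := hE.lt u v hc.e1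
              rcases huv with h | h <;> rw [← h] at this <;> omega
            apply hne
            rw [hw.out x y (hout x y (Or.inl rfl)), hw.out y x (hout y x (Or.inr rfl))]
            rfl
          exact (N2 z x lx (IH1.cone X Y z a b x ha hb ((hp z a b lz la lb).1 hab)
            ((hp z a x lz la lx).1 h1) ((hp z x b lz lx lb).1 h2))).le
  -- the induction
  have main : ∀ m : ℕ, ∀ γ, CC I E γ → (∀ x y, γ x y ≠ 0 → N x < m) →
      ∃ w, RI I E w ∧ ∀ x y, w x y - w y x = γ x y := by
    intro m
    induction m with
    | zero =>
      intro γ _ h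
      refine ⟨fun _ _ => 0, IH1.RI_zero I E, fun x y => ?_⟩
      by_contra hne
      exact absurd (h x y (fun h' => hne (by rw [h']; rfl))) (Nat.not_lt_zero _)
    | succ m ih =>
      intro γ hγ hs
      by_cases hz : ∃ z, z < nn I ∧ N z = m
      · obtain ⟨z, lz, hz⟩ := hz
        have inner : ∀ k : ℕ, ∀ γ, CC I E γ → (∀ x y, γ x y ≠ 0 → N x < m + 1) →
            (∑ y ∈ Finset.range (nn I), (γ z y).natAbs ≤ k) →
            ∃ w, RI I E w ∧ ∀ x y, w x y - w y x = γ x y := by
          intro k
          induction k with
          | zero =>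
            intro γ hγ hs hk
            apply ih γ hγ
            intro x y hne
            have h1 := hs x y hne
            rcases Nat.lt_succ_iff_lt_or_eq.1 h1 with h | h
            · exact h
            · exfalso
              obtain ⟨lx, ly, -⟩ := hE.lt x y (hγ.sup x y hne)
              have hxz : x = z := by
                by_contra hcon
                have q1 := N1 z x lx lz hcon (by rw [h, hz])
                have := N2 z x lx q1
                omega
              rw [hxz] at hne
              have h2 : (γ z y).natAbs ≤ ∑ y ∈ Finset.range (nn I), (γ z y).natAbs :=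
                Finset.single_le_sum (f := fun y => (γ z y).natAbs)
                  (fun _ _ => Nat.zero_le _) (Finset.mem_range.2 ly)
              omega
          | succ k ihk =>
            intro γ hγ hs hk
            by_cases hle : ∑ y ∈ Finset.range (nn I), (γ z y).natAbs ≤ k
            · exact ihk γ hγ hs hle
            · -- positive and negative entries
              have hne : ∃ y ∈ Finset.range (nn I), γ z y ≠ 0 := by
                by_contra hcon
                push Not at hcon
                apply hle
                rw [Finset.sum_eq_zero fun y hy => by rw [hcon y hy]; rfl]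
                exact Nat.zero_le _
              have hpos : ∃ a ∈ Finset.range (nn I), 0 < γ z a := by
                by_contra hcon
                push Not at hcon
                have := (Finset.sum_eq_zero_iff_of_nonpos hcon).1 (hγ.clo z)
                obtain ⟨y, hy, hy2⟩ := hne
                exact hy2 (this y hy)
              have hneg : ∃ b ∈ Finset.range (nn I), γ z b < 0 := by
                by_contra hcon
                push Not at hcon
                have := (Finset.sum_eq_zero_iff_of_nonneg hcon).1 (hγ.clo z)
                obtain ⟨y, hy, hy2⟩ := hne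
                exact hy2 (this y hy)
              obtain ⟨a, ha, ha2⟩ := hpos
              obtain ⟨b, hb, hb2⟩ := hneg
              rw [Finset.mem_range] at ha hb
              have nab : a ≠ b := fun h => by rw [h] at ha2; omega
              have ea := hγ.sup z a (by omega)
              have eb := hγ.sup z b (by omega)
              have nza := (hE.lt z a ea).2.2
              have nzb := (hE.lt z b eb).2.2
              have Na : N a ≤ N z := by
                have := hs a z (by rw [hγ.anti a z]; omega)
                omega
              have Nb : N b ≤ N z := by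
                have := hs b z (by rw [hγ.anti b z]; omega)
                omega
              have Aa := N1 z a ha lz (Ne.symm nza) Na
              have Ab' := N1 z b hb lz (Ne.symm nzb) Nb
              obtain ⟨w, hw, hw1, hw2⟩ : ∃ w, RI I E w ∧
                  (∀ y, w z y - w y z = (if a = y then 1 else 0) - (if b = y then 1 else 0)) ∧
                  ∀ x y, w x y - w y x ≠ 0 → N x ≤ N z := by
                by_cases hab : chi I z a b = true
                · exact one z a b Aa Ab' ea eb hab
                · have hba : chi I z b a = true := by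
                    have q1 := hC.anti a z b (Ds3 a z b ha lz hb (Ne.symm nza) nab nzb)
                    have q2 := hC.cyc z b a (Ds3 z b a lz hb ha nzb nza (Ne.symm nab))
                    have q3 := hC.cyc a z b (Ds3 a z b ha lz hb (Ne.symm nza) nab nzb)
                    -- chi z a b = ! chi a z b = ! chi z b a
                    rw [q3]
                    rw [q1] at hab
                    simpa using hab
                  obtain ⟨w, hw, hw1, hw2⟩ := one z b a Ab' Aa eb ea hba
                  refine ⟨fun x y => - w x y, IH1.RI_neg I E w hw, ?_, ?_⟩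
                  · intro y
                    have := hw1 y
                    show - w z y - - w y z = _
                    linarith
                  · intro x y h
                    apply hw2 x y
                    intro h'
                    apply h
                    show - w x y - - w y x = 0
                    linarith
              have hγ' := IH1.CC_sub I E γ _ hγ (hCl I hI E hE w hw)
              obtain ⟨v, hv, hv2⟩ := ihk _ hγ' (by
                intro x y h
                by_cases h1 : γ x y = 0
                · have h2 : w x y - w y x ≠ 0 := by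
                    intro h2
                    apply h
                    show γ x y - (w x y - w y x) = 0
                    rw [h1, h2]
                    rfl
                  have := hw2 x y h2
                  omega
                · exact hs x y h1) (by
                show ∑ y ∈ Finset.range (nn I), (γ z y - (w z y - w y z)).natAbs ≤ k
                have hlt : ∑ y ∈ Finset.range (nn I), (γ z y - (w z y - w y z)).natAbs <
                    ∑ y ∈ Finset.range (nn I), (γ z y).natAbs := by
                  apply Finset.sum_lt_sum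
                  · intro y _
                    rw [hw1 y]
                    by_cases e1 : a = y
                    · rw [← e1, if_pos rfl, if_neg (Ne.symm nab)]
                      omega
                    · by_cases e2 : b = y
                      · rw [← e2, if_neg nab, if_pos rfl]
                        omega
                      · rw [if_neg e1, if_neg e2]
                        simp
                  · refine ⟨a, Finset.mem_range.2 ha, ?_⟩
                    rw [hw1 a, if_pos rfl, if_neg (Ne.symm nab)]
                    omega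
                omega)
              refine ⟨fun x y => w x y + v x y, IH1.RI_add I E w v hw hv, ?_⟩
              intro x y
              have := hv2 x y
              show w x y + v x y - (w y x + v y x) = γ x y
              have h2 : v x y - v y x = γ x y - (w x y - w y x) := this
              linarith
        exact inner _ γ hγ hs le_rfl
      · apply ih γ hγ
        intro x y hne
        have h1 := hs x y hne
        rcases Nat.lt_succ_iff_lt_or_eq.1 h1 with h | h
        · exact h
        · exact absurd ⟨x, (hE.lt x y (hγ.sup x y hne)).1, h⟩ hz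
  intro γ hγ
  refine main (nn I + 1) γ hγ ?_
  intro x y _
  have : N x ≤ nn I := by
    rw [hN]
    exact IH1.Nb_le _ X Y x
  omega

end Pool.Agent.Work.MP_c6c039_lc.CL
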