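import Pool.Agent.Work.MP_c6c039_lc.CL.StmtsS

/-! # Item Hb of block CL: the boundary of the hull -/

set_option autoImplicit false

namespace Pool.Agent.Work.MP_c6c039_lc.CL

open Pool.Agent.Work.MP_c6c039_lc.FP Pool.Agent.Work.MP_c6c039_lc.NC

namespace IHb

theorem ed_cc (a b : ℕ) (l : List ℕ) : ed (a :: b :: l) = (a, b) :: ed (b :: l) := by
  simp [ed]

/-- the edges of a list are the pairs of consecutive entries -/
theorem mem_ed (l : List ℕ) (x y : ℕ) : (x, y) ∈ ed l ↔
    ∃ i, i + 1 < l.length ∧ l.getD i 0 = x ∧ l.getD (i + 1) 0 = y := by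
  induction l with
  | nil => simp [ed]
  | cons a l ih =>
    cases l with
    | nil => simp [ed]
    | cons b l =>
      rw [ed_cc, List.mem_cons, ih]
      constructor
      · rintro (h | ⟨i, hi, h1, h2⟩)
        · obtain ⟨h1, h2⟩ := Prod.mk.inj h
          exact ⟨0, by simp, by simpa using h1.symm, by simpa using h2.symm⟩
        · exact ⟨i + 1, by simpa using hi, by simpa using h1, by simpa using h2⟩
      · rintro ⟨i, hi, h1, h2⟩
        cases i with
        | zero =>
          left
          have e1 : a = x := by simpa using h1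
          have e2 : b = y := by simpa using h2
          rw [e1, e2]
        | succ i =>
          right
          exact ⟨i, by simpa using hi, by simpa using h1, by simpa using h2⟩

theorem getD_inj {l : List ℕ} (hn : l.Nodup) {i j : ℕ} (hi : i < l.length) (hj : j < l.length)
    (h : l.getD i 0 = l.getD j 0) : i = j := by
  rw [List.getD_eq_getElem _ _ hi, List.getD_eq_getElem _ _ hj] at h
  exact (List.Nodup.getElem_inj_iff hn).1 h

end IHb

open IHb in
theorem pr_Hb (hSy : FP.St_Sy) (hHl : FP.St_Hl) (hDl : St_Dl) (hHs : St_Hs) : St_Hb := by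
  intro I hG h3
  obtain ⟨hm, -⟩ := hHs I hG h3
  obtain ⟨hnd, -, -⟩ := hHl I (hSy I hG.real) hG.hull
  obtain ⟨hA, -, hC, hE⟩ := hDl
  have hL : (hu I).length = mm I := rfl
  have hpm : ∀ j, hp I j = (hu I).getD (j % mm I) 0 := fun j => rfl
  have hps : ∀ j, j < mm I → hp I j = (hu I).getD j 0 := fun j hj => by
    rw [hpm, Nat.mod_eq_of_lt hj]
  have hpi : ∀ i j, i < mm I → j < mm I → hp I i = hp I j → i = j := fun i j hi hj h => by
    rw [hps i hi, hps j hj] at h
    exact getD_inj hnd hi hj h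
  -- the reversed pair
  have hanti : ∀ x y, hb I x y = - hb I y x := by
    intro x y
    unfold hb
    rw [(hA _ _ x y).1, (hC (hu I) x y).1]
    ring
  have hmem : ∀ x y, (x, y) ∈ ed (hu I) ↔ ∃ i, i + 1 < mm I ∧ hp I i = x ∧ hp I (i + 1) = y := by
    intro x y
    rw [mem_ed, hL]
    constructor
    · rintro ⟨i, hi, h1, h2⟩
      exact ⟨i, hi, by rw [hps i (by omega)]; exact h1, by rw [hps _ hi]; exact h2⟩
    · rintro ⟨i, hi, h1, h2⟩
      exact ⟨i, hi, by rw [← hps i (by omega)]; exact h1, by rw [← hps _ hi]; exact h2⟩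
  have hone : ∀ j, j < mm I → hb I (hp I j) (hp I (j + 1)) = 1 := by
    intro j hj
    by_cases hj' : j + 1 < mm I
    · have e1 : ch (hu I) (hp I j) (hp I (j + 1)) = 1 :=
        (hE (hu I) _ _ hnd).1 ((hmem _ _).2 ⟨j, hj', rfl, rfl⟩)
      have e2 : dl (hp I (mm I - 1)) (hp I 0) (hp I j) (hp I (j + 1)) = 0 := by
        unfold dl
        rw [if_neg, if_neg]
        · rfl
        · rintro ⟨h1, h2⟩
          have := hpi (mm I - 1) (j + 1) (by omega) (by omega) h1
          have := hpi 0 j (by omega) (by omega) h2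
          omega
        · rintro ⟨h1, h2⟩
          have := hpi (mm I - 1) j (by omega) (by omega) h1
          omega
      unfold hb
      rw [e1, e2]
      rfl
    · have hjm : j = mm I - 1 := by omega
      have e0 : hp I (j + 1) = hp I 0 := by
        rw [hpm, hpm, hjm]
        have : mm I - 1 + 1 = mm I := by omega
        rw [this, Nat.mod_self, Nat.zero_mod]
      have e1 : ch (hu I) (hp I (mm I - 1)) (hp I 0) = 0 := by
        by_contra hne
        rcases (hE (hu I) _ _ hnd).2 hne with h | h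
        · obtain ⟨i, hi, h1, h2⟩ := (hmem _ _).1 h
          have := hpi (i + 1) 0 (by omega) (by omega) h2
          omega
        · obtain ⟨i, hi, h1, h2⟩ := (hmem _ _).1 h
          have := hpi i 0 (by omega) (by omega) h1
          have := hpi (i + 1) (mm I - 1) (by omega) (by omega) h2
          omega
      have e2 : dl (hp I (mm I - 1)) (hp I 0) (hp I (mm I - 1)) (hp I 0) = 1 := by
        unfold dl
        rw [if_pos ⟨rfl, rfl⟩, if_neg]
        · rfl
        · rintro ⟨h1, h2⟩
          have := hpi (mm I - 1) 0 (by omega) (by omega) h1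
          omega
      rw [e0, hjm]
      unfold hb
      rw [e1, e2]
      rfl
  have hred : ∀ j, hp I j = hp I (j % mm I) ∧ hp I (j + 1) = hp I (j % mm I + 1) := by
    intro j
    constructor
    · rw [hpm, hpm (j % mm I), Nat.mod_mod]
    · rw [hpm, hpm (j % mm I + 1)]
      rw [Nat.add_mod j 1, Nat.add_mod (j % mm I) 1, Nat.mod_mod]
  have hall : ∀ j, hb I (hp I j) (hp I (j + 1)) = 1 := by
    intro j
    rw [(hred j).1, (hred j).2]
    exact hone _ (Nat.mod_lt _ (by omega))
  refine ⟨fun j => ⟨hall j, by rw [hanti, hall j]⟩, ?_⟩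
  intro x y hxy
  have hcase : dl (hp I (mm I - 1)) (hp I 0) x y ≠ 0 ∨ ch (hu I) x y ≠ 0 := by
    by_contra hh
    push Not at hh
    apply hxy
    unfold hb
    rw [hh.1, hh.2]
    rfl
  rcases hcase with h | h
  · have e0 : hp I (mm I - 1 + 1) = hp I 0 := by
      have e : mm I - 1 + 1 = mm I := by omega
      rw [hpm, hpm, e, Nat.mod_self, Nat.zero_mod]
    refine ⟨mm I - 1, by omega, ?_⟩
    rw [e0]
    unfold dl at h
    by_cases h1 : hp I (mm I - 1) = x ∧ hp I 0 = y
    · exact Or.inl ⟨h1.1.symm, h1.2.symm⟩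
    · by_cases h2 : hp I (mm I - 1) = y ∧ hp I 0 = x
      · exact Or.inr ⟨h2.1.symm, h2.2.symm⟩
      · rw [if_neg h1, if_neg h2] at h
        exact absurd rfl h
  · rcases (hE (hu I) x y hnd).2 h with h | h
    · obtain ⟨i, hi, h1, h2⟩ := (hmem _ _).1 h
      exact ⟨i, by omega, Or.inl ⟨h1.symm, h2.symm⟩⟩
    · obtain ⟨i, hi, h1, h2⟩ := (hmem _ _).1 h
      exact ⟨i, by omega, Or.inr ⟨h1.symm, h2.symm⟩⟩

end Pool.Agent.Work.MP_c6c039_lc.CL
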