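import Pool.Agent.Work.MP_c6c039_lc.CL.StmtsS

/-!
# Block CL, item Hs: the hull
-/

set_option autoImplicit false

namespace Pool.Agent.Work.MP_c6c039_lc.CL

open Pool.Agent.Work.MP_c6c039_lc.FP Pool.Agent.Work.MP_c6c039_lc.NC

namespace IHs

/-- the three weights of a point in a triangle have the same strict sign -/
theorem sgn (I : In) (X Y : ℕ → ℝ)
    (hc : ∀ a b c, a < nn I → b < nn I → c < nn I → (chi I a b c = true ↔ 0 < ar X Y a b c))
    (hg : ∀ a b c, a < nn I → b < nn I → c < nn I → a ≠ b → b ≠ c → a ≠ c → ar X Y a b c ≠ 0)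
    (a b c p : ℕ) (hd : Ds I [a, b, c, p]) (h : inT I a b c p = true) :
    (0 < ar X Y a b p ∧ 0 < ar X Y b c p ∧ 0 < ar X Y c a p) ∨
    (ar X Y a b p < 0 ∧ ar X Y b c p < 0 ∧ ar X Y c a p < 0) := by
  obtain ⟨hnd, hlt⟩ := hd
  have ha : a < nn I := hlt a (by simp)
  have hb : b < nn I := hlt b (by simp)
  have hcc : c < nn I := hlt c (by simp)
  have hp : p < nn I := hlt p (by simp)
  simp only [List.nodup_cons, List.mem_cons, List.not_mem_nil, or_false, not_or,
    not_false_eq_true, List.nodup_nil, and_true] at hnd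
  obtain ⟨⟨hab, hac, hap⟩, ⟨hbc, hbp⟩, hcp⟩ := hnd
  have n1 := hg a b p ha hb hp hab hbp hap
  have n2 := hg b c p hb hcc hp hbc hcp hbp
  have n3 := hg c a p hcc ha hp (Ne.symm hac) hap hcp
  have e1 := hc a b p ha hb hp
  have e2 := hc b c p hb hcc hp
  have e3 := hc c a p hcc ha hp
  unfold inT at h
  simp only [Bool.and_eq_true, beq_iff_eq] at h
  obtain ⟨h1, h2⟩ := h
  by_cases ht : chi I a b p = true
  · left
    exact ⟨e1.1 ht, e2.1 (h1 ▸ ht), e3.1 (h2 ▸ h1 ▸ ht)⟩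
  · right
    have t2 : ¬ chi I b c p = true := h1 ▸ ht
    have t3 : ¬ chi I c a p = true := h2 ▸ t2
    refine ⟨?_, ?_, ?_⟩
    · exact lt_of_le_of_ne (not_lt.1 fun h => ht (e1.2 h)) n1
    · exact lt_of_le_of_ne (not_lt.1 fun h => t2 (e2.2 h)) n2
    · exact lt_of_le_of_ne (not_lt.1 fun h => t3 (e3.2 h)) n3

/-- three nonnegative numbers with positive weights and sum zero vanish -/
theorem van (u v w a b c : ℝ) (hw : (0 < u ∧ 0 < v ∧ 0 < w) ∨ (u < 0 ∧ v < 0 ∧ w < 0))
    (ha : 0 ≤ a) (hb : 0 ≤ b) (hc : 0 ≤ c) (h : u * a + v * b + w * c = 0) :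
    a = 0 ∧ b = 0 ∧ c = 0 := by
  rcases hw with ⟨hu, hv, hw⟩ | ⟨hu, hv, hw⟩
  · have h1 := mul_nonneg hu.le ha
    have h2 := mul_nonneg hv.le hb
    have h3 := mul_nonneg hw.le hc
    have e1 : u * a = 0 := by linarith
    have e2 : v * b = 0 := by linarith
    have e3 : w * c = 0 := by linarith
    exact ⟨(mul_eq_zero.1 e1).resolve_left hu.ne', (mul_eq_zero.1 e2).resolve_left hv.ne',
      (mul_eq_zero.1 e3).resolve_left hw.ne'⟩
  · have h1 := mul_nonneg (neg_pos.2 hu).le ha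
    have h2 := mul_nonneg (neg_pos.2 hv).le hb
    have h3 := mul_nonneg (neg_pos.2 hw).le hc
    have e1 : u * a = 0 := by linarith
    have e2 : v * b = 0 := by linarith
    have e3 : w * c = 0 := by linarith
    exact ⟨(mul_eq_zero.1 e1).resolve_left hu.ne, (mul_eq_zero.1 e2).resolve_left hv.ne,
      (mul_eq_zero.1 e3).resolve_left hw.ne⟩

/-- a point with the greatest positive value of the form is extreme -/
theorem mx (hXt : St_Xt) (I : In) (X Y : ℕ → ℝ)
    (hc : ∀ a b c, a < nn I → b < nn I → c < nn I → (chi I a b c = true ↔ 0 < ar X Y a b c))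
    (hg : ∀ a b c, a < nn I → b < nn I → c < nn I → a ≠ b → b ≠ c → a ≠ c → ar X Y a b c ≠ 0)
    (p q : ℕ) (s : ℝ) (r : ℕ) (hr : r < nn I) (hpos : 0 < s * ar X Y p q r) :
    ∃ h, h < nn I ∧ ext I h = true ∧ 0 < s * ar X Y p q h := by
  obtain ⟨h, hh, hmax⟩ := Finset.exists_max_image (Finset.range (nn I))
    (fun r => s * ar X Y p q r) ⟨r, Finset.mem_range.2 hr⟩
  have hh' : h < nn I := Finset.mem_range.1 hh
  have hmax' : ∀ x, x < nn I → s * ar X Y p q x ≤ s * ar X Y p q h :=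
    fun x hx => hmax x (Finset.mem_range.2 hx)
  have hp : 0 < s * ar X Y p q h := lt_of_lt_of_le hpos (hmax' r hr)
  refine ⟨h, hh', ?_, hp⟩
  rw [hXt I h hh']
  intro d e g hD
  by_contra hT
  have hT' : inT I d e g h = true := by simpa using hT
  have hs := sgn I X Y hc hg d e g h hD hT'
  obtain ⟨hnd, hlt⟩ := hD
  have hd : d < nn I := hlt d (by simp)
  have he : e < nn I := hlt e (by simp)
  have hgg : g < nn I := hlt g (by simp)
  simp only [List.nodup_cons, List.mem_cons, List.not_mem_nil, or_false, not_or,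
    not_false_eq_true, List.nodup_nil, and_true] at hnd
  obtain ⟨⟨hde, hdg, hdh⟩, ⟨heg, heh⟩, hgh⟩ := hnd
  have hw : (0 < ar X Y e g h ∧ 0 < ar X Y g d h ∧ 0 < ar X Y d e h) ∨
      (ar X Y e g h < 0 ∧ ar X Y g d h < 0 ∧ ar X Y d e h < 0) := by
    rcases hs with ⟨h1, h2, h3⟩ | ⟨h1, h2, h3⟩
    · exact Or.inl ⟨h2, h3, h1⟩
    · exact Or.inr ⟨h2, h3, h1⟩
  obtain ⟨z1, z2, z3⟩ := van _ _ _ (s * ar X Y p q h - s * ar X Y p q d)
    (s * ar X Y p q h - s * ar X Y p q e) (s * ar X Y p q h - s * ar X Y p q g) hw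
    (sub_nonneg.2 (hmax' d hd)) (sub_nonneg.2 (hmax' e he)) (sub_nonneg.2 (hmax' g hgg))
    (by unfold ar; ring)
  have hs0 : s ≠ 0 := by
    rintro rfl
    simp at hp
  have y1 : ar X Y p q e - ar X Y p q d = 0 := by
    have : s * (ar X Y p q e - ar X Y p q d) = 0 := by linarith
    exact (mul_eq_zero.1 this).resolve_left hs0
  have y2 : ar X Y p q g - ar X Y p q d = 0 := by
    have : s * (ar X Y p q g - ar X Y p q d) = 0 := by linarith
    exact (mul_eq_zero.1 this).resolve_left hs0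
  have k1 : (X q - X p) * ar X Y d e g = 0 := by
    have : (X q - X p) * ar X Y d e g =
        (X e - X d) * (ar X Y p q g - ar X Y p q d) - (X g - X d) * (ar X Y p q e - ar X Y p q d) := by
      unfold ar; ring
    rw [this, y1, y2]; ring
  have k2 : (Y q - Y p) * ar X Y d e g = 0 := by
    have : (Y q - Y p) * ar X Y d e g =
        (Y e - Y d) * (ar X Y p q g - ar X Y p q d) - (Y g - Y d) * (ar X Y p q e - ar X Y p q d) := by
      unfold ar; ring
    rw [this, y1, y2]; ring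
  have hne := hg d e g hd he hgg hde heg hdg
  have x1 := (mul_eq_zero.1 k1).resolve_right hne
  have x2 := (mul_eq_zero.1 k2).resolve_right hne
  have : s * ar X Y p q h = 0 := by
    unfold ar
    rw [x1, x2]; ring
  rw [this] at hp
  exact lt_irrefl _ hp


/-- a number below `nn I` different from two given ones -/
theorem other (n p q : ℕ) (hn : 3 ≤ n) : ∃ r, r < n ∧ r ≠ p ∧ r ≠ q := by
  by_cases h0 : 0 ≠ p ∧ 0 ≠ q
  · exact ⟨0, by omega, h0.1, h0.2⟩
  by_cases h1 : 1 ≠ p ∧ 1 ≠ q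
  · exact ⟨1, by omega, h1.1, h1.2⟩
  · exact ⟨2, by omega, by omega, by omega⟩

end IHs

/-- Hs -/
theorem pr_Hs (hXt : FP.St_Xt) (hHC : FP.St_HC) : St_Hs := by
  intro I hI hn
  have hC := hHC I hI (by omega)
  obtain ⟨X, Y, hc, hg⟩ := hI.real
  have hm3 : 3 ≤ mm I := by
    by_contra hm
    have hm2 : mm I ≤ 2 := by omega
    have hm0 := hC.pos
    obtain ⟨q, hq, hpq, hall⟩ : ∃ q, q < nn I ∧ hp I 0 ≠ q ∧
        ∀ h, h < nn I → ext I h = true → h = hp I 0 ∨ h = q := by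
      by_cases h1 : mm I = 1
      · obtain ⟨r, hr, hr1, _⟩ := IHs.other (nn I) (hp I 0) (hp I 0) hn
        refine ⟨r, hr, Ne.symm hr1, fun h hh he => Or.inl ?_⟩
        obtain ⟨x, hx0, hx1, hx⟩ := hC.sur 0 h hh he
        have hx' : x = 0 := by omega
        rw [← hx, hx']
      · refine ⟨hp I 1, hC.lt 1, hC.inj 0 1 (by omega) (by omega), fun h hh he => ?_⟩
        obtain ⟨x, hx0, hx1, hx⟩ := hC.sur 0 h hh he
        have hx' : x = 0 ∨ x = 1 := by omega
        rcases hx' with rfl | rfl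
        · exact Or.inl hx.symm
        · exact Or.inr hx.symm
    obtain ⟨r, hr, hr1, hr2⟩ := IHs.other (nn I) (hp I 0) q hn
    have hne := hg (hp I 0) q r (hC.lt 0) hq hr hpq (Ne.symm hr2) (Ne.symm hr1)
    have key : ∀ s : ℝ, 0 < s * ar X Y (hp I 0) q r → False := by
      intro s hs
      obtain ⟨h, hh, he, h0⟩ := IHs.mx hXt I X Y hc hg (hp I 0) q s r hr hs
      rcases hall h hh he with h1 | h1
      · have e : ar X Y (hp I 0) q h = 0 := by rw [h1]; unfold ar; ring
        rw [e, mul_zero] at h0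
        exact lt_irrefl _ h0
      · have e : ar X Y (hp I 0) q h = 0 := by rw [h1]; unfold ar; ring
        rw [e, mul_zero] at h0
        exact lt_irrefl _ h0
    rcases lt_or_gt_of_ne hne with h | h
    · exact key (-1) (by linarith)
    · exact key 1 (by linarith)
  refine ⟨hm3, fun j x hx hxu hxv => ?_⟩
  have huv := hC.inj j (j + 1) (by omega) (by omega)
  by_contra hF
  have hne := hg (hp I j) (hp I (j + 1)) x (hC.lt j) (hC.lt (j + 1)) hx huv (Ne.symm hxv)
    (Ne.symm hxu)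
  have hneg : ar X Y (hp I j) (hp I (j + 1)) x < 0 :=
    lt_of_le_of_ne (not_lt.1 fun h => hF ((hc _ _ _ (hC.lt j) (hC.lt (j + 1)) hx).2 h)) hne
  obtain ⟨h, hh, he, h0⟩ := IHs.mx hXt I X Y hc hg (hp I j) (hp I (j + 1)) (-1) x hx (by linarith)
  have h1 : ar X Y (hp I j) (hp I (j + 1)) h < 0 := by linarith
  obtain ⟨i, hi0, hi1, hi⟩ := hC.sur j h hh he
  have e1 : i ≠ j := by
    rintro rfl
    have e : ar X Y (hp I i) (hp I (i + 1)) h = 0 := by rw [hi]; unfold ar; ring
    linarith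
  have e2 : i ≠ j + 1 := by
    rintro rfl
    have e : ar X Y (hp I j) (hp I (j + 1)) h = 0 := by rw [hi]; unfold ar; ring
    linarith
  have h2 := hC.cyc j (j + 1) i (by omega) (by omega) hi1
  rw [hi] at h2
  have h3 := (hc _ _ _ (hC.lt j) (hC.lt (j + 1)) hh).1 h2
  linarith

end Pool.Agent.Work.MP_c6c039_lc.CL
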