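import Pool.Agent.Work.MP_c6c039_lc.CL.StmtsL

/-! # Item I1 of block CL: segments inside -/

set_option autoImplicit false

namespace Pool.Agent.Work.MP_c6c039_lc.CL

open Pool.Agent.Work.MP_c6c039_lc.FP Pool.Agent.Work.MP_c6c039_lc.NC

namespace II1

theorem ot_nonneg (u v c x y : ℕ) : 0 ≤ ot u v c x y := by
  unfold ot
  split_ifs <;> norm_num

/-- a larger weight with values `0`, `1` -/
theorem lift {I : In} {E : ℕ → ℕ → Prop} {w w' : ℕ → ℕ → ℤ} {u v a b x y : ℕ}
    (h : IN I E w' a b x y) (h01 : ∀ x y, w x y = 0 ∨ w x y = 1) (hle : ∀ x y, w' x y ≤ w x y)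
    (h1 : ¬ (x = u ∧ y = v)) (h2 : ¬ (x = v ∧ y = u)) : IN I E w u v x y := by
  obtain ⟨e, -, -, k1, k2⟩ := h
  refine ⟨e, h1, h2, ?_, ?_⟩
  · intro c hc
    have := k1 c hc
    have := hle x y
    rcases h01 x y with h | h <;> omega
  · intro c hc
    have := k2 c hc
    have := hle y x
    rcases h01 y x with h | h <;> omega

end II1

open II1 in
theorem pr_I1 (hUq : St_Uq) (hLx : St_Lx) : St_I1 := by
  intro I E par ly k hC w wA wB u v c hS x y
  obtain ⟨hU1, -⟩ := hUq I hC.good.real E hC.mx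
  have hrA1 : wA u v = wA v c := hS.ra.ri.rot u v c hS.t
  have hrA2 : wA v c = wA c u := hS.ra.ri.rot v c u (hU1 u v c hS.t)
  have hrB1 : wB u v = wB v c := hS.rb.ri.rot u v c hS.t
  have hA0 := hS.a0
  have hB0 := hS.b0
  have hA : wA u v = 0 := by rw [hrA1, hrA2, hA0]
  have hB : wB u v = 0 := by rw [hrB1, hB0]
  have hleA : ∀ x y, wA x y ≤ w x y := by
    intro x y
    have h1 := hS.sum x y
    have h2 := ot_nonneg u v c x y
    rcases hS.rb.v01 x y with h | h <;> omega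
  have hleB : ∀ x y, wB x y ≤ w x y := by
    intro x y
    have h1 := hS.sum x y
    have h2 := ot_nonneg u v c x y
    rcases hS.ra.v01 x y with h | h <;> omega
  refine ⟨?_, ?_, ?_, ?_⟩
  · intro h
    refine lift h hS.r0.v01 hleA ?_ ?_
    · rintro ⟨rfl, rfl⟩
      have := h.2.2.2.1 c hS.t
      omega
    · rintro ⟨rfl, rfl⟩
      have := h.2.2.2.2 c hS.t
      omega
  · intro h
    refine lift h hS.r0.v01 hleB ?_ ?_
    · rintro ⟨rfl, rfl⟩
      have := h.2.2.2.1 c hS.t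
      omega
    · rintro ⟨rfl, rfl⟩
      have := h.2.2.2.2 c hS.t
      omega
  · rintro ⟨h, h'⟩
    have hne := (hLx I hC.good.real E hC.mx x y h.1).2 hC.n3
    rcases hne with ⟨d, hd⟩ | ⟨d, hd⟩
    · have h1 := h.2.2.2.1 d hd
      have h2 := h'.2.2.2.1 d hd
      have h3 := hS.sum x y
      have h4 := ot_nonneg u v c x y
      rcases hS.r0.v01 x y with h5 | h5 <;> omega
    · have h1 := h.2.2.2.2 d hd
      have h2 := h'.2.2.2.2 d hd
      have h3 := hS.sum y x
      have h4 := ot_nonneg u v c y x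
      rcases hS.r0.v01 y x with h5 | h5 <;> omega
  · rintro ⟨h1, h2, h3, h4, h5⟩
    exact ⟨hC.mx.sym x y h1, fun h => h3 ⟨h.2, h.1⟩, fun h => h2 ⟨h.2, h.1⟩, h5, h4⟩

end Pool.Agent.Work.MP_c6c039_lc.CL
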