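import Pool.Agent.Work.MP_c6c039_lc.CL.StmtsL

/-!
# Block CL, item I2: a segment inside is inside one of the parts, or new
-/

set_option autoImplicit false

namespace Pool.Agent.Work.MP_c6c039_lc.CL

open Pool.Agent.Work.MP_c6c039_lc.FP Pool.Agent.Work.MP_c6c039_lc.NC

namespace II2

/-- an extreme point which is not the first one -/
theorem hull_step (hSy : FP.St_Sy) (hHl : FP.St_Hl) {I : In} (hG : Good I) (par : ℕ → ℕ) {x : ℕ}
    (hx : x < nn I) (he : ext I x = true) (hne : x ≠ hp I 0) :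
    ∃ j, x = hp I (j + 1) ∧ pf I par x = hp I j := by
  obtain ⟨-, hmem, -⟩ := hHl I (hSy I hG.real) hG.hull
  have hxm : x ∈ hu I := (hmem x).mpr ⟨hx, he⟩
  have hlt : px (hu I) x < (hu I).length := by
    unfold px
    exact List.idxOf_lt_length_iff.mpr hxm
  have hget : (hu I).getD (px (hu I) x) 0 = x := by
    rw [List.getD_eq_getElem _ _ hlt]
    unfold px
    exact List.getElem_idxOf _
  have hhp : hp I (px (hu I) x) = x := by
    unfold hp mm
    rw [Nat.mod_eq_of_lt hlt, hget]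
  have hpos : px (hu I) x ≠ 0 := by
    intro h0
    rw [h0] at hhp
    exact hne hhp.symm
  obtain ⟨j, hj⟩ := Nat.exists_eq_succ_of_ne_zero hpos
  refine ⟨j, ?_, ?_⟩
  · rw [← Nat.succ_eq_add_one, ← hj, hhp]
  · unfold pf
    rw [if_pos he, hj]
    rfl

/-- the segment is not one of the sides -/
theorem dl_zero {a b x y : ℕ} (h1 : ¬ (x = a ∧ y = b)) (h2 : ¬ (x = b ∧ y = a)) :
    dl a b x y = 0 := by
  unfold dl
  rw [if_neg (fun h => h1 ⟨h.1.symm, h.2.symm⟩), if_neg (fun h => h2 ⟨h.2.symm, h.1.symm⟩)]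
  simp

/-- the two parts disagree along the segment: it is a step of the route of `c` -/
theorem opp (hSy : FP.St_Sy) (hHl : FP.St_Hl) (hHx : St_Hx) (hFo : St_Fo) (hKv : St_Kv)
    (hQ1 : St_Q1) {I : In} {E : ℕ → ℕ → Prop} {par ly : ℕ → ℕ} {k : ℕ} (C : Cx I E par ly k)
    {w wA wB : ℕ → ℕ → ℤ} {u v c : ℕ} (S : SL I E par k w wA wB u v c) {x y : ℕ}
    (hT1 : ∃ z, Tr I E x y z) (hw : w x y = 1)
    (h1 : ¬ (x = u ∧ y = c)) (h2 : ¬ (x = c ∧ y = u)) (h3 : ¬ (x = c ∧ y = v))
    (h4 : ¬ (x = v ∧ y = c)) (a1 : wA x y = 1) (a2 : wA y x = 0) (b1 : wB x y = 0)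
    (b2 : wB y x = 1) :
    x ∈ rl I par k c ∧ ext I x = false ∧ y = par x ∧ x ∉ rl I par k u ∧ x ∉ rl I par k v := by
  obtain ⟨hK1, -, -⟩ := hKv I E par ly k C
  obtain ⟨-, hF⟩ := hFo I E par ly k C
  have hltT := C.mx.lt
  have hu : u < nn I := (hltT u v S.t.e1).1
  have hv : v < nn I := (hltT u v S.t.e1).2.1
  have hc : c < nn I := (hltT v c S.t.e2).2.1
  have hx : x < nn I := by
    obtain ⟨z, hz⟩ := hT1
    exact (hltT x y hz.e1).1
  have hy : y < nn I := by
    obtain ⟨z, hz⟩ := hT1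
    exact (hltT x y hz.e1).2.1
  have kA := S.ra.bdy x y
  rw [hK1 u c hu hc x y, dl_zero h1 h2, a1, a2] at kA
  have kB := S.rb.bdy x y
  rw [hK1 c v hc hv x y, dl_zero h3 h4, b1, b2] at kB
  by_cases c1 : x ≠ hp I 0 ∧ y = pf I par x
  · -- `y = pf x`
    have hrn : rn I ly y < rn I ly x := by
      have := ((hF x hx).1 c1.1).2.2.2
      rw [← c1.2] at this
      exact this
    have hno : ¬ (y ≠ hp I 0 ∧ x = pf I par y) := by
      rintro ⟨h5, h6⟩
      have := ((hF y hy).1 h5).2.2.2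
      rw [← h6] at this
      omega
    have htc : ∀ s, tc I par k s x y = if x ∈ fo I par k s then 1 else 0 := by
      intro s
      unfold tc
      have e1 : (x ∈ fo I par k s ∧ x ≠ hp I 0 ∧ y = pf I par x) ↔ x ∈ fo I par k s :=
        ⟨fun h => h.1, fun h => ⟨h, c1⟩⟩
      have e2 : ¬ (y ∈ fo I par k s ∧ y ≠ hp I 0 ∧ x = pf I par y) := fun h => hno h.2
      rw [if_neg e2]
      by_cases hm : x ∈ fo I par k s
      · rw [if_pos (e1.mpr hm), if_pos hm]; simp
      · rw [if_neg (fun h => hm (e1.mp h)), if_neg hm]; simp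
    rw [htc c, htc u] at kA
    rw [htc v, htc c] at kB
    have mc : x ∈ fo I par k c := by
      by_contra hm
      rw [if_neg hm] at kA
      split_ifs at kA <;> omega
    have mu : x ∉ fo I par k u := by
      intro hm
      rw [if_pos hm, if_pos mc] at kA
      omega
    have mv : x ∉ fo I par k v := by
      intro hm
      rw [if_pos hm, if_pos mc] at kB
      omega
    have hxe : ext I x = false := by
      cases he : ext I x with
      | false => rfl
      | true =>
        exfalso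
        obtain ⟨j, hj1, hj2⟩ := hull_step hSy hHl C.good par hx he c1.1
        obtain ⟨-, -, hnt⟩ := hHx I C.good C.n3 E C.mx j
        apply hnt
        rw [← hj1, ← hj2, ← c1.2]
        exact hT1
    refine ⟨(hF c hc).2.2.2.2.2.2.2.1 x mc hxe, hxe, ?_, ?_, ?_⟩
    · rw [c1.2]
      unfold pf
      rw [hxe]
      simp
    · intro hm
      exact mu ((hF u hu).2.2.2.2.2.2.2.2 x hm)
    · intro hm
      exact mv ((hF v hv).2.2.2.2.2.2.2.2 x hm)
  · exfalso
    have htc : ∀ s, tc I par k s x y =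
        - if (y ∈ fo I par k s ∧ y ≠ hp I 0 ∧ x = pf I par y) then 1 else 0 := by
      intro s
      unfold tc
      rw [if_neg (fun h => c1 h.2)]
      simp
    rw [htc c, htc u] at kA
    rw [htc v, htc c] at kB
    have mu : y ∈ fo I par k u ∧ y ≠ hp I 0 ∧ x = pf I par y := by
      by_contra hm
      rw [if_neg hm] at kA
      split_ifs at kA <;> omega
    have mc : ¬ (y ∈ fo I par k c ∧ y ≠ hp I 0 ∧ x = pf I par y) := by
      intro hm
      rw [if_pos mu, if_pos hm] at kA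
      omega
    have mv : y ∈ fo I par k v ∧ y ≠ hp I 0 ∧ x = pf I par y := by
      by_contra hm
      rw [if_neg hm, if_neg mc] at kB
      omega
    have hS := hQ1 I E par ly k C u v S.r0.e w S.r0.ri S.r0.bdy y mu.1 mv.1 mu.2.1
    rw [← mu.2.2] at hS
    have := hS.1 y hT1
    omega

end II2

/-- **I2** -/
theorem pr_I2 (hSy : FP.St_Sy) (hHl : FP.St_Hl) (hHx : St_Hx) (hFo : St_Fo) (hKv : St_Kv)
    (hQ1 : St_Q1) : St_I2 := by
  intro I E par ly k C w wA wB u v c S x y hIN
  obtain ⟨hE, hn1, hn2, hw1, hw2⟩ := hIN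
  by_cases hs : (x = u ∧ y = c) ∨ (x = c ∧ y = u) ∨ (x = c ∧ y = v) ∨ (x = v ∧ y = c)
  · exact Or.inr (Or.inr (Or.inl hs))
  have h1 : ¬ (x = u ∧ y = c) := fun h => hs (Or.inl h)
  have h2 : ¬ (x = c ∧ y = u) := fun h => hs (Or.inr (Or.inl h))
  have h3 : ¬ (x = c ∧ y = v) := fun h => hs (Or.inr (Or.inr (Or.inl h)))
  have h4 : ¬ (x = v ∧ y = c) := fun h => hs (Or.inr (Or.inr (Or.inr h)))
  have o1 : ot u v c x y = 0 := by
    unfold ot
    rw [if_neg]
    intro h
    simp only [sl, List.mem_cons, Prod.mk.injEq, List.not_mem_nil, or_false] at h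
    rcases h with h | h | h
    · exact hn1 h
    · exact h4 h
    · exact h2 h
  have o2 : ot u v c y x = 0 := by
    unfold ot
    rw [if_neg]
    intro h
    simp only [sl, List.mem_cons, Prod.mk.injEq, List.not_mem_nil, or_false] at h
    rcases h with h | h | h
    · exact hn2 ⟨h.2, h.1⟩
    · exact h3 ⟨h.2, h.1⟩
    · exact h1 ⟨h.2, h.1⟩
  have s1 := S.sum x y
  rw [o1] at s1
  have s2 := S.sum y x
  rw [o2] at s2
  have mkA : ((∃ z, Tr I E x y z) → wA x y = 1) → ((∃ z, Tr I E y x z) → wA y x = 1) →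
      IN I E wA u c x y :=
    fun hA hB => ⟨hE, h1, h2, fun z hz => hA ⟨z, hz⟩, fun z hz => hB ⟨z, hz⟩⟩
  have mkB : ((∃ z, Tr I E x y z) → wB x y = 1) → ((∃ z, Tr I E y x z) → wB y x = 1) →
      IN I E wB c v x y :=
    fun hA hB => ⟨hE, h3, h4, fun z hz => hA ⟨z, hz⟩, fun z hz => hB ⟨z, hz⟩⟩
  have vA1 := S.ra.v01 x y
  have vA2 := S.ra.v01 y x
  have vB1 := S.rb.v01 x y
  have vB2 := S.rb.v01 y x
  by_cases T1 : ∃ z, Tr I E x y z
  · have e1 : w x y = 1 := by
      obtain ⟨z, hz⟩ := T1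
      exact hw1 z hz
    by_cases T2 : ∃ z, Tr I E y x z
    · have e2 : w y x = 1 := by
        obtain ⟨z, hz⟩ := T2
        exact hw2 z hz
      rcases vA1 with a1 | a1
      · have b1 : wB x y = 1 := by omega
        rcases vA2 with a2 | a2
        · have b2 : wB y x = 1 := by omega
          exact Or.inr (Or.inl (mkB (fun _ => b1) (fun _ => b2)))
        · have b2 : wB y x = 0 := by omega
          refine Or.inr (Or.inr (Or.inr (Or.inr ?_)))
          exact II2.opp hSy hHl hHx hFo hKv hQ1 C S T2 e2 (fun h => h2 ⟨h.2, h.1⟩)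
            (fun h => h1 ⟨h.2, h.1⟩) (fun h => h4 ⟨h.2, h.1⟩) (fun h => h3 ⟨h.2, h.1⟩) a2 a1 b2 b1
      · have b1 : wB x y = 0 := by omega
        rcases vA2 with a2 | a2
        · have b2 : wB y x = 1 := by omega
          refine Or.inr (Or.inr (Or.inr (Or.inl ?_)))
          exact II2.opp hSy hHl hHx hFo hKv hQ1 C S T1 e1 h1 h2 h3 h4 a1 a2 b1 b2
        · exact Or.inl (mkA (fun _ => a1) (fun _ => a2))
    · rcases vA1 with a1 | a1
      · have b1 : wB x y = 1 := by omega
        exact Or.inr (Or.inl (mkB (fun _ => b1) (fun h => absurd h T2)))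
      · exact Or.inl (mkA (fun _ => a1) (fun h => absurd h T2))
  · by_cases T2 : ∃ z, Tr I E y x z
    · have e2 : w y x = 1 := by
        obtain ⟨z, hz⟩ := T2
        exact hw2 z hz
      rcases vA2 with a2 | a2
      · have b2 : wB y x = 1 := by omega
        exact Or.inr (Or.inl (mkB (fun h => absurd h T1) (fun _ => b2)))
      · exact Or.inl (mkA (fun h => absurd h T1) (fun _ => a2))
    · exact Or.inl (mkA (fun h => absurd h T1) (fun h => absurd h T2))

end Pool.Agent.Work.MP_c6c039_lc.CL
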