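import Pool.Agent.Work.MP_c6c039_lc.CL.StmtsL

/-!
# Block CL, item I4: all segments at a point outside of the routes are inside, or none
-/

set_option autoImplicit false

namespace Pool.Agent.Work.MP_c6c039_lc.CL

open Pool.Agent.Work.MP_c6c039_lc.FP Pool.Agent.Work.MP_c6c039_lc.NC

theorem pr_I4 (hLx : St_Lx) (hSr : St_Sr) (hRt : St_Rt) (hNj : St_Nj) : St_I4 := by
  intro I E par ly k hC w u v hR y hy hyu hyv a b hya hyb hin
  obtain ⟨good, n3, mx, -, -⟩ := id hC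
  obtain ⟨hu, hv, -⟩ := mx.lt u v hR.e
  have hnj := hNj I E par ly k hC u v hu hv w hR.ri hR.bdy y hy hyu hyv
  have hs : SS I E w y 1 := by
    refine hSr I good.real E mx w hR.ri y hnj 1 ⟨a, ?_⟩
    obtain ⟨-, -, -, h1, h2⟩ := hin
    rcases (hLx I good.real E mx y a hya).2 n3 with ⟨c, hc⟩ | ⟨c, hc⟩
    · exact Or.inl ⟨⟨c, hc⟩, h1 c hc⟩
    · exact Or.inr ⟨⟨c, hc⟩, h2 c hc⟩
  have hyu' : y ≠ u := by
    rintro rfl
    exact hyu (hRt I E par ly k hC y hy).2.2.2.2.2.2.1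
  have hyv' : y ≠ v := by
    rintro rfl
    exact hyv (hRt I E par ly k hC y hy).2.2.2.2.2.2.1
  exact ⟨hyb, fun h => hyu' h.1, fun h => hyv' h.1, fun c hc => hs.1 b ⟨c, hc⟩,
    fun c hc => hs.2 b ⟨c, hc⟩⟩

end Pool.Agent.Work.MP_c6c039_lc.CL
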