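import Pool.Agent.Work.MP_c6c039_lc.CL.StmtsS

set_option autoImplicit false

namespace Pool.Agent.Work.MP_c6c039_lc.CL

open Pool.Agent.PT Pool.Agent.Work.MP_c6c039_lc.FP Pool.Agent.Work.MP_c6c039_lc.NC

namespace IKb

theorem fr_cons (I : In) (a : ℕ) (B : List ℕ) (hB : B ≠ []) : fr I (a :: B) = a :: fr I B := by
  unfold fr
  obtain ⟨b, l, rfl⟩ := List.exists_cons_of_ne_nil hB
  have h1 : (a :: b :: l).getLastD 0 = (b :: l).getLastD 0 := by
    simp [List.getLastD_cons]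
  rw [h1, List.cons_append]

theorem chf (hDl : St_Dl) (I : In) (A B : List ℕ) (hB : B ≠ [])
    (h : fr I A = A.headD 0 :: fr I B) (x y : ℕ) :
    ch (fr I A) x y = dl (A.headD 0) (B.headD 0) x y + ch (fr I B) x y := by
  obtain ⟨b, l, rfl⟩ := List.exists_cons_of_ne_nil hB
  have hf : fr I (b :: l) = b :: (l ++ ((hu I).take (px (hu I) ((b :: l).getLastD 0))).reverse) := by
    unfold fr
    rw [List.cons_append]
  rw [h, hf]
  exact hDl.2.1 _ _ _ _ _

theorem kp0 (hDl : St_Dl) (I : In) (A B : List ℕ) (hB : B ≠ [])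
    (h : fr I A = A.headD 0 :: fr I B) (x y : ℕ) : kp I A B x y = 0 ∧ kp I B A x y = 0 := by
  have h1 := chf hDl I A B hB h x y
  have h2 := (hDl.1 (A.headD 0) (B.headD 0) x y).2
  unfold kp
  constructor <;> omega

theorem px_hp (I : In) (hn : (hu I).Nodup) (j : ℕ) (hj : j < mm I) : px (hu I) (hp I j) = j := by
  have hj' : j < (hu I).length := hj
  have h1 : hp I j = (hu I)[j] := by
    unfold hp
    rw [Nat.mod_eq_of_lt hj, List.getD_eq_getElem _ _ hj']
  unfold px
  rw [h1]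
  exact List.Nodup.idxOf_getElem hn j hj'

theorem fr_hp (I : In) (hn : (hu I).Nodup) (j : ℕ) (hj : j + 1 < mm I) :
    fr I [hp I (j + 1)] = hp I (j + 1) :: fr I [hp I j] := by
  have hj' : j < (hu I).length := lt_trans (Nat.lt_succ_self j) hj
  have h1 : hp I j = (hu I)[j] := by
    unfold hp
    rw [Nat.mod_eq_of_lt (lt_trans (Nat.lt_succ_self j) hj), List.getD_eq_getElem _ _ hj']
  have e1 : [hp I (j + 1)].getLastD 0 = hp I (j + 1) := rfl
  have e2 : [hp I j].getLastD 0 = hp I j := rfl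
  unfold fr
  rw [e1, e2, px_hp I hn (j + 1) hj, px_hp I hn j (lt_trans (Nat.lt_succ_self j) hj),
    List.take_succ, List.getElem?_eq_getElem hj', Option.toList_some, List.reverse_append, ← h1]
  rfl

theorem vs_ne (I : In) (hRv : St_Rv) (A : Rt) (h : rv I A = true) : vs A ≠ [] := ((hRv I A).1 h).1

theorem vs_tail (A B : Rt) (hA : vs A ≠ []) (h : A.tail = B) : vs A = (vs A).headD 0 :: vs B := by
  cases A with
  | nil => exact absurd rfl hA
  | cons a l =>
    rw [List.tail_cons] at h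
    subst h
    rfl

theorem vs_one (A : Rt) (h : A.length = 1) : vs A = [hd A] := by
  match A, h with
  | [a], _ => rfl

end IKb

open IKb in
theorem pr_Kb (hSy : FP.St_Sy) (hHl : FP.St_Hl) (hRv : St_Rv) (hDl : St_Dl) : St_Kb := by
  intro I hI F hF x y
  have hn : (hu I).Nodup := (hHl I (hSy I hI.real) hI.hull).1
  unfold bas at hF
  rw [Bool.and_eq_true, Bool.and_eq_true, Bool.and_eq_true, Bool.and_eq_true, Bool.or_eq_true,
    Bool.or_eq_true] at hF
  obtain ⟨⟨h1, h2, -⟩, -, h3⟩ := hF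
  have n1 := vs_ne I hRv F.1 h1
  have n2 := vs_ne I hRv F.2.1 h2
  rcases h3 with h3 | h3 | h3
  · have h4 := of_decide_eq_true h3
    have h5 := vs_tail F.1 F.2.1 n1 h4
    have h6 : fr I (vs F.1) = (vs F.1).headD 0 :: fr I (vs F.2.1) := by
      rw [← fr_cons I _ _ n2, ← h5]
    exact (kp0 hDl I _ _ n2 h6 x y).1
  · have h4 := of_decide_eq_true h3
    have h5 := vs_tail F.2.1 F.1 n2 h4
    have h6 : fr I (vs F.2.1) = (vs F.2.1).headD 0 :: fr I (vs F.1) := by
      rw [← fr_cons I _ _ n1, ← h5]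
    exact (kp0 hDl I _ _ n1 h6 x y).2
  · rw [Bool.and_eq_true, Bool.and_eq_true, beq_iff_eq, beq_iff_eq, List.any_eq_true] at h3
    obtain ⟨⟨l1, l2⟩, j, hj, h4⟩ := h3
    rw [List.mem_range] at hj
    have hj' : j + 1 < mm I := by omega
    rw [Bool.or_eq_true, Bool.and_eq_true, Bool.and_eq_true, beq_iff_eq, beq_iff_eq, beq_iff_eq,
      beq_iff_eq] at h4
    have v1 := vs_one F.1 l1
    have v2 := vs_one F.2.1 l2
    rw [v1, v2]
    rcases h4 with ⟨a1, a2⟩ | ⟨a1, a2⟩
    · rw [a1, a2]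
      exact (kp0 hDl I [hp I (j + 1)] [hp I j] (by simp) (fr_hp I hn j hj') x y).2
    · rw [a1, a2]
      exact (kp0 hDl I [hp I (j + 1)] [hp I j] (by simp) (fr_hp I hn j hj') x y).1

end Pool.Agent.Work.MP_c6c039_lc.CL
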