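import Pool.Agent.Work.MP_c6c039_lc.CL.StmtsS

/-!
# Block CL, item Kc (helper37)
-/

set_option autoImplicit false

namespace Pool.Agent.Work.MP_c6c039_lc.CL

open Pool.Agent.PT Pool.Agent.Work.MP_c6c039_lc.FP Pool.Agent.Work.MP_c6c039_lc.NC

namespace IKc

theorem dl_swap (u v x y : ℕ) : dl v u x y = - dl u v x y := by
  unfold dl
  simp only [and_comm (a := v = x), and_comm (a := v = y)]
  ring

theorem dl_ne (u v x y : ℕ) (h : dl u v x y ≠ 0) : (u = x ∧ v = y) ∨ (u = y ∧ v = x) := by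
  by_contra hcon
  push Not at hcon
  apply h
  unfold dl
  rw [if_neg (fun hh => hcon.1 hh.1 hh.2), if_neg (fun hh => hcon.2 hh.1 hh.2)]
  ring

theorem one_ne (t : ℕ × (ℕ × ℕ)) (x y : ℕ)
    (h : dl t.1 t.2.1 x y + (dl t.2.1 t.2.2 x y + dl t.2.2 t.1 x y) ≠ 0) :
    (x, y) ∈ sl t ∨ (y, x) ∈ sl t := by
  have h1 : dl t.1 t.2.1 x y ≠ 0 ∨ dl t.2.1 t.2.2 x y ≠ 0 ∨ dl t.2.2 t.1 x y ≠ 0 := by
    by_contra hcon
    push Not at hcon
    obtain ⟨a, b, c⟩ := hcon
    rw [a, b, c] at h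
    exact h (by ring)
  rcases h1 with h1 | h1 | h1
  · rcases dl_ne _ _ _ _ h1 with ⟨a, b⟩ | ⟨a, b⟩
    · exact Or.inl (by rw [← a, ← b]; simp [sl])
    · exact Or.inr (by rw [← a, ← b]; simp [sl])
  · rcases dl_ne _ _ _ _ h1 with ⟨a, b⟩ | ⟨a, b⟩
    · exact Or.inl (by rw [← a, ← b]; simp [sl])
    · exact Or.inr (by rw [← a, ← b]; simp [sl])
  · rcases dl_ne _ _ _ _ h1 with ⟨a, b⟩ | ⟨a, b⟩
    · exact Or.inl (by rw [← a, ← b]; simp [sl])
    · exact Or.inr (by rw [← a, ← b]; simp [sl])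

end IKc

theorem pr_Kc : St_Kc := by
  refine ⟨?_, ?_, ?_⟩
  · intro I A B C x y
    unfold kp
    rw [IKc.dl_swap (C.headD 0) (B.headD 0) x y, IKc.dl_swap (A.headD 0) (C.headD 0) x y]
    ring
  · intro T T' x y
    unfold bd
    rw [List.map_append, List.sum_append]
  · intro T x y h
    induction T with
    | nil => exact absurd rfl h
    | cons t T ih =>
      by_cases h1 : dl t.1 t.2.1 x y + (dl t.2.1 t.2.2 x y + dl t.2.2 t.1 x y) = 0
      · have h2 : bd T x y ≠ 0 := by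
          intro h3
          apply h
          have h4 : bd (t :: T) x y =
              (dl t.1 t.2.1 x y + (dl t.2.1 t.2.2 x y + dl t.2.2 t.1 x y)) + bd T x y := by
            unfold bd
            rw [List.map_cons, List.sum_cons]
          rw [h4, h1, h3]
          ring
        obtain ⟨s, hs, h5⟩ := ih h2
        exact ⟨s, List.mem_cons_of_mem _ hs, h5⟩
      · exact ⟨t, List.mem_cons_self, IKc.one_ne t x y h1⟩

end Pool.Agent.Work.MP_c6c039_lc.CL
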