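import Pool.Agent.Work.MP_c6c039_lc.CL.StmtsS

/-!
# Item Kh of block CL: the closed curve of the last edge of the hull (helper2)
-/

set_option autoImplicit false

namespace Pool.Agent.Work.MP_c6c039_lc.CL

open Pool.Agent.Work.MP_c6c039_lc.FP Pool.Agent.Work.MP_c6c039_lc.NC

namespace IKh

theorem px_getD (l : List ℕ) (hl : l.Nodup) (i : ℕ) (hi : i < l.length) :
    px l (l.getD i 0) = i := by
  have h : l.getD i 0 = l[i] := by
    rw [List.getD_eq_getElem?_getD, List.getElem?_eq_getElem hi]
    rfl
  unfold px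
  rw [h]
  exact hl.idxOf_getElem i hi

theorem snoc (l : List ℕ) (h0 : 0 < l.length) :
    [l.getD (l.length - 1) 0] ++ (l.take (l.length - 1)).reverse = l.reverse := by
  have hlt : l.length - 1 < l.length := by omega
  have h : l.getD (l.length - 1) 0 = l[l.length - 1] := by
    rw [List.getD_eq_getElem?_getD, List.getElem?_eq_getElem hlt]
    rfl
  have h1 : l.take (l.length - 1) ++ [l[l.length - 1]] = l := by
    have h2 : l.take (l.length - 1 + 1) = l.take (l.length - 1) ++ [l[l.length - 1]] := by
      simp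
    rw [← h2]
    have h3 : l.length - 1 + 1 = l.length := by omega
    rw [h3, List.take_length]
  rw [h]
  have h4 := congrArg List.reverse h1
  rw [List.reverse_append] at h4
  exact h4

end IKh

open IKh

theorem pr_Kh (hSy : FP.St_Sy) (hHl : FP.St_Hl) (hDl : St_Dl) : St_Kh := by
  intro I hI h0 x y
  have hnd : (hu I).Nodup := (hHl I (hSy I hI.real) hI.hull).1
  have hm : mm I = (hu I).length := rfl
  have hp0 : hp I 0 = (hu I).getD 0 0 := by
    unfold hp
    rw [Nat.zero_mod]
  have hpm : hp I (mm I - 1) = (hu I).getD (mm I - 1) 0 := by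
    unfold hp
    rw [Nat.mod_eq_of_lt (by omega)]
  have e0 : fr I [hp I 0] = [hp I 0] := by
    unfold fr
    have h : px (hu I) (([hp I 0] : List ℕ).getLastD 0) = 0 := by
      show px (hu I) (hp I 0) = 0
      rw [hp0]
      exact px_getD _ hnd 0 (by omega)
    rw [h]
    simp
  have em : fr I [hp I (mm I - 1)] = (hu I).reverse := by
    unfold fr
    have h : px (hu I) (([hp I (mm I - 1)] : List ℕ).getLastD 0) = mm I - 1 := by
      show px (hu I) (hp I (mm I - 1)) = mm I - 1
      rw [hpm]
      exact px_getD _ hnd (mm I - 1) (by omega)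
    rw [h, hpm]
    exact snoc (hu I) (by omega)
  have hc0 : ch [hp I 0] x y = 0 := by
    simp [ch, ed]
  have hrev := (hDl.2.2.1 (hu I) x y).2.2
  unfold kp hb
  rw [e0, em, hc0, hrev]
  simp

end Pool.Agent.Work.MP_c6c039_lc.CL
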