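import Pool.Agent.Work.MP_c6c039_lc.CL.StmtsG

/-!
# Block CL, item Kp (helper58): half planes
-/

set_option autoImplicit false

namespace Pool.Agent.Work.MP_c6c039_lc.CL

open Pool.Agent.Work.MP_c6c039_lc.FP Pool.Agent.Work.MP_c6c039_lc.NC

namespace IKp

/-- a sign is determined by `chi` -/
theorem sgn (I : In) (X Y : ℕ → ℝ) (h : RL I X Y) (a b c : ℕ) (hd : Ds I [a, b, c]) :
    (chi I a b c = true ∧ 0 < ar X Y a b c) ∨ (chi I a b c = false ∧ ar X Y a b c < 0) := by
  obtain ⟨hn, hl⟩ := hd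
  have ha := hl a (by simp)
  have hb := hl b (by simp)
  have hc := hl c (by simp)
  simp only [List.nodup_cons, List.mem_cons, List.not_mem_nil, or_false, not_or] at hn
  have h1 := h.1 a b c ha hb hc
  have h2 := h.2 a b c ha hb hc hn.1.1 hn.2.1 hn.1.2
  cases hx : chi I a b c with
  | true => exact Or.inl ⟨rfl, h1.1 hx⟩
  | false =>
    refine Or.inr ⟨rfl, lt_of_le_of_ne (not_lt.1 fun h3 => ?_) h2⟩
    rw [h1.2 h3] at hx
    exact absurd hx (by simp)

theorem ds3 (I : In) (a b c d : ℕ) (h : Ds I [a, b, c, d]) :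
    Ds I [a, b, c] ∧ Ds I [a, b, d] ∧ Ds I [b, c, d] ∧ Ds I [c, a, d] ∧ Ds I [c, d, a] ∧
      Ds I [c, d, b] := by
  obtain ⟨hn, hl⟩ := h
  have ha := hl a (by simp)
  have hb := hl b (by simp)
  have hc := hl c (by simp)
  have hd := hl d (by simp)
  simp only [List.nodup_cons, List.mem_cons, List.not_mem_nil, or_false, not_or] at hn
  obtain ⟨⟨n1, n2, n3⟩, ⟨n4, n5⟩, n6, _⟩ := hn
  refine ⟨⟨?_, ?_⟩, ⟨?_, ?_⟩, ⟨?_, ?_⟩, ⟨?_, ?_⟩, ⟨?_, ?_⟩, ⟨?_, ?_⟩⟩
  · simp [n1, n2, n4]
  · simp [ha, hb, hc]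
  · simp [n1, n3, n5]
  · simp [ha, hb, hd]
  · simp [n4, n5, n6]
  · simp [hb, hc, hd]
  · simp [Ne.symm n2, n3, n6]
  · simp [hc, ha, hd]
  · simp [n6, Ne.symm n2, Ne.symm n3]
  · simp [hc, ha, hd]
  · simp [n6, Ne.symm n4, Ne.symm n5]
  · simp [hc, hb, hd]

end IKp

open IKp in
theorem pr_Kp : St_Kp := by
  intro I X Y h p q u hu
  constructor
  · intro y z x hd hT h1 h2
    by_contra h3
    rw [not_lt] at h3
    obtain ⟨_, d1, d2, d3, _, _⟩ := ds3 I _ _ _ _ hd
    have s1 := sgn I X Y h _ _ _ d1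
    have s2 := sgn I X Y h _ _ _ d2
    have s3 := sgn I X Y h _ _ _ d3
    unfold inT at hT
    simp only [Bool.and_eq_true, beq_iff_eq] at hT
    have id1 : ar X Y y z x * (p * X u + q * Y u - (p * X x + q * Y x)) +
        ar X Y z u x * (p * X y + q * Y y - (p * X x + q * Y x)) +
        ar X Y u y x * (p * X z + q * Y z - (p * X x + q * Y x)) = 0 := by
      unfold ar; ring
    have e1 : 0 ≤ p * X u + q * Y u - (p * X x + q * Y x) := by linarith
    have e2 : 0 < p * X y + q * Y y - (p * X x + q * Y x) := by linarith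
    have e3 : 0 < p * X z + q * Y z - (p * X x + q * Y x) := by linarith
    rcases s1 with ⟨c1, s1⟩ | ⟨c1, s1⟩
    · rcases s2 with ⟨c2, s2⟩ | ⟨c2, s2⟩
      · rcases s3 with ⟨c3, s3⟩ | ⟨c3, s3⟩
        · have := mul_nonneg s2.le e1
          have := mul_pos s3 e2
          have := mul_pos s1 e3
          linarith
        · rw [c2, c3] at hT; exact absurd hT.2 (by simp)
      · rw [c1, c2] at hT; exact absurd hT.1 (by simp)
    · rcases s2 with ⟨c2, s2⟩ | ⟨c2, s2⟩
      · rw [c1, c2] at hT; exact absurd hT.1 (by simp)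
      · rcases s3 with ⟨c3, s3⟩ | ⟨c3, s3⟩
        · rw [c2, c3] at hT; exact absurd hT.2 (by simp)
        · have := mul_nonpos_of_nonpos_of_nonneg s2.le e1
          have := mul_neg_of_neg_of_pos s3 e2
          have := mul_neg_of_neg_of_pos s1 e3
          linarith
  · intro y a b hd hc h1
    by_contra h3
    rw [not_or, not_lt, not_lt] at h3
    obtain ⟨d1, d2, _, _, d3, d4⟩ := ds3 I _ _ _ _ hd
    have s1 := sgn I X Y h _ _ _ d1
    have s2 := sgn I X Y h _ _ _ d2
    have s3 := sgn I X Y h _ _ _ d3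
    have s4 := sgn I X Y h _ _ _ d4
    unfold cr at hc
    simp only [Bool.and_eq_true, Bool.not_eq_true', beq_eq_false_iff_ne] at hc
    have id1 : -(ar X Y a b u * (p * X y + q * Y y - (p * X u + q * Y u))) +
        ar X Y u y b * (p * X a + q * Y a - (p * X u + q * Y u)) -
        ar X Y u y a * (p * X b + q * Y b - (p * X u + q * Y u)) = 0 := by
      unfold ar; ring
    have id2 : ar X Y a b y - ar X Y a b u + ar X Y u y b - ar X Y u y a = 0 := by
      unfold ar; ring
    have e1 : 0 < p * X y + q * Y y - (p * X u + q * Y u) := by linarith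
    have e2 : p * X a + q * Y a - (p * X u + q * Y u) ≤ 0 := by linarith [h3.1]
    have e3 : p * X b + q * Y b - (p * X u + q * Y u) ≤ 0 := by linarith [h3.2]
    rcases s1 with ⟨c1, s1⟩ | ⟨c1, s1⟩
    · rcases s2 with ⟨c2, s2⟩ | ⟨c2, s2⟩
      · exact absurd (c1.trans c2.symm) hc.1
      · rcases s3 with ⟨c3, s3⟩ | ⟨c3, s3⟩
        · rcases s4 with ⟨c4, s4⟩ | ⟨c4, s4⟩
          · exact absurd (c3.trans c4.symm) hc.2
          · linarith
        · have := mul_neg_of_neg_of_pos s3 e1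
          have := mul_nonneg_of_nonpos_of_nonpos s2.le e2
          have := mul_nonpos_of_nonneg_of_nonpos s1.le e3
          linarith
    · rcases s2 with ⟨c2, s2⟩ | ⟨c2, s2⟩
      · rcases s3 with ⟨c3, s3⟩ | ⟨c3, s3⟩
        · have := mul_pos s3 e1
          have := mul_nonpos_of_nonneg_of_nonpos s2.le e2
          have := mul_nonneg_of_nonpos_of_nonpos s1.le e3
          linarith
        · rcases s4 with ⟨c4, s4⟩ | ⟨c4, s4⟩
          · linarith
          · exact absurd (c3.trans c4.symm) hc.2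
      · exact absurd (c1.trans c2.symm) hc.1

end Pool.Agent.Work.MP_c6c039_lc.CL
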