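import Pool.Agent.Work.MP_c6c039_lc.CL.StmtsG

/-!
# Block CL, item Kt (helper12): the points inside a triangle with two sides in `E`
-/

set_option autoImplicit false

namespace Pool.Agent.Work.MP_c6c039_lc.CL

open Pool.Agent.Work.MP_c6c039_lc.FP Pool.Agent.Work.MP_c6c039_lc.NC

namespace IKt

variable {I : In} {X Y : ℕ → ℝ}

/-- affine functions -/
theorem aff (X Y : ℕ → ℝ) (p q u v w y : ℕ) :
    ar X Y v w y * ar X Y p q u + ar X Y w u y * ar X Y p q v + ar X Y u v y * ar X Y p q w =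
      ar X Y u v w * ar X Y p q y := by
  unfold ar; ring

theorem sm (X Y : ℕ → ℝ) (u v w y : ℕ) :
    ar X Y v w y + ar X Y w u y + ar X Y u v y = ar X Y u v w := by
  unfold ar; ring

/-- the common point of two lines -/
theorem sig (X Y : ℕ → ℝ) (p q u y a b : ℕ) :
    ar X Y a b u * ar X Y p q y - ar X Y a b y * ar X Y p q u =
      ar X Y u y b * ar X Y p q a - ar X Y u y a * ar X Y p q b := by
  unfold ar; ring

theorem dif (X Y : ℕ → ℝ) (u y a b : ℕ) :
    ar X Y a b u - ar X Y a b y = ar X Y u y b - ar X Y u y a := by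
  unfold ar; ring

theorem cyc (X Y : ℕ → ℝ) (a b c : ℕ) : ar X Y b c a = ar X Y a b c := by unfold ar; ring
theorem anti (X Y : ℕ → ℝ) (a b c : ℕ) : ar X Y b a c = - ar X Y a b c := by unfold ar; ring
theorem deg1 (X Y : ℕ → ℝ) (a b : ℕ) : ar X Y a b a = 0 := by unfold ar; ring
theorem deg2 (X Y : ℕ → ℝ) (a b : ℕ) : ar X Y a b b = 0 := by unfold ar; ring
theorem deg0 (X Y : ℕ → ℝ) (a b : ℕ) : ar X Y a a b = 0 := by unfold ar; ring

theorem ne3 {a b c : ℕ} (h : ar X Y a b c ≠ 0) : a ≠ b ∧ b ≠ c ∧ a ≠ c := by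
  refine ⟨?_, ?_, ?_⟩
  · rintro rfl; exact h (deg0 X Y _ _)
  · rintro rfl; exact h (deg2 X Y _ _)
  · rintro rfl; exact h (deg1 X Y _ _)

/-- inside the triangle -/
def J (X Y : ℕ → ℝ) (u v w x : ℕ) : Prop :=
  0 < ar X Y u v x ∧ 0 < ar X Y v w x ∧ 0 < ar X Y w u x

theorem ds3 {a b c : ℕ} (h1 : a ≠ b) (h2 : b ≠ c) (h3 : a ≠ c) (ha : a < nn I) (hb : b < nn I)
    (hc : c < nn I) : Ds I [a, b, c] := by
  refine ⟨?_, ?_⟩
  · simp [h1, h2, h3]
  · intro z hz
    simp only [List.mem_cons, List.not_mem_nil, or_false] at hz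
    rcases hz with rfl | rfl | rfl <;> assumption

theorem ds4 {a b c d : ℕ} (h1 : a ≠ b) (h2 : a ≠ c) (h3 : a ≠ d) (h4 : b ≠ c) (h5 : b ≠ d)
    (h6 : c ≠ d) (ha : a < nn I) (hb : b < nn I) (hc : c < nn I) (hd : d < nn I) :
    Ds I [a, b, c, d] := by
  refine ⟨?_, ?_⟩
  · simp [h1, h2, h3, h4, h5, h6]
  · intro z hz
    simp only [List.mem_cons, List.not_mem_nil, or_false] at hz
    rcases hz with rfl | rfl | rfl | rfl <;> assumption

theorem un4 {a b c d : ℕ} (h : Ds I [a, b, c, d]) : (a ≠ b ∧ a ≠ c ∧ a ≠ d ∧ b ≠ c ∧ b ≠ d ∧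
    c ≠ d) ∧ a < nn I ∧ b < nn I ∧ c < nn I ∧ d < nn I := by
  obtain ⟨hn, hl⟩ := h
  have ha := hl a (by simp)
  have hb := hl b (by simp)
  have hc := hl c (by simp)
  have hd := hl d (by simp)
  simp only [List.nodup_cons, List.mem_cons, List.not_mem_nil, or_false, not_or] at hn
  obtain ⟨⟨n1, n2, n3⟩, ⟨n4, n5⟩, n6, _⟩ := hn
  exact ⟨⟨n1, n2, n3, n4, n5, n6⟩, ha, hb, hc, hd⟩

theorem un3 {a b c : ℕ} (h : Ds I [a, b, c]) : (a ≠ b ∧ a ≠ c ∧ b ≠ c) ∧
    a < nn I ∧ b < nn I ∧ c < nn I := by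
  obtain ⟨hn, hl⟩ := h
  have ha := hl a (by simp)
  have hb := hl b (by simp)
  have hc := hl c (by simp)
  simp only [List.nodup_cons, List.mem_cons, List.not_mem_nil, or_false, not_or] at hn
  obtain ⟨⟨n1, n2⟩, n4, _⟩ := hn
  exact ⟨⟨n1, n2, n4⟩, ha, hb, hc⟩

/-- a sign is determined by `chi` -/
theorem sgn (h : RL I X Y) {a b c : ℕ} (n1 : a ≠ b) (n2 : b ≠ c) (n3 : a ≠ c) (ha : a < nn I)
    (hb : b < nn I) (hc : c < nn I) :
    (chi I a b c = true ∧ 0 < ar X Y a b c) ∨ (chi I a b c = false ∧ ar X Y a b c < 0) := by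
  have h1 := h.1 a b c ha hb hc
  have h2 := h.2 a b c ha hb hc n1 n2 n3
  cases hx : chi I a b c with
  | true => exact Or.inl ⟨rfl, h1.1 hx⟩
  | false =>
    refine Or.inr ⟨rfl, lt_of_le_of_ne (not_lt.1 fun h3 => ?_) h2⟩
    rw [h1.2 h3] at hx
    exact absurd hx (by simp)

/-- `inT` and areas, both orientations -/
theorem inT_iff (h : RL I X Y) {u v w x : ℕ} (hd : Ds I [u, v, w, x]) :
    inT I u v w x = true ↔ (J X Y u v w x ∨
      (ar X Y u v x < 0 ∧ ar X Y v w x < 0 ∧ ar X Y w u x < 0)) := by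
  obtain ⟨⟨n1, n2, n3, n4, n5, n6⟩, hu, hv, hw, hx⟩ := un4 hd
  unfold inT J
  rcases sgn h n1 n5 n3 hu hv hx with ⟨e1, g1⟩ | ⟨e1, g1⟩ <;>
  rcases sgn h n4 n6 n5 hv hw hx with ⟨e2, g2⟩ | ⟨e2, g2⟩ <;>
  rcases sgn h (Ne.symm n2) n3 n6 hw hu hx with ⟨e3, g3⟩ | ⟨e3, g3⟩ <;>
  simp [e1, e2, e3, g1, g2, g3, not_lt.2 g1.le, not_lt.2 g2.le, not_lt.2 g3.le]

/-- positive orientation -/
theorem inT_pos (h : RL I X Y) {u v w x : ℕ} (hd : Ds I [u, v, w, x]) (h0 : 0 < ar X Y u v w) :
    inT I u v w x = true ↔ J X Y u v w x := by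
  rw [inT_iff h hd]
  constructor
  · rintro (h1 | ⟨h1, h2, h3⟩)
    · exact h1
    · have := sm X Y u v w x
      exfalso; linarith
  · exact Or.inl

/-- areas determine `Ds` -/
theorem J_ds {u v w x : ℕ} (hd : Ds I [u, v, w]) (hx : x < nn I) (h : J X Y u v w x) :
    Ds I [u, v, w, x] := by
  obtain ⟨⟨n1, n2, n3⟩, hu, hv, hw⟩ := un3 hd
  obtain ⟨h1, h2, h3⟩ := h
  obtain ⟨_, m1, m2⟩ := ne3 (ne_of_gt h1)
  obtain ⟨_, m3, m4⟩ := ne3 (ne_of_gt h2)
  exact ds4 n1 n2 m2 n3 m1 m3 hu hv hw hx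

/-- the first part, coordinates -/
theorem p1 {u v w y z x : ℕ} (h0 : 0 < ar X Y u v w) (hy : J X Y u v w y) (hz : J X Y u v w z)
    (hx : J X Y u y z x ∨ (ar X Y u y x < 0 ∧ ar X Y y z x < 0 ∧ ar X Y z u x < 0)) :
    J X Y u v w x := by
  obtain ⟨y1, y2, y3⟩ := hy
  obtain ⟨z1, z2, z3⟩ := hz
  have s := sm X Y u y z x
  have k1 := aff X Y u v u y z x
  have k2 := aff X Y v w u y z x
  have k3 := aff X Y w u u y z x
  rw [deg1] at k1
  rw [deg2] at k3
  have c2 : ar X Y v w u = ar X Y u v w := cyc X Y u v w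
  rcases hx with ⟨x1, x2, x3⟩ | ⟨x1, x2, x3⟩
  · have hp : 0 < ar X Y u y z := by linarith
    refine ⟨?_, ?_, ?_⟩
    · have : 0 < ar X Y u y z * ar X Y u v x := by
        rw [← k1]
        have := mul_pos x3 y1
        have := mul_pos x1 z1
        linarith
      exact (mul_pos_iff_of_pos_left hp).1 this
    · have : 0 < ar X Y u y z * ar X Y v w x := by
        rw [← k2]
        have := mul_pos x2 (c2 ▸ h0)
        have := mul_pos x3 y2
        have := mul_pos x1 z2
        linarith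
      exact (mul_pos_iff_of_pos_left hp).1 this
    · have : 0 < ar X Y u y z * ar X Y w u x := by
        rw [← k3]
        have := mul_pos x3 y3
        have := mul_pos x1 z3
        linarith
      exact (mul_pos_iff_of_pos_left hp).1 this
  · have hp : ar X Y u y z < 0 := by linarith
    refine ⟨?_, ?_, ?_⟩
    · have : ar X Y u y z * ar X Y u v x < 0 := by
        rw [← k1]
        have := mul_neg_of_neg_of_pos x3 y1
        have := mul_neg_of_neg_of_pos x1 z1
        linarith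
      exact pos_of_mul_neg_right this hp.le
    · have : ar X Y u y z * ar X Y v w x < 0 := by
        rw [← k2]
        have := mul_neg_of_neg_of_pos x2 (c2 ▸ h0)
        have := mul_neg_of_neg_of_pos x3 y2
        have := mul_neg_of_neg_of_pos x1 z2
        linarith
      exact pos_of_mul_neg_right this hp.le
    · have : ar X Y u y z * ar X Y w u x < 0 := by
        rw [← k3]
        have := mul_neg_of_neg_of_pos x3 y3
        have := mul_neg_of_neg_of_pos x1 z3
        linarith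
      exact pos_of_mul_neg_right this hp.le

/-- a point inside the triangle `u v y` is inside `u v w` -/
theorem subv {u v w y a : ℕ} (h0 : 0 < ar X Y u v w) (hy : J X Y u v w y)
    (ha : J X Y u v y a) : J X Y u v w a := by
  obtain ⟨y1, y2, y3⟩ := hy
  obtain ⟨a1, a2, a3⟩ := ha
  have k2 := aff X Y v w u v y a
  have k3 := aff X Y w u u v y a
  rw [deg1] at k2
  rw [deg2] at k3
  have c2 : ar X Y v w u = ar X Y u v w := cyc X Y u v w
  have c3 : ar X Y w u v = ar X Y u v w := (cyc X Y v w u).trans c2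
  refine ⟨a1, ?_, ?_⟩
  · have : 0 < ar X Y u v y * ar X Y v w a := by
      rw [← k2]
      have := mul_pos a2 (c2 ▸ h0)
      have := mul_pos a1 y2
      linarith
    exact (mul_pos_iff_of_pos_left y1).1 this
  · have : 0 < ar X Y u v y * ar X Y w u a := by
      rw [← k3]
      have := mul_pos a3 (c3 ▸ h0)
      have := mul_pos a1 y3
      linarith
    exact (mul_pos_iff_of_pos_left y1).1 this

/-- a point inside the triangle `u y w` is inside `u v w` -/
theorem subw {u v w y a : ℕ} (h0 : 0 < ar X Y u v w) (hy : J X Y u v w y)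
    (ha : J X Y u y w a) : J X Y u v w a := by
  obtain ⟨y1, y2, y3⟩ := hy
  obtain ⟨a1, a2, a3⟩ := ha
  have k1 := aff X Y u v u y w a
  have k2 := aff X Y v w u y w a
  rw [deg1] at k1
  rw [deg2] at k2
  have c2 : ar X Y v w u = ar X Y u v w := cyc X Y u v w
  have c3 : ar X Y u y w = ar X Y w u y := (cyc X Y w u y)
  have hp : 0 < ar X Y u y w := c3 ▸ y3
  refine ⟨?_, ?_, a3⟩
  · have : 0 < ar X Y u y w * ar X Y u v a := by
      rw [← k1]
      have := mul_pos a3 y1
      have := mul_pos a1 h0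
      linarith
    exact (mul_pos_iff_of_pos_left hp).1 this
  · have : 0 < ar X Y u y w * ar X Y v w a := by
      rw [← k2]
      have := mul_pos a2 (c2 ▸ h0)
      have := mul_pos a3 y2
      linarith
    exact (mul_pos_iff_of_pos_left hp).1 this

/-- the second part for one order of `a`, `b` -/
theorem p2 {E : ℕ → ℕ → Prop} (h : RL I X Y) (hE : Mx I E) {u v w y a b : ℕ} (huv : E u v)
    (huw : E u w) (h0 : 0 < ar X Y u v w) (hy : J X Y u v w y)
    (hab : E a b) (hd : Ds I [u, y, a, b]) (f1 : 0 < ar X Y a b u) (f2 : ar X Y a b y < 0)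
    (g1 : ar X Y u y a < 0) (g2 : 0 < ar X Y u y b) : J X Y u v w a ∨ J X Y u v w b := by
  obtain ⟨⟨n1, n2, n3, n4, n5, n6⟩, lu, ly, la, lb⟩ := un4 hd
  obtain ⟨_, lv, nuv⟩ := hE.lt u v huv
  obtain ⟨_, lw, nuw⟩ := hE.lt u w huw
  have hy' := hy
  obtain ⟨y1, y2, y3⟩ := hy
  have key := aff X Y a b u v w y
  by_cases hv : ar X Y a b v < 0
  · left
    have na : v ≠ a := by rintro rfl; rw [deg1] at hv; exact lt_irrefl _ hv
    have nb : v ≠ b := by rintro rfl; rw [deg2] at hv; exact lt_irrefl _ hv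
    have hc := hE.nc u v a b huv hab (ds4 nuv n2 n3 na nb n6 lu lv la lb)
    have s := sig X Y u v u y a b
    rw [deg1, mul_zero, sub_zero] at s
    have hs : 0 < ar X Y u y b * ar X Y u v a - ar X Y u y a * ar X Y u v b := by
      rw [← s]; exact mul_pos f1 y1
    have cu : chi I a b u = true := (h.1 a b u la lb lu).2 f1
    have cv : chi I a b v = false := by
      rcases sgn h n6 (Ne.symm nb) (Ne.symm na) la lb lv with ⟨e, g⟩ | ⟨e, g⟩
      · linarith
      · exact e
    have ha : 0 < ar X Y u v a := by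
      rcases sgn h nuv na n2 lu lv la with ⟨e, g⟩ | ⟨e, g⟩
      · exact g
      · exfalso
        rcases sgn h nuv nb n3 lu lv lb with ⟨e', g'⟩ | ⟨e', g'⟩
        · unfold cr at hc
          rw [cu, cv, e, e'] at hc
          simp at hc
        · have := mul_neg_of_pos_of_neg g2 g
          have := mul_pos_of_neg_of_neg g1 g'
          linarith
    apply subv h0 hy'
    have k := aff X Y a b u v y a
    rw [deg1, mul_zero] at k
    have c1 : ar X Y y u a = - ar X Y u y a := anti X Y u y a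
    have hya : 0 < ar X Y y u a := by rw [c1]; linarith
    refine ⟨ha, ?_, hya⟩
    have : 0 < ar X Y v y a * ar X Y a b u := by
      have := mul_neg_of_pos_of_neg hya hv
      have := mul_neg_of_pos_of_neg ha f2
      linarith
    exact (mul_pos_iff_of_pos_right f1).1 this
  · right
    have hw : ar X Y a b w < 0 := by
      by_contra hw
      have hv' := not_lt.1 hv
      have hw' := not_lt.1 hw
      have := mul_pos y2 f1
      have := mul_nonneg y3.le hv'
      have := mul_nonneg y1.le hw'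
      have := mul_neg_of_pos_of_neg h0 f2
      linarith
    have na : w ≠ a := by rintro rfl; rw [deg1] at hw; exact lt_irrefl _ hw
    have nb : w ≠ b := by rintro rfl; rw [deg2] at hw; exact lt_irrefl _ hw
    have hc := hE.nc u w a b huw hab (ds4 nuw n2 n3 na nb n6 lu lw la lb)
    have s := sig X Y w u u y a b
    rw [deg2, mul_zero, sub_zero] at s
    have hs : 0 < ar X Y u y b * ar X Y w u a - ar X Y u y a * ar X Y w u b := by
      rw [← s]; exact mul_pos f1 y3
    have cu : chi I a b u = true := (h.1 a b u la lb lu).2 f1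
    have cw : chi I a b w = false := by
      rcases sgn h n6 (Ne.symm nb) (Ne.symm na) la lb lw with ⟨e, g⟩ | ⟨e, g⟩
      · linarith
      · exact e
    have ea : ar X Y u w a = - ar X Y w u a := anti X Y w u a
    have eb : ar X Y u w b = - ar X Y w u b := anti X Y w u b
    have hb : 0 < ar X Y w u b := by
      rcases sgn h nuw nb n3 lu lw lb with ⟨e, g⟩ | ⟨e, g⟩
      · exfalso
        rcases sgn h nuw na n2 lu lw la with ⟨e', g'⟩ | ⟨e', g'⟩
        · have g3 : ar X Y w u b < 0 := by linarith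
          have g4 : ar X Y w u a < 0 := by linarith
          have := mul_neg_of_pos_of_neg g2 g4
          have := mul_pos_of_neg_of_neg g1 g3
          linarith
        · unfold cr at hc
          rw [cu, cw, e, e'] at hc
          simp at hc
      · linarith
    apply subw h0 hy'
    have k := aff X Y a b u y w b
    rw [deg2, mul_zero] at k
    refine ⟨g2, ?_, hb⟩
    have : 0 < ar X Y y w b * ar X Y a b u := by
      have := mul_neg_of_pos_of_neg hb f2
      have := mul_neg_of_pos_of_neg g2 hw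
      linarith
    exact (mul_pos_iff_of_pos_right f1).1 this

/-- the second part -/
theorem p3 {E : ℕ → ℕ → Prop} (h : RL I X Y) (hE : Mx I E) {u v w y a b : ℕ} (huv : E u v)
    (huw : E u w) (h0 : 0 < ar X Y u v w) (hy : J X Y u v w y)
    (hab : E a b) (hd : Ds I [u, y, a, b]) (hc : cr I u y a b = true) :
    J X Y u v w a ∨ J X Y u v w b := by
  obtain ⟨⟨n1, n2, n3, n4, n5, n6⟩, lu, ly, la, lb⟩ := un4 hd
  have d := dif X Y u y a b
  have d' : Ds I [u, y, b, a] := ds4 n1 n3 n2 n5 n4 (Ne.symm n6) lu ly lb la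
  have au : ar X Y b a u = - ar X Y a b u := anti X Y a b u
  have ay : ar X Y b a y = - ar X Y a b y := anti X Y a b y
  unfold cr at hc
  rcases sgn h n1 n4 n2 lu ly la with ⟨e1, g1⟩ | ⟨e1, g1⟩ <;>
  rcases sgn h n1 n5 n3 lu ly lb with ⟨e2, g2⟩ | ⟨e2, g2⟩ <;>
  rcases sgn h n6 (Ne.symm n3) (Ne.symm n2) la lb lu with ⟨e3, g3⟩ | ⟨e3, g3⟩ <;>
  rcases sgn h n6 (Ne.symm n5) (Ne.symm n4) la lb ly with ⟨e4, g4⟩ | ⟨e4, g4⟩ <;>
  first
  | (exfalso; rw [e1, e2, e3, e4] at hc; simp at hc; done)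
  | (exfalso; linarith)
  | exact p2 h hE huv huw h0 hy hab hd g3 g4 g1 g2
  | exact (p2 h hE huv huw h0 hy (hE.sym a b hab) d' (by linarith) (by linarith) g2 g1).symm

/-- both parts for the positive orientation -/
theorem pos {E : ℕ → ℕ → Prop} (h : RL I X Y) (hE : Mx I E) {u v w : ℕ} (huv : E u v)
    (huw : E u w) (hd : Ds I [u, v, w]) (h0 : 0 < ar X Y u v w) :
    (∀ y z x, Ds I [u, v, w, y] → inT I u v w y = true → Ds I [u, v, w, z] →
    inT I u v w z = true → Ds I [u, y, z, x] → inT I u y z x = true →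
    Ds I [u, v, w, x] ∧ inT I u v w x = true) ∧
  ∀ y a b, Ds I [u, v, w, y] → inT I u v w y = true → E a b → Ds I [u, y, a, b] →
    cr I u y a b = true → (Ds I [u, v, w, a] ∧ inT I u v w a = true) ∨
      (Ds I [u, v, w, b] ∧ inT I u v w b = true) := by
  refine ⟨?_, ?_⟩
  · intro y z x dy iy dz iz dx ix
    have hj := p1 h0 ((inT_pos h dy h0).1 iy) ((inT_pos h dz h0).1 iz) ((inT_iff h dx).1 ix)
    have hD := J_ds hd (un4 dx).2.2.2.2 hj
    exact ⟨hD, (inT_pos h hD h0).2 hj⟩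
  · intro y a b dy iy hab dab hc
    rcases p3 h hE huv huw h0 ((inT_pos h dy h0).1 iy) hab dab hc with hj | hj
    · left
      have hD := J_ds hd (un4 dab).2.2.2.1 hj
      exact ⟨hD, (inT_pos h hD h0).2 hj⟩
    · right
      have hD := J_ds hd (un4 dab).2.2.2.2 hj
      exact ⟨hD, (inT_pos h hD h0).2 hj⟩

/-- mirror image -/
theorem mir (h : RL I X Y) {u v w x : ℕ} (hd : Ds I [u, v, w, x]) :
    Ds I [u, w, v, x] ∧ inT I u w v x = inT I u v w x := by
  obtain ⟨⟨n1, n2, n3, n4, n5, n6⟩, hu, hv, hw, hx⟩ := un4 hd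
  have hd' : Ds I [u, w, v, x] := ds4 n2 n1 n3 (Ne.symm n4) n6 n5 hu hw hv hx
  refine ⟨hd', ?_⟩
  rw [Bool.eq_iff_iff, inT_iff h hd', inT_iff h hd]
  unfold J
  rw [anti X Y u v x, anti X Y v w x, anti X Y w u x]
  simp only [Left.neg_pos_iff, Left.neg_neg_iff]
  tauto

end IKt

open IKt in
theorem pr_Kt : St_Kt := by
  intro I hI E hE u v w huv huw hd
  obtain ⟨X, Y, hR⟩ := hI
  have h : RL I X Y := hR
  obtain ⟨⟨n1, n2, n3⟩, lu, lv, lw⟩ := un3 hd
  rcases lt_or_gt_of_ne (h.2 u v w lu lv lw n1 n3 n2) with h0 | h0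
  · have h1 : 0 < ar X Y u w v := by
      have e : ar X Y u w v = - ar X Y u v w := by unfold ar; ring
      rw [e]; linarith
    have hd' : Ds I [u, w, v] := ds3 n2 (Ne.symm n3) n1 lu lw lv
    obtain ⟨q1, q2⟩ := pos h hE huw huv hd' h1
    refine ⟨?_, ?_⟩
    · intro y z x dy iy dz iz dx ix
      obtain ⟨dy', ey⟩ := mir h dy
      obtain ⟨dz', ez⟩ := mir h dz
      obtain ⟨r1, r2⟩ := q1 y z x dy' (ey.trans iy) dz' (ez.trans iz) dx ix
      obtain ⟨r3, r4⟩ := mir h r1
      exact ⟨r3, r4.trans r2⟩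
    · intro y a b dy iy hab dab hc
      obtain ⟨dy', ey⟩ := mir h dy
      rcases q2 y a b dy' (ey.trans iy) hab dab hc with ⟨r1, r2⟩ | ⟨r1, r2⟩
      · obtain ⟨r3, r4⟩ := mir h r1
        exact Or.inl ⟨r3, r4.trans r2⟩
      · obtain ⟨r3, r4⟩ := mir h r1
        exact Or.inr ⟨r3, r4.trans r2⟩
  · exact pos h hE huv huw hd h0

end Pool.Agent.Work.MP_c6c039_lc.CL
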