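import Pool.Agent.Work.MP_c6c039_lc.CL.StmtsW

/-!
# Block CL, item Kv: the closed curve of a segment in terms of steps
-/

set_option autoImplicit false

namespace Pool.Agent.Work.MP_c6c039_lc.CL

open Pool.Agent.Work.MP_c6c039_lc.FP Pool.Agent.Work.MP_c6c039_lc.NC

namespace IKv

open Classical in
/-- The chain of a list without repetitions. -/
theorem ch_eq (hDl : St_Dl) (l : List ℕ) (h : l.Nodup) (x y : ℕ) :
    ch l x y = (if (x, y) ∈ ed l then 1 else 0) - (if (y, x) ∈ ed l then 1 else 0) := by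
  obtain ⟨-, -, h3, h4⟩ := hDl
  have a1 := (h3 l x y).1
  have b1 := h4 l x y h
  have b2 := h4 l y x h
  by_cases hxy : (x, y) ∈ ed l
  · have e1 := b1.1 hxy
    have hyx : (y, x) ∉ ed l := by
      intro hyx
      have e2 := b2.1 hyx
      omega
    rw [if_pos hxy, if_neg hyx, e1]
    norm_num
  · by_cases hyx : (y, x) ∈ ed l
    · have e2 := b2.1 hyx
      rw [if_neg hxy, if_pos hyx, a1, e2]
      norm_num
    · rw [if_neg hxy, if_neg hyx]
      by_contra hne
      rcases b1.2 (by simpa using hne) with h5 | h5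
      · exact hxy h5
      · exact hyx h5

/-- The chain of the route of a point. -/
theorem ch_fo (hDl : St_Dl) (hFo : St_Fo) (I : In) (E : ℕ → ℕ → Prop) (par ly : ℕ → ℕ) (k : ℕ)
    (hC : Cx I E par ly k) (v : ℕ) (hv : v < nn I) (x y : ℕ) :
    ch (fo I par k v) x y = tc I par k v x y := by
  classical
  obtain ⟨-, h⟩ := hFo I E par ly k hC
  obtain ⟨-, hnd, -, -, -, -, hed, -, -⟩ := h v hv
  rw [ch_eq hDl _ hnd]
  unfold tc
  have e1 := hed x y
  have e2 := hed y x
  by_cases h1 : (x, y) ∈ ed (fo I par k v)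
  · rw [if_pos h1, if_pos (e1.1 h1)]
    by_cases h2 : (y, x) ∈ ed (fo I par k v)
    · rw [if_pos h2, if_pos (e2.1 h2)]
    · rw [if_neg h2, if_neg (fun h => h2 (e2.2 h))]
  · rw [if_neg h1, if_neg (fun h => h1 (e1.2 h))]
    by_cases h2 : (y, x) ∈ ed (fo I par k v)
    · rw [if_pos h2, if_pos (e2.1 h2)]
    · rw [if_neg h2, if_neg (fun h => h2 (e2.2 h))]

end IKv

/-- Kv. -/
theorem pr_Kv (hDl : St_Dl) (hRt : St_Rt) (hFo : St_Fo) : St_Kv := by
  intro I E par ly k hC
  have hch := IKv.ch_fo hDl hFo I E par ly k hC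
  have hhd : ∀ v, v < nn I → (rl I par k v).headD 0 = v := fun v hv =>
    (hRt I E par ly k hC v hv).2.2.2.2.2.1
  have hkp : ∀ u v, u < nn I → v < nn I → ∀ x y, kp I (rl I par k u) (rl I par k v) x y =
      dl u v x y + (ch (fo I par k v) x y - ch (fo I par k u) x y) := by
    intro u v hu hv x y
    unfold kp
    rw [hhd u hu, hhd v hv]
    rfl
  have h1 : ∀ u v, u < nn I → v < nn I → ∀ x y, kp I (rl I par k u) (rl I par k v) x y =
      dl u v x y + (tc I par k v x y - tc I par k u x y) := by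
    intro u v hu hv x y
    rw [hkp u v hu hv, hch v hv, hch u hu]
  refine ⟨h1, ?_, ?_⟩
  · intro u hu hne x y
    obtain ⟨hcons, -, hpf, -⟩ := ((hFo I E par ly k hC).2 u hu).1 hne
    have hmem := (hRt I E par ly k hC (pf I par u) hpf).2.2.2.2.2.2.1
    obtain ⟨t, ht⟩ : ∃ t, rl I par k (pf I par u) = pf I par u :: t := by
      have h2 := hhd (pf I par u) hpf
      rcases hrl : rl I par k (pf I par u) with _ | ⟨a, t⟩
      · rw [hrl] at hmem
        simp at hmem
      · rw [hrl] at h2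
        simp only [List.headD_cons] at h2
        exact ⟨t, by rw [h2]⟩
    obtain ⟨t', ht'⟩ : ∃ t', fo I par k (pf I par u) = pf I par u :: t' := by
      unfold fo fr
      rw [ht]
      exact ⟨_, rfl⟩
    have e1 : ch (fo I par k u) x y =
        dl u (pf I par u) x y + ch (fo I par k (pf I par u)) x y := by
      rw [hcons, ht', hDl.2.1]
    have e2 := (hDl.1 u (pf I par u) x y).2
    rw [hkp u _ hu hpf, hkp _ u hpf hu, e1]
    constructor
    · ring
    · rw [e2]
      ring
  · intro u v hu hv huv hn1 hn2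
    rw [h1 u v hu hv]
    unfold dl tc
    rw [if_pos (⟨rfl, rfl⟩ : u = u ∧ v = v), if_neg (fun h => huv h.1),
      if_neg (fun h => hn1 ⟨h.2.1, h.2.2⟩), if_neg (fun h => hn2 ⟨h.2.1, h.2.2⟩),
      if_neg (fun h => hn1 ⟨h.2.1, h.2.2⟩), if_neg (fun h => hn2 ⟨h.2.1, h.2.2⟩)]
    norm_num

end Pool.Agent.Work.MP_c6c039_lc.CL
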