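import Pool.Agent.Work.MP_c6c039_lc.CL.StmtsL

/-!
# Block CL, item Lb: labelled routes
-/

set_option autoImplicit false

namespace Pool.Agent.Work.MP_c6c039_lc.CL

open Pool.Agent.Work.MP_c6c039_lc.FP Pool.Agent.Work.MP_c6c039_lc.NC

namespace ILb

theorem vs_lr (l A : List ℕ) : vs (lr l A) = A := by
  unfold vs lr
  rw [List.map_map]
  show A.map (fun v => v) = A
  exact List.map_id' A

theorem lb_lr (l A : List ℕ) : lb (lr l A) = A.map (la l) := by
  unfold lb lr
  rw [List.map_map]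
  rfl

theorem mem_lr (l A : List ℕ) (x : ℕ × ℕ) : x ∈ lr l A ↔ x.1 ∈ A ∧ x.2 = la l x.1 := by
  unfold lr
  rw [List.mem_map]
  constructor
  · rintro ⟨v, hv, rfl⟩
    exact ⟨hv, rfl⟩
  · rintro ⟨h1, h2⟩
    exact ⟨x.1, h1, by rw [← h2]⟩

end ILb

theorem pr_Lb (hVt : St_Vt) (hRv : St_Rv) (hRt : St_Rt) (hLa : St_La) : St_Lb := by
  intro I E par ly k l hP
  obtain ⟨l1, l2, _⟩ := hLa I E par ly k l hP
  refine ⟨?_, ?_, ?_, ?_⟩
  · intro A
    refine ⟨ILb.vs_lr l A, ?_⟩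
    unfold hd
    rw [ILb.vs_lr]
  · intro A B
    exact List.map_append
  · intro A hA
    have hc : cons I (lr l A) = true := by
      unfold cons
      rw [List.all_eq_true]
      intro x hx
      obtain ⟨hx1, hx2⟩ := (ILb.mem_lr l A x).1 hx
      have h1 := l1 x.1 (hA _ hx1)
      rw [← hx2] at h1
      simp only [Bool.and_eq_true, decide_eq_true_iff]
      refine ⟨⟨hA _ hx1, h1.1, h1.2.1⟩, ?_⟩
      rw [List.all_eq_true]
      intro y hy
      obtain ⟨hy1, hy2⟩ := (ILb.mem_lr l A y).1 hy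
      have h2 := l1 y.1 (hA _ hy1)
      rw [← hy2] at h2
      rw [beq_iff_eq]
      by_cases h : x.1 = y.1
      · have h3 : x.2 = y.2 := by rw [hx2, hy2, h]
        simp [h, h3]
      · have h3 : x.2 ≠ y.2 := by
          intro h4
          apply h
          rw [← h1.2.2, ← h2.2.2, h4]
        rw [beq_eq_false_iff_ne.2 h, beq_eq_false_iff_ne.2 h3]
    refine ⟨hc, ?_, ?_⟩
    · intro i
      rw [ILb.lb_lr, List.mem_map]
      constructor
      · rintro ⟨v, hv, rfl⟩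
        have h1 := l1 v (hA v hv)
        refine ⟨h1.1, h1.2.1, ?_⟩
        rw [h1.2.2]
        exact hv
      · rintro ⟨h0, h1, h2⟩
        exact ⟨lv l i, h2, (l2 i h0 h1).2⟩
    · intro i hi
      rw [ILb.lb_lr, List.mem_map] at hi
      obtain ⟨v, hv, rfl⟩ := hi
      have h1 := l1 v (hA v hv)
      rw [h1.2.2]
      exact ((hVt I (lr l A) hc).1 (v, la l v) ((ILb.mem_lr l A _).2 ⟨hv, rfl⟩)).2.2.2
  · intro v hv
    obtain ⟨_, _, _, r4, _, _, r7, r8, _, _⟩ := hRt I E par ly k hP.cx v hv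
    rw [hRv, ILb.vs_lr]
    refine ⟨?_, r4, r8⟩
    intro h
    rw [h] at r7
    exact absurd r7 (List.not_mem_nil)

end Pool.Agent.Work.MP_c6c039_lc.CL
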