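import Pool.Agent.Work.MP_c6c039_lc.CL.StmtsG

/-!
# Block CL, item Le: no point on the left (helper37)
-/

set_option autoImplicit false

namespace Pool.Agent.Work.MP_c6c039_lc.CL

open Pool.Agent.Work.MP_c6c039_lc.FP Pool.Agent.Work.MP_c6c039_lc.NC

namespace ILe

theorem ds3 {I : In} {a b c : ℕ} (ha : a < nn I) (hb : b < nn I) (hc : c < nn I) (h1 : a ≠ b)
    (h2 : a ≠ c) (h3 : b ≠ c) : Ds I [a, b, c] := by
  refine ⟨by simp [h1, h2, h3], ?_⟩
  intro x hx
  simp only [List.mem_cons, List.not_mem_nil, or_false] at hx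
  rcases hx with rfl | rfl | rfl
  · exact ha
  · exact hb
  · exact hc

/-- a point such that all other points are on the same side of a line through it is extreme -/
theorem ext_of (hXt : FP.St_Xt) {I : In} (hC : CH I) {p q : ℕ} {t : Bool} (hp : p < nn I)
    (hq : q < nn I) (hpq : p ≠ q)
    (h : ∀ x, x < nn I → x ≠ p → x ≠ q → chi I p q x = t) : ext I p = true := by
  rw [hXt I p hp]
  intro d e g hD
  by_contra hcon
  rw [Bool.not_eq_false] at hcon
  unfold inT at hcon
  rw [Bool.and_eq_true, beq_iff_eq, beq_iff_eq] at hcon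
  obtain ⟨h1, h2⟩ := hcon
  have hn := hD.1
  simp only [List.nodup_cons, List.mem_cons, List.not_mem_nil, or_false, not_or,
    List.nodup_nil, not_false_eq_true, and_true] at hn
  obtain ⟨⟨hde, hdg, hdp⟩, ⟨heg, hep⟩, hgp⟩ := hn
  have hd : d < nn I := hD.2 d (by simp)
  have he : e < nn I := hD.2 e (by simp)
  have hg : g < nn I := hD.2 g (by simp)
  -- the two values for a point `x`
  have hA : ∀ x, x < nn I → x ≠ p → x ≠ q → chi I q x p = t := by
    intro x hx hxp hxq
    rw [hC.cyc p q x (ds3 hp hq hx hpq (Ne.symm hxp) (Ne.symm hxq))]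
    exact h x hx hxp hxq
  have hB : ∀ x, x < nn I → x ≠ p → x ≠ q → chi I x q p = !t := by
    intro x hx hxp hxq
    rw [← hC.cyc x q p (ds3 hx hq hp hxq hxp (Ne.symm hpq)),
      hC.anti p q x (ds3 hp hq hx hpq (Ne.symm hxp) (Ne.symm hxq)), h x hx hxp hxq]
  by_cases hqd : q = d
  · subst hqd
    have e1 := hA e he hep (Ne.symm hde)
    have e2 := hB g hg hgp (Ne.symm hdg)
    rw [← h2, ← h1, e1] at e2
    cases t <;> simp at e2
  by_cases hqe : q = e
  · subst hqe
    have e1 := hA g hg hgp (Ne.symm heg)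
    have e2 := hB d hd hdp hde
    rw [h1, e1] at e2
    cases t <;> simp at e2
  by_cases hqg : q = g
  · subst hqg
    have e1 := hA d hd hdp hdg
    have e2 := hB e he hep heg
    rw [h2, e1] at e2
    cases t <;> simp at e2
  -- five different points
  have hD5 : Ds I [p, q, d, e, g] := by
    refine ⟨?_, ?_⟩
    · simp [hpq, Ne.symm hdp, Ne.symm hep, Ne.symm hgp, hqd, hqe, hqg, hde, hdg, heg]
    · intro x hx
      simp only [List.mem_cons, List.not_mem_nil, or_false] at hx
      rcases hx with rfl | rfl | rfl | rfl | rfl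
      · exact hp
      · exact hq
      · exact hd
      · exact he
      · exact hg
  have c1 : chi I p d e = chi I d e p :=
    (hC.cyc p d e (ds3 hp hd he (Ne.symm hdp) (Ne.symm hep) hde)).symm
  have c2 : chi I p e g = chi I e g p :=
    (hC.cyc p e g (ds3 hp he hg (Ne.symm hep) (Ne.symm hgp) heg)).symm
  have c3 : chi I p g d = chi I g d p :=
    (hC.cyc p g d (ds3 hp hg hd (Ne.symm hgp) (Ne.symm hdp) (Ne.symm hdg))).symm
  have c4 : chi I p d g = !chi I p g d := by
    rw [← hC.cyc p d g (ds3 hp hd hg (Ne.symm hdp) (Ne.symm hgp) hdg),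
      hC.anti g d p (ds3 hg hd hp (Ne.symm hdg) hgp hdp),
      hC.cyc p g d (ds3 hp hg hd (Ne.symm hgp) (Ne.symm hdp) (Ne.symm hdg))]
  apply hC.gp p q d e g hD5
  rw [h d hd hdp (Ne.symm hqd), h e he hep (Ne.symm hqe), h g hg hgp (Ne.symm hqg), c4, c1, c2,
    c3, h1, h2]
  cases t <;> cases chi I g d p <;> simp

end ILe

theorem pr_Le (hSy : FP.St_Sy) (hXt : FP.St_Xt) (hHC : FP.St_HC) (hHs : St_Hs) : St_Le := by
  intro I hI h3
  have hC : CH I := hSy I hI.real
  have hH : HC I := hHC I hI (by omega)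
  obtain ⟨hm, hs⟩ := hHs I hI h3
  constructor
  · intro a b ha hb hab h
    have ha' : ext I a = true :=
      ILe.ext_of hXt hC ha hb hab (t := false) (fun x hx _ _ => h x hx)
    have hb' : ext I b = true := by
      refine ILe.ext_of hXt hC hb ha (Ne.symm hab) (t := true) (fun x hx hxb hxa => ?_)
      rw [hC.anti a b x (ILe.ds3 ha hb hx hab (Ne.symm hxa) (Ne.symm hxb)), h x hx]
      rfl
    obtain ⟨r, _, _, hr⟩ := hH.sur 0 b hb hb'
    obtain ⟨s, hs1, hs2, hs3⟩ := hH.sur (r + 1) a ha ha'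
    have hsr : s ≠ r + mm I := by
      intro he
      rw [he, hH.per r, hr] at hs3
      exact hab hs3.symm
    refine ⟨r, ?_, hr.symm⟩
    rcases Nat.lt_or_ge (r + 1) s with hlt | hge
    · exfalso
      have e1 := hH.cyc r (r + 1) s (by omega) hlt (by omega)
      rw [hr, hs3] at e1
      have e2 : hp I (r + 1) ≠ a := by
        rw [← hs3]
        exact hH.inj (r + 1) s hlt (by omega)
      have e3 : b ≠ hp I (r + 1) := by
        rw [← hr]
        exact hH.inj r (r + 1) (by omega) (by omega)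
      have e4 := h (hp I (r + 1)) (hH.lt _)
      rw [← hC.cyc a b (hp I (r + 1)) (ILe.ds3 ha hb (hH.lt _) hab (Ne.symm e2) e3), e1] at e4
      exact absurd e4 (by simp)
    · have : s = r + 1 := by omega
      rw [← this, hs3]
  · intro j x hx
    by_cases h1 : x = hp I j
    · rw [h1]
      exact (hC.deg (hp I (j + 1)) (hp I j) (hH.lt _) (hH.lt _)).2.2
    by_cases h2 : x = hp I (j + 1)
    · rw [h2]
      exact (hC.deg (hp I (j + 1)) (hp I j) (hH.lt _) (hH.lt _)).2.1
    have h4 : hp I j ≠ hp I (j + 1) := hH.inj j (j + 1) (by omega) (by omega)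
    rw [hC.anti (hp I j) (hp I (j + 1)) x
      (ILe.ds3 (hH.lt _) (hH.lt _) hx h4 (Ne.symm h1) (Ne.symm h2)), hs j x hx h1 h2]
    rfl

end Pool.Agent.Work.MP_c6c039_lc.CL
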