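import Pool.Agent.Work.MP_c6c039_lc.CL.StmtsG

/-! # Item Lx of block CL: the triangle on the left -/

set_option autoImplicit false

namespace Pool.Agent.Work.MP_c6c039_lc.CL

open Pool.Agent.Work.MP_c6c039_lc.FP Pool.Agent.Work.MP_c6c039_lc.NC

namespace ILx

/-- the area as a linear function -/
theorem ar_iff (X Y : ℕ → ℝ) (a b x : ℕ) :
    0 < ar X Y a b x ↔
      -(Y b - Y a) * X a + (X b - X a) * Y a < -(Y b - Y a) * X x + (X b - X a) * Y x := by
  unfold ar
  constructor <;> intro h <;> nlinarith [h]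

/-- transitivity in a half plane -/
theorem trans (X Y : ℕ → ℝ) (a b x' x c : ℕ) (h1 : 0 < ar X Y a b x') (h2 : 0 < ar X Y a b x)
    (h3 : 0 < ar X Y a b c) (h4 : 0 < ar X Y a x' x) (h5 : 0 < ar X Y a x c) :
    0 < ar X Y a x' c := by
  have key : ar X Y a b x * ar X Y a x' c =
      ar X Y a b x' * ar X Y a x c + ar X Y a b c * ar X Y a x' x := by
    unfold ar
    ring
  have hpos : 0 < ar X Y a b x * ar X Y a x' c := by
    rw [key]
    exact add_pos (mul_pos h1 h5) (mul_pos h3 h4)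
  exact (pos_iff_pos_of_mul_pos hpos).1 h2

/-- the first clause -/
theorem left (hVi : St_Vi) (hKp : St_Kp) (hTi : St_Ti) (I : In) (hI : Rl I)
    (E : ℕ → ℕ → Prop) (hE : Mx I E) (a b : ℕ) (hab : E a b) (x : ℕ) (hx : x < nn I)
    (hchi : chi I a b x = true) : ∃ c, Tr I E a b c := by
  classical
  obtain ⟨X, Y, hr, hr'⟩ := id hI
  have hRL : RL I X Y := ⟨hr, hr'⟩
  obtain ⟨ha, hb, hne⟩ := hE.lt a b hab
  obtain ⟨k1, k2⟩ := hKp I X Y hRL (-(Y b - Y a)) (X b - X a) a ha
  have hiff : ∀ y, y < nn I → (chi I a b y = true ↔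
      -(Y b - Y a) * X a + (X b - X a) * Y a < -(Y b - Y a) * X y + (X b - X a) * Y y) :=
    fun y hy => (hr a b y ha hb hy).trans (ar_iff X Y a b y)
  -- degenerate values
  have hdeg : ∀ u v, u < nn I → v < nn I → chi I u v v ≠ true := by
    intro u v hu hv h
    have := (hr u v v hu hv hv).1 h
    unfold ar at this
    nlinarith [this]
  have hdeg' : chi I a b a ≠ true := by
    intro h
    have := (hr a b a ha hb ha).1 h
    unfold ar at this
    nlinarith [this]
  -- a visible point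
  obtain ⟨c0, ⟨hc0, hc0'⟩, hEc0⟩ := hVi I hI E hE a (fun y => y < nn I ∧ chi I a b y = true) ha
    (fun y hy => ⟨hy.1, fun e => hdeg' (by rw [e] at hy; exact hy.2)⟩)
    (fun y z w hy hz hds hin => by
      have hw : w < nn I := hds.2 w (by simp)
      exact ⟨hw, (hiff w hw).2 (k1 y z w hds hin ((hiff y hy.1).1 hy.2)
        ((hiff z hz.1).1 hz.2))⟩)
    (fun y c d hy _ hds hcr => by
      have hc : c < nn I := hds.2 c (by simp)
      have hd : d < nn I := hds.2 d (by simp)
      rcases k2 y c d hds hcr ((hiff y hy.1).1 hy.2) with h | h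
      · exact Or.inl ⟨hc, (hiff c hc).2 h⟩
      · exact Or.inr ⟨hd, (hiff d hd).2 h⟩)
    ⟨x, hx, hchi⟩
  -- the first neighbour
  obtain ⟨c, hcS, hmin⟩ := Finset.exists_min_image
    ((Finset.range (nn I)).filter fun c => E a c ∧ chi I a b c = true)
    (fun c => ((Finset.range (nn I)).filter fun y =>
      E a y ∧ chi I a b y = true ∧ chi I a y c = true).card)
    ⟨c0, Finset.mem_filter.2 ⟨Finset.mem_range.2 hc0, hEc0, hc0'⟩⟩
  rw [Finset.mem_filter, Finset.mem_range] at hcS
  obtain ⟨hcn, hEc, hcc⟩ := hcS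
  refine ⟨c, hTi I hI E hE a b c hab hEc hcc ?_⟩
  rintro y hEy ⟨hy1, hy2⟩
  have hyn : y < nn I := (hE.lt a y hEy).2.1
  have hle := hmin y (Finset.mem_filter.2 ⟨Finset.mem_range.2 hyn, hEy, hy1⟩)
  have hlt : ((Finset.range (nn I)).filter fun z =>
      E a z ∧ chi I a b z = true ∧ chi I a z y = true).card <
      ((Finset.range (nn I)).filter fun z =>
      E a z ∧ chi I a b z = true ∧ chi I a z c = true).card := by
    apply Finset.card_lt_card
    rw [Finset.ssubset_iff_of_subset]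
    · refine ⟨y, Finset.mem_filter.2 ⟨Finset.mem_range.2 hyn, hEy, hy1, hy2⟩, ?_⟩
      intro hmem
      exact hdeg a y ha hyn (Finset.mem_filter.1 hmem).2.2.2
    · intro z hz
      rw [Finset.mem_filter, Finset.mem_range] at hz
      obtain ⟨hzn, hEz, hz1, hz2⟩ := hz
      refine Finset.mem_filter.2 ⟨Finset.mem_range.2 hzn, hEz, hz1, ?_⟩
      exact (hr a z c ha hzn hcn).2 (trans X Y a b z y c ((hr a b z ha hb hzn).1 hz1)
        ((hr a b y ha hb hyn).1 hy1) ((hr a b c ha hb hcn).1 hcc)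
        ((hr a z y ha hzn hyn).1 hz2) ((hr a y c ha hyn hcn).1 hy2))
  exact absurd hle (not_le.2 hlt)

end ILx

/-- Lx. -/
theorem pr_Lx (hVi : St_Vi) (hKp : St_Kp) (hTi : St_Ti) : St_Lx := by
  intro I hI E hE a b hab
  refine ⟨fun x hx hchi => ILx.left hVi hKp hTi I hI E hE a b hab x hx hchi, fun h3 => ?_⟩
  obtain ⟨X, Y, hr, hr'⟩ := id hI
  obtain ⟨ha, hb, hne⟩ := hE.lt a b hab
  obtain ⟨x, hx, hxa, hxb⟩ : ∃ x, x < nn I ∧ x ≠ a ∧ x ≠ b := by
    by_contra hcon
    push Not at hcon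
    have h0 := hcon 0 (by omega)
    have h1 := hcon 1 (by omega)
    have h2 := hcon 2 (by omega)
    by_cases e0 : (0 : ℕ) = a
    · by_cases e1 : (1 : ℕ) = a
      · omega
      · have e1b := h1 e1
        by_cases e2 : (2 : ℕ) = a
        · omega
        · have e2b := h2 e2
          omega
    · have e0b := h0 e0
      by_cases e1 : (1 : ℕ) = a
      · by_cases e2 : (2 : ℕ) = a
        · omega
        · have e2b := h2 e2
          omega
      · have e1b := h1 e1
        omega
  have hne0 := hr' a b x ha hb hx hne (Ne.symm hxb) (Ne.symm hxa)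
  rcases lt_or_gt_of_ne hne0 with hlt | hgt
  · right
    refine ILx.left hVi hKp hTi I hI E hE b a (hE.sym a b hab) x hx ?_
    refine (hr b a x hb ha hx).2 ?_
    unfold ar at hlt ⊢
    nlinarith [hlt]
  · left
    exact ILx.left hVi hKp hTi I hI E hE a b hab x hx ((hr a b x ha hb hx).2 hgt)

end Pool.Agent.Work.MP_c6c039_lc.CL
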