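import Pool.Agent.Work.MP_c6c039_lc.CL.StmtsS

set_option autoImplicit false

namespace Pool.Agent.Work.MP_c6c039_lc.CL

open Pool.Agent.Work.MP_c6c039_lc.FP Pool.Agent.Work.MP_c6c039_lc.NC

namespace IMq

theorem az_symm (X Y : ℕ → ℝ) (a b : ℕ) (z : ℝ × ℝ) : az X Y b a z = - az X Y a b z := by
  unfold az; ring

theorem cz_symm (X Y : ℕ → ℝ) (z : ℝ × ℝ) (a b : ℕ) : cz X Y z b a = - cz X Y z a b := by
  classical
  unfold cz
  have h1 : (X a < z.1 ∧ z.1 < X b ∧ 0 < az X Y b a z) ↔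
      (X a < z.1 ∧ z.1 < X b ∧ az X Y a b z < 0) := by
    rw [az_symm X Y a b z]
    constructor
    · rintro ⟨h, h', h''⟩; exact ⟨h, h', by linarith⟩
    · rintro ⟨h, h', h''⟩; exact ⟨h, h', by linarith⟩
  have h2 : (X b < z.1 ∧ z.1 < X a ∧ az X Y b a z < 0) ↔
      (X b < z.1 ∧ z.1 < X a ∧ 0 < az X Y a b z) := by
    rw [az_symm X Y a b z]
    constructor
    · rintro ⟨h, h', h''⟩; exact ⟨h, h', by linarith⟩
    · rintro ⟨h, h', h''⟩; exact ⟨h, h', by linarith⟩
  simp only [h1, h2]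
  ring

theorem sum_pair (n : ℕ) (f : ℕ → ℕ → ℤ) (a b : ℕ) (ha : a < n) (hb : b < n) :
    (∑ x ∈ Finset.range n, ∑ y ∈ Finset.range n, (if a = x ∧ b = y then (1 : ℤ) else 0) * f x y)
      = f a b := by
  rw [Finset.sum_eq_single a]
  · rw [Finset.sum_eq_single b]
    · rw [if_pos ⟨rfl, rfl⟩, one_mul]
    · intro y _ hy
      rw [if_neg (fun h => hy h.2.symm), zero_mul]
    · intro h; exact absurd (Finset.mem_range.2 hb) h
  · intro x _ hx
    apply Finset.sum_eq_zero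
    intro y _
    rw [if_neg (fun h => hx h.1.symm), zero_mul]
  · intro h; exact absurd (Finset.mem_range.2 ha) h

theorem sum_pair' (n : ℕ) (f : ℕ → ℕ → ℤ) (a b : ℕ) (ha : a < n) (hb : b < n) :
    (∑ x ∈ Finset.range n, ∑ y ∈ Finset.range n, (if a = y ∧ b = x then (1 : ℤ) else 0) * f x y)
      = f b a := by
  rw [Finset.sum_eq_single b]
  · rw [Finset.sum_eq_single a]
    · rw [if_pos ⟨rfl, rfl⟩, one_mul]
    · intro y _ hy
      rw [if_neg (fun h => hy h.1.symm), zero_mul]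
    · intro h; exact absurd (Finset.mem_range.2 ha) h
  · intro x _ hx
    apply Finset.sum_eq_zero
    intro y _
    rw [if_neg (fun h => hx h.2.symm), zero_mul]
  · intro h; exact absurd (Finset.mem_range.2 hb) h

theorem sum_dl (X Y : ℕ → ℝ) (z : ℝ × ℝ) (n a b : ℕ) (ha : a < n) (hb : b < n) :
    (∑ x ∈ Finset.range n, ∑ y ∈ Finset.range n, dl a b x y * cz X Y z x y)
      = 2 * cz X Y z a b := by
  have h1 : (∑ x ∈ Finset.range n, ∑ y ∈ Finset.range n, dl a b x y * cz X Y z x y) =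
      (∑ x ∈ Finset.range n, ∑ y ∈ Finset.range n,
        (if a = x ∧ b = y then (1 : ℤ) else 0) * cz X Y z x y) -
      (∑ x ∈ Finset.range n, ∑ y ∈ Finset.range n,
        (if a = y ∧ b = x then (1 : ℤ) else 0) * cz X Y z x y) := by
    rw [← Finset.sum_sub_distrib]
    apply Finset.sum_congr rfl
    intro x _
    rw [← Finset.sum_sub_distrib]
    apply Finset.sum_congr rfl
    intro y _
    unfold dl
    rw [sub_mul]
  rw [h1, sum_pair n _ a b ha hb, sum_pair' n _ a b ha hb, cz_symm X Y z a b]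
  ring

theorem bd_cons (t : ℕ × (ℕ × ℕ)) (T : List (ℕ × (ℕ × ℕ))) (x y : ℕ) :
    bd (t :: T) x y =
      (dl t.1 t.2.1 x y + (dl t.2.1 t.2.2 x y + dl t.2.2 t.1 x y)) + bd T x y := by
  unfold bd
  rw [List.map_cons, List.sum_cons]

theorem mz_cons (X Y : ℕ → ℝ) (t : ℕ × (ℕ × ℕ)) (T : List (ℕ × (ℕ × ℕ))) (z : ℝ × ℝ) :
    mz X Y (t :: T) z = (@ite ℤ (iz X Y t z) (Classical.propDecidable _) 1 0) + mz X Y T z := by
  unfold mz
  rw [List.map_cons, List.sum_cons]

theorem main (hCn : St_Cn) (I : In) (X Y : ℕ → ℝ) (hR : RL I X Y) (z : ℝ × ℝ)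
    (hz : gn I X Y z) (T : List (ℕ × (ℕ × ℕ))) (hT : ∀ t ∈ T, TQ I t) :
    (∑ x ∈ Finset.range (nn I), ∑ y ∈ Finset.range (nn I), bd T x y * cz X Y z x y)
      = 2 * mz X Y T z := by
  induction T with
  | nil => simp [bd, mz]
  | cons t T ih =>
    have ht : TQ I t := hT t List.mem_cons_self
    have ih' := ih (fun s hs => hT s (List.mem_cons_of_mem _ hs))
    have hs : (∑ x ∈ Finset.range (nn I), ∑ y ∈ Finset.range (nn I),
        bd (t :: T) x y * cz X Y z x y) =
        ((∑ x ∈ Finset.range (nn I), ∑ y ∈ Finset.range (nn I),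
          dl t.1 t.2.1 x y * cz X Y z x y) +
        ((∑ x ∈ Finset.range (nn I), ∑ y ∈ Finset.range (nn I),
          dl t.2.1 t.2.2 x y * cz X Y z x y) +
        (∑ x ∈ Finset.range (nn I), ∑ y ∈ Finset.range (nn I),
          dl t.2.2 t.1 x y * cz X Y z x y))) +
        (∑ x ∈ Finset.range (nn I), ∑ y ∈ Finset.range (nn I), bd T x y * cz X Y z x y) := by
      simp only [← Finset.sum_add_distrib]
      apply Finset.sum_congr rfl
      intro x _
      apply Finset.sum_congr rfl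
      intro y _
      rw [bd_cons]
      ring
    obtain ⟨⟨h1, h2, h3⟩, hc⟩ := ht
    rw [hs, ih', sum_dl X Y z (nn I) _ _ h1 h2, sum_dl X Y z (nn I) _ _ h2 h3,
      sum_dl X Y z (nn I) _ _ h3 h1, mz_cons]
    have hcn := hCn I X Y hR t z ⟨⟨h1, h2, h3⟩, hc⟩ hz
    by_cases hi : iz X Y t z
    · rw [if_pos hi]
      have := hcn.1 hi
      linarith
    · rw [if_neg hi]
      have := hcn.2 hi
      linarith

end IMq

theorem pr_Mq (hCn : St_Cn) : St_Mq := by
  intro I X Y hR T T' z hT hT' hb hz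
  have h1 := IMq.main hCn I X Y hR z hz T hT
  have h2 := IMq.main hCn I X Y hR z hz T' hT'
  have h3 : (∑ x ∈ Finset.range (nn I), ∑ y ∈ Finset.range (nn I), bd T x y * cz X Y z x y) =
      (∑ x ∈ Finset.range (nn I), ∑ y ∈ Finset.range (nn I), bd T' x y * cz X Y z x y) := by
    apply Finset.sum_congr rfl
    intro x _
    apply Finset.sum_congr rfl
    intro y _
    rw [hb x y]
  linarith

end Pool.Agent.Work.MP_c6c039_lc.CL
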