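import Pool.Agent.Work.MP_c6c039_lc.CL.StmtsW

/-!
# Block CL, item Nj: no jump outside of the two routes
-/

set_option autoImplicit false

namespace Pool.Agent.Work.MP_c6c039_lc.CL

open Pool.Agent.Work.MP_c6c039_lc.FP Pool.Agent.Work.MP_c6c039_lc.NC

namespace INj

/-- an extreme point which is not the first one -/
theorem hull_step (hSy : FP.St_Sy) (hHl : FP.St_Hl) {I : In} (hG : Good I) (par : ℕ → ℕ) {x : ℕ}
    (hx : x < nn I) (he : ext I x = true) (hne : x ≠ hp I 0) :
    ∃ j, x = hp I (j + 1) ∧ pf I par x = hp I j := by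
  obtain ⟨-, hmem, -⟩ := hHl I (hSy I hG.real) hG.hull
  have hxm : x ∈ hu I := (hmem x).mpr ⟨hx, he⟩
  have hlt : px (hu I) x < (hu I).length := by
    unfold px
    exact List.idxOf_lt_length_iff.mpr hxm
  have hget : (hu I).getD (px (hu I) x) 0 = x := by
    rw [List.getD_eq_getElem _ _ hlt]
    unfold px
    exact List.getElem_idxOf _
  have hhp : hp I (px (hu I) x) = x := by
    unfold hp mm
    rw [Nat.mod_eq_of_lt hlt, hget]
  have hpos : px (hu I) x ≠ 0 := by
    intro h0
    rw [h0] at hhp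
    exact hne hhp.symm
  obtain ⟨j, hj⟩ := Nat.exists_eq_succ_of_ne_zero hpos
  refine ⟨j, ?_, ?_⟩
  · rw [← Nat.succ_eq_add_one, ← hj, hhp]
  · unfold pf
    rw [if_pos he, hj]
    rfl

end INj

/-- **Nj** -/
theorem pr_Nj (hSy : FP.St_Sy) (hHl : FP.St_Hl) (hHx : St_Hx) (hRt : St_Rt) (hFo : St_Fo)
    (hKv : St_Kv) : St_Nj := by
  intro I E par ly k C u v hu' hv' w hw hbd z hz hzu hzv b hzb hbz
  obtain ⟨hK1, -, -⟩ := hKv I E par ly k C
  obtain ⟨-, hF⟩ := hFo I E par ly k C
  have hb : b < nn I := by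
    obtain ⟨c, hc⟩ := hzb
    exact (C.mx.lt z b hc.e1).2.1
  have hz1 : z ≠ u := by
    intro h
    obtain ⟨-, -, -, -, -, -, hm, -⟩ := hRt I E par ly k C u hu'
    exact hzu (h ▸ hm)
  have hz2 : z ≠ v := by
    intro h
    obtain ⟨-, -, -, -, -, -, hm, -⟩ := hRt I E par ly k C v hv'
    exact hzv (h ▸ hm)
  have htc : ∀ s, s < nn I → z ∉ rl I par k s → tc I par k s z b = 0 := by
    intro s hs hzs
    obtain ⟨-, -, -, -, -, -, -, hrl, -⟩ := hF s hs
    obtain ⟨-, -, -, -, -, -, -, -, hcl, -⟩ := hRt I E par ly k C s hs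
    have c1 : ¬ (z ∈ fo I par k s ∧ z ≠ hp I 0 ∧ b = pf I par z) := by
      rintro ⟨h1, h2, h3⟩
      cases he : ext I z with
      | false => exact hzs (hrl z h1 he)
      | true =>
        obtain ⟨j, hj1, hj2⟩ := INj.hull_step hSy hHl C.good par hz he h2
        obtain ⟨-, -, hno⟩ := hHx I C.good C.n3 E C.mx j
        apply hno
        rw [← hj1, ← hj2, ← h3]
        exact hzb
    have c2 : ¬ (b ∈ fo I par k s ∧ b ≠ hp I 0 ∧ z = pf I par b) := by
      rintro ⟨h1, h2, h3⟩
      cases he : ext I b with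
      | false =>
        have hbr : b ∈ rl I par k s := hrl b h1 he
        have hzp : z = par b := by
          rw [h3]
          unfold pf
          rw [he]
          simp
        have hpb : par b < nn I := (C.mx.lt b (par b) (C.pa b hb he).1).2.1
        obtain ⟨-, hcons, -⟩ := hRt I E par ly k C b hb
        obtain ⟨-, -, -, -, -, -, hmp, -⟩ := hRt I E par ly k C (par b) hpb
        have hmem : par b ∈ rl I par k b := by
          rw [hcons he]
          exact List.mem_cons_of_mem _ hmp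
        exact hzs (hzp ▸ hcl b hbr (par b) hmem)
      | true =>
        obtain ⟨j, hj1, hj2⟩ := INj.hull_step hSy hHl C.good par hb he h2
        obtain ⟨-, -, hno⟩ := hHx I C.good C.n3 E C.mx j
        apply hno
        rw [← hj1, ← hj2, ← h3]
        exact hbz
    unfold tc
    rw [if_neg c1, if_neg c2]
    simp
  have hk := hbd z b
  rw [hK1 u v hu' hv' z b, htc u hu' hzu, htc v hv' hzv] at hk
  have hdl : dl u v z b = 0 := by
    unfold dl
    rw [if_neg (fun h => hz1 h.1.symm), if_neg (fun h => hz2 h.2.symm)]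
    simp
  rw [hdl] at hk
  linarith

end Pool.Agent.Work.MP_c6c039_lc.CL
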