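import Pool.Agent.Work.MP_c6c039_lc.CL.StmtsS

/-!
# Block CL, item Ns: sides of triangles which fill the hull do not cross
-/

set_option autoImplicit false

namespace Pool.Agent.Work.MP_c6c039_lc.CL

open Pool.Agent.Work.MP_c6c039_lc.FP Pool.Agent.Work.MP_c6c039_lc.NC

namespace INs

open Filter Topology

/-- An affine function which is positive at `0` is positive near `0`. -/
theorem ev_pos (A B : ℝ) (hA : 0 < A) : ∀ᶠ ε in 𝓝[>] (0 : ℝ), 0 < A + ε * B := by
  have hc : Continuous fun ε : ℝ => A + ε * B := by fun_prop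
  have h0 : (0 : ℝ) < A + 0 * B := by simpa using hA
  have h1 : ∀ᶠ ε in 𝓝 (0 : ℝ), 0 < A + ε * B := (hc.tendsto 0).eventually_const_lt h0
  exact h1.filter_mono nhdsWithin_le_nhds

/-- The common point of two crossing segments is near points inside both triangles. -/
theorem corner (a1 a2 b1 b2 c1 c2 d1 d2 p1 p2 q1 q2 : ℝ)
    (h1 : ((b1 - a1) * (c2 - a2) - (b2 - a2) * (c1 - a1)) *
      ((b1 - a1) * (d2 - a2) - (b2 - a2) * (d1 - a1)) < 0)
    (h2 : ((d1 - c1) * (a2 - c2) - (d2 - c2) * (a1 - c1)) *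
      ((d1 - c1) * (b2 - c2) - (d2 - c2) * (b1 - c1)) < 0)
    (hp : 0 < (b1 - a1) * (p2 - a2) - (b2 - a2) * (p1 - a1))
    (hq : 0 < (d1 - c1) * (q2 - c2) - (d2 - c2) * (q1 - c1)) :
    ∃ z1 z2 : ℝ,
      (0 < (b1 - a1) * (z2 - a2) - (b2 - a2) * (z1 - a1) ∧
        0 < (p1 - b1) * (z2 - b2) - (p2 - b2) * (z1 - b1) ∧
        0 < (a1 - p1) * (z2 - p2) - (a2 - p2) * (z1 - p1)) ∧
      (0 < (d1 - c1) * (z2 - c2) - (d2 - c2) * (z1 - c1) ∧
        0 < (q1 - d1) * (z2 - d2) - (q2 - d2) * (z1 - d1) ∧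
        0 < (c1 - q1) * (z2 - q2) - (c2 - q2) * (z1 - q1)) := by
  -- the four areas
  obtain ⟨A, hA⟩ : ∃ A, A = (d1 - c1) * (a2 - c2) - (d2 - c2) * (a1 - c1) := ⟨_, rfl⟩
  obtain ⟨B, hB⟩ : ∃ B, B = (d1 - c1) * (b2 - c2) - (d2 - c2) * (b1 - c1) := ⟨_, rfl⟩
  obtain ⟨C, hC⟩ : ∃ C, C = (b1 - a1) * (c2 - a2) - (b2 - a2) * (c1 - a1) := ⟨_, rfl⟩
  obtain ⟨D, hD⟩ : ∃ D, D = (b1 - a1) * (d2 - a2) - (b2 - a2) * (d1 - a1) := ⟨_, rfl⟩
  obtain ⟨P, hP⟩ : ∃ P, P = (b1 - a1) * (p2 - a2) - (b2 - a2) * (p1 - a1) := ⟨_, rfl⟩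
  obtain ⟨Q, hQ⟩ : ∃ Q, Q = (d1 - c1) * (q2 - c2) - (d2 - c2) * (q1 - c1) := ⟨_, rfl⟩
  rw [← hC, ← hD] at h1
  rw [← hA, ← hB] at h2
  rw [← hP] at hp
  rw [← hQ] at hq
  obtain ⟨E, hE⟩ : ∃ E, E = (b1 - a1) * (d2 - c2) - (b2 - a2) * (d1 - c1) := ⟨_, rfl⟩
  have eAB : E = A - B := by rw [hE, hA, hB]; ring
  have eCD : E = D - C := by rw [hE, hC, hD]; ring
  have hE0 : E ≠ 0 := by
    intro h
    have : A = B := by linarith
    rw [this] at h2
    nlinarith [mul_self_nonneg B]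
  obtain ⟨lam, hl⟩ : ∃ lam, lam = A / E := ⟨_, rfl⟩
  obtain ⟨mu, hm⟩ : ∃ mu, mu = - C / E := ⟨_, rfl⟩
  have hlE : lam * E = A := by rw [hl]; field_simp
  have hmE : mu * E = - C := by rw [hm]; field_simp
  have hE2 : 0 < E * E := by
    rcases lt_or_gt_of_ne hE0 with h | h
    · exact mul_pos_of_neg_of_neg h h
    · exact mul_pos h h
  -- positivity of the coefficients
  have hl0 : 0 < lam := by
    have h : 0 < lam * (E * E) := by
      have : lam * (E * E) = A * (A - B) := by rw [← mul_assoc, hlE, eAB]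
      rw [this]
      nlinarith [mul_self_nonneg A]
    exact (pos_iff_pos_of_mul_pos h).2 hE2
  have hl1 : 0 < 1 - lam := by
    have h : 0 < (1 - lam) * (E * E) := by
      have : (1 - lam) * (E * E) = (A - B) * (A - B) - A * (A - B) := by
        rw [sub_mul, one_mul, ← mul_assoc, hlE, eAB]
      rw [this]
      nlinarith [mul_self_nonneg B]
    exact (pos_iff_pos_of_mul_pos h).2 hE2
  have hm0 : 0 < mu := by
    have h : 0 < mu * (E * E) := by
      have : mu * (E * E) = - C * (D - C) := by rw [← mul_assoc, hmE, eCD]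
      rw [this]
      nlinarith [mul_self_nonneg C]
    exact (pos_iff_pos_of_mul_pos h).2 hE2
  have hm1 : 0 < 1 - mu := by
    have h : 0 < (1 - mu) * (E * E) := by
      have : (1 - mu) * (E * E) = (D - C) * (D - C) - (- C) * (D - C) := by
        rw [sub_mul, one_mul, ← mul_assoc, hmE, eCD]
      rw [this]
      nlinarith [mul_self_nonneg D]
    exact (pos_iff_pos_of_mul_pos h).2 hE2
  -- the common point
  have x1 : a1 + lam * (b1 - a1) = c1 + mu * (d1 - c1) := by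
    have h : (a1 + lam * (b1 - a1)) * E = (c1 + mu * (d1 - c1)) * E := by
      have e1 : (a1 + lam * (b1 - a1)) * E = a1 * E + (lam * E) * (b1 - a1) := by ring
      have e2 : (c1 + mu * (d1 - c1)) * E = c1 * E + (mu * E) * (d1 - c1) := by ring
      rw [e1, e2, hlE, hmE, hE, hA, hC]
      ring
    exact mul_right_cancel₀ hE0 h
  have x2 : a2 + lam * (b2 - a2) = c2 + mu * (d2 - c2) := by
    have h : (a2 + lam * (b2 - a2)) * E = (c2 + mu * (d2 - c2)) * E := by
      have e1 : (a2 + lam * (b2 - a2)) * E = a2 * E + (lam * E) * (b2 - a2) := by ring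
      have e2 : (c2 + mu * (d2 - c2)) * E = c2 * E + (mu * E) * (d2 - c2) := by ring
      rw [e1, e2, hlE, hmE, hE, hA, hC]
      ring
    exact mul_right_cancel₀ hE0 h
  -- the direction
  obtain ⟨v1, hv1⟩ : ∃ v1, v1 = ((d1 - c1) - (b1 - a1)) / E := ⟨_, rfl⟩
  obtain ⟨v2, hv2⟩ : ∃ v2, v2 = ((d2 - c2) - (b2 - a2)) / E := ⟨_, rfl⟩
  have w1 : (b1 - a1) * v2 - (b2 - a2) * v1 = 1 := by
    have h : ((b1 - a1) * v2 - (b2 - a2) * v1) = E / E := by
      rw [hv1, hv2, hE]; ring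
    rw [h, div_self hE0]
  have w2 : (d1 - c1) * v2 - (d2 - c2) * v1 = 1 := by
    have h : ((d1 - c1) * v2 - (d2 - c2) * v1) = E / E := by
      rw [hv1, hv2, hE]; ring
    rw [h, div_self hE0]
  -- small multiples
  have f1 := ev_pos ((1 - lam) * P) ((p1 - b1) * v2 - (p2 - b2) * v1) (mul_pos hl1 hp)
  have f2 := ev_pos (lam * P) ((a1 - p1) * v2 - (a2 - p2) * v1) (mul_pos hl0 hp)
  have f3 := ev_pos ((1 - mu) * Q) ((q1 - d1) * v2 - (q2 - d2) * v1) (mul_pos hm1 hq)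
  have f4 := ev_pos (mu * Q) ((c1 - q1) * v2 - (c2 - q2) * v1) (mul_pos hm0 hq)
  have f0 : ∀ᶠ ε in 𝓝[>] (0 : ℝ), 0 < ε := self_mem_nhdsWithin
  obtain ⟨ε, g0, g1, g2, g3, g4⟩ := (f0.and (f1.and (f2.and (f3.and f4)))).exists
  refine ⟨a1 + lam * (b1 - a1) + ε * v1, a2 + lam * (b2 - a2) + ε * v2, ⟨?_, ?_, ?_⟩, ?_, ?_, ?_⟩
  · have : (b1 - a1) * (a2 + lam * (b2 - a2) + ε * v2 - a2) -
        (b2 - a2) * (a1 + lam * (b1 - a1) + ε * v1 - a1) =
        ε * ((b1 - a1) * v2 - (b2 - a2) * v1) := by ring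
    rw [this, w1, mul_one]
    exact g0
  · have : (p1 - b1) * (a2 + lam * (b2 - a2) + ε * v2 - b2) -
        (p2 - b2) * (a1 + lam * (b1 - a1) + ε * v1 - b1) =
        (1 - lam) * P + ε * ((p1 - b1) * v2 - (p2 - b2) * v1) := by rw [hP]; ring
    rw [this]
    exact g1
  · have : (a1 - p1) * (a2 + lam * (b2 - a2) + ε * v2 - p2) -
        (a2 - p2) * (a1 + lam * (b1 - a1) + ε * v1 - p1) =
        lam * P + ε * ((a1 - p1) * v2 - (a2 - p2) * v1) := by rw [hP]; ring
    rw [this]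
    exact g2
  · rw [x1, x2]
    have : (d1 - c1) * (c2 + mu * (d2 - c2) + ε * v2 - c2) -
        (d2 - c2) * (c1 + mu * (d1 - c1) + ε * v1 - c1) =
        ε * ((d1 - c1) * v2 - (d2 - c2) * v1) := by ring
    rw [this, w2, mul_one]
    exact g0
  · rw [x1, x2]
    have : (q1 - d1) * (c2 + mu * (d2 - c2) + ε * v2 - d2) -
        (q2 - d2) * (c1 + mu * (d1 - c1) + ε * v1 - d1) =
        (1 - mu) * Q + ε * ((q1 - d1) * v2 - (q2 - d2) * v1) := by rw [hQ]; ring
    rw [this]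
    exact g3
  · rw [x1, x2]
    have : (c1 - q1) * (c2 + mu * (d2 - c2) + ε * v2 - q2) -
        (c2 - q2) * (c1 + mu * (d1 - c1) + ε * v1 - q1) =
        mu * Q + ε * ((c1 - q1) * v2 - (c2 - q2) * v1) := by rw [hQ]; ring
    rw [this]
    exact g4

/-- The interior of a triangle, seen from a side. -/
theorem side (I : In) (X Y : ℕ → ℝ) (hR : RL I X Y) (t : ℕ × (ℕ × ℕ)) (ht : TQ I t)
    (e : ℕ × ℕ) (he : e ∈ sl t) : ∃ p, 0 < ar X Y e.1 e.2 p ∧
      ∀ z, (0 < az X Y e.1 e.2 z ∧ 0 < az X Y e.2 p z ∧ 0 < az X Y p e.1 z) → iz X Y t z := by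
  obtain ⟨⟨h1, h2, h3⟩, hc⟩ := ht
  have hpos : 0 < ar X Y t.1 t.2.1 t.2.2 := (hR.1 _ _ _ h1 h2 h3).1 hc
  unfold sl at he
  simp only [List.mem_cons, List.not_mem_nil, or_false] at he
  rcases he with rfl | rfl | rfl
  · exact ⟨t.2.2, hpos, fun z hz => hz⟩
  · refine ⟨t.1, ?_, fun z hz => ⟨hz.2.2, hz.1, hz.2.1⟩⟩
    have : ar X Y t.2.1 t.2.2 t.1 = ar X Y t.1 t.2.1 t.2.2 := by unfold ar; ring
    simpa [this] using hpos
  · refine ⟨t.2.1, ?_, fun z hz => ⟨hz.2.1, hz.2.2, hz.1⟩⟩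
    have : ar X Y t.2.2 t.1 t.2.1 = ar X Y t.1 t.2.1 t.2.2 := by unfold ar; ring
    simpa [this] using hpos

theorem open_iz (X Y : ℕ → ℝ) (t : ℕ × (ℕ × ℕ)) : IsOpen {z | iz X Y t z} := by
  have hc : ∀ a b, Continuous fun z : ℝ × ℝ => az X Y a b z := by
    intro a b
    unfold az
    fun_prop
  have h : {z | iz X Y t z} = {z | 0 < az X Y t.1 t.2.1 z} ∩
      ({z | 0 < az X Y t.2.1 t.2.2 z} ∩ {z | 0 < az X Y t.2.2 t.1 z}) := by
    ext z
    rfl
  rw [h]
  exact (isOpen_lt continuous_const (hc _ _)).inter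
    ((isOpen_lt continuous_const (hc _ _)).inter (isOpen_lt continuous_const (hc _ _)))

/-- an element of a list of nonnegative numbers is at most the sum -/
theorem le_sum {α : Type} (g : α → ℤ) (hg : ∀ x, 0 ≤ g x) (T : List α) :
    0 ≤ (T.map g).sum ∧ ∀ t ∈ T, g t ≤ (T.map g).sum := by
  induction T with
  | nil => simp
  | cons u T ih =>
    rw [List.map_cons, List.sum_cons]
    refine ⟨by have := hg u; linarith [ih.1], ?_⟩
    intro t ht
    rcases List.mem_cons.1 ht with rfl | ht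
    · linarith [ih.1]
    · have := hg u
      linarith [ih.2 t ht]

theorem two_sum {α : Type} (g : α → ℤ) (hg : ∀ x, 0 ≤ g x) (T : List α) (t s : α)
    (ht : t ∈ T) (hs : s ∈ T) (hne : t ≠ s) : g t + g s ≤ (T.map g).sum := by
  induction T with
  | nil => simp at ht
  | cons u T ih =>
    rw [List.map_cons, List.sum_cons]
    rcases List.mem_cons.1 ht with ht' | ht' <;> rcases List.mem_cons.1 hs with hs' | hs'
    · exact absurd (ht'.trans hs'.symm) hne
    · rw [ht']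
      linarith [(le_sum g hg T).2 s hs']
    · rw [hs']
      linarith [(le_sum g hg T).2 t ht']
    · linarith [ih ht' hs', hg u]

open Classical in
theorem mz_two (X Y : ℕ → ℝ) (T : List (ℕ × (ℕ × ℕ))) (z : ℝ × ℝ) (t s : ℕ × (ℕ × ℕ))
    (ht : t ∈ T) (hs : s ∈ T) (hne : t ≠ s) (h1 : iz X Y t z) (h2 : iz X Y s z) :
    2 ≤ mz X Y T z := by
  unfold mz
  have hg : ∀ x : ℕ × (ℕ × ℕ), 0 ≤ (fun t => if iz X Y t z then (1 : ℤ) else 0) x := by
    intro x
    show 0 ≤ (if iz X Y x z then (1 : ℤ) else 0)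
    split_ifs <;> norm_num
  have h := two_sum _ hg T t s ht hs hne
  simp only [if_pos h1, if_pos h2] at h
  exact h

/-- a side which is on no boundary has a triangle on its other side -/
theorem other (T : List (ℕ × (ℕ × ℕ))) (c d : ℕ) (s : ℕ × (ℕ × ℕ)) (hs : s ∈ T)
    (hf : (c, d) ∈ sl s) (h0 : bd T c d = 0) : ∃ s' ∈ T, (d, c) ∈ sl s' := by
  by_contra hcon
  push Not at hcon
  have hd : ∀ u v : ℕ, (u, v) ≠ (d, c) → 0 ≤ dl u v c d := by
    intro u v h
    unfold dl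
    rw [if_neg (c := u = d ∧ v = c) (by rintro ⟨rfl, rfl⟩; exact h rfl)]
    split_ifs <;> norm_num
  have hd1 : (c, d) ≠ (d, c) → dl c d c d = 1 := by
    intro h
    unfold dl
    rw [if_pos ⟨rfl, rfl⟩, if_neg (by rintro ⟨h1, -⟩; exact h (by rw [h1]))]
    norm_num
  have key : ∀ t : ℕ × (ℕ × ℕ), (d, c) ∉ sl t → 0 ≤ dl t.1 t.2.1 c d +
      (dl t.2.1 t.2.2 c d + dl t.2.2 t.1 c d) := by
    intro t ht
    unfold sl at ht
    simp only [List.mem_cons, List.not_mem_nil, or_false, not_or] at ht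
    have e1 := hd t.1 t.2.1 (Ne.symm ht.1)
    have e2 := hd t.2.1 t.2.2 (Ne.symm ht.2.1)
    have e3 := hd t.2.2 t.1 (Ne.symm ht.2.2)
    linarith
  have key1 : ∀ t : ℕ × (ℕ × ℕ), (d, c) ∉ sl t → (c, d) ∈ sl t → 1 ≤ dl t.1 t.2.1 c d +
      (dl t.2.1 t.2.2 c d + dl t.2.2 t.1 c d) := by
    intro t ht ht'
    have hne : (c, d) ≠ (d, c) := by
      intro h
      rw [h] at ht'
      exact ht ht'
    unfold sl at ht ht'
    simp only [List.mem_cons, List.not_mem_nil, or_false, not_or] at ht ht'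
    have e1 := hd t.1 t.2.1 (Ne.symm ht.1)
    have e2 := hd t.2.1 t.2.2 (Ne.symm ht.2.1)
    have e3 := hd t.2.2 t.1 (Ne.symm ht.2.2)
    rcases ht' with h | h | h
    · have h1 : t.1 = c := (congrArg Prod.fst h).symm
      have h2 : t.2.1 = d := (congrArg Prod.snd h).symm
      rw [h1, h2] at e1 ⊢
      rw [h2] at e2
      rw [h1] at e3
      rw [hd1 hne]
      linarith
    · have h1 : t.2.1 = c := (congrArg Prod.fst h).symm
      have h2 : t.2.2 = d := (congrArg Prod.snd h).symm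
      rw [h1] at e1
      rw [h2] at e3
      rw [h1, h2, hd1 hne]
      linarith
    · have h1 : t.2.2 = c := (congrArg Prod.fst h).symm
      have h2 : t.1 = d := (congrArg Prod.snd h).symm
      rw [h2] at e1
      rw [h1] at e2
      rw [h1, h2, hd1 hne]
      linarith
  have gen : ∀ L : List (ℕ × (ℕ × ℕ)), (∀ t ∈ L, (d, c) ∉ sl t) →
      0 ≤ bd L c d ∧ (s ∈ L → 1 ≤ bd L c d) := by
    intro L
    induction L with
    | nil => intro _; simp [bd]
    | cons u L ih =>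
      intro hL
      have hLt := ih fun t ht => hL t (List.mem_cons_of_mem _ ht)
      have hu := hL u List.mem_cons_self
      have e : bd (u :: L) c d = (dl u.1 u.2.1 c d + (dl u.2.1 u.2.2 c d + dl u.2.2 u.1 c d)) +
          bd L c d := by
        unfold bd
        rw [List.map_cons, List.sum_cons]
      rw [e]
      refine ⟨by linarith [key u hu, hLt.1], ?_⟩
      intro hsu
      rcases List.mem_cons.1 hsu with h | h
      · rw [← h] at hu ⊢
        linarith [key1 s hu hf, hLt.1]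
      · linarith [key u hu, hLt.2 h]
  have := (gen T hcon).2 hs
  rw [h0] at this
  norm_num at this

/-- the two directions of a side are not both sides of one triangle -/
theorem nboth (I : In) (X Y : ℕ → ℝ) (hR : RL I X Y) (t : ℕ × (ℕ × ℕ)) (ht : TQ I t) (c d : ℕ)
    (h1 : (c, d) ∈ sl t) (h2 : (d, c) ∈ sl t) : False := by
  obtain ⟨⟨l1, l2, l3⟩, hc⟩ := ht
  have hpos : 0 < ar X Y t.1 t.2.1 t.2.2 := (hR.1 _ _ _ l1 l2 l3).1 hc
  have n1 : t.1 ≠ t.2.1 := by
    intro h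
    rw [← h] at hpos
    unfold ar at hpos
    linarith
  have n2 : t.2.1 ≠ t.2.2 := by
    intro h
    rw [← h] at hpos
    unfold ar at hpos
    linarith
  have n3 : t.1 ≠ t.2.2 := by
    intro h
    rw [← h] at hpos
    unfold ar at hpos
    linarith
  unfold sl at h1 h2
  simp only [List.mem_cons, List.not_mem_nil, or_false, Prod.mk.injEq] at h1 h2
  rcases h1 with ⟨e1, e2⟩ | ⟨e1, e2⟩ | ⟨e1, e2⟩ <;>
    rcases h2 with ⟨e3, e4⟩ | ⟨e3, e4⟩ | ⟨e3, e4⟩ <;> omega

end INs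

/-- **Item Ns**. -/
theorem pr_Ns (hMq : St_Mq) (hHs : St_Hs) (hHb : St_Hb) (hFa : St_Fa) (hGn : St_Gn) :
    St_Ns := by
  intro I hG h3 T hT hbd t ht s hs e he f hf hD
  obtain ⟨X, Y, hR⟩ := hG.real
  have hR : RL I X Y := hR
  obtain ⟨a, b⟩ := e
  obtain ⟨c, d⟩ := f
  obtain ⟨hn, hm⟩ := hD
  simp only at hn hm ⊢
  have la : a < nn I := hm a (by simp)
  have lb : b < nn I := hm b (by simp)
  have lc : c < nn I := hm c (by simp)
  have ld : d < nn I := hm d (by simp)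
  simp only [List.nodup_cons, List.mem_cons, List.not_mem_nil, or_false, not_or,
    List.nodup_nil, and_true, not_false_eq_true] at hn
  obtain ⟨⟨nab, nac, nad⟩, ⟨nbc, nbd⟩, ncd⟩ := hn
  by_contra hcr
  rw [Bool.not_eq_false] at hcr
  unfold cr at hcr
  simp only [Bool.and_eq_true, Bool.not_eq_true', beq_eq_false_iff_ne, ne_eq] at hcr
  obtain ⟨c1, c2⟩ := hcr
  -- opposite signs
  have opp : ∀ u v x y, u < nn I → v < nn I → x < nn I → y < nn I → u ≠ v → v ≠ x → u ≠ x →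
      v ≠ y → u ≠ y → ¬ (chi I u v x = chi I u v y) → ar X Y u v x * ar X Y u v y < 0 := by
    intro u v x y lu lv lx ly nuv nvx nux nvy nuy h
    have z1 := hR.2 u v x lu lv lx nuv nvx nux
    have z2 := hR.2 u v y lu lv ly nuv nvy nuy
    have i1 := hR.1 u v x lu lv lx
    have i2 := hR.1 u v y lu lv ly
    rcases lt_or_gt_of_ne z1 with s1 | s1 <;> rcases lt_or_gt_of_ne z2 with s2 | s2
    · exfalso
      apply h
      have e1 : chi I u v x = false := by
        rw [← Bool.not_eq_true, i1]; exact not_lt.2 s1.le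
      have e2 : chi I u v y = false := by
        rw [← Bool.not_eq_true, i2]; exact not_lt.2 s2.le
      rw [e1, e2]
    · exact mul_neg_of_neg_of_pos s1 s2
    · exact mul_neg_of_pos_of_neg s1 s2
    · exfalso
      apply h
      rw [i1.2 s1, i2.2 s2]
  have o1 := opp a b c d la lb lc ld nab nbc nac nbd nad c1
  have o2 := opp c d a b lc ld la lb ncd (Ne.symm nad) (Ne.symm nac) (Ne.symm nbd) (Ne.symm nbc) c2
  have o2' : ar X Y d c a * ar X Y d c b < 0 := by
    have e1 : ar X Y d c a = - ar X Y c d a := by unfold ar; ring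
    have e2 : ar X Y d c b = - ar X Y c d b := by unfold ar; ring
    rw [e1, e2, neg_mul_neg]
    exact o2
  have o1' : ar X Y a b d * ar X Y a b c < 0 := by rw [mul_comm]; exact o1
  -- the other triangle at `c d`
  have hb0 : hb I c d = 0 := by
    by_contra hne
    obtain ⟨j, -, ⟨e1, e2⟩ | ⟨e1, e2⟩⟩ := (hHb I hG h3).2 c d hne
    · have q1 := (hHs I hG h3).2 j a la (by rw [← e1]; exact nac) (by rw [← e2]; exact nad)
      have q2 := (hHs I hG h3).2 j b lb (by rw [← e1]; exact nbc) (by rw [← e2]; exact nbd)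
      rw [← e1, ← e2] at q1 q2
      exact c2 (by rw [q1, q2])
    · have q1 := (hHs I hG h3).2 j a la (by rw [← e1]; exact nad) (by rw [← e2]; exact nac)
      have q2 := (hHs I hG h3).2 j b lb (by rw [← e1]; exact nbd) (by rw [← e2]; exact nbc)
      rw [← e1, ← e2] at q1 q2
      have p1 := (hR.1 d c a ld lc la).1 q1
      have p2 := (hR.1 d c b ld lc lb).1 q2
      exact absurd (mul_pos p1 p2) (not_lt.2 o2'.le)
  obtain ⟨s', hs', hf'⟩ := INs.other T c d s hs hf (by rw [hbd, hb0])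
  -- a common inner point of two triangles
  have meet : ∀ (u : ℕ × (ℕ × ℕ)) (x y : ℕ), u ∈ T → (x, y) ∈ sl u →
      ar X Y a b x * ar X Y a b y < 0 → ar X Y x y a * ar X Y x y b < 0 → t = u := by
    intro u x y hu hxy m1 m2
    by_contra hne
    obtain ⟨p, hp, hpz⟩ := INs.side I X Y hR t (hT t ht) (a, b) he
    obtain ⟨q, hq, hqz⟩ := INs.side I X Y hR u (hT u hu) (x, y) hxy
    simp only at hp hpz hq hqz
    obtain ⟨z1, z2, k1, k2⟩ := INs.corner (X a) (Y a) (X b) (Y b) (X x) (Y x) (X y) (Y y)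
      (X p) (Y p) (X q) (Y q) m1 m2 hp hq
    have hU : IsOpen ({z | iz X Y t z} ∩ {z | iz X Y u z}) :=
      (INs.open_iz X Y t).inter (INs.open_iz X Y u)
    obtain ⟨z, ⟨hz1, hz2⟩, hgz⟩ := hGn I X Y hR h3 _ hU
      ⟨(z1, z2), hpz (z1, z2) k1, hqz (z1, z2) k2⟩
    have b1 := INs.mz_two X Y T z t u ht hu hne hz1 hz2
    have b2 := hMq I X Y hR T (fan I) z hT (hFa I hG h3).1
      (fun x y => by rw [hbd, (hFa I hG h3).2.1]) hgz
    have b3 := (hFa I hG h3).2.2 X Y z hR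
    omega
  have r1 := meet s c d hs hf o1 o2
  have r2 := meet s' d c hs' hf' o1' o2'
  rw [← r1] at hf
  rw [← r2] at hf'
  exact INs.nboth I X Y hR t (hT t ht) c d hf hf'

end Pool.Agent.Work.MP_c6c039_lc.CL
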