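import Pool.Agent.Work.MP_c6c039_lc.CL.StmtsS

/-!
# Block CL, item Nx: the next label
-/

set_option autoImplicit false

namespace Pool.Agent.Work.MP_c6c039_lc.CL

open Pool.Agent.Work.MP_c6c039_lc.FP Pool.Agent.Work.MP_c6c039_lc.NC

namespace INx

theorem hdf (n : ℕ) (P : ℕ → Bool) :
    (((List.range n).filter P).headD n = n ∧ ∀ q, q < n → P q = false) ∨
      (((List.range n).filter P).headD n < n ∧ P (((List.range n).filter P).headD n) = true ∧
        ∀ q, q < n → P q = true → ((List.range n).filter P).headD n ≤ q) := by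
  have hp : ((List.range n).filter P).Pairwise (· < ·) := List.pairwise_lt_range.filter P
  have hm : ∀ x, x ∈ (List.range n).filter P ↔ x < n ∧ P x = true := by
    intro x
    rw [List.mem_filter, List.mem_range]
  revert hp hm
  cases (List.range n).filter P with
  | nil =>
    intro hp hm
    left
    refine ⟨rfl, fun q hq => ?_⟩
    by_contra h
    have : q ∈ ([] : List ℕ) := (hm q).2 ⟨hq, by simpa using h⟩
    simp at this
  | cons a l =>
    intro hp hm
    right
    have ha := (hm a).1 (by simp)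
    refine ⟨ha.1, ha.2, fun q hq hPq => ?_⟩
    have h1 := (hm q).2 ⟨hq, hPq⟩
    rw [List.mem_cons] at h1
    rcases h1 with rfl | h1
    · exact le_refl _
    · exact le_of_lt ((List.pairwise_cons.1 hp).1 q h1)

theorem char (I : In) (S : Rt) (p : ℕ) :
    (nxt I S p = nn I + 1 ∧ ∀ q, q < nn I + 1 → ¬ (p < q ∧ q ∈ lb S)) ∨
      (nxt I S p < nn I + 1 ∧ (p < nxt I S p ∧ nxt I S p ∈ lb S) ∧
        ∀ q, q < nn I + 1 → (p < q ∧ q ∈ lb S) → nxt I S p ≤ q) := by
  have h := hdf (nn I + 1) (fun q => decide (p < q) && decide (q ∈ lb S))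
  unfold nxt
  rcases h with ⟨h1, h2⟩ | ⟨h1, h2, h3⟩
  · left
    refine ⟨h1, fun q hq hc => ?_⟩
    have := h2 q hq
    simp only [hc.1, hc.2, decide_true, Bool.and_self] at this
    exact absurd this (by decide)
  · right
    refine ⟨h1, ?_, fun q hq hc => h3 q hq (by simp only [hc.1, hc.2, decide_true, Bool.and_self])⟩
    rw [Bool.and_eq_true, decide_eq_true_iff, decide_eq_true_iff] at h2
    exact h2

end INx

open INx in
theorem pr_Nx : St_Nx := by
  intro I S
  have hle : ∀ (S : Rt) (p q : ℕ), q ∈ lb S → q ≤ nn I → p < q → nxt I S p ≤ q := by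
    intro S p q hq hn hpq
    rcases char I S p with ⟨h1, h2⟩ | ⟨h1, h2, h3⟩
    · exact absurd ⟨hpq, hq⟩ (h2 q (by omega))
    · exact h3 q (by omega) ⟨hpq, hq⟩
  have hor : ∀ (S : Rt) (p : ℕ), nxt I S p = nn I + 1 ∨ nxt I S p ∈ lb S := by
    intro S p
    rcases char I S p with ⟨h1, h2⟩ | ⟨h1, h2, h3⟩
    · exact Or.inl h1
    · exact Or.inr h2.2
  have hlt : ∀ (S : Rt) (p : ℕ), p ≤ nn I → p < nxt I S p := by
    intro S p hp
    rcases char I S p with ⟨h1, h2⟩ | ⟨h1, h2, h3⟩
    · omega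
    · exact h2.1
  have hmx : ∀ (S : Rt) (p : ℕ), nxt I S p ≤ nn I + 1 := by
    intro S p
    rcases char I S p with ⟨h1, h2⟩ | ⟨h1, h2, h3⟩ <;> omega
  have hun : ∀ i p p', i ≤ nn I → p ∈ mk S → p' ∈ mk S → p ≤ i → i < nxt I S p → p' ≤ i →
      i < nxt I S p' → ¬ p < p' := by
    intro i p p' hi hp hp' h1 h2 h3 h4 hlt
    have h5 : p' ∈ lb S := by
      unfold mk at hp'
      rw [List.mem_cons] at hp'
      rcases hp' with h | h
      · omega
      · exact h
    have := hle S p p' h5 (by omega) hlt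
    omega
  refine ⟨fun p hp => ⟨hlt S p hp, hmx S p⟩, hor S, hle S, ?_, ?_, ?_⟩
  · intro S' p hS
    rcases char I S p with ⟨h1, h2⟩ | ⟨h1, h2, h3⟩
    · rw [h1]
      exact hmx S' p
    · exact hle S' p _ (hS _ h2.2) (by omega) h2.1
  · intro i hi
    have h0 : (fun p => p ∈ mk S) 0 := by
      unfold mk
      simp
    refine ⟨Nat.findGreatest (fun p => p ∈ mk S) i,
      Nat.findGreatest_spec (P := fun p => p ∈ mk S) (Nat.zero_le i) h0,
      Nat.findGreatest_le i, ?_⟩
    by_contra hc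
    push Not at hc
    have h1 := hlt S (Nat.findGreatest (fun p => p ∈ mk S) i)
      ((Nat.findGreatest_le i).trans hi)
    have h2 : nxt I S (Nat.findGreatest (fun p => p ∈ mk S) i) ∈ lb S := by
      rcases hor S (Nat.findGreatest (fun p => p ∈ mk S) i) with h | h
      · omega
      · exact h
    refine Nat.findGreatest_is_greatest (P := fun p => p ∈ mk S) h1 hc ?_
    unfold mk
    exact List.mem_cons_of_mem _ h2
  · intro i p p' hi hp hp' h1 h2 h3 h4
    have e1 := hun i p p' hi hp hp' h1 h2 h3 h4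
    have e2 := hun i p' p hi hp' hp h3 h4 h1 h2
    omega

end Pool.Agent.Work.MP_c6c039_lc.CL
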