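import Pool.Agent.Work.MP_c6c039_lc.CL.StmtsW

/-! # Item P1 of block CL: the weights along the routes of the other two vertices -/

set_option autoImplicit false

namespace Pool.Agent.Work.MP_c6c039_lc.CL

open Pool.Agent.Work.MP_c6c039_lc.FP Pool.Agent.Work.MP_c6c039_lc.NC

namespace IP1

/-- the weight `0` along the route of the third vertex -/
theorem aux (hSr : St_Sr) (hRt : St_Rt) (hNj : St_Nj) (hPg : St_Pg)
    (I : In) (E : ℕ → ℕ → Prop) (par ly : ℕ → ℕ) (k : ℕ) (hC : Cx I E par ly k)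
    (p q z : ℕ) (hp : p < nn I) (hq : q < nn I) (hz : z < nn I) (w : ℕ → ℕ → ℤ) (hw : RI I E w)
    (hb : ∀ x y, w x y - w y x = kp I (rl I par k p) (rl I par k q) x y)
    (a : ℕ) (ha : ∃ c, Tr I E z a c) (hza : w z a = 0)
    (y : ℕ) (hy : y ∈ rl I par k z) (hyp : y ∉ rl I par k p) (hyq : y ∉ rl I par k q) :
    SS I E w y 0 := by
  have hI : Rl I := hC.good.real
  have hzp : z ∉ rl I par k p := by
    intro h
    obtain ⟨-, -, -, -, -, -, -, -, h9, -⟩ := hRt I E par ly k hC p hp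
    exact hyp (h9 z h y hy)
  have hzq : z ∉ rl I par k q := by
    intro h
    obtain ⟨-, -, -, -, -, -, -, -, h9, -⟩ := hRt I E par ly k hC q hq
    exact hyq (h9 z h y hy)
  have hSS : SS I E w z 0 :=
    hSr I hI E hC.mx w hw z
      (fun x h1 h2 => hNj I E par ly k hC p q hp hq w hw hb z hz hzp hzq x h1 h2) 0
      ⟨a, Or.inl ⟨ha, hza⟩⟩
  exact hPg I E par ly k hC p q hp hq w hw hb z 0 hz hzp hzq hSS y hy hyp hyq

end IP1

/-- P1. -/
theorem pr_P1 (hUq : St_Uq) (hSr : St_Sr) (hRt : St_Rt) (hNj : St_Nj) (hPg : St_Pg) :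
    St_P1 := by
  intro I E par ly k hC u v c hT
  have hI : Rl I := hC.good.real
  obtain ⟨hrot, -⟩ := hUq I hI E hC.mx
  have hu : u < nn I := (hC.mx.lt u v hT.e1).1
  have hv : v < nn I := (hC.mx.lt u v hT.e1).2.1
  have hc : c < nn I := (hC.mx.lt v c hT.e2).2.1
  have hT1 : Tr I E v c u := hrot _ _ _ hT
  refine ⟨?_, ?_⟩
  · intro wA hw hb hcu y hy hyu hyc
    have h0 : wA v c = 0 := by
      rw [hw.rot v c u hT1]
      exact hcu
    exact IP1.aux hSr hRt hNj hPg I E par ly k hC u c v hu hc hv wA hw hb c ⟨u, hT1⟩ h0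
      y hy hyu hyc
  · intro wB hw hb hvc y hy hyc hyv
    have h0 : wB u v = 0 := by
      rw [hw.rot u v c hT]
      exact hvc
    exact IP1.aux hSr hRt hNj hPg I E par ly k hC c v u hc hv hu wB hw hb v ⟨c, hT⟩ h0
      y hy hyc hyv

end Pool.Agent.Work.MP_c6c039_lc.CL
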