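import Pool.Agent.Work.MP_c6c039_lc.CL.StmtsM

/-!
# Item Pe of block CL: layers give neighbours in lower layers
-/

set_option autoImplicit false

namespace Pool.Agent.Work.MP_c6c039_lc.CL

open Pool.Agent.PT Pool.Agent.Work.MP_c6c039_lc.FP N487b59b3

namespace IPe

theorem peel_sub (S : Finset (ℝ × ℝ)) : peel S ⊆ S := by
  classical
  unfold peel
  exact Finset.filter_subset _ _

theorem iter_sub (S : Finset (ℝ × ℝ)) : ∀ i j : ℕ, i ≤ j → peel^[j] S ⊆ peel^[i] S := by
  intro i j hij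
  induction hij with
  | refl => exact Finset.Subset.refl _
  | step _ ih =>
    rw [Function.iterate_succ_apply']
    exact (peel_sub _).trans ih

/-- With positive weights: a weighted mean of `A`, `B`, `C` that are at most `V`. -/
theorem mean_pos (w1 w2 w3 A B C V : ℝ) (h1 : 0 < w1) (h2 : 0 < w2) (h3 : 0 < w3)
    (h : w1 * A + w2 * B + w3 * C = (w1 + w2 + w3) * V) (hA : A ≤ V) (hB : B ≤ V) (hC : C ≤ V) :
    A = V ∧ B = V ∧ C = V := by
  have e : w1 * (V - A) + w2 * (V - B) + w3 * (V - C) = 0 := by linarith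
  have g1 : 0 ≤ w1 * (V - A) := mul_nonneg h1.le (by linarith)
  have g2 : 0 ≤ w2 * (V - B) := mul_nonneg h2.le (by linarith)
  have g3 : 0 ≤ w3 * (V - C) := mul_nonneg h3.le (by linarith)
  have k1 : w1 * (V - A) = 0 := by linarith
  have k2 : w2 * (V - B) = 0 := by linarith
  have k3 : w3 * (V - C) = 0 := by linarith
  refine ⟨?_, ?_, ?_⟩
  · rcases mul_eq_zero.1 k1 with h | h
    · linarith
    · linarith
  · rcases mul_eq_zero.1 k2 with h | h
    · linarith
    · linarith
  · rcases mul_eq_zero.1 k3 with h | h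
    · linarith
    · linarith

/-- Weights of one sign. -/
theorem mean (w1 w2 w3 A B C V : ℝ) (h1 : w1 ≠ 0)
    (h12 : 0 < w1 ↔ 0 < w2) (h23 : 0 < w2 ↔ 0 < w3) (h2 : w2 ≠ 0) (h3 : w3 ≠ 0)
    (h : w1 * A + w2 * B + w3 * C = (w1 + w2 + w3) * V) (hA : A ≤ V) (hB : B ≤ V) (hC : C ≤ V) :
    A = V ∧ B = V ∧ C = V := by
  rcases lt_or_gt_of_ne h1 with g | g
  · have g2 : w2 < 0 := by
      rcases lt_or_gt_of_ne h2 with g' | g'
      · exact g'
      · linarith [h12.2 g']
    have g3 : w3 < 0 := by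
      rcases lt_or_gt_of_ne h3 with g' | g'
      · exact g'
      · linarith [h23.2 g']
    exact mean_pos (-w1) (-w2) (-w3) A B C V (by linarith) (by linarith) (by linarith)
      (by linarith) hA hB hC
  · exact mean_pos w1 w2 w3 A B C V g (h12.1 g) (h23.1 (h12.1 g)) h hA hB hC

/-- One of the corners of a triangle around `v` is above `v`. -/
theorem corner {F : In} {X Y : ℕ → ℝ} (hR : RL F X Y) (p q : ℝ) (hpq : p ≠ 0 ∨ q ≠ 0)
    (a b c v : ℕ) (hd : Ds F [a, b, c, v]) (hT : inT F a b c v = true) :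
    ∃ x, x < nn F ∧ p * X v + q * Y v < p * X x + q * Y x := by
  obtain ⟨h1, h2⟩ := hR
  obtain ⟨hn, hl⟩ := hd
  simp only [List.nodup_cons, List.mem_cons, List.not_mem_nil, or_false, not_or,
    List.nodup_nil, and_true, not_false_eq_true] at hn
  obtain ⟨⟨k1, k2, k3⟩, ⟨k4, k5⟩, k6⟩ := hn
  have la : a < nn F := hl a (by simp)
  have lb : b < nn F := hl b (by simp)
  have lc : c < nn F := hl c (by simp)
  have lv : v < nn F := hl v (by simp)
  unfold inT at hT
  rw [Bool.and_eq_true, beq_iff_eq, beq_iff_eq] at hT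
  obtain ⟨t1, t2⟩ := hT
  rw [Bool.eq_iff_iff, h1 a b v la lb lv, h1 b c v lb lc lv] at t1
  rw [Bool.eq_iff_iff, h1 b c v lb lc lv, h1 c a v lc la lv] at t2
  have n1 : ar X Y b c v ≠ 0 := h2 b c v lb lc lv k4 k6 k5
  have n2 : ar X Y c a v ≠ 0 := h2 c a v lc la lv (Ne.symm k2) k3 k6
  have n3 : ar X Y a b v ≠ 0 := h2 a b v la lb lv k1 k5 k3
  have n4 : ar X Y a b c ≠ 0 := h2 a b c la lb lc k1 k4 k2
  by_contra hno
  push Not at hno
  have hA := hno a la
  have hB := hno b lb
  have hC := hno c lc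
  obtain ⟨e1, e2, e3⟩ := mean (ar X Y b c v) (ar X Y c a v) (ar X Y a b v)
    (p * X a + q * Y a) (p * X b + q * Y b) (p * X c + q * Y c) (p * X v + q * Y v)
    n1 t2 (t2.symm.trans t1.symm) n2 n3 (by unfold ar; ring) hA hB hC
  have d1 : p * (X b - X a) + q * (Y b - Y a) = 0 := by linarith
  have d2 : p * (X c - X a) + q * (Y c - Y a) = 0 := by linarith
  apply n4
  unfold ar
  rcases hpq with hp | hq
  · have : p * ((X b - X a) * (Y c - Y a) - (Y b - Y a) * (X c - X a)) = 0 := by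
      linear_combination (Y c - Y a) * d1 - (Y b - Y a) * d2
    rcases mul_eq_zero.1 this with h | h
    · exact absurd h hp
    · exact h
  · have : q * ((X b - X a) * (Y c - Y a) - (Y b - Y a) * (X c - X a)) = 0 := by
      linear_combination (X b - X a) * d2 - (X c - X a) * d1
    rcases mul_eq_zero.1 this with h | h
    · exact absurd h hq
    · exact h

end IPe

/-- **Pe**: layers give neighbours in lower layers. -/
theorem pr_Pe (hXt : FP.St_Xt) (hCT : FP.St_CT) (hPI : FP.St_PI) (hVi : St_Vi) (hKp : St_Kp)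
    (hSu : St_Su) : St_Pe := by
  classical
  intro I hI k hk
  obtain ⟨h1, h2, -⟩ := hCT I
  obtain ⟨-, -, hall, -, -, h3⟩ := hPI I hI
  have hRL : RL (full (bitEncode I)) (fun i => (pnt I i).1) (fun i => (pnt I i).2) := by
    refine ⟨?_, ?_⟩
    · intro a b c ha hb hc
      rw [h1] at ha hb hc
      exact h2 a b c ha hb hc
    · intro a b c ha hb hc hab hbc hac
      rw [h1] at ha hb hc
      exact h3 a b c ha hb hc hab hbc hac
  have hRl : Rl (full (bitEncode I)) := ⟨_, _, hRL⟩
  set F := full (bitEncode I) with hF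
  have h0 : ∀ v, v < nn F → pnt I v ∈ peel^[0] (allPts I) := by
    intro v hv
    rw [h1] at hv
    exact (hall (pnt I v)).2 ⟨v, hv, rfl⟩
  have hle : ∀ v, Nat.findGreatest (fun i => pnt I v ∈ peel^[i] (allPts I)) k ≤ k := fun v =>
    Nat.findGreatest_le k
  have hsp : ∀ v, v < nn F →
      pnt I v ∈ peel^[Nat.findGreatest (fun i => pnt I v ∈ peel^[i] (allPts I)) k] (allPts I) := by
    intro v hv
    exact Nat.findGreatest_spec (P := fun i => pnt I v ∈ peel^[i] (allPts I)) (Nat.zero_le k)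
      (h0 v hv)
  have hlt : ∀ v, v < nn F →
      Nat.findGreatest (fun i => pnt I v ∈ peel^[i] (allPts I)) k < k := by
    intro v hv
    rcases lt_or_eq_of_le (hle v) with h | h
    · exact h
    · have := hsp v hv
      rw [h] at this
      unfold Lyr at hk
      rw [hk] at this
      exact absurd this (Finset.notMem_empty _)
  refine ⟨fun v => Nat.findGreatest (fun i => pnt I v ∈ peel^[i] (allPts I)) k, hlt, ?_⟩
  intro E hE v hv hext
  set i := Nat.findGreatest (fun i => pnt I v ∈ peel^[i] (allPts I)) k with hi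
  have hvi : pnt I v ∈ peel^[i] (allPts I) := hsp v hv
  have hvi' : pnt I v ∉ peel^[i + 1] (allPts I) :=
    Nat.findGreatest_is_greatest (P := fun i => pnt I v ∈ peel^[i] (allPts I))
      (Nat.lt_succ_self _) (hlt v hv)
  have hconv : pnt I v ∉ convexHull ℝ ((↑(peel^[i] (allPts I)) : Set (ℝ × ℝ)) \ {pnt I v}) := by
    intro h
    apply hvi'
    rw [Function.iterate_succ_apply']
    unfold peel
    rw [Finset.mem_filter]
    exact ⟨hvi, h⟩
  obtain ⟨p, q, hpq, hf⟩ := hSu _ _ hvi hconv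
  -- a triangle around `v`
  have hex : ∃ a b c, Ds F [a, b, c, v] ∧ inT F a b c v = true := by
    by_contra hno
    push Not at hno
    have : ext F v = true := (hXt F v hv).2 (fun a b c hd => by
      have := hno a b c hd
      simpa using this)
    rw [this] at hext
    exact absurd hext (by decide)
  obtain ⟨a, b, c, hd, hT⟩ := hex
  obtain ⟨y0, hy0, hfy0⟩ := IPe.corner hRL p q hpq a b c v hd hT
  obtain ⟨kp1, kp2⟩ := hKp F _ _ hRL p q v hv
  obtain ⟨y, ⟨hyn, hfy⟩, hEy⟩ := hVi F hRl E hE v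
    (fun x => x < nn F ∧ p * (pnt I v).1 + q * (pnt I v).2 < p * (pnt I x).1 + q * (pnt I x).2)
    hv
    (by
      rintro y ⟨hy1, hy2⟩
      refine ⟨hy1, ?_⟩
      rintro rfl
      exact lt_irrefl _ hy2)
    (by
      rintro y z x ⟨_, hy2⟩ ⟨_, hz2⟩ hd' hT'
      exact ⟨hd'.2 x (by simp), kp1 y z x hd' hT' hy2 hz2⟩)
    (by
      rintro y a b ⟨_, hy2⟩ hab hd' hc'
      rcases kp2 y a b hd' hc' hy2 with h | h
      · exact Or.inl ⟨hd'.2 a (by simp), h⟩
      · exact Or.inr ⟨hd'.2 b (by simp), h⟩)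
    ⟨y0, hy0, hfy0⟩
  refine ⟨y, hEy, ?_⟩
  have hyi : pnt I y ∉ peel^[i] (allPts I) := by
    intro h
    have hne : pnt I y ≠ pnt I v := by
      intro h'
      rw [h'] at hfy
      exact lt_irrefl _ hfy
    have := hf _ h hne
    linarith
  by_contra hge
  rw [not_lt] at hge
  exact hyi (IPe.iter_sub (allPts I) i _ hge (hsp y hyn))

end Pool.Agent.Work.MP_c6c039_lc.CL
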