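import Pool.Agent.Work.MP_c6c039_lc.CL.StmtsW

/-! # Item Q1 of block CL: above the common part of the routes -/

set_option autoImplicit false

namespace Pool.Agent.Work.MP_c6c039_lc.CL

open Pool.Agent.Work.MP_c6c039_lc.FP Pool.Agent.Work.MP_c6c039_lc.NC

namespace IQ1

/-- in a list without repetitions the step to a point is unique -/
theorem ed_inj : ∀ (l : List ℕ), l.Nodup → ∀ b y z : ℕ, (b, z) ∈ ed l → (y, z) ∈ ed l → b = y
  | [], _, b, y, z, h1, _ => by simp [ed] at h1
  | [a], _, b, y, z, h1, _ => by simp [ed] at h1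
  | a :: c :: l, hn, b, y, z, h1, h2 => by
    have he : ed (a :: c :: l) = (a, c) :: ed (c :: l) := rfl
    have hn' := List.nodup_cons.1 hn
    have hcl : c ∉ l := (List.nodup_cons.1 hn'.2).1
    rw [he, List.mem_cons] at h1 h2
    rcases h1 with h1 | h1
    · have e1 : b = a := congrArg Prod.fst h1
      have e2 : z = c := congrArg Prod.snd h1
      rcases h2 with h2 | h2
      · have e3 : y = a := congrArg Prod.fst h2
        rw [e1, e3]
      · exfalso
        have h3 : z ∈ l := (List.of_mem_zip (show (y, z) ∈ (c :: l).zip l from h2)).2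
        rw [e2] at h3
        exact hcl h3
    · rcases h2 with h2 | h2
      · exfalso
        have e2 : z = c := congrArg Prod.snd h2
        have h3 : z ∈ l := (List.of_mem_zip (show (b, z) ∈ (c :: l).zip l from h1)).2
        rw [e2] at h3
        exact hcl h3
      · exact ed_inj (c :: l) hn'.2 b y z h1 h2

end IQ1

/-- Q1. -/
theorem pr_Q1 (hHC : FP.St_HC) (hLx : St_Lx) (hHx : St_Hx) (hSr : St_Sr) (hFo : St_Fo)
    (hKv : St_Kv) : St_Q1 := by
  intro I E par ly k hC u v huv w hw hb
  have hI : Rl I := hC.good.real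
  have hn3 := hC.n3
  have hHI : HC I := hHC I hC.good (by omega)
  obtain ⟨hu, hv, huv'⟩ := hC.mx.lt u v huv
  obtain ⟨hfo0, hfo⟩ := hFo I E par ly k hC
  obtain ⟨-, hnu, hru, -, -, hsu, heu, -, -⟩ := hfo u hu
  obtain ⟨-, hnv, hrv, -, -, hsv, hev, -, -⟩ := hfo v hv
  -- induction on the rank of `pf y`
  have key : ∀ N y, rn I ly (pf I par y) = N → y ∈ fo I par k u → y ∈ fo I par k v →
      y ≠ hp I 0 → SS I E w (pf I par y) 0 := by
    intro N
    induction N using Nat.strong_induction_on with
    | _ N ih =>
      intro y hN hyu hyv hyh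
      obtain ⟨hyn, hyru⟩ := hru y hyu
      obtain ⟨-, hyrv⟩ := hrv y hyv
      obtain ⟨hstep, -, -, hyy, -, -, -, -, -⟩ := hfo y hyn
      obtain ⟨hfy, hEy, hzn, hrz⟩ := hstep hyh
      have hzz : pf I par y ∈ fo I par k (pf I par y) := (hfo _ hzn).2.2.2.1
      have hzy : pf I par y ∈ fo I par k y := by
        rw [hfy]; exact List.mem_cons_of_mem _ hzz
      have hzu : pf I par y ∈ fo I par k u := hsu y hyu _ hzy
      have hzv : pf I par y ∈ fo I par k v := hsv y hyv _ hzy
      have hz_u : u ≠ pf I par y := by
        intro h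
        rw [← h] at hrz
        omega
      have hz_v : v ≠ pf I par y := by
        intro h
        rw [← h] at hrz
        omega
      -- no jump at `z`
      have hκ : ∀ b, w (pf I par y) b = w b (pf I par y) := by
        intro b
        have h1 := hb (pf I par y) b
        rw [(hKv I E par ly k hC).1 u v hu hv] at h1
        have h2 : dl u v (pf I par y) b = 0 := by
          unfold dl
          rw [if_neg (fun h => hz_u h.1), if_neg (fun h => hz_v h.2)]
          rfl
        have h3 : (b ∈ fo I par k v ∧ b ≠ hp I 0 ∧ pf I par y = pf I par b) ↔ b = y := by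
          constructor
          · intro h
            exact IQ1.ed_inj _ hnv b y (pf I par y) ((hev b (pf I par y)).2 h)
              ((hev y (pf I par y)).2 ⟨hyv, hyh, rfl⟩)
          · rintro rfl
            exact ⟨hyv, hyh, rfl⟩
        have h4 : (b ∈ fo I par k u ∧ b ≠ hp I 0 ∧ pf I par y = pf I par b) ↔ b = y := by
          constructor
          · intro h
            exact IQ1.ed_inj _ hnu b y (pf I par y) ((heu b (pf I par y)).2 h)
              ((heu y (pf I par y)).2 ⟨hyu, hyh, rfl⟩)
          · rintro rfl
            exact ⟨hyu, hyh, rfl⟩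
        have h5 : tc I par k v (pf I par y) b = tc I par k u (pf I par y) b := by
          unfold tc
          simp only [h3, h4, hzu, hzv, true_and]
        rw [h2, h5] at h1
        linarith
      by_cases hzh : pf I par y = hp I 0
      · -- the last point of the routes
        obtain ⟨-, hT, hT'⟩ := hHx I hC.good hn3 E hC.mx (mm I - 1)
        have hper : hp I (mm I - 1 + 1) = hp I 0 := by
          have h1 := hHI.per 0
          have h2 := hHI.pos
          rw [show mm I - 1 + 1 = 0 + mm I by omega]
          exact h1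
        rw [hper] at hT hT'
        have h1 : w (hp I 0) (hp I (mm I - 1)) = 0 := hw.out _ _ hT'
        have h2 := hκ (hp I (mm I - 1))
        rw [hzh] at h2 ⊢
        refine hSr I hI E hC.mx w hw (hp I 0) (fun x _ _ => ?_) 0
          ⟨hp I (mm I - 1), Or.inr ⟨hT, by rw [← h2, h1]⟩⟩
        have h3 := hκ x
        rw [hzh] at h3
        exact h3
      · obtain ⟨hstz, -⟩ := hfo _ hzn
        obtain ⟨-, hEz, hzzn, hrzz⟩ := hstz hzh
        have hSS := ih (rn I ly (pf I par (pf I par y))) (by rw [← hN]; exact hrzz)
          (pf I par y) rfl hzu hzv hzh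
        refine hSr I hI E hC.mx w hw (pf I par y) (fun x _ _ => hκ x) 0
          ⟨pf I par (pf I par y), ?_⟩
        rcases (hLx I hI E hC.mx _ _ hEz).2 hn3 with hT | hT
        · left
          exact ⟨hT, hSS.2 _ hT⟩
        · right
          exact ⟨hT, hSS.1 _ hT⟩
  intro y hyu hyv hyh
  exact key _ y rfl hyu hyv hyh

end Pool.Agent.Work.MP_c6c039_lc.CL
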