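import Pool.Agent.Work.MP_c6c039_lc.CL.StmtsW

/-! # Item R1 of block CL: the route of the apex -/

set_option autoImplicit false

namespace Pool.Agent.Work.MP_c6c039_lc.CL

open Pool.Agent.Work.MP_c6c039_lc.FP Pool.Agent.Work.MP_c6c039_lc.NC

/-- R1. -/
theorem pr_R1 (hUq : St_Uq) (hSr : St_Sr) (hRt : St_Rt) (hNj : St_Nj) (hPg : St_Pg) :
    St_R1 := by
  intro I E par ly k hC u v c hT w hw hb huv y hy hyu hyv
  have hI : Rl I := hC.good.real
  obtain ⟨hrot, -⟩ := hUq I hI E hC.mx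
  have hu : u < nn I := (hC.mx.lt u v hT.e1).1
  have hv : v < nn I := (hC.mx.lt u v hT.e1).2.1
  have hc : c < nn I := (hC.mx.lt v c hT.e2).2.1
  have hT2 : Tr I E c u v := hrot _ _ _ (hrot _ _ _ hT)
  have hcu : c ∉ rl I par k u := by
    intro h
    obtain ⟨-, -, -, -, -, -, -, -, h9, -⟩ := hRt I E par ly k hC u hu
    exact hyu (h9 c h y hy)
  have hcv : c ∉ rl I par k v := by
    intro h
    obtain ⟨-, -, -, -, -, -, -, -, h9, -⟩ := hRt I E par ly k hC v hv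
    exact hyv (h9 c h y hy)
  have hwc : w c u = 1 := by
    rw [hw.rot c u v hT2]
    exact huv
  have hSS : SS I E w c 1 :=
    hSr I hI E hC.mx w hw c
      (fun x h1 h2 => hNj I E par ly k hC u v hu hv w hw hb c hc hcu hcv x h1 h2) 1
      ⟨u, Or.inl ⟨⟨v, hT2⟩, hwc⟩⟩
  exact hPg I E par ly k hC u v hu hv w hw hb c 1 hc hcu hcv hSS y hy hyu hyv

end Pool.Agent.Work.MP_c6c039_lc.CL
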