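import Pool.Agent.Work.MP_c6c039_lc.CL.StmtsL

/-!
# Block CL, item Rf: the last step (helper59)
-/

set_option autoImplicit false

namespace Pool.Agent.Work.MP_c6c039_lc.CL

open Pool.Agent.Work.MP_c6c039_lc.FP Pool.Agent.Work.MP_c6c039_lc.NC

namespace IRf

/-- the weight of a triangle is one -/
theorem w1_one (I : In) (E : ℕ → ℕ → Prop) (x y : ℕ) (c : ℕ) (h : Tr I E x y c) :
    w1 I E x y = 1 := by
  unfold w1
  rw [if_pos ⟨c, h⟩]

theorem w1_01 (I : In) (E : ℕ → ℕ → Prop) (x y : ℕ) : w1 I E x y = 0 ∨ w1 I E x y = 1 := by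
  unfold w1
  by_cases h : ∃ c, Tr I E x y c
  · right
    rw [if_pos h]
  · left
    rw [if_neg h]

end IRf

theorem pr_Rf (_hSy : FP.St_Sy) (hHC : FP.St_HC) (hNx : St_Nx) (hHx : St_Hx) (hRt : St_Rt)
    (hRz : St_Rz) (hLa : St_La) (hLb : St_Lb) (hGp : St_Gp) (hCt : St_Ct) : St_Rf := by
  intro I E par ly k l P
  have hC := P.cx
  have hg := hC.good
  have h3 := hC.n3
  have HCI : HC I := hHC I hg (by omega)
  obtain ⟨hN1, hN2, hN3, hN4, hN5, hN6⟩ := hNx I (sg I par k l (hp I (mm I - 1)) (hp I 0))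
  have hmm : mm I - 1 + 1 = 0 + mm I := by
    have := HCI.pos
    omega
  have hE : E (hp I (mm I - 1)) (hp I 0) := by
    have h := (hHx I hg h3 E hC.mx (mm I - 1)).1
    rw [hmm, HCI.per 0] at h
    exact h
  obtain ⟨hri, hbd⟩ := hRz I E par ly k hC
  have hRG : RG I E par k (w1 I E) (hp I (mm I - 1)) (hp I 0) :=
    { e := hE
      ri := hri
      v01 := fun x y => IRf.w1_01 I E x y
      bdy := hbd }
  have hF := hCt I E par ly k l P (w1 I E) (hp I (mm I - 1)) (hp I 0) hRG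
  obtain ⟨hLa1, hLa2, hLa3⟩ := hLa I E par ly k l P
  obtain ⟨hLb1, hLb2, hLb3, hLb4⟩ := hLb I E par ly k l P
  have hr1 : rl I par k (hp I (mm I - 1)) = [hp I (mm I - 1)] :=
    (hRt I E par ly k hC _ (HCI.lt _)).1 (HCI.ex _)
  have hr0 : rl I par k (hp I 0) = [hp I 0] :=
    (hRt I E par ly k hC _ (HCI.lt _)).1 (HCI.ex _)
  have hsg : sg I par k l (hp I (mm I - 1)) (hp I 0) = lr l [hp I (mm I - 1), hp I 0] := by
    unfold sg
    rw [hr1, hr0, ← hLb2]
    rfl
  obtain ⟨_, hB2, _⟩ := hLb3 [hp I (mm I - 1), hp I 0] (by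
    intro v hv
    simp only [List.mem_cons, List.not_mem_nil, or_false] at hv
    rcases hv with rfl | rfl
    · exact HCI.lt _
    · exact HCI.lt _)
  rw [← hsg] at hB2
  unfold lay
  rw [if_neg (by omega)]
  rw [List.any_eq_true]
  refine ⟨_, hF, ?_⟩
  -- the final fact
  have hbg : bg (tf I E par k l (w1 I E) (hp I (mm I - 1)) (hp I 0))
      = sg I par k l (hp I (mm I - 1)) (hp I 0) := rfl
  have h1 : (tf I E par k l (w1 I E) (hp I (mm I - 1)) (hp I 0)).1
      = [(hp I (mm I - 1), la l (hp I (mm I - 1)))] := by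
    unfold tf
    simp only [hr1]
    rfl
  have h2 : (tf I E par k l (w1 I E) (hp I (mm I - 1)) (hp I 0)).2.1
      = [(hp I 0, la l (hp I 0))] := by
    unfold tf
    simp only [hr0]
    rfl
  have h4 : (tf I E par k l (w1 I E) (hp I (mm I - 1)) (hp I 0)).2.2
      = jt I E par k l (w1 I E) (hp I (mm I - 1)) (hp I 0) := rfl
  unfold fin
  rw [hbg, h1, h2, h4]
  have hh1 : hd [(hp I (mm I - 1), la l (hp I (mm I - 1)))] = hp I (mm I - 1) := rfl
  have hh2 : hd [(hp I 0, la l (hp I 0))] = hp I 0 := rfl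
  rw [hh1, hh2]
  rw [Bool.and_eq_true]
  refine ⟨by simp, ?_⟩
  rw [List.all_eq_true]
  intro p hp'
  rw [Bool.or_eq_true, decide_eq_true_eq, Bool.and_eq_true, Bool.or_eq_true, Bool.or_eq_true,
    beq_iff_eq, beq_iff_eq, beq_iff_eq]
  -- marks are at most `n`
  have hpn : p ≤ nn I ∧ (p = 0 ∨ 0 < p) := by
    unfold mk at hp'
    rcases List.mem_cons.1 hp' with h | h
    · subst h
      exact ⟨Nat.zero_le _, Or.inl rfl⟩
    · obtain ⟨ha, hb, _⟩ := (hB2 p).1 h
      exact ⟨hb, Or.inr ha⟩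
  obtain ⟨hq1, hq2⟩ := hN1 p hpn.1
  by_cases hex : ∃ i, p ≤ i ∧ i < nxt I (sg I par k l (hp I (mm I - 1)) (hp I 0)) p ∧ 0 < i ∧
      i < nn I
  · obtain ⟨i, hi1, hi2, hi3, hi4⟩ := hex
    obtain ⟨hEi, hci⟩ := hLa3 i hi3 hi4
    by_cases hc : (lv l i = hp I (mm I - 1) ∧ lv l (i + 1) = hp I 0) ∨
        (lv l i = hp I 0 ∧ lv l (i + 1) = hp I (mm I - 1))
    · right
      have hm1 : lv l i ∈ [hp I (mm I - 1), hp I 0] := by
        rcases hc with ⟨h, _⟩ | ⟨h, _⟩ <;> rw [h] <;> simp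
      have hm2 : lv l (i + 1) ∈ [hp I (mm I - 1), hp I 0] := by
        rcases hc with ⟨_, h⟩ | ⟨_, h⟩ <;> rw [h] <;> simp
      have hl1 := (hB2 i).2 ⟨hi3, by omega, hm1⟩
      have hl2 := (hB2 (i + 1)).2 ⟨by omega, by omega, hm2⟩
      have hpi : p = i := by
        rcases Nat.lt_or_ge p i with h | h
        · have := hN3 p i hl1 (by omega) h
          omega
        · omega
      have hqi := hN3 p (i + 1) hl2 (by omega) (by omega)
      refine ⟨by omega, Or.inr (Or.inr ?_)⟩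
      rw [Bool.not_eq_true', beq_eq_false_iff_ne]
      rcases hc with ⟨h, h'⟩ | ⟨h, h'⟩
      · rw [← h, ← h']
        exact hci
      · rw [← h, ← h']
        exact hci.symm
    · left
      rw [not_or] at hc
      obtain ⟨hc1, hc2⟩ := hc
      refine ((hGp I E par ly k l P (w1 I E) (hp I (mm I - 1)) (hp I 0) hRG p hp').2).2
        ⟨i, hi1, hi2, hi3, hi4, ?_⟩
      exact ⟨hEi, hc1, hc2, fun c hc => IRf.w1_one I E _ _ c hc,
        fun c hc => IRf.w1_one I E _ _ c hc⟩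
  · right
    have hno : ∀ i, p ≤ i → i < nxt I (sg I par k l (hp I (mm I - 1)) (hp I 0)) p → 0 < i →
        i < nn I → False := fun i ha hb hc hd => hex ⟨i, ha, hb, hc, hd⟩
    rcases hpn.2 with h0 | h0
    · rcases Nat.lt_or_ge 1 (nxt I (sg I par k l (hp I (mm I - 1)) (hp I 0)) p) with h | h
      · exact (hno 1 (by omega) h (by omega) (by omega)).elim
      · exact ⟨by omega, Or.inl h0⟩
    · rcases Nat.lt_or_ge p (nn I) with h | h
      · exact (hno p le_rfl hq1 h0 h).elim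
      · have : p = nn I := by omega
        exact ⟨by omega, Or.inr (Or.inl this)⟩

end Pool.Agent.Work.MP_c6c039_lc.CL
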