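import Pool.Agent.Work.MP_c6c039_lc.CL.StmtsW

/-!
# Block CL, item Rt: routes to the hull (helper37)
-/

set_option autoImplicit false

namespace Pool.Agent.Work.MP_c6c039_lc.CL

open Pool.Agent.Work.MP_c6c039_lc.FP Pool.Agent.Work.MP_c6c039_lc.NC

namespace IRt

section

variable {I : In} {E : ℕ → ℕ → Prop} {par ly : ℕ → ℕ} {k : ℕ}

theorem par_lt (h : Cx I E par ly k) {v : ℕ} (hv : v < nn I) (he : ext I v = false) :
    par v < nn I := (h.mx.lt _ _ (h.pa v hv he).1).2.1

theorem ext_of_zero (h : Cx I E par ly k) {v : ℕ} (hv : v < nn I) (h0 : ly v = 0) :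
    ext I v = true := by
  by_contra hcon
  rw [Bool.not_eq_true] at hcon
  have := (h.pa v hv hcon).2
  omega

theorem rl_ext {f v : ℕ} (he : ext I v = true) : rl I par f v = [v] := by
  cases f with
  | zero => rfl
  | succ f => rw [rl, if_pos he]

theorem rl_succ {f v : ℕ} (he : ext I v = false) :
    rl I par (f + 1) v = v :: rl I par f (par v) := by
  rw [rl, if_neg (by rw [he]; exact Bool.false_ne_true)]

theorem stab (h : Cx I E par ly k) : ∀ f f' v : ℕ, v < nn I → ly v ≤ f → ly v ≤ f' →
    rl I par f v = rl I par f' v := by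
  intro f
  induction f with
  | zero =>
    intro f' v hv h0 _
    have he := ext_of_zero h hv (by omega)
    rw [rl_ext he, rl_ext he]
  | succ f ih =>
    intro f' v hv h1 h2
    cases hev : ext I v with
    | true => rw [rl_ext hev, rl_ext hev]
    | false =>
      have h3 := (h.pa v hv hev).2
      cases f' with
      | zero => omega
      | succ f' =>
        rw [rl_succ hev, rl_succ hev]
        rw [ih f' (par v) (par_lt h hv hev) (by omega) (by omega)]

theorem rl_cons (h : Cx I E par ly k) {v : ℕ} (hv : v < nn I) (he : ext I v = false) :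
    rl I par k v = v :: rl I par k (par v) := by
  have h1 := h.lk v hv
  have h2 := (h.pa v hv he).2
  cases k with
  | zero => omega
  | succ k =>
    rw [rl_succ he]
    rw [stab h k (k + 1) (par v) (par_lt h hv he) (by omega) (by omega)]

theorem ind (h : Cx I E par ly k) (P : ℕ → List ℕ → Prop)
    (h1 : ∀ v, v < nn I → ext I v = true → P v [v])
    (h2 : ∀ v, v < nn I → ext I v = false → par v < nn I → ly (par v) < ly v →
      P (par v) (rl I par k (par v)) → P v (v :: rl I par k (par v))) :
    ∀ v, v < nn I → P v (rl I par k v) := by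
  have key : ∀ n v, ly v ≤ n → v < nn I → P v (rl I par k v) := by
    intro n
    induction n with
    | zero =>
      intro v hn hv
      have he := ext_of_zero h hv (by omega)
      rw [rl_ext he]
      exact h1 v hv he
    | succ n ih =>
      intro v hn hv
      cases hev : ext I v with
      | true =>
        rw [rl_ext hev]
        exact h1 v hv hev
      | false =>
        rw [rl_cons h hv hev]
        have h3 := (h.pa v hv hev).2
        exact h2 v hv hev (par_lt h hv hev) h3
          (ih (par v) (by omega) (par_lt h hv hev))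
  intro v hv
  exact key (ly v) v le_rfl hv

theorem len (h : Cx I E par ly k) : ∀ v, v < nn I → (rl I par k v).length ≤ ly v + 1 := by
  refine ind h (fun v l => l.length ≤ ly v + 1) ?_ ?_
  · intro v _ _
    rw [List.length_singleton]
    omega
  · intro v _ _ _ hl ih
    rw [List.length_cons]
    omega

theorem bound (h : Cx I E par ly k) :
    ∀ v, v < nn I → ∀ a ∈ rl I par k v, a < nn I ∧ ly a ≤ ly v := by
  refine ind h (fun v l => ∀ a ∈ l, a < nn I ∧ ly a ≤ ly v) ?_ ?_
  · intro v hv _ a ha
    rw [List.mem_singleton] at ha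
    rw [ha]
    exact ⟨hv, le_rfl⟩
  · intro v hv _ _ hl ih a ha
    rw [List.mem_cons] at ha
    rcases ha with ha | ha
    · rw [ha]
      exact ⟨hv, le_rfl⟩
    · exact ⟨(ih a ha).1, (ih a ha).2.trans hl.le⟩

theorem nodup (h : Cx I E par ly k) : ∀ v, v < nn I → (rl I par k v).Nodup := by
  refine ind h (fun _ l => l.Nodup) ?_ ?_
  · intro v _ _
    exact List.nodup_singleton v
  · intro v _ _ hp hl ih
    refine List.nodup_cons.2 ⟨?_, ih⟩
    intro hmem
    have := (bound h (par v) hp v hmem).2
    omega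

theorem head (h : Cx I E par ly k) : ∀ v, v < nn I → ∃ t, rl I par k v = v :: t := by
  refine ind h (fun v l => ∃ t, l = v :: t) ?_ ?_
  · intro v _ _
    exact ⟨[], rfl⟩
  · intro v _ _ _ _ _
    exact ⟨_, rfl⟩

theorem idx (h : Cx I E par ly k) (hHl : ∀ p, p ∈ hu I ↔ p < nn I ∧ ext I p = true) :
    ∀ v, v < nn I → 0 < (rl I par k v).length ∧ ∀ i, i < (rl I par k v).length →
      ((rl I par k v).getD i 0 ∈ hu I ↔ i + 1 = (rl I par k v).length) := by
  refine ind h (fun _ l => 0 < l.length ∧ ∀ i, i < l.length →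
    (l.getD i 0 ∈ hu I ↔ i + 1 = l.length)) ?_ ?_
  · intro v hv he
    refine ⟨by simp, ?_⟩
    intro i hi
    rw [List.length_singleton] at hi ⊢
    obtain rfl : i = 0 := by omega
    rw [List.getD_cons_zero, hHl]
    exact ⟨fun _ => rfl, fun _ => ⟨hv, he⟩⟩
  · intro v hv he _ _ ih
    obtain ⟨ih0, ih⟩ := ih
    refine ⟨by simp, ?_⟩
    intro i hi
    rw [List.length_cons] at hi ⊢
    cases i with
    | zero =>
      rw [List.getD_cons_zero, hHl]
      constructor
      · intro hh
        rw [he] at hh
        exact absurd hh.2 Bool.false_ne_true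
      · intro hh
        omega
    | succ i =>
      rw [List.getD_cons_succ, ih i (by omega)]
      omega

theorem trans (h : Cx I E par ly k) :
    ∀ v, v < nn I → ∀ a ∈ rl I par k v, ∀ b ∈ rl I par k a, b ∈ rl I par k v := by
  refine ind h (fun _ l => ∀ a ∈ l, ∀ b ∈ rl I par k a, b ∈ l) ?_ ?_
  · intro v _ he a ha b hb
    rw [List.mem_singleton] at ha
    subst ha
    rwa [rl_ext he] at hb
  · intro v hv he _ _ ih a ha b hb
    rw [List.mem_cons] at ha
    rcases ha with ha | ha
    · subst ha
      rwa [rl_cons h hv he] at hb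
    · exact List.mem_cons_of_mem _ (ih a ha b hb)

theorem ed_cons (a b : ℕ) (l : List ℕ) : ed (a :: b :: l) = (a, b) :: ed (b :: l) := rfl

theorem edges (h : Cx I E par ly k) : ∀ v, v < nn I → ∀ x y, (x, y) ∈ ed (rl I par k v) ↔
    (x ∈ rl I par k v ∧ ext I x = false ∧ y = par x) := by
  refine ind h (fun _ l => ∀ x y, (x, y) ∈ ed l ↔ (x ∈ l ∧ ext I x = false ∧ y = par x)) ?_ ?_
  · intro v _ he x y
    constructor
    · intro hh
      exact absurd hh (by simp [ed])
    · rintro ⟨h1, h2, _⟩
      rw [List.mem_singleton] at h1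
      rw [h1, he] at h2
      exact absurd h2 (by simp)
  · intro v hv he hp _ ih x y
    obtain ⟨t, ht⟩ := head h (par v) hp
    rw [ht] at ih ⊢
    rw [ed_cons, List.mem_cons, List.mem_cons, ih x y, Prod.mk.injEq]
    constructor
    · rintro (⟨h1, h2⟩ | ⟨h1, h2, h3⟩)
      · subst h1
        exact ⟨Or.inl rfl, he, h2⟩
      · exact ⟨Or.inr h1, h2, h3⟩
    · rintro ⟨h1 | h1, h2, h3⟩
      · subst h1
        exact Or.inl ⟨rfl, h3⟩
      · exact Or.inr ⟨h1, h2, h3⟩

end

end IRt

theorem pr_Rt (hSy : FP.St_Sy) (hHl : FP.St_Hl) : St_Rt := by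
  intro I E par ly k h v hv
  have hC : CH I := hSy I h.good.real
  have hH := (hHl I hC h.good.hull).2.1
  refine ⟨fun he => IRt.rl_ext he, fun he => IRt.rl_cons h hv he, ?_, IRt.nodup h v hv,
    fun a ha => (IRt.bound h v hv a ha).1, ?_, ?_, (IRt.idx h hH v hv).2, IRt.trans h v hv,
    IRt.edges h v hv⟩
  · have h1 := IRt.len h v hv
    have h2 := h.lk v hv
    omega
  · obtain ⟨t, ht⟩ := IRt.head h v hv
    rw [ht]
    rfl
  · obtain ⟨t, ht⟩ := IRt.head h v hv
    rw [ht]
    exact List.mem_cons_self

end Pool.Agent.Work.MP_c6c039_lc.CL
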