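import Pool.Agent.Work.MP_c6c039_lc.CL.StmtsS

/-!
# Block CL, item Rv (unfolding of `rv`)
-/

set_option autoImplicit false

namespace Pool.Agent.Work.MP_c6c039_lc.CL

open Pool.Agent.Work.MP_c6c039_lc.FP Pool.Agent.Work.MP_c6c039_lc.NC

namespace IRv

theorem ndp_iff (l : List ℕ) : ndp l = true ↔ l.Nodup := by
  unfold ndp
  simp only [List.all_eq_true, List.mem_range, Bool.or_eq_true, beq_iff_eq, Bool.not_eq_true',
    beq_eq_false_iff_ne]
  constructor
  · intro h
    rw [List.nodup_iff_injective_get]
    intro i j hij
    have h1 := h i i.2 j j.2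
    rcases h1 with h1 | h1
    · exact Fin.ext h1
    · exfalso
      apply h1
      rw [List.getD_eq_getElem _ _ i.2, List.getD_eq_getElem _ _ j.2]
      simpa using hij
  · intro h i hi j hj
    by_cases hij : i = j
    · exact Or.inl hij
    · right
      intro heq
      rw [List.getD_eq_getElem _ _ hi, List.getD_eq_getElem _ _ hj] at heq
      exact hij ((List.Nodup.getElem_inj_iff h).1 heq)

end IRv

theorem pr_Rv : St_Rv := by
  intro I A
  have hlen : (vs A).length = A.length := by unfold vs; exact List.length_map _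
  have h0 : 0 < A.length ↔ vs A ≠ [] := by
    rw [← hlen]; exact List.length_pos_iff
  unfold rv
  rw [Bool.and_eq_true, Bool.and_eq_true, decide_eq_true_iff, h0, List.all_eq_true, hlen]
  refine and_congr Iff.rfl (and_congr ?_ ?_)
  · exact IRv.ndp_iff _
  · constructor
    · intro h i hi
      have h1 := h i (List.mem_range.2 hi)
      rw [beq_iff_eq] at h1
      rw [← decide_eq_true_iff (p := (vs A).getD i 0 ∈ hu I), h1, beq_iff_eq]
    · intro h i hi
      have h1 := h i (List.mem_range.1 hi)
      rw [beq_iff_eq, Bool.eq_iff_iff, decide_eq_true_iff, beq_iff_eq]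
      exact h1

end Pool.Agent.Work.MP_c6c039_lc.CL
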