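import Pool.Agent.Work.MP_c6c039_lc.CL.StmtsW

/-!
# Block CL, item Rz: the weight of all triangles
-/

set_option autoImplicit false

namespace Pool.Agent.Work.MP_c6c039_lc.CL

open Pool.Agent.Work.MP_c6c039_lc.FP Pool.Agent.Work.MP_c6c039_lc.NC

namespace IRz

theorem w1_pos {I : In} {E : ℕ → ℕ → Prop} {x y : ℕ} (h : ∃ c, Tr I E x y c) : w1 I E x y = 1 := by
  unfold w1
  rw [if_pos h]

theorem w1_neg {I : In} {E : ℕ → ℕ → Prop} {x y : ℕ} (h : ¬ ∃ c, Tr I E x y c) :
    w1 I E x y = 0 := by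
  unfold w1
  rw [if_neg h]

end IRz

open IRz in
theorem pr_Rz (hHC : FP.St_HC) (hKh : St_Kh) (hHb : St_Hb) (hUq : St_Uq) (hLx : St_Lx)
    (hLe : St_Le) (hHx : St_Hx) (hRt : St_Rt) : St_Rz := by
  intro I E par ly k hC
  obtain ⟨good, n3, mx, -, -⟩ := id hC
  have hc := hHC I good (by omega)
  have hl := hLe I good n3
  obtain ⟨hb1, hb2⟩ := hHb I good n3
  have hx := hHx I good n3 E mx
  constructor
  · constructor
    · intro a b c h
      rw [w1_pos ⟨c, h⟩, w1_pos ⟨a, (hUq I good.real E mx).1 a b c h⟩]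
    · intro a b h
      exact w1_neg h
  · intro x y
    rw [(hRt I E par ly k hC (hp I (mm I - 1)) (hc.lt _)).1 (hc.ex _),
      (hRt I E par ly k hC (hp I 0) (hc.lt _)).1 (hc.ex _), hKh I good hc.pos x y]
    by_cases h0 : hb I x y = 0
    · rw [h0]
      -- triangles on one side only are at edges of the hull
      have key : ∀ a b, (∃ c, Tr I E a b c) → (¬ ∃ c, Tr I E b a c) →
          ∃ j, b = hp I (j + 1) ∧ a = hp I j := by
        rintro a b ⟨c, h⟩ hn
        obtain ⟨ha, hb', hab⟩ := mx.lt a b h.e1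
        refine hl.1 b a hb' ha (Ne.symm hab) ?_
        intro z hz
        by_contra hcon
        rw [Bool.not_eq_false] at hcon
        exact hn ((hLx I good.real E mx b a (mx.sym a b h.e1)).1 z hz hcon)
      by_cases h1 : ∃ c, Tr I E x y c
      · by_cases h2 : ∃ c, Tr I E y x c
        · rw [w1_pos h1, w1_pos h2, sub_self]
        · exfalso
          obtain ⟨j, hy, hxj⟩ := key x y h1 h2
          rw [hy, hxj, (hb1 j).1] at h0
          exact one_ne_zero h0
      · by_cases h2 : ∃ c, Tr I E y x c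
        · exfalso
          obtain ⟨j, hxj, hy⟩ := key y x h2 h1
          rw [hy, hxj, (hb1 j).2] at h0
          exact absurd h0 (by norm_num)
        · rw [w1_neg h1, w1_neg h2, sub_self]
    · obtain ⟨j, -, ⟨hxj, hyj⟩ | ⟨hyj, hxj⟩⟩ := hb2 x y h0
      · rw [hxj, hyj, (hb1 j).1, w1_pos (hx j).2.1, w1_neg (hx j).2.2]
        rfl
      · rw [hxj, hyj, (hb1 j).2, w1_pos (hx j).2.1, w1_neg (hx j).2.2]
        rfl

end Pool.Agent.Work.MP_c6c039_lc.CL
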