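import Pool.Agent.Work.MP_c6c039_lc.CL.StmtsS

set_option autoImplicit false

namespace Pool.Agent.Work.MP_c6c039_lc.CL

open Pool.Agent.Work.MP_c6c039_lc.FP Pool.Agent.Work.MP_c6c039_lc.NC

theorem pr_Sb (hVt : St_Vt) (hKb : St_Kb) : St_Sb := by
  intro I hI F hF
  have h0 := hF
  unfold bas at h0
  simp only [Bool.and_eq_true] at h0
  obtain ⟨⟨h1, h2, h3⟩, h4, -⟩ := h0
  have h5 : F.2.2 = [] := List.isEmpty_iff.1 h4
  refine ⟨[], fun l => vt (bg F) l, ⟨h1, h2, h3, ?_, ?_, ?_, ?_, ?_, ?_⟩⟩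
  · intro t ht
    exact absurd ht List.not_mem_nil
  · intro x y
    rw [hKb I hI F hF x y]
    rfl
  · intro p hp
    rw [h5] at hp
    exact absurd hp List.not_mem_nil
  · intro x hx
    exact ((hVt I (bg F) h3).1 x hx).2.2.2
  · intro p hp
    rw [h5] at hp
    exact absurd hp List.not_mem_nil
  · intro t ht
    exact absurd ht List.not_mem_nil

end Pool.Agent.Work.MP_c6c039_lc.CL
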