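import Mathlib
import Pool.Agent.Work.MP_c6c039_lc.CL.StmtsS

/-!
# Block CL, item So: derivable facts hold

Author: helper57.
-/

set_option autoImplicit false

namespace Pool.Agent.Work.MP_c6c039_lc.CL

open Pool.Agent.Work.MP_c6c039_lc.FP Pool.Agent.Work.MP_c6c039_lc.NC

theorem pr_So (hSb : St_Sb) (hCb : St_Cb) : St_So := by
  intro I hI k
  have key : ∀ m : ℕ, ∀ F ∈ (stp k I)^[m] [], ∃ T g, SM I F T g := by
    intro m
    induction m with
    | zero =>
      intro F hF
      rw [Function.iterate_zero, id_eq] at hF
      exact absurd hF List.not_mem_nil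
    | succ m ih =>
      intro F hF
      rw [Function.iterate_succ_apply'] at hF
      unfold stp at hF
      have h1 := (List.mem_filter.1 hF).2
      rw [Bool.or_eq_true] at h1
      rcases h1 with h1 | h1
      · exact ih F (of_decide_eq_true h1)
      · unfold rule at h1
        rw [Bool.or_eq_true] at h1
        rcases h1 with h1 | h1
        · exact hSb I hI F h1
        · obtain ⟨G, hG, h2⟩ := List.any_eq_true.1 h1
          obtain ⟨H, hH, h3⟩ := List.any_eq_true.1 h2
          obtain ⟨T1, g1, h4⟩ := ih G hG
          obtain ⟨T2, g2, h5⟩ := ih H hH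
          exact hCb I hI F G H T1 T2 g1 g2 h3 h4 h5
  intro F hF
  exact key _ F hF

end Pool.Agent.Work.MP_c6c039_lc.CL
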