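import Pool.Agent.Work.MP_c6c039_lc.CL.StmtsW

set_option autoImplicit false

namespace Pool.Agent.Work.MP_c6c039_lc.CL

open Pool.Agent.Work.MP_c6c039_lc.FP Pool.Agent.Work.MP_c6c039_lc.NC

namespace ISp

lemma rl_head (I : In) (par : ℕ → ℕ) (f v : ℕ) : (rl I par f v).headD 0 = v := by
  cases f with
  | zero => rfl
  | succ f =>
    unfold rl
    split
    · rfl
    · rfl

lemma mem_sl (u v c x y : ℕ) : (x, y) ∈ sl (u, (v, c)) ↔
    (x = u ∧ y = v) ∨ (x = v ∧ y = c) ∨ (x = c ∧ y = u) := by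
  simp [sl]

lemma ot_one {u v c x y : ℕ} (h : (x = u ∧ y = v) ∨ (x = v ∧ y = c) ∨ (x = c ∧ y = u)) :
    ot u v c x y = 1 := by
  unfold ot
  rw [if_pos ((mem_sl u v c x y).2 h)]

lemma ot_zero {u v c x y : ℕ} (h : ¬ ((x = u ∧ y = v) ∨ (x = v ∧ y = c) ∨ (x = c ∧ y = u))) :
    ot u v c x y = 0 := by
  unfold ot
  rw [if_neg (fun h' => h ((mem_sl u v c x y).1 h'))]

lemma ot_sum {u v c : ℕ} (h1 : u ≠ v) (h2 : v ≠ c) (h3 : c ≠ u) (x y : ℕ) :
    ot u v c x y = (if u = x ∧ v = y then 1 else 0) + ((if v = x ∧ c = y then 1 else 0) +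
      (if c = x ∧ u = y then 1 else 0)) := by
  by_cases ha : x = u ∧ y = v
  · rw [ot_one (Or.inl ha), if_pos ⟨ha.1.symm, ha.2.symm⟩, if_neg (by omega),
      if_neg (by omega)]
    norm_num
  · by_cases hb : x = v ∧ y = c
    · rw [ot_one (Or.inr (Or.inl hb)), if_neg (by omega), if_pos ⟨hb.1.symm, hb.2.symm⟩,
        if_neg (by omega)]
      norm_num
    · by_cases hc : x = c ∧ y = u
      · rw [ot_one (Or.inr (Or.inr hc)), if_neg (by omega), if_neg (by omega),
          if_pos ⟨hc.1.symm, hc.2.symm⟩]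
        norm_num
      · rw [ot_zero (by tauto), if_neg (by omega), if_neg (by omega), if_neg (by omega)]
        norm_num

lemma ot_bdy {u v c : ℕ} (h1 : u ≠ v) (h2 : v ≠ c) (h3 : c ≠ u) (x y : ℕ) :
    ot u v c x y - ot u v c y x = dl u v x y + (dl v c x y + dl c u x y) := by
  rw [ot_sum h1 h2 h3 x y, ot_sum h1 h2 h3 y x]
  unfold dl
  ring

lemma ot_ri (hUq : St_Uq) {I : In} (hR : Rl I) {E : ℕ → ℕ → Prop} (hM : Mx I E) {u v c : ℕ}
    (hT : Tr I E u v c) : RI I E (ot u v c) := by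
  obtain ⟨hrot, huniq⟩ := hUq I hR E hM
  have T2 : Tr I E v c u := hrot _ _ _ hT
  have T3 : Tr I E c u v := hrot _ _ _ T2
  refine ⟨?_, ?_⟩
  · intro a b d hd
    by_cases h : (a = u ∧ b = v) ∨ (a = v ∧ b = c) ∨ (a = c ∧ b = u)
    · rw [ot_one h]
      rcases h with ⟨rfl, rfl⟩ | ⟨rfl, rfl⟩ | ⟨rfl, rfl⟩
      · have := huniq _ _ _ _ hd hT
        subst this
        exact (ot_one (Or.inr (Or.inl ⟨rfl, rfl⟩))).symm
      · have := huniq _ _ _ _ hd T2
        subst this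
        exact (ot_one (Or.inr (Or.inr ⟨rfl, rfl⟩))).symm
      · have := huniq _ _ _ _ hd T3
        subst this
        exact (ot_one (Or.inl ⟨rfl, rfl⟩)).symm
    · rw [ot_zero h]
      have hd2 : Tr I E b d a := hrot _ _ _ hd
      by_cases h' : (b = u ∧ d = v) ∨ (b = v ∧ d = c) ∨ (b = c ∧ d = u)
      · exfalso
        apply h
        rcases h' with ⟨rfl, rfl⟩ | ⟨rfl, rfl⟩ | ⟨rfl, rfl⟩
        · exact Or.inr (Or.inr ⟨huniq _ _ _ _ hd2 hT, rfl⟩)
        · exact Or.inl ⟨huniq _ _ _ _ hd2 T2, rfl⟩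
        · exact Or.inr (Or.inl ⟨huniq _ _ _ _ hd2 T3, rfl⟩)
      · rw [ot_zero h']
  · intro a b hab
    apply ot_zero
    rintro (⟨rfl, rfl⟩ | ⟨rfl, rfl⟩ | ⟨rfl, rfl⟩)
    · exact hab ⟨_, hT⟩
    · exact hab ⟨_, T2⟩
    · exact hab ⟨_, T3⟩

end ISp

open ISp in
theorem pr_Sp (hKc : St_Kc) (hUq : St_Uq) (hH1 : St_H1) (hCk : St_Ck) (hDi : St_Di) : St_Sp := by
  intro I E par ly k hC u v c hT w hw hw01 hwb hw1
  have hR : Rl I := hC.good.real
  have hM : Mx I E := hC.mx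
  obtain ⟨hrot, huniq⟩ := hUq I hR E hM
  have T2 : Tr I E v c u := hrot _ _ _ hT
  have T3 : Tr I E c u v := hrot _ _ _ T2
  have euc : E u c := hM.sym _ _ hT.e3
  have ecv : E c v := hM.sym _ _ hT.e2
  have nuv : u ≠ v := (hM.lt _ _ hT.e1).2.2
  have nvc : v ≠ c := (hM.lt _ _ hT.e2).2.2
  have ncu : c ≠ u := (hM.lt _ _ hT.e3).2.2
  obtain ⟨wA, hA, hAb⟩ := hH1 I hR E hM _ (hCk I E par ly k hC u c euc)
  have hAb' : ∀ x y, wA x y - wA y x = kp I (rl I par k u) (rl I par k c) x y := hAb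
  have hot : RI I E (ot u v c) := ot_ri hUq hR hM hT
  have hB : RI I E (fun x y => w x y - ot u v c x y - wA x y) := by
    refine ⟨?_, ?_⟩
    · intro a b d hd
      show w a b - ot u v c a b - wA a b = w b d - ot u v c b d - wA b d
      rw [hw.rot a b d hd, hot.rot a b d hd, hA.rot a b d hd]
    · intro a b hab
      show w a b - ot u v c a b - wA a b = 0
      rw [hw.out a b hab, hot.out a b hab, hA.out a b hab]
      norm_num
  have hBb : ∀ x y, (fun x y => w x y - ot u v c x y - wA x y) x y -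
      (fun x y => w x y - ot u v c x y - wA x y) y x =
      kp I (rl I par k c) (rl I par k v) x y := by
    intro x y
    show (w x y - ot u v c x y - wA x y) - (w y x - ot u v c y x - wA y x) = _
    have h1 := hwb x y
    have h2 := hAb' x y
    have h3 := ot_bdy nuv nvc ncu x y
    have h4 := hKc.1 I (rl I par k u) (rl I par k v) (rl I par k c) x y
    rw [rl_head, rl_head, rl_head] at h4
    linarith
  have hDA := hDi I E par ly k hC u c euc wA hA hAb'
  have hDB := hDi I E par ly k hC c v ecv _ hB hBb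
  have e1 : w u v = w v c := hw.rot _ _ _ hT
  have e2 : ot u v c v c = 1 := ot_one (Or.inr (Or.inl ⟨rfl, rfl⟩))
  have e3 : wA u v = wA v c := hA.rot _ _ _ hT
  have e4 : wA c u = wA u v := hA.rot _ _ _ T3
  have e5 : w v c - ot u v c v c - wA v c = - wA c u := by
    rw [← e1, e2, ← e3, ← e4, hw1]
    ring
  rcases hDA with ⟨hA0, hA01⟩ | ⟨hA1, _⟩
  · rcases hDB with ⟨hB0, hB01⟩ | ⟨hB1, _⟩
    · refine ⟨wA, fun x y => w x y - ot u v c x y - wA x y, hA, hB, hA01, hB01, hAb', hBb, hA0,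
        hB0, ?_⟩
      intro x y
      show w x y = wA x y + ((w x y - ot u v c x y - wA x y) + ot u v c x y)
      ring
    · exfalso
      have hB1' : w v c - ot u v c v c - wA v c = -1 := hB1
      omega
  · exfalso
    rcases hDB with ⟨hB0, _⟩ | ⟨hB1, _⟩
    · have hB0' : w v c - ot u v c v c - wA v c = 0 := hB0
      omega
    · have hB1' : w v c - ot u v c v c - wA v c = -1 := hB1
      omega

end Pool.Agent.Work.MP_c6c039_lc.CL
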