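import Pool.Agent.Work.MP_c6c039_lc.CL.StmtsL
import Pool.Agent.Work.MP_c6c039_lc.FP.StmtsE

/-!
# Block CL, part M: convex layers in the plane (captain helper87)

Every docstring is the complete proof.  Item `X`: statement `St_X`, file `CL/I_X.lean`, theorem
`pr_X`, with the statements named after USES as hypotheses `(hA : St_A)` (a name `FP.A` means
`(hA : FP.St_A)`, a proved statement of block FP, files FP/StmtsG.lean, FP/StmtsE.lean); namespace as
here, auxiliary lemmas in the NEW sub-namespace `IX`.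
-/

set_option autoImplicit false

namespace Pool.Agent.Work.MP_c6c039_lc.CL

open Pool.Agent.PT Pool.Agent.Work.MP_c6c039_lc.FP N487b59b3

open Classical in
/-- remove the extreme points (the vertices of the convex hull) of a finite set -/
noncomputable def peel (S : Finset (ℝ × ℝ)) : Finset (ℝ × ℝ) :=
  S.filter fun p => p ∈ convexHull ℝ ((↑S : Set (ℝ × ℝ)) \ {p})

/-- At most `k` convex layers: after `k` removals of the vertices of the convex hull no point of the
instance is left. -/
def Lyr (k : ℕ) (I : List (ℚ × ℚ) × List (ℚ × ℚ)) : Prop := peel^[k] (allPts I) = ∅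

/-- Su (EASY-MEDIUM).  A SUPPORTING LINE.  `S \ {v} = ∅`: `p = 1`, `q = 0`.  Otherwise the convex hull of the finite set `S \ {v}` is compact
(`Set.Finite.isCompact_convexHull`) and convex, `v` is not in it: `geometric_hahn_banach_compact_point` or
`geometric_hahn_banach_closed_point` gives a continuous linear `f` with `f x < f v` on it; `f (a, b) = a f (1, 0) + b f (0, 1)`,
`p = f (1, 0)`, `q = f (0, 1)`, not both `0` because `f x < f v` for some `x`. -/
def St_Su : Prop := ∀ (S : Finset (ℝ × ℝ)) (v : ℝ × ℝ), v ∈ S →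
  v ∉ convexHull ℝ ((↑S : Set (ℝ × ℝ)) \ {v}) →
  ∃ p q : ℝ, (p ≠ 0 ∨ q ≠ 0) ∧ ∀ x ∈ S, x ≠ v → p * x.1 + q * x.2 < p * v.1 + q * v.2

/-- Pe (MEDIUM).  LAYERS GIVE NEIGHBOURS IN LOWER LAYERS.  `F = full (bitEncode I)`, `n = nn F`, `X i = (pnt I i).1`, `Y i = (pnt I i).2`, `RL F X Y` (FP.CT,
FP.PI, as in FP/I_GD.lean), `P_i = peel^[i] (allPts I)`, decreasing in `i`.  For `v < n` let `ly v` be the greatest `i ≤ k` with `pnt I v ∈ P_i`; `ly v < k` because
`P_k` is empty (`Nat.findGreatest`; `pnt I v ∈ P_0`, FP.PI).  Let `Mx F E`, `v < n`, `ext F v = false`, `i = ly v`: `pnt I v ∈ P_i \ P_(i + 1)`, so Su gives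
`p`, `q` with `f x < f v` for the other points `x` of `P_i`, `f x = p X x + q Y x`.  By FP.Xt `v` is in a triangle `a b c` of other points: `f v` is a
combination with positive coefficients of `f a, f b, f c`, which are not all equal (`a, b, c` not collinear, `(p, q) ≠ 0`), so `f > f v` at one of them.
Vi for `K x` iff `x < n` and `f x > f v` (Kp): `y` with `E v y`, `f y > f v`, so `pnt I y ∉ P_i`, and `ly y < i`.
USES FP.Xt FP.CT FP.PI Vi Kp Su. -/
def St_Pe : Prop := ∀ I : List (ℚ × ℚ) × List (ℚ × ℚ), GenPos I → ∀ k : ℕ, Lyr k I →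
  LY k (full (bitEncode I))

end Pool.Agent.Work.MP_c6c039_lc.CL
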