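import Mathlib
import Pool.Agent.Work.MP_c6c039_lc.CL.StmtsM

/-!
# Block CL, item Su: a supporting line
-/

set_option autoImplicit false

namespace Pool.Agent.Work.MP_c6c039_lc.CL

open Pool.Agent.PT Pool.Agent.Work.MP_c6c039_lc.FP N487b59b3

/-- Su: the proof. -/
theorem pr_Su : St_Su := by
  intro S v _ hv
  by_cases hne : ∃ x ∈ S, x ≠ v
  · have hfin : ((↑S : Set (ℝ × ℝ)) \ {v}).Finite := S.finite_toSet.subset Set.sdiff_subset
    obtain ⟨f, u, h1, h2⟩ := geometric_hahn_banach_closed_point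
      (convex_convexHull ℝ ((↑S : Set (ℝ × ℝ)) \ {v}))
      (hfin.isCompact_convexHull (𝕜 := ℝ)).isClosed hv
    have hf : ∀ x : ℝ × ℝ, f x = f (1, 0) * x.1 + f (0, 1) * x.2 := by
      intro x
      have h3 : x = x.1 • ((1 : ℝ), (0 : ℝ)) + x.2 • ((0 : ℝ), (1 : ℝ)) := by
        ext <;> simp
      calc f x = f (x.1 • ((1 : ℝ), (0 : ℝ)) + x.2 • ((0 : ℝ), (1 : ℝ))) := by rw [← h3]
        _ = f (1, 0) * x.1 + f (0, 1) * x.2 := by
          rw [map_add, map_smul, map_smul, smul_eq_mul, smul_eq_mul]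
          ring
    have hlt : ∀ x ∈ S, x ≠ v → f (1, 0) * x.1 + f (0, 1) * x.2 <
        f (1, 0) * v.1 + f (0, 1) * v.2 := by
      intro x hx hxv
      rw [← hf, ← hf]
      exact (h1 x (subset_convexHull ℝ _ ⟨hx, hxv⟩)).trans h2
    refine ⟨f (1, 0), f (0, 1), ?_, hlt⟩
    by_contra hpq
    push Not at hpq
    obtain ⟨x, hx, hxv⟩ := hne
    have h4 := hlt x hx hxv
    rw [hpq.1, hpq.2] at h4
    simp at h4
  · refine ⟨1, 0, Or.inl one_ne_zero, fun x hx hxv => ?_⟩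
    exact absurd ⟨x, hx, hxv⟩ hne

end Pool.Agent.Work.MP_c6c039_lc.CL
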