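import Pool.Agent.Work.MP_c6c039_lc.CL.StmtsL

/-!
# Block CL, item T1: the gaps of the parts are gaps
-/

set_option autoImplicit false

namespace Pool.Agent.Work.MP_c6c039_lc.CL

open Pool.Agent.Work.MP_c6c039_lc.FP Pool.Agent.Work.MP_c6c039_lc.NC

namespace IT1

theorem lb_append (A B : Rt) (i : ℕ) : i ∈ lb (A ++ B) ↔ i ∈ lb A ∨ i ∈ lb B := by
  unfold lb
  rw [List.map_append, List.mem_append]

open Classical in
theorem mem_jt (I : In) (E : ℕ → ℕ → Prop) (par : ℕ → ℕ) (k : ℕ) (l : List ℕ)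
    (w : ℕ → ℕ → ℤ) (u v p : ℕ) (hp : p ∈ jt I E par k l w u v) :
    p ≤ nn I ∧ p ∈ mk (sg I par k l u v) ∧
    (∃ i, p ≤ i ∧ i < nxt I (sg I par k l u v) p ∧ 0 < i ∧ i < nn I) ∧
    ∀ i, p ≤ i → i < nxt I (sg I par k l u v) p → 0 < i → i < nn I →
      IN I E w u v (lv l i) (lv l (i + 1)) := by
  unfold jt at hp
  rw [List.mem_filter, List.mem_range, decide_eq_true_iff] at hp
  exact ⟨by omega, hp.2⟩

/-- no new label in a filled gap -/
theorem gap (hNx : St_Nx) (hLx : St_Lx) (hRt : St_Rt) (hLb : St_Lb)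
    (I : In) (E : ℕ → ℕ → Prop) (par ly : ℕ → ℕ) (k : ℕ) (l : List ℕ) (h : PX I E par ly k l)
    (a b d : ℕ) (la : a < nn I) (lb' : b < nn I) (ld : d < nn I) (S : Rt)
    (hS : ∀ i, i ∈ lb S ↔ (i ∈ lb (sg I par k l a b) ∨ i ∈ lb (lr l (rl I par k d))))
    (w : ℕ → ℕ → ℤ)
    (hSS : ∀ y ∈ rl I par k d, y ∉ rl I par k a → y ∉ rl I par k b → SS I E w y 0)
    (p : ℕ) (hp : p ∈ jt I E par k l w a b) :
    nxt I (sg I par k l a b) p = nxt I S p := by
  obtain ⟨hpn, hpm, -, hin⟩ := mem_jt I E par k l w a b p hp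
  have hn3 := h.cx.n3
  have hI : Rl I := h.cx.good.real
  obtain ⟨x1, x2, x3, x4, -, -⟩ := hNx I S
  obtain ⟨y1, y2, y3, y4, -, -⟩ := hNx I (sg I par k l a b)
  by_contra hne
  have hle : nxt I S p ≤ nxt I (sg I par k l a b) p := y4 S p fun q hq => (hS q).2 (Or.inl hq)
  obtain ⟨j, hj⟩ : ∃ j, j = nxt I S p := ⟨_, rfl⟩
  rw [← hj] at hle hne
  have hjq : j < nxt I (sg I par k l a b) p := lt_of_le_of_ne hle (Ne.symm hne)
  have hq := (y1 p hpn).2
  have hpj : p < j := by rw [hj]; exact (x1 p hpn).1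
  have hjn : j ≤ nn I := by omega
  have hjS : j ∈ lb S := by
    rcases x2 p with h' | h'
    · rw [← hj] at h'; omega
    · rw [← hj] at h'; exact h'
  have hjab : j ∉ lb (sg I par k l a b) := by
    intro h'
    have := y3 p j h' hjn hpj
    omega
  have hA : ∀ z, z < nn I → ∀ v ∈ rl I par k z, v < nn I := fun z hz v hv =>
    (hRt I E par ly k h.cx z hz).2.2.2.2.1 v hv
  have hjd : j ∈ lb (lr l (rl I par k d)) := by
    rcases (hS j).1 hjS with h' | h'
    · exact absurd h' hjab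
    · exact h'
  obtain ⟨-, -, L3, -⟩ := hLb I E par ly k l h
  have hyd := ((L3 _ (hA d ld)).2.1 j).1 hjd
  obtain ⟨j0, -, hyd⟩ := hyd
  have hya : lv l j ∉ rl I par k a := by
    intro h'
    apply hjab
    unfold sg
    rw [lb_append]
    exact Or.inl (((L3 _ (hA a la)).2.1 j).2 ⟨j0, hjn, h'⟩)
  have hyb : lv l j ∉ rl I par k b := by
    intro h'
    apply hjab
    unfold sg
    rw [lb_append]
    exact Or.inr (((L3 _ (hA b lb')).2.1 j).2 ⟨j0, hjn, h'⟩)
  obtain ⟨s1, s2⟩ := hSS _ hyd hya hyb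
  have fin : ∀ x, (IN I E w a b x (lv l j) ∨ IN I E w a b (lv l j) x) → False := by
    intro x hx
    rcases hx with ⟨e, -, -, t1, t2⟩ | ⟨e, -, -, t1, t2⟩
    · rcases (hLx I hI E h.cx.mx _ _ e).2 hn3 with ⟨c, hc⟩ | ⟨c, hc⟩
      · have q1 := t1 c hc
        have q2 := s2 x ⟨c, hc⟩
        omega
      · have q1 := t2 c hc
        have q2 := s1 x ⟨c, hc⟩
        omega
    · rcases (hLx I hI E h.cx.mx _ _ e).2 hn3 with ⟨c, hc⟩ | ⟨c, hc⟩
      · have q1 := t1 c hc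
        have q2 := s1 x ⟨c, hc⟩
        omega
      · have q1 := t2 c hc
        have q2 := s2 x ⟨c, hc⟩
        omega
  by_cases hj1 : j = 1
  · have := hin 1 (by omega) (by omega) (by omega) (by omega)
    rw [← hj1] at this
    exact fin _ (Or.inr this)
  · have := hin (j - 1) (by omega) (by omega) (by omega) (by omega)
    rw [Nat.sub_add_cancel (by omega : 1 ≤ j)] at this
    exact fin _ (Or.inl this)

end IT1

/-- **Item T1**. -/
theorem pr_T1 (hNx : St_Nx) (hLx : St_Lx) (hRt : St_Rt) (hP1 : St_P1) (hLb : St_Lb)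
    (hI1 : St_I1) : St_T1 := by
  intro I E par ly k l h w wA wB u v c hSL
  have hm := h.cx.mx
  obtain ⟨lu, lv', -⟩ := hm.lt u v hSL.t.e1
  obtain ⟨-, lc, -⟩ := hm.lt v c hSL.t.e2
  obtain ⟨pA, pB⟩ := hP1 I E par ly k h.cx u v c hSL.t
  have nA : ∀ p ∈ jt I E par k l wA u c,
      nxt I (sg I par k l u c) p = nxt I (s3 I par k l u v c) p := by
    intro p hp
    refine IT1.gap hNx hLx hRt hLb I E par ly k l h u c v lu lc lv' _ ?_ wA
      (pA wA hSL.ra.ri hSL.ra.bdy hSL.a0) p hp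
    intro i
    unfold s3 sg
    rw [IT1.lb_append, IT1.lb_append, IT1.lb_append]
    tauto
  have nB : ∀ p ∈ jt I E par k l wB c v,
      nxt I (sg I par k l c v) p = nxt I (s3 I par k l u v c) p := by
    intro p hp
    refine IT1.gap hNx hLx hRt hLb I E par ly k l h c v u lc lv' lu _ ?_ wB
      (pB wB hSL.rb.ri hSL.rb.bdy hSL.b0) p hp
    intro i
    unfold s3 sg
    rw [IT1.lb_append, IT1.lb_append, IT1.lb_append]
    tauto
  refine ⟨fun p hp => ⟨(IT1.mem_jt I E par k l wA u c p hp).2.1, nA p hp, ?_⟩,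
    fun p hp => ⟨(IT1.mem_jt I E par k l wB c v p hp).2.1, nB p hp⟩⟩
  intro hp'
  obtain ⟨-, -, ⟨i, i1, i2, i3, i4⟩, hin⟩ := IT1.mem_jt I E par k l wA u c p hp
  obtain ⟨-, -, -, hin'⟩ := IT1.mem_jt I E par k l wB c v p hp'
  have q1 := hin i i1 i2 i3 i4
  have q2 := hin' i i1 (by rw [nB p hp', ← nA p hp]; exact i2) i3 i4
  exact (hI1 I E par ly k h.cx w wA wB u v c hSL _ _).2.2.1 ⟨q1, q2⟩

end Pool.Agent.Work.MP_c6c039_lc.CL
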