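import Pool.Agent.Work.MP_c6c039_lc.CL.StmtsL

/-! # Item T2 of block CL: the parts of a filled gap are filled -/

set_option autoImplicit false

namespace Pool.Agent.Work.MP_c6c039_lc.CL

open Pool.Agent.Work.MP_c6c039_lc.FP Pool.Agent.Work.MP_c6c039_lc.NC

namespace IT2

/-- the index of an edge -/
theorem ed_idx (L : List ℕ) (x y : ℕ) (h : (x, y) ∈ ed L) :
    ∃ i, i < L.length - 1 ∧ L.getD i 0 = x ∧ L.getD (i + 1) 0 = y := by
  unfold ed at h
  rw [List.mem_iff_getElem] at h
  obtain ⟨i, hi, he⟩ := h
  rw [List.length_zip, List.length_tail] at hi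
  have hi1 : i < L.length := by omega
  have hi2 : i + 1 < L.length := by omega
  rw [List.getElem_zip, Prod.mk.injEq, List.getElem_tail] at he
  refine ⟨i, by omega, ?_, ?_⟩
  · rw [List.getD_eq_getElem _ _ hi1]
    exact he.1
  · rw [List.getD_eq_getElem _ _ hi2]
    exact he.2

/-- an element of the zero-extended list of labels -/
theorem mem_mk (S : Rt) (p : ℕ) : p ∈ mk S ↔ p = 0 ∨ p ∈ lb S := by
  unfold mk
  rw [List.mem_cons]

/-- labels in a sublist -/
theorem mk_sub (S S' : Rt) (h : ∀ q ∈ lb S, q ∈ lb S') (p : ℕ) (hp : p ∈ mk S) : p ∈ mk S' := by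
  rw [mem_mk] at hp ⊢
  rcases hp with hp | hp
  · exact Or.inl hp
  · exact Or.inr (h p hp)

/-- the labels of the union of two lists -/
theorem lb_append (S S' : Rt) : lb (S ++ S') = lb S ++ lb S' := by
  unfold lb
  rw [List.map_append]

end IT2

/-- T2. -/
theorem pr_T2 (hNx : St_Nx) (hRt : St_Rt) (hLa : St_La) (hLb : St_Lb) (hI2 : St_I2)
    (hGp : St_Gp) (hT1 : St_T1) : St_T2 := by
  intro I E par ly k l hP w wA wB u v c hSL p hp r hr hpr hrQ
  have hC := hP.cx
  have hu : u < nn I := (hC.mx.lt u v hSL.t.e1).1
  have hv : v < nn I := (hC.mx.lt u v hSL.t.e1).2.1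
  have hc : c < nn I := (hC.mx.lt v c hSL.t.e2).2.1
  obtain ⟨-, -, -, -, hlu, hhu, hmu, -, -, -⟩ := hRt I E par ly k hC u hu
  obtain ⟨-, -, -, -, hlv, hhv, hmv, -, -, -⟩ := hRt I E par ly k hC v hv
  obtain ⟨-, -, -, -, hlc, hhc, hmc, -, -, hedc⟩ := hRt I E par ly k hC c hc
  obtain ⟨La1, La2, La3⟩ := hLa I E par ly k l hP
  obtain ⟨Lb1, Lb2, Lb3, -⟩ := hLb I E par ly k l hP
  have h3 : 3 ≤ nn I := hC.n3
  -- the three routes as one list
  have hS : s3 I par k l u v c = lr l (rl I par k u ++ (rl I par k v ++ rl I par k c)) := by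
    unfold s3
    rw [Lb2, Lb2]
  have hX : ∀ a ∈ rl I par k u ++ (rl I par k v ++ rl I par k c), a < nn I := by
    intro a ha
    rw [List.mem_append, List.mem_append] at ha
    rcases ha with ha | ha | ha
    · exact hlu a ha
    · exact hlv a ha
    · exact hlc a ha
  obtain ⟨-, hlbS, hvtS⟩ := Lb3 _ hX
  rw [← hS] at hlbS hvtS
  -- sublists
  have sub1 : ∀ q ∈ lb (sg I par k l u v), q ∈ lb (s3 I par k l u v c) := by
    intro q hq
    unfold sg at hq
    unfold s3
    rw [IT2.lb_append, List.mem_append] at hq
    rw [IT2.lb_append, IT2.lb_append, List.mem_append, List.mem_append]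
    rcases hq with hq | hq
    · exact Or.inl hq
    · exact Or.inr (Or.inl hq)
  have sub2 : ∀ q ∈ lb (sg I par k l u c), q ∈ lb (s3 I par k l u v c) := by
    intro q hq
    unfold sg at hq
    unfold s3
    rw [IT2.lb_append, List.mem_append] at hq
    rw [IT2.lb_append, IT2.lb_append, List.mem_append, List.mem_append]
    rcases hq with hq | hq
    · exact Or.inl hq
    · exact Or.inr (Or.inr hq)
  have sub3 : ∀ q ∈ lb (sg I par k l c v), q ∈ lb (s3 I par k l u v c) := by
    intro q hq
    unfold sg at hq
    unfold s3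
    rw [IT2.lb_append, List.mem_append] at hq
    rw [IT2.lb_append, IT2.lb_append, List.mem_append, List.mem_append]
    rcases hq with hq | hq
    · exact Or.inr (Or.inr hq)
    · exact Or.inr (Or.inl hq)
  obtain ⟨N1, N2, N3, -, -, N6⟩ := hNx I (s3 I par k l u v c)
  obtain ⟨M1, M2, -, -, -, -⟩ := hNx I (sg I par k l u v)
  -- bounds
  have hrn : r ≤ nn I := by
    rw [IT2.mem_mk] at hr
    rcases hr with hr | hr
    · omega
    · exact ((hlbS r).1 hr).2.1
  obtain ⟨hq1, hq2⟩ := N1 r hrn
  have hqQ : nxt I (s3 I par k l u v c) r ≤ nxt I (sg I par k l u v) p := by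
    rcases M2 p with h | h
    · rw [h]
      exact hq2
    · have h' := sub1 _ h
      exact N3 r _ h' ((hlbS _).1 h').2.1 hrQ
  obtain ⟨-, -, -, -, N5A, -⟩ := hNx I (sg I par k l u c)
  obtain ⟨-, -, -, -, N5B, -⟩ := hNx I (sg I par k l c v)
  obtain ⟨T1A, T1B⟩ := hT1 I E par ly k l hP w wA wB u v c hSL
  have hs3 : lr l (rl I par k u) ++ (lr l (rl I par k v) ++ lr l (rl I par k c)) =
      s3 I par k l u v c := rfl
  unfold rz
  rw [Bool.or_eq_true, Bool.or_eq_true, decide_eq_true_iff, decide_eq_true_iff]
  by_cases hedge : max r 1 < nxt I (s3 I par k l u v c) r ∧ max r 1 < nn I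
  · -- there is an edge in the gap
    obtain ⟨hi1, hi2⟩ := hedge
    have hri : r ≤ max r 1 := le_max_left _ _
    have hi0 : 0 < max r 1 := lt_of_lt_of_le one_pos (le_max_right _ _)
    generalize hi : max r 1 = i at hi1 hi2 hri hi0
    have hIN : IN I E w u v (lv l i) (lv l (i + 1)) := by
      classical
      unfold jt at hp
      rw [List.mem_filter] at hp
      exact (of_decide_eq_true hp.2).2.2 i (le_trans hpr hri) (lt_of_lt_of_le hi1 hqQ) hi0 hi2
    have hon : lv l i ∈ rl I par k u ++ (rl I par k v ++ rl I par k c) →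
        lv l (i + 1) ∈ rl I par k u ++ (rl I par k v ++ rl I par k c) →
        (es (lr l (rl I par k u)) (lr l (rl I par k v)) (lr l (rl I par k c)) (lv l i)
          (lv l (i + 1)) = true ∨
        es (lr l (rl I par k u)) (lr l (rl I par k v)) (lr l (rl I par k c)) (lv l (i + 1))
          (lv l i) = true) →
        lo I (lr l (rl I par k u)) (lr l (rl I par k v)) (lr l (rl I par k c)) r = true := by
      intro hx hy hes
      have hil : i ∈ lb (s3 I par k l u v c) := (hlbS i).2 ⟨hi0, hi2.le, hx⟩
      have hil' : i + 1 ∈ lb (s3 I par k l u v c) := (hlbS (i + 1)).2 ⟨by omega, hi2, hy⟩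
      have hir : i = r := by
        by_contra hne
        have hlt : r < i := by omega
        have := N3 r i hil hi2.le hlt
        omega
      subst hir
      have hq : nxt I (s3 I par k l u v c) i = i + 1 := by
        have := N3 i (i + 1) hil' hi2 (by omega)
        omega
      have hco := (La3 i hi0 hi2).2
      unfold lo
      rw [hs3, hq, hvtS i hil, hvtS (i + 1) hil']
      simp only [BEq.rfl, Bool.true_and]
      have hcob : (co I (lv l i) == co I (lv l (i + 1))) = false := by
        rw [beq_eq_false_iff_ne]
        exact hco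
      rw [hcob]
      rcases hes with h | h
      · rw [h]
        simp
      · rw [h]
        simp
    have hvA : vs (lr l (rl I par k u)) = rl I par k u := (Lb1 _).1
    have hvB : vs (lr l (rl I par k v)) = rl I par k v := (Lb1 _).1
    have hvC : vs (lr l (rl I par k c)) = rl I par k c := (Lb1 _).1
    have hhA : hd (lr l (rl I par k u)) = u := (Lb1 _).2.trans hhu
    have hhB : hd (lr l (rl I par k v)) = v := (Lb1 _).2.trans hhv
    have hhC : hd (lr l (rl I par k c)) = c := (Lb1 _).2.trans hhc
    have hlenC : (lr l (rl I par k c)).length = (rl I par k c).length := by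
      unfold lr
      rw [List.length_map]
    have hstep : ∀ x y, x ∈ rl I par k c → ext I x = false → y = par x → x ∉ rl I par k u →
        x ∉ rl I par k v → y ∈ rl I par k c ∧
        es (lr l (rl I par k u)) (lr l (rl I par k v)) (lr l (rl I par k c)) x y = true := by
      intro x y hx hex hy hxu hxv
      have hed : (x, y) ∈ ed (rl I par k c) := (hedc x y).2 ⟨hx, hex, hy⟩
      refine ⟨?_, ?_⟩
      · unfold ed at hed
        exact List.mem_of_mem_tail (List.of_mem_zip hed).2
      · obtain ⟨j, hj, hj1, hj2⟩ := IT2.ed_idx _ x y hed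
        unfold es
        rw [hvA, hvB, hvC, hlenC]
        have hany : ((List.range ((rl I par k c).length - 1)).any fun i =>
            (rl I par k c).getD i 0 == x && (rl I par k c).getD (i + 1) 0 == y) = true := by
          rw [List.any_eq_true]
          refine ⟨j, List.mem_range.2 hj, ?_⟩
          rw [hj1, hj2]
          simp
        rw [hany]
        simp [hxu, hxv]
    rcases hI2 I E par ly k hC w wA wB u v c hSL _ _ hIN with h | h | h | h
    · -- first part
      left
      obtain ⟨r', hr'm, hr'1, hr'2⟩ := N5A i hi2.le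
      have hj : r' ∈ jt I E par k l wA u c :=
        (hGp I E par ly k l hP wA u c hSL.ra r' hr'm).2.2 ⟨i, hr'1, hr'2, hi0, hi2, h⟩
      have hn := (T1A r' hj).2.1
      rw [hn] at hr'2
      have he := N6 i r' r hi2.le (IT2.mk_sub _ _ sub2 r' hr'm) hr hr'1 hr'2 hri hi1
      rw [← he]
      exact hj
    · -- second part
      right
      left
      obtain ⟨r', hr'm, hr'1, hr'2⟩ := N5B i hi2.le
      have hj : r' ∈ jt I E par k l wB c v :=
        (hGp I E par ly k l hP wB c v hSL.rb r' hr'm).2.2 ⟨i, hr'1, hr'2, hi0, hi2, h⟩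
      have hn := (T1B r' hj).2
      rw [hn] at hr'2
      have he := N6 i r' r hi2.le (IT2.mk_sub _ _ sub3 r' hr'm) hr hr'1 hr'2 hri hi1
      rw [← he]
      exact hj
    · -- a side of the new triangle
      right
      right
      rcases h with ⟨hx, hy⟩ | ⟨hx, hy⟩ | ⟨hx, hy⟩ | ⟨hx, hy⟩
      · refine hon ?_ ?_ (Or.inl ?_)
        · rw [hx]
          exact List.mem_append_left _ hmu
        · rw [hy]
          exact List.mem_append_right _ (List.mem_append_right _ hmc)
        · unfold es
          rw [hhA, hhC, hx, hy]
          simp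
      · refine hon ?_ ?_ (Or.inr ?_)
        · rw [hx]
          exact List.mem_append_right _ (List.mem_append_right _ hmc)
        · rw [hy]
          exact List.mem_append_left _ hmu
        · unfold es
          rw [hhA, hhC, hx, hy]
          simp
      · refine hon ?_ ?_ (Or.inl ?_)
        · rw [hx]
          exact List.mem_append_right _ (List.mem_append_right _ hmc)
        · rw [hy]
          exact List.mem_append_right _ (List.mem_append_left _ hmv)
        · unfold es
          rw [hhB, hhC, hx, hy]
          simp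
      · refine hon ?_ ?_ (Or.inr ?_)
        · rw [hx]
          exact List.mem_append_right _ (List.mem_append_left _ hmv)
        · rw [hy]
          exact List.mem_append_right _ (List.mem_append_right _ hmc)
        · unfold es
          rw [hhB, hhC, hx, hy]
          simp
    · -- a new step of the route of the apex
      right
      right
      rcases h with ⟨g1, g2, g3, g4, g5⟩ | ⟨g1, g2, g3, g4, g5⟩
      · obtain ⟨s1, s2⟩ := hstep _ _ g1 g2 g3 g4 g5
        exact hon (List.mem_append_right _ (List.mem_append_right _ g1))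
          (List.mem_append_right _ (List.mem_append_right _ s1)) (Or.inl s2)
      · obtain ⟨s1, s2⟩ := hstep _ _ g1 g2 g3 g4 g5
        exact hon (List.mem_append_right _ (List.mem_append_right _ s1))
          (List.mem_append_right _ (List.mem_append_right _ g1)) (Or.inr s2)
  · -- no edge in the gap
    right
    right
    unfold lo
    rw [hs3]
    by_cases hr0 : r = 0
    · have hq : nxt I (s3 I par k l u v c) r = r + 1 := by
        by_contra hne
        apply hedge
        rw [hr0] at hq1 hne ⊢
        constructor
        · show max 0 1 < _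
          simp only [Nat.zero_max]
          omega
        · show max 0 1 < _
          simp only [Nat.zero_max]
          omega
      rw [hq, hr0]
      simp
    · have hm : max r 1 = r := max_eq_left (by omega)
      rw [hm] at hedge
      have hrn' : r = nn I := by
        by_contra hne
        exact hedge ⟨hq1, by omega⟩
      have hq : nxt I (s3 I par k l u v c) r = r + 1 := by omega
      rw [hq, hrn']
      simp

end Pool.Agent.Work.MP_c6c039_lc.CL
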