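import Pool.Agent.Work.MP_c6c039_lc.CL.StmtsW

/-!
# Block CL, part L: labels and completeness (captain helper87)

Every docstring is the complete proof.  Item `X`: statement `St_X`, file `CL/I_X.lean`, theorem
`pr_X`, with the statements named after USES as hypotheses `(hA : St_A)` (names `FP.A`, `NC.A`:
`(hA : FP.St_A)`, `(hA : NC.St_A)`, proved statements of the blocks FP and NC); namespace as here,
auxiliary lemmas in the NEW sub-namespace `IX`.  `T`/`F` are `true`/`false`.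
-/

set_option autoImplicit false

namespace Pool.Agent.Work.MP_c6c039_lc.CL

open Pool.Agent.Work.MP_c6c039_lc.FP Pool.Agent.Work.MP_c6c039_lc.NC

/-- the setting with a path -/
structure PX (I : In) (E : ℕ → ℕ → Prop) (par ly : ℕ → ℕ) (k : ℕ) (l : List ℕ) : Prop where
  cx : Cx I E par ly k
  sp : SP I l
  le : ∀ e ∈ ed l, E e.1 e.2

/-- the label of `v`: its place in the path -/
def la (l : List ℕ) (v : ℕ) : ℕ := px l v + 1
/-- the point with the label `i` -/
def lv (l : List ℕ) (i : ℕ) : ℕ := l.getD (i - 1) 0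
/-- a route with its labels -/
def lr (l A : List ℕ) : Rt := A.map fun v => (v, la l v)

/-- the segment `x y` is inside the region of the weight `w` cut off by `u v` -/
def IN (I : In) (E : ℕ → ℕ → Prop) (w : ℕ → ℕ → ℤ) (u v x y : ℕ) : Prop :=
  E x y ∧ ¬ (x = u ∧ y = v) ∧ ¬ (x = v ∧ y = u) ∧ (∀ c, Tr I E x y c → w x y = 1) ∧
    ∀ c, Tr I E y x c → w y x = 1

/-- the labelled points of the two routes -/
def sg (I : In) (par : ℕ → ℕ) (k : ℕ) (l : List ℕ) (u v : ℕ) : Rt :=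
  lr l (rl I par k u) ++ lr l (rl I par k v)

open Classical in
/-- the gaps which are filled inside the region -/
noncomputable def jt (I : In) (E : ℕ → ℕ → Prop) (par : ℕ → ℕ) (k : ℕ) (l : List ℕ)
    (w : ℕ → ℕ → ℤ) (u v : ℕ) : List ℕ :=
  (List.range (nn I + 1)).filter fun p => decide (p ∈ mk (sg I par k l u v) ∧
    (∃ i, p ≤ i ∧ i < nxt I (sg I par k l u v) p ∧ 0 < i ∧ i < nn I) ∧
    ∀ i, p ≤ i → i < nxt I (sg I par k l u v) p → 0 < i → i < nn I →
      IN I E w u v (lv l i) (lv l (i + 1)))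

/-- the true fact about the segment `u v` -/
noncomputable def tf (I : In) (E : ℕ → ℕ → Prop) (par : ℕ → ℕ) (k : ℕ) (l : List ℕ)
    (w : ℕ → ℕ → ℤ) (u v : ℕ) : Ft :=
  (lr l (rl I par k u), (lr l (rl I par k v), jt I E par k l w u v))

/-- `w` is a region: values `0`, `1`, boundary `u v` and the two routes -/
structure RG (I : In) (E : ℕ → ℕ → Prop) (par : ℕ → ℕ) (k : ℕ) (w : ℕ → ℕ → ℤ) (u v : ℕ) :
    Prop where
  e : E u v
  ri : RI I E w
  v01 : ∀ x y, w x y = 0 ∨ w x y = 1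
  bdy : ∀ x y, w x y - w y x = kp I (rl I par k u) (rl I par k v) x y

/-- the region `w` of `u v` consists of the triangle `u v c` and the regions `wA` of `u c`, `wB` of `c v` -/
structure SL (I : In) (E : ℕ → ℕ → Prop) (par : ℕ → ℕ) (k : ℕ) (w wA wB : ℕ → ℕ → ℤ)
    (u v c : ℕ) : Prop where
  t : Tr I E u v c
  r0 : RG I E par k w u v
  ra : RG I E par k wA u c
  rb : RG I E par k wB c v
  w1 : w u v = 1
  a0 : wA c u = 0
  b0 : wB v c = 0
  sum : ∀ x y, w x y = wA x y + (wB x y + ot u v c x y)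

/-! ## Labels -/

/-- La (EASY).  `l` is nodup with the elements `0, .., n - 1` (`SP`), so it has length `n`; `NC.Px` (positions); `lv l i = l[i - 1]`.
Edges: `(l[i - 1], l[i]) ∈ ed l` (NC.Ed, last clause), `PX.le`, `SP.alt`.  USES NC.Px NC.Ed. -/
def St_La : Prop := ∀ (I : In) (E : ℕ → ℕ → Prop) (par ly : ℕ → ℕ) (k : ℕ) (l : List ℕ),
  PX I E par ly k l →
  (∀ v, v < nn I → 0 < la l v ∧ la l v ≤ nn I ∧ lv l (la l v) = v) ∧
  (∀ i, 0 < i → i ≤ nn I → lv l i < nn I ∧ la l (lv l i) = i) ∧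
  ∀ i, 0 < i → i < nn I → E (lv l i) (lv l (i + 1)) ∧ co I (lv l i) ≠ co I (lv l (i + 1))

/-- Lb (EASY-MEDIUM).  `vs (lr l A) = A`, `lb (lr l A) = A.map (la l)`; with La a label `i` of `lr l A` is `la l v`, `v ∈ A`, `v = lv l i`.
`cons` (`la l` is injective on the numbers `< n`, La), `vt` (Vt), `rv` (Rv, Rt).  USES Vt Rv Rt La. -/
def St_Lb : Prop := ∀ (I : In) (E : ℕ → ℕ → Prop) (par ly : ℕ → ℕ) (k : ℕ) (l : List ℕ),
  PX I E par ly k l →
  (∀ A : List ℕ, vs (lr l A) = A ∧ hd (lr l A) = A.headD 0) ∧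
  (∀ A B : List ℕ, lr l (A ++ B) = lr l A ++ lr l B) ∧
  (∀ A : List ℕ, (∀ v ∈ A, v < nn I) → cons I (lr l A) = true ∧
    (∀ i, i ∈ lb (lr l A) ↔ (0 < i ∧ i ≤ nn I ∧ lv l i ∈ A)) ∧
    ∀ i, i ∈ lb (lr l A) → vt (lr l A) i = lv l i) ∧
  ∀ v, v < nn I → rv I (lr l (rl I par k v)) = true

/-! ## Segments inside -/

/-- I1 (EASY).  `w x y ≥ wA x y`, `wB x y` (values `0, 1`, `ot ≥ 0`).  `{x, y} ≠ {u, v}`: `Tr u v c`, but `wA u v = wA v c = wA c u = 0`,
`wB u v = wB v c = 0` (`RI.rot`, Uq).  Third: one of `x y`, `y x` has a triangle (Lx), so `w ≥ 2` there.  Last: symmetry of `IN`.  USES Uq Lx. -/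
def St_I1 : Prop := ∀ (I : In) (E : ℕ → ℕ → Prop) (par ly : ℕ → ℕ) (k : ℕ), Cx I E par ly k →
  ∀ (w wA wB : ℕ → ℕ → ℤ) (u v c : ℕ), SL I E par k w wA wB u v c → ∀ x y,
    (IN I E wA u c x y → IN I E w u v x y) ∧ (IN I E wB c v x y → IN I E w u v x y) ∧
    ¬ (IN I E wA u c x y ∧ IN I E wB c v x y) ∧ (IN I E w u v x y → IN I E w u v y x)

/-- I2 (MEDIUM).  A SEGMENT INSIDE IS INSIDE ONE OF THE PARTS, OR NEW.  Let `{x, y}` be none of `{u, c}`, `{c, v}` (and not `{u, v}`), so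
`ot = 0` at `x y` and `y x`.  If only one of `x y`, `y x` has a triangle: there `w = 1`, so `wA = 1` or `wB = 1`: done.  Let both have one.
`wA x y = wA y x = 1`: inside the first part; the same for `wB`.  Otherwise, up to exchanging `x` and `y`, `wA x y = 1`, `wA y x = 0`,
`wB x y = 0`, `wB y x = 1`.  With Kv: `tc c x y - tc u x y = 1`, `tc v x y - tc c x y = - 1`.  Case `y = pf x`, `x ≠ hp 0` (then not
`x = pf y`, as `rn` decreases): `x ∈ fo c`, `x ∉ fo u`, `x ∉ fo v`; `x` is not extreme (otherwise `x, pf x` is an edge of the hull with only one triangle,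
Hx), so `x ∈ rl k c`, `y = par x` (Fo).  Case `x = pf y`, `y ≠ hp 0`: `y ∈ fo u`, `y ∈ fo v`, so `w x y = 0` by Q1: contradiction.  Neither:
`tc = 0`: contradiction.  USES FP.Sy FP.Hl Lx Hx Fo Kv Q1. -/
def St_I2 : Prop := ∀ (I : In) (E : ℕ → ℕ → Prop) (par ly : ℕ → ℕ) (k : ℕ), Cx I E par ly k →
  ∀ (w wA wB : ℕ → ℕ → ℤ) (u v c : ℕ), SL I E par k w wA wB u v c → ∀ x y,
    IN I E w u v x y → IN I E wA u c x y ∨ IN I E wB c v x y ∨
      ((x = u ∧ y = c) ∨ (x = c ∧ y = u) ∨ (x = c ∧ y = v) ∨ (x = v ∧ y = c)) ∨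
      ((x ∈ rl I par k c ∧ ext I x = false ∧ y = par x ∧ x ∉ rl I par k u ∧ x ∉ rl I par k v) ∨
      (y ∈ rl I par k c ∧ ext I y = false ∧ x = par y ∧ y ∉ rl I par k u ∧ y ∉ rl I par k v))

/-- I4 (EASY).  `y a` or `a y` has a triangle (Lx), where `w = 1` (`IN`); so `SS w y 1` (Nj, Sr), and `y b` is inside (`y ≠ u, v`, Rt).
USES Lx Sr Rt Nj. -/
def St_I4 : Prop := ∀ (I : In) (E : ℕ → ℕ → Prop) (par ly : ℕ → ℕ) (k : ℕ), Cx I E par ly k →
  ∀ (w : ℕ → ℕ → ℤ) (u v : ℕ), RG I E par k w u v → ∀ y, y < nn I → y ∉ rl I par k u →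
    y ∉ rl I par k v → ∀ a b, E y a → E y b → IN I E w u v y a → IN I E w u v y b

/-- Gp (EASY-MEDIUM).  ALL EDGES OF A GAP ARE INSIDE, OR NONE.  Enough: two edges `i`, `i + 1` of the gap; `y = lv (i + 1)` has the label `i + 1`,
`p < i + 1 < nxt p`, which is no label of the routes (Nx), so `y` is on no route (Lb), I4 (edges in both directions: `IN` is symmetric in `x`, `y`:
unfold).  Second clause: the definition of `jt`.  USES Nx La Lb I4. -/
def St_Gp : Prop := ∀ (I : In) (E : ℕ → ℕ → Prop) (par ly : ℕ → ℕ) (k : ℕ) (l : List ℕ),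
  PX I E par ly k l → ∀ (w : ℕ → ℕ → ℤ) (u v : ℕ), RG I E par k w u v →
  ∀ p ∈ mk (sg I par k l u v),
    (∀ i j, p ≤ i → i < nxt I (sg I par k l u v) p → 0 < i → i < nn I → p ≤ j →
      j < nxt I (sg I par k l u v) p → 0 < j → j < nn I →
      IN I E w u v (lv l i) (lv l (i + 1)) → IN I E w u v (lv l j) (lv l (j + 1))) ∧
    (p ∈ jt I E par k l w u v ↔ ∃ i, p ≤ i ∧ i < nxt I (sg I par k l u v) p ∧ 0 < i ∧ i < nn I ∧
      IN I E w u v (lv l i) (lv l (i + 1)))

/-! ## One step -/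

/-- the labelled points of the three routes -/
def s3 (I : In) (par : ℕ → ℕ) (k : ℕ) (l : List ℕ) (u v c : ℕ) : Rt :=
  lr l (rl I par k u) ++ (lr l (rl I par k v) ++ lr l (rl I par k c))

/-- T1 (MEDIUM).  THE GAPS OF THE PARTS ARE GAPS.  `S = s3`.  Let `p ∈ jt wA u c` and suppose `nxt (sg u c) p ≠ nxt S p =: j`; then `p < j < nxt (sg u c) p`
(Nx), `j ≤ n` is a label of `S` and no label of `sg u c`; so `y = lv j` is in `rl k v` and not in `rl k u`, `rl k c` (Lb).  P1: `SS wA y 0`.  One of the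
edges `i = j - 1`, `i = j` of the path is in the gap of `p` (`j ≥ 2`: `i = j - 1 ≥ 1`, `≥ p`; `j = 1`: `p = 0`, `i = 1 < n`), it has the end
`y` and is inside `wA`, and it has a triangle on one side (Lx), with weight `1` and `0`: contradiction.  The same for `wB` (second part of P1).
`p ∈ jt wA u c` and `p ∈ jt wB c v`: the gaps are the gap of `S`, an edge in it (exists by the definition of `jt`) is inside `wA` and `wB`: I1.
USES Nx Lx P1 La Lb I1. -/
def St_T1 : Prop := ∀ (I : In) (E : ℕ → ℕ → Prop) (par ly : ℕ → ℕ) (k : ℕ) (l : List ℕ),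
  PX I E par ly k l → ∀ (w wA wB : ℕ → ℕ → ℤ) (u v c : ℕ), SL I E par k w wA wB u v c →
  (∀ p ∈ jt I E par k l wA u c, p ∈ mk (sg I par k l u c) ∧
    nxt I (sg I par k l u c) p = nxt I (s3 I par k l u v c) p ∧ p ∉ jt I E par k l wB c v) ∧
  ∀ p ∈ jt I E par k l wB c v, p ∈ mk (sg I par k l c v) ∧
    nxt I (sg I par k l c v) p = nxt I (s3 I par k l u v c) p

/-- T2 (MEDIUM).  THE PARTS OF A FILLED GAP ARE FILLED.  `S = s3`, `q = nxt S r ≤ nxt (sg u v) p` (Nx; a label of `sg u v` is one of `S`).  (1) The gap of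
`r` contains no edge (`i` with `r ≤ i < q`, `0 < i < n`): then `r = 0`, `q = 1`, or `r = n`, `q = n + 1`: `lo = T`.  (2) Let `i = max r 1` be its first
edge, `x = lv i`, `y = lv (i + 1)`.  `p ≤ i < nxt (sg u v) p`, so `IN w u v x y` (`p ∈ jt`).  I2.  (a) `IN wA u c x y`: there is `r' ∈ mk (sg u c)` with
`r' ≤ i < nxt (sg u c) r'` (Nx), so `r' ∈ jt wA u c` (Gp), `nxt (sg u c) r' = nxt S r'` (T1), and `r' = r` (Nx, last clause, for `S`).  So `rz = T`.
(b) `IN wB`: the same.  (c) `{x, y} = {u, c}` or `{c, v}`, or a step of the route of `c`: `x` and `y` are on the routes, so `i` and `i + 1` are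
labels of `S`; so `i = r` (Nx: `r < i` would give `q ≤ i`), `q = r + 1`; colours: La; `vt S r = x`, `vt S (r + 1) = y` (Lb); `es x y` or `es y x` is `T`
(a step `(x, par x)` is in `ed (rl k c)` by Rt): `lo = T`.  USES Nx Rt La Lb I2 Gp T1. -/
def St_T2 : Prop := ∀ (I : In) (E : ℕ → ℕ → Prop) (par ly : ℕ → ℕ) (k : ℕ) (l : List ℕ),
  PX I E par ly k l → ∀ (w wA wB : ℕ → ℕ → ℤ) (u v c : ℕ), SL I E par k w wA wB u v c →
  ∀ p ∈ jt I E par k l w u v, ∀ r ∈ mk (s3 I par k l u v c), p ≤ r →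
    r < nxt I (sg I par k l u v) p →
    rz I (lr l (rl I par k u)) (lr l (rl I par k v)) (lr l (rl I par k c))
      (jt I E par k l wA u c) (jt I E par k l wB c v) r = true

/-- T3 (EASY-MEDIUM).  THE OTHER GAPS.  `S = s3`.  `p ∈ jt wA u c`: an edge `i` of the path in its gap, `p ≤ i < nxt (sg u c) p = nxt S p ≤ nxt (sg u v) p` (T1,
Nx), is inside `wA`, so inside `w` (I1), so `p ∈ jt w u v` (Gp): contradiction.  The same for `wB`.  `nxt S p ≠ nxt (sg u v) p`: then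
`j = nxt S p < nxt (sg u v) p` is a label of `S` and no label of `sg u v`, `y = lv j` is in `rl k c` and not in `rl k u`, `rl k v`; R1: `SS w y 1`.  One of the edges
`j - 1`, `j` is in the gap of `p` (as in T1); it has the end `y`, so it is inside `w`, and `p ∈ jt w u v` (Gp): contradiction.
USES Nx R1 Rt La Lb I1 Gp T1. -/
def St_T3 : Prop := ∀ (I : In) (E : ℕ → ℕ → Prop) (par ly : ℕ → ℕ) (k : ℕ) (l : List ℕ),
  PX I E par ly k l → ∀ (w wA wB : ℕ → ℕ → ℤ) (u v c : ℕ), SL I E par k w wA wB u v c →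
  ∀ p ∈ mk (sg I par k l u v), p ∉ jt I E par k l w u v →
    nxt I (s3 I par k l u v c) p = nxt I (sg I par k l u v) p ∧
    p ∉ jt I E par k l wA u c ∧ p ∉ jt I E par k l wB c v

/-- T4 (EASY-MEDIUM).  Unfold `cmb`, `cmt`: `rv`, `cons` (Lb), `chi`, `inT` (`Tr.pos`, `Tr.emp`; `hd` by Lb, Rt), T1, T2, T3; elements of
`jt w u v` are marks of `sg u v` by definition.  USES Rt Lb T1 T2 T3. -/
def St_T4 : Prop := ∀ (I : In) (E : ℕ → ℕ → Prop) (par ly : ℕ → ℕ) (k : ℕ) (l : List ℕ),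
  PX I E par ly k l → ∀ (w wA wB : ℕ → ℕ → ℤ) (u v c : ℕ), SL I E par k w wA wB u v c →
  cmb I (tf I E par k l w u v) (tf I E par k l wA u c) (tf I E par k l wB c v) = true

/-- Bt (EASY-MEDIUM).  THE EMPTY REGION.  `kp u v = 0`, so `u v` is a step (Kv, last clause): `v = pf u`, `u ≠ hp 0`, or conversely.  `jt = []`: an edge
inside would have a triangle of weight `1` (Lx).  `bas`: `rv`, `cons`: Lb.  `u` not extreme, `v = pf u`: `rl k u = u :: rl k v` (Rt), so the tail of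
the first list is the second list.  `u = hp j` extreme, `0 < j < mm`, `v = hp (j - 1)`: both lists have length 1, third clause.
USES FP.Sy FP.Hl Lx Rt Kv Lb. -/
def St_Bt : Prop := ∀ (I : In) (E : ℕ → ℕ → Prop) (par ly : ℕ → ℕ) (k : ℕ) (l : List ℕ),
  PX I E par ly k l → ∀ (w : ℕ → ℕ → ℤ) (u v : ℕ), RG I E par k w u v → (∀ x y, w x y = 0) →
  bas I (tf I E par k l w u v) = true

/-- At (EASY).  NC.Al, `List.mem_product`: the routes have length `≤ k` and points `< nn I` (Rt), labels `≤ nn I` (La); `jt` is nodup, contained in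
`range (nn I + 1)` and in `mk (sg u v)`, a list of length `≤ 2 k + 1`, so its length is `≤ 2 k + 1` (`List.Nodup.subperm`).
USES NC.Al Rt La. -/
def St_At : Prop := ∀ (I : In) (E : ℕ → ℕ → Prop) (par ly : ℕ → ℕ) (k : ℕ) (l : List ℕ),
  PX I E par ly k l → ∀ (w : ℕ → ℕ → ℤ) (u v : ℕ), u < nn I → v < nn I →
  tf I E par k l w u v ∈ allT k I

/-- Fx (EASY-MEDIUM).  SATURATION, as NC/I_Sa.lean.  Let `L t = (stp k I)^[t] []`.  `L t ⊆ L (t + 1)` as sets, and `rule` is monotone in the list (for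
the order of sets); all `L t`, `t ≥ 1`, are filters of `allT k I`, `L t` is a sublist of `L (t + 1)`, so for some `t ≤ (allT k I).length + 1`
they are equal and then constant: `stp k I (sat k I) = sat k I`. -/
def St_Fx : Prop := ∀ (k : ℕ) (I : In) (F : Ft), F ∈ allT k I → rule I (sat k I) F = true →
  F ∈ sat k I

/-- Ct (MEDIUM).  ALL TRUE FACTS ARE FOUND.  Strong induction on `M w = Σ_{x, y < n} w x y` (`≥ 0`; `Int.toNat`).  `w = 0`: Bt, `rule`, At, Fx.  Otherwise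
`u v` is no step: else `kp = 0` (Kv), `w` is symmetric, `w = 0` by Ap.  So `kp u v = 1` at `u v` (Kv), `w u v = 1`, `w v u = 0`, and there is `c` with
`Tr u v c` (`RI.out`).  Sp: `wA`, `wB`; this is `SL` (`E u c`, `E c v` by `Mx.sym`); `M w = M wA + M wB + M ot`, `M ot ≥ 1`, so `M wA, M wB < M w`.  By induction the facts
of `wA`, `wB` are in `sat`; T4: `rule I (sat k I) (tf w) = T`; At, Fx.  USES Ap Kv Sp T4 Bt At Fx. -/
def St_Ct : Prop := ∀ (I : In) (E : ℕ → ℕ → Prop) (par ly : ℕ → ℕ) (k : ℕ) (l : List ℕ),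
  PX I E par ly k l → ∀ (w : ℕ → ℕ → ℤ) (u v : ℕ), RG I E par k w u v →
  tf I E par k l w u v ∈ sat k I

/-- Rf (MEDIUM).  THE LAST STEP.  `h' = hp (mm - 1)`, `h = hp 0`, `E h' h` (Hx with `j = mm - 1`, `hp mm = hp 0`), `RG w1 h' h` (Rz), so
`F = tf w1 h' h ∈ sat` (Ct).  `fin I F = T`: the routes are `[h']`, `[h]` (Rt, Lb).  Let `p` be a mark, `q = nxt p`.  If its gap contains no edge `i`
(`p ≤ i < q`, `0 < i < n`) then `p = 0`, `q = 1` or `p = n`, `q = n + 1`: fine.  Otherwise let `i = max p 1`, `x = lv i`, `y = lv (i + 1)`.  If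
`{x, y} = {h', h}` then `i`, `i + 1` are labels, so `i = p`, `q = p + 1` and the colours of `h'`, `h` differ (La): fine.  Otherwise `IN w1 h' h x y`
(`w1 = 1` where there is a triangle), so `p ∈ jt` (Gp).  USES FP.Sy FP.HC Nx Hx Rt Rz La Lb Gp Ct. -/
def St_Rf : Prop := ∀ (I : In) (E : ℕ → ℕ → Prop) (par ly : ℕ → ℕ) (k : ℕ) (l : List ℕ),
  PX I E par ly k l → lay k I = true

/-- at most `k` layers: every point is on the hull or has, for each maximal noncrossing set of segments, a neighbour in a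
lower layer -/
def LY (k : ℕ) (I : In) : Prop := ∃ ly : ℕ → ℕ, (∀ v, v < nn I → ly v < k) ∧
  ∀ E : ℕ → ℕ → Prop, Mx I E → ∀ v, v < nn I → ext I v = false → ∃ x, E v x ∧ ly x < ly v

/-- Cf (EASY-MEDIUM).  COMPLETENESS.  `nn I ≤ 1`: `lay = T`.  `nn I = 2`: the path is `[0, 1]` or `[1, 0]`, so the colours of `0` and `1` differ
(`SP.alt`).  `nn I ≥ 3`: Em: `E`; choose `par v` (`LY`); `Cx`, `PX`; Rf.  USES Em Rf. -/
def St_Cf : Prop := ∀ I : In, Good I → ∀ k : ℕ, LY k I → (∃ p, SP I p) → lay k I = true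

end Pool.Agent.Work.MP_c6c039_lc.CL
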