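import Mathlib
import Pool.Agent.Work.MP_c6c039_lc.CL.StmtsL

/-!
# Block CL, item T3: the other gaps

Author: helper57.
-/

set_option autoImplicit false

namespace Pool.Agent.Work.MP_c6c039_lc.CL

open Pool.Agent.Work.MP_c6c039_lc.FP Pool.Agent.Work.MP_c6c039_lc.NC

namespace IT3

theorem lb_append (A B : Rt) : lb (A ++ B) = lb A ++ lb B := by
  unfold lb
  rw [List.map_append]

theorem sub {I : In} {par : ℕ → ℕ} {k : ℕ} {l : List ℕ} {u v c : ℕ} :
    ∀ q ∈ lb (sg I par k l u v), q ∈ lb (s3 I par k l u v c) := by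
  intro q hq
  unfold sg at hq
  unfold s3
  rw [lb_append, List.mem_append] at hq
  rw [lb_append, lb_append, List.mem_append, List.mem_append]
  tauto

/-- an edge with an end in a point whose triangles have the weight one is inside -/
theorem inside {I : In} {E : ℕ → ℕ → Prop} {w : ℕ → ℕ → ℤ} {u v y : ℕ} (hS : SS I E w y 1)
    (hu : y ≠ u) (hv : y ≠ v) (a : ℕ) :
    (E y a → IN I E w u v y a) ∧ (E a y → IN I E w u v a y) := by
  constructor
  · intro hE
    exact ⟨hE, fun h => hu h.1, fun h => hv h.1, fun c hc => hS.1 a ⟨c, hc⟩,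
      fun c hc => hS.2 a ⟨c, hc⟩⟩
  · intro hE
    exact ⟨hE, fun h => hv h.2, fun h => hu h.2, fun c hc => hS.2 a ⟨c, hc⟩,
      fun c hc => hS.1 a ⟨c, hc⟩⟩

end IT3

theorem pr_T3 (hNx : St_Nx) (hR1 : St_R1) (hRt : St_Rt) (hLa : St_La) (hLb : St_Lb) (hI1 : St_I1)
    (hGp : St_Gp) (hT1 : St_T1) : St_T3 := by
  intro I E par ly k l hP w wA wB u v c hL p hp hpj
  have hGw := (hGp I E par ly k l hP w u v hL.r0 p hp).2
  have hmono : nxt I (s3 I par k l u v c) p ≤ nxt I (sg I par k l u v) p :=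
    (hNx I (sg I par k l u v)).2.2.2.1 (s3 I par k l u v c) p IT3.sub
  obtain ⟨hA, hB⟩ := hT1 I E par ly k l hP w wA wB u v c hL
  have hu : u < nn I := (hP.cx.mx.lt _ _ hL.r0.e).1
  have hv : v < nn I := (hP.cx.mx.lt _ _ hL.r0.e).2.1
  have hc : c < nn I := (hP.cx.mx.lt _ _ hL.t.e2).2.1
  refine ⟨?_, ?_, ?_⟩
  · by_contra hne
    have hlt : nxt I (s3 I par k l u v c) p < nxt I (sg I par k l u v) p :=
      lt_of_le_of_ne hmono hne
    obtain ⟨j, hj⟩ : ∃ j, j = nxt I (s3 I par k l u v c) p := ⟨_, rfl⟩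
    rw [← hj] at hlt
    have hru := hRt I E par ly k hP.cx u hu
    have hrv := hRt I E par ly k hP.cx v hv
    have hrc := hRt I E par ly k hP.cx c hc
    have hmem : ∀ a ∈ rl I par k u ++ (rl I par k v ++ rl I par k c), a < nn I := by
      intro a ha
      rw [List.mem_append, List.mem_append] at ha
      rcases ha with h | h | h
      · exact hru.2.2.2.2.1 a h
      · exact hrv.2.2.2.2.1 a h
      · exact hrc.2.2.2.2.1 a h
    have hmem2 : ∀ a ∈ rl I par k u ++ rl I par k v, a < nn I := by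
      intro a ha
      rw [List.mem_append] at ha
      rcases ha with h | h
      · exact hru.2.2.2.2.1 a h
      · exact hrv.2.2.2.2.1 a h
    obtain ⟨-, hLapp, hLlab, -⟩ := hLb I E par ly k l hP
    have e3 : s3 I par k l u v c = lr l (rl I par k u ++ (rl I par k v ++ rl I par k c)) := by
      unfold s3
      rw [hLapp, hLapp]
    have e2 : sg I par k l u v = lr l (rl I par k u ++ rl I par k v) := by
      unfold sg
      rw [hLapp]
    -- the mark is small
    have hpn : p ≤ nn I := by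
      unfold mk at hp
      rcases List.mem_cons.1 hp with h | h
      · omega
      · rw [e2] at h
        exact (((hLlab _ hmem2).2.1 p).1 h).2.1
    have h1 := (hNx I (sg I par k l u v)).1 p hpn
    have h2 := (hNx I (s3 I par k l u v c)).1 p hpn
    rw [← hj] at h2
    have hjn : j ≤ nn I := by omega
    have hjS : j ∈ lb (s3 I par k l u v c) := by
      rcases (hNx I (s3 I par k l u v c)).2.1 p with h | h
      · rw [← hj] at h
        omega
      · rwa [← hj] at h
    have hjg : j ∉ lb (sg I par k l u v) := by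
      intro h
      have := (hNx I (sg I par k l u v)).2.2.1 p j h hjn h2.1
      omega
    rw [e3, (hLlab _ hmem).2.1 j] at hjS
    rw [e2, (hLlab _ hmem2).2.1 j] at hjg
    have hyu : lv l j ∉ rl I par k u := fun h =>
      hjg ⟨hjS.1, hjS.2.1, List.mem_append.2 (Or.inl h)⟩
    have hyv : lv l j ∉ rl I par k v := fun h =>
      hjg ⟨hjS.1, hjS.2.1, List.mem_append.2 (Or.inr h)⟩
    have hyc : lv l j ∈ rl I par k c := by
      have h := hjS.2.2
      rw [List.mem_append, List.mem_append] at h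
      rcases h with h | h | h
      · exact absurd h hyu
      · exact absurd h hyv
      · exact h
    have hSS := hR1 I E par ly k hP.cx u v c hL.t w hL.r0.ri hL.r0.bdy hL.w1 _ hyc hyu hyv
    have hyu' : lv l j ≠ u := fun h => hyu (h ▸ hru.2.2.2.2.2.2.1)
    have hyv' : lv l j ≠ v := fun h => hyv (h ▸ hrv.2.2.2.2.2.2.1)
    have hn3 := hP.cx.n3
    have hEd := (hLa I E par ly k l hP).2.2
    apply hpj
    rw [hGw]
    by_cases hj2 : 2 ≤ j
    · refine ⟨j - 1, by omega, by omega, by omega, by omega, ?_⟩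
      have e4 : j - 1 + 1 = j := by omega
      have h3 := (hEd (j - 1) (by omega) (by omega)).1
      rw [e4] at h3 ⊢
      exact (IT3.inside hSS hyu' hyv' _).2 h3
    · have e5 : j = 1 := by omega
      refine ⟨j, by omega, hlt, by omega, by omega, ?_⟩
      have h3 := (hEd j (by omega) (by omega)).1
      exact (IT3.inside hSS hyu' hyv' _).1 h3
  · intro h
    obtain ⟨k1, k2, -⟩ := hA p h
    obtain ⟨i, i1, i2, i3, i4, i5⟩ := (hGp I E par ly k l hP wA u c hL.ra p k1).2.1 h
    apply hpj
    rw [hGw]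
    rw [k2] at i2
    exact ⟨i, i1, by omega, i3, i4,
      (hI1 I E par ly k hP.cx w wA wB u v c hL _ _).1 i5⟩
  · intro h
    obtain ⟨k1, k2⟩ := hB p h
    obtain ⟨i, i1, i2, i3, i4, i5⟩ := (hGp I E par ly k l hP wB c v hL.rb p k1).2.1 h
    apply hpj
    rw [hGw]
    rw [k2] at i2
    exact ⟨i, i1, by omega, i3, i4,
      (hI1 I E par ly k hP.cx w wA wB u v c hL _ _).2.1 i5⟩

end Pool.Agent.Work.MP_c6c039_lc.CL
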