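import Pool.Agent.Work.MP_c6c039_lc.CL.StmtsL

/-!
# Block CL, item T4: one step for the true facts
-/

set_option autoImplicit false

namespace Pool.Agent.Work.MP_c6c039_lc.CL

open Pool.Agent.Work.MP_c6c039_lc.FP Pool.Agent.Work.MP_c6c039_lc.NC

namespace IT4

theorem cmt_of (I : In) (A B C : Rt) (J JA JB : List ℕ) (h1 : rv I A = true) (h2 : rv I B = true)
    (h3 : rv I C = true) (h4 : cons I (A ++ (B ++ C)) = true)
    (h5 : chi I (hd A) (hd B) (hd C) = true)
    (h6 : ∀ x, x < nn I → x ≠ hd A → x ≠ hd B → x ≠ hd C →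
      inT I (hd A) (hd B) (hd C) x = false)
    (h7 : ∀ p ∈ JA, p ∈ mk (A ++ C) ∧ nxt I (A ++ C) p = nxt I (A ++ (B ++ C)) p ∧ p ∉ JB)
    (h8 : ∀ p ∈ JB, p ∈ mk (C ++ B) ∧ nxt I (C ++ B) p = nxt I (A ++ (B ++ C)) p)
    (h9 : ∀ p ∈ J, p ∈ mk (A ++ B))
    (h10 : ∀ p ∈ J, ∀ r ∈ mk (A ++ (B ++ C)), p ≤ r → r < nxt I (A ++ B) p →
      rz I A B C JA JB r = true)
    (h11 : ∀ p ∈ mk (A ++ B), p ∉ J → nxt I (A ++ (B ++ C)) p = nxt I (A ++ B) p ∧ p ∉ JA ∧
      p ∉ JB) : cmt I A B C J JA JB = true := by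
  unfold cmt
  rw [h1, h2, h3, h4, h5]
  simp only [Bool.and_eq_true, and_self, true_and]
  refine ⟨?_, ⟨?_, ?_⟩, ?_, ?_⟩
  · rw [List.all_eq_true]
    intro x hx
    rw [List.mem_range] at hx
    rw [Bool.or_eq_true, Bool.or_eq_true, Bool.or_eq_true, beq_iff_eq, beq_iff_eq, beq_iff_eq]
    by_cases e1 : x = hd A
    · exact Or.inl e1
    by_cases e2 : x = hd B
    · exact Or.inr (Or.inl e2)
    by_cases e3 : x = hd C
    · exact Or.inr (Or.inr (Or.inl e3))
    · refine Or.inr (Or.inr (Or.inr ?_))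
      rw [h6 x hx e1 e2 e3]
      rfl
  · rw [List.all_eq_true]
    intro p hp
    obtain ⟨g1, g2, g3⟩ := h7 p hp
    rw [Bool.and_eq_true, Bool.and_eq_true, beq_iff_eq, decide_eq_true_iff, decide_eq_false g3]
    exact ⟨g1, g2, rfl⟩
  · rw [List.all_eq_true]
    intro p hp
    obtain ⟨g1, g2⟩ := h8 p hp
    rw [Bool.and_eq_true, beq_iff_eq, decide_eq_true_iff]
    exact ⟨g1, g2⟩
  · rw [List.all_eq_true]
    intro p hp
    exact decide_eq_true (h9 p hp)
  · rw [List.all_eq_true]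
    intro p hp
    by_cases hpJ : p ∈ J
    · rw [if_pos hpJ, List.all_eq_true]
      intro r hr
      rw [Bool.or_eq_true, Bool.or_eq_true, decide_eq_true_iff, decide_eq_true_iff]
      by_cases e1 : r < p
      · exact Or.inl e1
      by_cases e2 : nxt I (A ++ B) p ≤ r
      · exact Or.inr (Or.inl e2)
      · exact Or.inr (Or.inr (h10 p hpJ r hr (not_lt.1 e1) (not_le.1 e2)))
    · obtain ⟨g1, g2, g3⟩ := h11 p hp hpJ
      rw [if_neg hpJ, Bool.and_eq_true, Bool.and_eq_true, beq_iff_eq, decide_eq_false g2,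
        decide_eq_false g3]
      exact ⟨g1, rfl, rfl⟩

end IT4

theorem pr_T4 (hRt : St_Rt) (hLb : St_Lb) (hT1 : St_T1) (hT2 : St_T2) (hT3 : St_T3) : St_T4 := by
  intro I E par ly k l hP w wA wB u v c hS
  have hC := hP.cx
  have hM := hC.mx
  have hT := hS.t
  obtain ⟨hu, hv, huv⟩ := hM.lt _ _ hT.e1
  obtain ⟨-, hc, hvc⟩ := hM.lt _ _ hT.e2
  obtain ⟨-, -, hcu⟩ := hM.lt _ _ hT.e3
  obtain ⟨L1, L2, L3, L4⟩ := hLb I E par ly k l hP
  obtain ⟨-, -, -, -, U1, U2, -⟩ := hRt I E par ly k hC u hu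
  obtain ⟨-, -, -, -, V1, V2, -⟩ := hRt I E par ly k hC v hv
  obtain ⟨-, -, -, -, C1, C2, -⟩ := hRt I E par ly k hC c hc
  have hdu : hd (lr l (rl I par k u)) = u := (L1 _).2.trans U2
  have hdv : hd (lr l (rl I par k v)) = v := (L1 _).2.trans V2
  have hdc : hd (lr l (rl I par k c)) = c := (L1 _).2.trans C2
  obtain ⟨T1a, T1b⟩ := hT1 I E par ly k l hP w wA wB u v c hS
  have T2' := hT2 I E par ly k l hP w wA wB u v c hS
  have T3' := hT3 I E par ly k l hP w wA wB u v c hS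
  unfold cmb tf
  rw [Bool.and_eq_true]
  refine ⟨?_, ?_⟩
  · rw [Bool.and_eq_true, Bool.and_eq_true]
    exact ⟨decide_eq_true rfl, decide_eq_true rfl, decide_eq_true rfl⟩
  · refine IT4.cmt_of I _ _ _ _ _ _ (L4 u hu) (L4 v hv) (L4 c hc) ?_ ?_ ?_ T1a T1b ?_ T2' T3'
    · rw [← L2, ← L2]
      refine (L3 _ ?_).1
      intro a ha
      rw [List.mem_append, List.mem_append] at ha
      rcases ha with ha | ha | ha
      · exact U1 a ha
      · exact V1 a ha
      · exact C1 a ha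
    · rw [hdu, hdv, hdc]
      exact hT.pos
    · intro x hx e1 e2 e3
      rw [hdu] at e1 ⊢
      rw [hdv] at e2 ⊢
      rw [hdc] at e3 ⊢
      refine hT.emp x ⟨?_, ?_⟩
      · simp only [List.nodup_cons, List.mem_cons, List.not_mem_nil, or_false, not_or,
          List.nodup_nil, and_true, not_false_eq_true]
        exact ⟨⟨huv, hcu.symm, fun h => e1 h.symm⟩, ⟨hvc, fun h => e2 h.symm⟩,
          fun h => e3 h.symm⟩
      · intro a ha
        simp only [List.mem_cons, List.not_mem_nil, or_false] at ha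
        rcases ha with rfl | rfl | rfl | rfl
        · exact hu
        · exact hv
        · exact hc
        · exact hx
    · intro p hp
      unfold jt at hp
      have h1 := (List.mem_filter.1 hp).2
      simp only [decide_eq_true_eq] at h1
      exact h1.1

end Pool.Agent.Work.MP_c6c039_lc.CL
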