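import Pool.Agent.Work.MP_c6c039_lc.CL.StmtsG

/-!
# Item Ti of the block CL: consecutive neighbours
-/

set_option autoImplicit false

namespace Pool.Agent.Work.MP_c6c039_lc.CL

open Pool.Agent.Work.MP_c6c039_lc.FP Pool.Agent.Work.MP_c6c039_lc.NC

namespace ITi

theorem ds3 {I : In} {a b c : ℕ} : Ds I [a, b, c] ↔
    (a ≠ b ∧ a ≠ c ∧ b ≠ c) ∧ a < nn I ∧ b < nn I ∧ c < nn I := by
  unfold Ds
  simp only [List.nodup_cons, List.mem_cons, List.not_mem_nil, or_false, not_or,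
    not_false_eq_true, List.nodup_nil, and_true, forall_eq_or_imp, forall_eq]
  tauto

theorem ds4 {I : In} {a b c d : ℕ} : Ds I [a, b, c, d] ↔
    (a ≠ b ∧ a ≠ c ∧ a ≠ d ∧ b ≠ c ∧ b ≠ d ∧ c ≠ d) ∧
      a < nn I ∧ b < nn I ∧ c < nn I ∧ d < nn I := by
  unfold Ds
  simp only [List.nodup_cons, List.mem_cons, List.not_mem_nil, or_false, not_or,
    not_false_eq_true, List.nodup_nil, and_true, forall_eq_or_imp, forall_eq]
  tauto

theorem ds5 {I : In} {a b c d e : ℕ} : Ds I [a, b, c, d, e] ↔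
    (a ≠ b ∧ a ≠ c ∧ a ≠ d ∧ a ≠ e ∧ b ≠ c ∧ b ≠ d ∧ b ≠ e ∧ c ≠ d ∧ c ≠ e ∧ d ≠ e) ∧
      a < nn I ∧ b < nn I ∧ c < nn I ∧ d < nn I ∧ e < nn I := by
  unfold Ds
  simp only [List.nodup_cons, List.mem_cons, List.not_mem_nil, or_false, not_or,
    not_false_eq_true, List.nodup_nil, and_true, forall_eq_or_imp, forall_eq]
  tauto

/-- a segment from `z` which crosses `a b` is between `a` and `b` -/
theorem btw {I : In} (C : CH I) (hCq : FP.St_Cq) {z a b d : ℕ} (hpos : chi I z a b = true)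
    (hd : Ds I [a, b, z, d]) (hcr : cr I a b z d = true) :
    chi I z a d = true ∧ chi I z d b = true := by
  obtain ⟨⟨n1, n2, n3, n4, n5, n6⟩, l1, l2, l3, l4⟩ := ds4.mp hd
  have h1 := hCq I C a b z d hd hcr
  have e1 : chi I a z b = !chi I z a b := C.anti z a b (ds3.mpr ⟨⟨n2.symm, n4.symm, n1⟩, l3, l1, l2⟩)
  have e2 : chi I a z d = !chi I z a d := C.anti z a d (ds3.mpr ⟨⟨n2.symm, n6, n3⟩, l3, l1, l4⟩)
  have e3 : chi I z d a = chi I a z d := C.cyc a z d (ds3.mpr ⟨⟨n2, n3, n6⟩, l1, l3, l4⟩)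
  rw [hpos] at e1
  rw [e1, e2] at h1
  have h2 : chi I z a d = true := by
    cases h : chi I z a d
    · rw [h] at h1
      exact absurd h1 (by decide)
    · rfl
  refine ⟨h2, ?_⟩
  rw [h2] at e2
  rw [e2] at e3
  unfold cr at hcr
  rw [e3] at hcr
  cases h : chi I z d b
  · rw [h] at hcr
    simp at hcr
  · rfl

end ITi

open ITi in
theorem pr_Ti (hSy : FP.St_Sy) (hCs : FP.St_Cs) (hT5 : FP.St_T5) (hCq : FP.St_Cq) (hVi : St_Vi)
    (hKt : St_Kt) : St_Ti := by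
  intro I hI E M z a b hza hzb hpos hno
  have C := hSy I hI
  obtain ⟨lz, la, nza⟩ := M.lt z a hza
  obtain ⟨-, lb, nzb⟩ := M.lt z b hzb
  have nab : a ≠ b := by
    rintro rfl
    rw [(C.deg z a lz la).2.2] at hpos
    exact Bool.false_ne_true hpos
  have hemp : ∀ x, Ds I [z, a, b, x] → inT I z a b x = false := by
    intro x hx
    by_contra hne
    rw [Bool.not_eq_false] at hne
    obtain ⟨k1, k2⟩ := hKt I hI E M z a b hza hzb (ds3.mpr ⟨⟨nza, nzb, nab⟩, lz, la, lb⟩)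
    obtain ⟨y, ⟨hy1, hy2⟩, hzy⟩ := hVi I hI E M z
      (fun x => Ds I [z, a, b, x] ∧ inT I z a b x = true) lz
      (fun y hy => by
        obtain ⟨⟨-, -, n3, -⟩, -, -, -, l4⟩ := ds4.mp hy.1
        exact ⟨l4, n3.symm⟩)
      (fun y w x hy hw h1 h2 => k1 y w x hy.1 hy.2 hw.1 hw.2 h1 h2)
      (fun y p q hy hpq h1 h2 => k2 y p q hy.1 hy.2 hpq h1 h2) ⟨x, hx, hne⟩
    obtain ⟨⟨n1, n2, n3, n4, n5, n6⟩, -, -, -, l4⟩ := ds4.mp hy1
    unfold inT at hy2
    rw [Bool.and_eq_true, beq_iff_eq, beq_iff_eq] at hy2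
    have f := C.four z a b y (chi I z a y) hy1 rfl hy2.1.symm (hy2.1.trans hy2.2).symm
    rw [hpos] at f
    have g : chi I z y b = chi I b z y :=
      C.cyc b z y (ds3.mpr ⟨⟨n2.symm, n6, n3⟩, lb, lz, l4⟩)
    refine hno y hzy ⟨f.symm, ?_⟩
    rw [g, ← hy2.2, ← hy2.1]
    exact f.symm
  have hab : E a b := by
    apply M.max a b la lb nab
    intro c d hcd hds
    by_contra hne
    rw [Bool.not_eq_false] at hne
    obtain ⟨⟨n1, n2, n3, n4, n5, n6⟩, l1, l2, l3, l4⟩ := ds4.mp hds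
    by_cases hcz : c = z
    · subst hcz
      exact hno d hcd (btw C hCq hpos hds hne)
    · by_cases hdz : d = z
      · subst hdz
        have hds' : Ds I [a, b, d, c] := ds4.mpr ⟨⟨n1, n3, n2, n5, n4, n6.symm⟩, l1, l2, l4, l3⟩
        have hcr' : cr I a b d c = true := by
          rw [(hCs I C a b c d hds).2.1]
          exact hne
        exact hno c (M.sym _ _ hcd) (btw C hCq hpos hds' hcr')
      · have t := hT5 I C z a b c d (ds5.mpr ⟨⟨nza, nzb, fun h => hcz h.symm, fun h => hdz h.symm,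
          n1, n2, n3, n4, n5, n6⟩, lz, l1, l2, l3, l4⟩)
        have r1 : cr I z a c d = false := M.nc z a c d hza hcd
          (ds4.mpr ⟨⟨nza, fun h => hcz h.symm, fun h => hdz h.symm, n2, n3, n6⟩, lz, l1, l3, l4⟩)
        have r2 : cr I b z c d = false := M.nc b z c d (M.sym _ _ hzb) hcd
          (ds4.mpr ⟨⟨nzb.symm, n4, n5, fun h => hcz h.symm, fun h => hdz h.symm, n6⟩,
            l2, lz, l3, l4⟩)
        have r3 := hemp c (ds4.mpr ⟨⟨nza, nzb, fun h => hcz h.symm, nab, n2, n4⟩, lz, l1, l2, l3⟩)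
        have r4 := hemp d (ds4.mpr ⟨⟨nza, nzb, fun h => hdz h.symm, nab, n3, n5⟩, lz, l1, l2, l4⟩)
        rw [r1, r2, r3, r4, hne] at t
        exact absurd t (by decide)
  exact ⟨hza, hab, M.sym _ _ hzb, hpos, hemp⟩

end Pool.Agent.Work.MP_c6c039_lc.CL
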