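import Pool.Agent.Work.MP_c6c039_lc.CL.StmtsW

/-!
# Block CL, item Ts: a closed chain on the tree is zero
-/

set_option autoImplicit false

namespace Pool.Agent.Work.MP_c6c039_lc.CL

open Pool.Agent.Work.MP_c6c039_lc.FP Pool.Agent.Work.MP_c6c039_lc.NC

/-- Ts. -/
theorem pr_Ts (hFo : St_Fo) : St_Ts := by
  classical
  intro I E par ly k hC γ hγ htree
  obtain ⟨-, hFo2⟩ := hFo I E par ly k hC
  have hlt : ∀ x y, γ x y ≠ 0 → x < nn I ∧ y < nn I := fun x y h =>
    ⟨(hC.mx.lt x y (hγ.sup x y h)).1, (hC.mx.lt x y (hγ.sup x y h)).2.1⟩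
  -- the steps with nonzero value
  obtain ⟨S, hS⟩ : ∃ S : Finset ℕ, S = (Finset.range (nn I)).filter
    fun x => x ≠ hp I 0 ∧ γ x (pf I par x) ≠ 0 := ⟨_, rfl⟩
  have hmem : ∀ x, x ≠ hp I 0 → γ x (pf I par x) ≠ 0 → x ∈ S := by
    intro x h1 h2
    rw [hS, Finset.mem_filter, Finset.mem_range]
    exact ⟨(hlt _ _ h2).1, h1, h2⟩
  have hSe : ¬ S.Nonempty := by
    intro hne
    obtain ⟨x, hx, hmax⟩ := Finset.exists_max_image S (fun x => rn I ly x) hne
    rw [hS, Finset.mem_filter, Finset.mem_range] at hx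
    obtain ⟨hxn, hx0, hxγ⟩ := hx
    have hsum := hγ.clo x
    have hpn : pf I par x < nn I := (hlt _ _ hxγ).2
    rw [Finset.sum_eq_single_of_mem (pf I par x) (Finset.mem_range.2 hpn)] at hsum
    · exact hxγ hsum
    · intro y _ hy
      by_contra hne'
      rcases htree x y hne' with ⟨-, h2⟩ | ⟨h1, h2⟩
      · exact hy h2
      · have h3 : γ y (pf I par y) ≠ 0 := by
          rw [← h2, hγ.anti y x]
          exact neg_ne_zero.2 hne'
        have h4 := hmax y (hmem y h1 h3)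
        have h5 := ((hFo2 y (hlt _ _ h3).1).1 h1).2.2.2
        rw [← h2] at h5
        exact absurd h5 (not_lt.2 h4)
  intro x y
  by_contra hne
  rcases htree x y hne with ⟨h1, h2⟩ | ⟨h1, h2⟩
  · exact hSe ⟨x, hmem x h1 (by rw [← h2]; exact hne)⟩
  · exact hSe ⟨y, hmem y h1 (by
      rw [← h2, hγ.anti y x]
      exact neg_ne_zero.2 hne)⟩

end Pool.Agent.Work.MP_c6c039_lc.CL
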