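import Pool.Agent.Work.MP_c6c039_lc.CL.StmtsG

/-!
# Block CL, item Uq
-/

set_option autoImplicit false

namespace Pool.Agent.Work.MP_c6c039_lc.CL

open Pool.Agent.Work.MP_c6c039_lc.FP Pool.Agent.Work.MP_c6c039_lc.NC

namespace IUq

theorem ds3 {I : In} {a b c : ℕ} (ha : a < nn I) (hb : b < nn I) (hc : c < nn I) (h1 : a ≠ b)
    (h2 : b ≠ c) (h3 : a ≠ c) : Ds I [a, b, c] := by
  refine ⟨by simp [h1, h2, h3], ?_⟩
  intro x hx
  simp only [List.mem_cons, List.not_mem_nil, or_false] at hx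
  rcases hx with rfl | rfl | rfl <;> assumption

theorem ds4 {I : In} {a b c d : ℕ} (ha : a < nn I) (hb : b < nn I) (hc : c < nn I)
    (hd : d < nn I) (h1 : a ≠ b) (h2 : b ≠ c) (h3 : a ≠ c) (h4 : a ≠ d) (h5 : b ≠ d)
    (h6 : c ≠ d) : Ds I [a, b, c, d] := by
  refine ⟨by simp [h1, h2, h3, h4, h5, h6], ?_⟩
  intro x hx
  simp only [List.mem_cons, List.not_mem_nil, or_false] at hx
  rcases hx with rfl | rfl | rfl | rfl <;> assumption

/-- the odd permutation of the last two points -/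
theorem swp {I : In} (h : CH I) {a b c : ℕ} (ha : a < nn I) (hb : b < nn I) (hc : c < nn I)
    (h1 : a ≠ b) (h2 : b ≠ c) (h3 : a ≠ c) : chi I a c b = !chi I a b c := by
  have e1 : chi I a c b = chi I b a c := h.cyc b a c (ds3 hb ha hc h1.symm h3 h2)
  rw [e1]
  exact h.anti a b c (ds3 ha hb hc h1 h2 h3)

theorem aux {I : In} (h : CH I) {E : ℕ → ℕ → Prop} (M : Mx I E) {a b c c' : ℕ}
    (t : Tr I E a b c) (t' : Tr I E a b c') (hne : c ≠ c') (hT : chi I a c c' = true) : False := by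
  obtain ⟨ha, hb, hab⟩ := M.lt _ _ t.e1
  obtain ⟨-, hc, hbc⟩ := M.lt _ _ t.e2
  obtain ⟨-, -, hca⟩ := M.lt _ _ t.e3
  obtain ⟨-, hc', hbc'⟩ := M.lt _ _ t'.e2
  obtain ⟨-, -, hca'⟩ := M.lt _ _ t'.e3
  have e1 : chi I c' a c = true := by
    have : chi I a c c' = chi I c' a c := h.cyc c' a c (ds3 hc' ha hc hca' hca.symm hne.symm)
    rw [← this]; exact hT
  have e2 : chi I b c' c = false := by
    by_contra hcon
    have hcon' : chi I b c' c = true := by
      cases hh : chi I b c' c with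
      | true => rfl
      | false => exact absurd hh hcon
    have h1 := t'.emp c (ds4 ha hb hc' hc hab hbc' hca'.symm hca.symm hbc hne.symm)
    unfold inT at h1
    rw [t.pos, hcon', e1] at h1
    simp at h1
  have e3 : chi I a c b = false := by
    rw [swp h ha hb hc hab hbc hca.symm, t.pos]; rfl
  have e4 : chi I b c' a = true := by
    have : chi I b c' a = chi I a b c' := h.cyc a b c' (ds3 ha hb hc' hab hbc' hca'.symm)
    rw [this]; exact t'.pos
  have h1 := M.nc a c b c' (M.sym _ _ t.e3) t'.e2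
    (ds4 ha hc hb hc' hca.symm hbc.symm hab hca'.symm hne hbc')
  unfold cr at h1
  rw [e3, hT, e4, e2] at h1
  simp at h1

end IUq

theorem pr_Uq (hSy : FP.St_Sy) : St_Uq := by
  intro I hR E M
  have h : CH I := hSy I hR
  refine ⟨?_, ?_⟩
  · intro a b c t
    obtain ⟨ha, hb, hab⟩ := M.lt _ _ t.e1
    obtain ⟨-, hc, hbc⟩ := M.lt _ _ t.e2
    obtain ⟨-, -, hca⟩ := M.lt _ _ t.e3
    refine ⟨t.e2, t.e3, t.e1, ?_, ?_⟩
    · rw [h.cyc a b c (IUq.ds3 ha hb hc hab hbc hca.symm)]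
      exact t.pos
    · intro x hx
      obtain ⟨hn, hlt⟩ := hx
      have hxl : x < nn I := hlt x (by simp)
      simp only [List.nodup_cons, List.mem_cons, List.not_mem_nil, or_false, not_or,
        not_false_eq_true, List.nodup_nil, and_true] at hn
      obtain ⟨⟨-, -, hbx⟩, ⟨-, hcx⟩, hax⟩ := hn
      have h1 := t.emp x (IUq.ds4 ha hb hc hxl hab hbc hca.symm hax hbx hcx)
      unfold inT at h1 ⊢
      revert h1
      cases chi I a b x <;> cases chi I b c x <;> cases chi I c a x <;> decide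
  · intro a b c c' t t'
    by_contra hne
    obtain ⟨ha, hb, hab⟩ := M.lt _ _ t.e1
    obtain ⟨-, hc, hbc⟩ := M.lt _ _ t.e2
    obtain ⟨-, -, hca⟩ := M.lt _ _ t.e3
    obtain ⟨-, hc', hbc'⟩ := M.lt _ _ t'.e2
    obtain ⟨-, -, hca'⟩ := M.lt _ _ t'.e3
    cases hh : chi I a c c' with
    | true => exact IUq.aux h M t t' hne hh
    | false =>
      refine IUq.aux h M t' t (Ne.symm hne) ?_
      rw [IUq.swp h ha hc hc' hca.symm hne hca'.symm, hh]; rfl

end Pool.Agent.Work.MP_c6c039_lc.CL
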