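import Pool.Agent.Work.MP_c6c039_lc.CL.StmtsG

/-!
# Block CL, item Vi: a visible point
-/

set_option autoImplicit false

namespace Pool.Agent.Work.MP_c6c039_lc.CL

open Pool.Agent.Work.MP_c6c039_lc.FP Pool.Agent.Work.MP_c6c039_lc.NC

namespace IVi

theorem ds_swap {I : In} {u y a b : ℕ} (h : Ds I [u, y, a, b]) : Ds I [u, y, b, a] := by
  obtain ⟨h1, h2⟩ := h
  refine ⟨?_, ?_⟩
  · simp only [List.nodup_cons, List.mem_cons, List.not_mem_nil, or_false, not_or,
      List.nodup_nil, not_false_eq_true, and_true] at h1 ⊢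
    tauto
  · intro x hx
    refine h2 x ?_
    simp only [List.mem_cons, List.not_mem_nil, or_false] at hx ⊢
    tauto

open Classical in
/-- the pairs of `E` which cross `u y` -/
noncomputable def P (I : In) (E : ℕ → ℕ → Prop) (u y : ℕ) : Finset (ℕ × ℕ) :=
  ((Finset.range (nn I)) ×ˢ (Finset.range (nn I))).filter fun q =>
    E q.1 q.2 ∧ Ds I [u, y, q.1, q.2] ∧ cr I u y q.1 q.2 = true

theorem mem_P {I : In} {E : ℕ → ℕ → Prop} {u y a b : ℕ} :
    (a, b) ∈ P I E u y ↔ E a b ∧ Ds I [u, y, a, b] ∧ cr I u y a b = true := by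
  unfold P
  simp only [Finset.mem_filter, Finset.mem_product, Finset.mem_range]
  constructor
  · rintro ⟨-, h⟩
    exact h
  · intro h
    exact ⟨⟨h.2.1.2 a (by simp), h.2.1.2 b (by simp)⟩, h⟩

end IVi

open IVi in
theorem pr_Vi (hSy : FP.St_Sy) (hCs : FP.St_Cs) (hVz : St_Vz) : St_Vi := by
  intro I hR E hM u K hu hK h1 h2 hne
  have step : ∀ y a b, K y → E a b → Ds I [u, y, a, b] → cr I u y a b = true → K b →
      ∃ y', K y' ∧ (P I E u y').card < (P I E u y).card := by
    intro y a b hy hE hD hc hb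
    obtain ⟨y', hy', hsub, hnot⟩ := hVz I hR E hM u y a b hE hD hc
    refine ⟨y', ?_, ?_⟩
    · rcases hy' with h | ⟨h3, h4⟩
      · rw [h]; exact hb
      · exact h1 y b y' hy hb h3 h4
    · refine Finset.card_lt_card (Finset.ssubset_iff_subset_ne.mpr ⟨?_, ?_⟩)
      · rintro ⟨p, q⟩ hpq
        obtain ⟨g1, g2, g3⟩ := mem_P.mp hpq
        exact mem_P.mpr ⟨g1, hsub p q g1 g2 g3⟩
      · intro heq
        have g1 : (a, b) ∈ P I E u y := mem_P.mpr ⟨hE, hD, hc⟩
        rw [← heq] at g1
        exact hnot (mem_P.mp g1).2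
  have main : ∀ n y, (P I E u y).card = n → K y → ∃ y', K y' ∧ E u y' := by
    intro n
    induction n using Nat.strong_induction_on with
    | _ n ih =>
      intro y hn hy
      rcases (P I E u y).eq_empty_or_nonempty with he | ⟨⟨a, b⟩, hab⟩
      · refine ⟨y, hy, hM.max u y hu (hK y hy).1 (hK y hy).2.symm ?_⟩
        intro c d hcd hD
        by_contra hcr
        have hcr' : cr I u y c d = true := by
          rcases h : cr I u y c d with _ | _
          · exact absurd h hcr
          · rfl
        have : (c, d) ∈ P I E u y := mem_P.mpr ⟨hcd, hD, hcr'⟩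
        rw [he] at this
        exact absurd this (Finset.notMem_empty _)
      · obtain ⟨hE, hD, hc⟩ := mem_P.mp hab
        have hy' : ∃ y', K y' ∧ (P I E u y').card < (P I E u y).card := by
          rcases h2 y a b hy hE hD hc with ha | hb
          · refine step y b a hy (hM.sym a b hE) (ds_swap hD) ?_ ha
            rw [(hCs I (hSy I hR) u y a b hD).2.1]
            exact hc
          · exact step y a b hy hE hD hc hb
        obtain ⟨y', hy1, hy2⟩ := hy'
        exact ih _ (hn ▸ hy2) y' rfl hy1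
  obtain ⟨y, hy⟩ := hne
  exact main _ y rfl hy

end Pool.Agent.Work.MP_c6c039_lc.CL
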