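import Pool.Agent.Work.MP_c6c039_lc.CL.StmtsG

/-!
# Item Vz of block CL: one step of the search for a visible point

The geometric core is the theorem `core` below, in terms of products of signed areas (so that the
mirror image needs no extra work).  With `f x = [abx]`, `G x = [pqx]` and `w` the common point of
`u y` and `a b` the proof only uses the barycentric identity `idK`.
-/

set_option autoImplicit false

namespace Pool.Agent.Work.MP_c6c039_lc.CL

open Pool.Agent.Work.MP_c6c039_lc.FP Pool.Agent.Work.MP_c6c039_lc.NC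

namespace IVz

/-- the segments cross -/
def CR (X Y : ℕ → ℝ) (a b c d : ℕ) : Prop :=
  ar X Y a b c * ar X Y a b d < 0 ∧ ar X Y c d a * ar X Y c d b < 0

/-- inside the triangle -/
def IT (X Y : ℕ → ℝ) (a b c p : ℕ) : Prop :=
  0 < ar X Y a b p * ar X Y b c p ∧ 0 < ar X Y b c p * ar X Y c a p

theorem ar_neg (X Y : ℕ → ℝ) (a b c : ℕ) : ar X (fun i => - Y i) a b c = - ar X Y a b c := by
  unfold ar
  ring

theorem CR_neg (X Y : ℕ → ℝ) (a b c d : ℕ) : CR X (fun i => - Y i) a b c d ↔ CR X Y a b c d := by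
  unfold CR
  simp only [ar_neg, neg_mul_neg]

theorem IT_neg (X Y : ℕ → ℝ) (a b c d : ℕ) : IT X (fun i => - Y i) a b c d ↔ IT X Y a b c d := by
  unfold IT
  simp only [ar_neg, neg_mul_neg]

theorem CR_swap (X Y : ℕ → ℝ) (a b c d : ℕ) (h : CR X Y a b c d) : CR X Y a b d c := by
  obtain ⟨h1, h2⟩ := h
  have e1 : ar X Y d c a = - ar X Y c d a := by unfold ar; ring
  have e2 : ar X Y d c b = - ar X Y c d b := by unfold ar; ring
  refine ⟨by rw [mul_comm]; exact h1, ?_⟩
  rw [e1, e2, neg_mul_neg]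
  exact h2

section ids

variable (X Y : ℕ → ℝ)

theorem id1 (u y a b : ℕ) :
    ar X Y a b u - ar X Y a b y = ar X Y u y b - ar X Y u y a := by
  unfold ar
  ring

theorem idK (u y a b p q x : ℕ) :
    ar X Y u y b * ar X Y a b u * ar X Y p q x =
      ar X Y u y b * ar X Y a b x * ar X Y p q u +
      ar X Y u x b * (ar X Y a b u * ar X Y p q y - ar X Y a b y * ar X Y p q u) +
      ar X Y u y x * ar X Y a b u * ar X Y p q b := by
  unfold ar
  ring

theorem id3 (u y a b p q : ℕ) :
    ar X Y a b u * ar X Y p q y - ar X Y a b y * ar X Y p q u =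
      ar X Y u y b * ar X Y p q a - ar X Y u y a * ar X Y p q b := by
  unfold ar
  ring

theorem id4 (u y b z p : ℕ) :
    ar X Y u y b * ar X Y u z p = ar X Y u z b * ar X Y u y p - ar X Y u y z * ar X Y u p b := by
  unfold ar
  ring

theorem id5 (u z a b p q : ℕ) :
    ar X Y u z q * ar X Y a b p - ar X Y u z p * ar X Y a b q =
      ar X Y p q u * ar X Y a b z - ar X Y p q z * ar X Y a b u := by
  unfold ar
  ring

theorem id6 (u z p q : ℕ) :
    ar X Y p q u - ar X Y p q z = ar X Y u z q - ar X Y u z p := by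
  unfold ar
  ring

/-- barycentric identity for the point `x` and the triangle `u y b` -/
theorem id7 (u y a b x : ℕ) :
    ar X Y u y b * ar X Y a b x = ar X Y a b u * ar X Y y b x + ar X Y a b y * ar X Y u x b := by
  unfold ar
  ring

theorem ar0 (a b : ℕ) : ar X Y a a b = 0 ∧ ar X Y a b a = 0 ∧ ar X Y a b b = 0 := by
  unfold ar
  refine ⟨by ring, by ring, by ring⟩

end ids

/-- Signs of two numbers with a negative product and a positive difference. -/
theorem sgn {r s : ℝ} (h : r * s < 0) (h' : 0 < r - s) : 0 < r ∧ s < 0 := by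
  rcases mul_neg_iff.1 h with h1 | h1
  · exact h1
  · exfalso
    linarith [h1.1, h1.2]

/-- The main step: a segment `p q` which crosses `u z` crosses `u y`. -/
theorem main (n : ℕ) (X Y : ℕ → ℝ)
    (gp : ∀ a b c, a < n → b < n → c < n → a ≠ b → b ≠ c → a ≠ c → ar X Y a b c ≠ 0)
    (u y a b z p q : ℕ) (hu : u < n) (hy : y < n) (ha : a < n) (hb : b < n) (hp : p < n)
    (huy : u ≠ y) (hab : a ≠ b) (hup : u ≠ p) (hpq : p ≠ q)
    (nc : [a, b, p, q].Nodup → ¬ CR X Y a b p q)
    (hD : 0 < ar X Y u y b) (hta : ar X Y u y a < 0) (hfu : 0 < ar X Y a b u)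
    (hfy : ar X Y a b y < 0) (htz : 0 < ar X Y u y z) (hsz : 0 ≤ ar X Y u z b)
    (hfz : 0 ≤ ar X Y a b z)
    (hmin : 0 < ar X Y u y p → 0 < ar X Y u p b → 0 < ar X Y a b p → 0 ≤ ar X Y u z p)
    (hA : ar X Y u z p < 0) (hB : 0 < ar X Y u z q) (hGu : 0 < ar X Y p q u)
    (hGz : ar X Y p q z < 0) :
    ar X Y u y p < 0 ∧ 0 < ar X Y u y q ∧ ar X Y p q y < 0 := by
  have k3 := id3 X Y u y a b p q
  have kz := idK X Y u y a b p q z
  have kp := idK X Y u y a b p q p
  have k4 := id4 X Y u y b z p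
  have k5 := id5 X Y u z a b p q
  have k5t := id5 X Y u z u y p q
  rw [(ar0 X Y p q).2.1, mul_zero] at kp
  have t0 : ar X Y u y u = 0 := (ar0 X Y u y).2.1
  rw [t0, mul_zero, sub_zero] at k5t
  have fa : ar X Y a b a = 0 := (ar0 X Y a b).2.1
  have fb : ar X Y a b b = 0 := (ar0 X Y a b).2.2
  set W := ar X Y a b u * ar X Y p q y - ar X Y a b y * ar X Y p q u with hW
  have hDfu : 0 < ar X Y u y b * ar X Y a b u := mul_pos hD hfu
  have hkz : ar X Y u y b * ar X Y a b u * ar X Y p q z < 0 := mul_neg_of_pos_of_neg hDfu hGz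
  have hfz' : 0 ≤ ar X Y u y b * ar X Y a b z * ar X Y p q u :=
    mul_nonneg (mul_nonneg hD.le hfz) hGu.le
  have hg : 0 < ar X Y p q u * ar X Y a b z - ar X Y p q z * ar X Y a b u := by
    have h1 : 0 ≤ ar X Y p q u * ar X Y a b z := mul_nonneg hGu.le hfz
    have h2 : ar X Y p q z * ar X Y a b u < 0 := mul_neg_of_neg_of_pos hGz hfu
    linarith
  -- the noncrossing condition
  have hnd : p ≠ a → p ≠ b → q ≠ a → q ≠ b → [a, b, p, q].Nodup := by
    intro h1 h2 h3 h4
    simp only [List.nodup_cons, List.mem_cons, List.not_mem_nil, or_false, not_or,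
      List.nodup_nil, and_true, not_false_eq_true]
    exact ⟨⟨hab, h1.symm, h3.symm⟩, ⟨h2.symm, h4.symm⟩, hpq⟩
  have htp : ar X Y u y p < 0 := by
    by_contra htp
    rw [not_lt] at htp
    -- `s p > 0`
    have hsp : 0 < ar X Y u p b := by
      by_contra h
      rw [not_lt] at h
      have h1 : ar X Y u y b * ar X Y u z p < 0 := mul_neg_of_pos_of_neg hD hA
      have h2 : 0 ≤ ar X Y u z b * ar X Y u y p := mul_nonneg hsz htp
      have h3 : ar X Y u y z * ar X Y u p b ≤ 0 := mul_nonpos_of_nonneg_of_nonpos htz.le h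
      linarith
    have hpa : p ≠ a := by
      rintro rfl
      linarith
    have hpb : p ≠ b := by
      rintro rfl
      rw [(ar0 X Y u p).2.2] at hsp
      exact lt_irrefl _ hsp
    have hfp0 : ar X Y a b p ≠ 0 := gp a b p ha hb hp hab hpb.symm hpa.symm
    have hfp : ar X Y a b p < 0 := by
      rcases lt_or_eq_of_le htp with h | h
      · by_contra h'
        have h2 : 0 < ar X Y a b p := lt_of_le_of_ne (not_lt.1 h') (Ne.symm hfp0)
        have := hmin h hsp h2
        linarith
      · have : y = p := by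
          by_contra hne
          exact gp u y p hu hy hp huy hne hup h.symm
        rw [← this]
        exact hfy
    have hfq : 0 < ar X Y a b q := by
      by_contra h
      rw [not_lt] at h
      have h1 : ar X Y u z q * ar X Y a b p < 0 := mul_neg_of_pos_of_neg hB hfp
      have h2 : 0 ≤ ar X Y u z p * ar X Y a b q := mul_nonneg_of_nonpos_of_nonpos hA.le h
      linarith
    have hqa : q ≠ a := by
      rintro rfl
      rw [fa] at hfq
      exact lt_irrefl _ hfq
    have hqb : q ≠ b := by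
      rintro rfl
      rw [fb] at hfq
      exact lt_irrefl _ hfq
    have hn := nc (hnd hpa hpb hqa hqb)
    have hn2 : 0 ≤ ar X Y p q a * ar X Y p q b := by
      by_contra h
      exact hn ⟨mul_neg_of_neg_of_pos hfp hfq, not_le.1 h⟩
    rcases mul_nonneg_iff.1 hn2 with ⟨g1, g2⟩ | ⟨g1, g2⟩
    · have hW0 : 0 ≤ W := by
        have h1 : 0 ≤ ar X Y u y b * ar X Y p q a := mul_nonneg hD.le g1
        have h2 : ar X Y u y a * ar X Y p q b ≤ 0 := mul_nonpos_of_nonpos_of_nonneg hta.le g2
        linarith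
      have h1 : 0 ≤ ar X Y u z b * W := mul_nonneg hsz hW0
      have h2 : 0 ≤ ar X Y u y z * ar X Y a b u * ar X Y p q b :=
        mul_nonneg (mul_nonneg htz.le hfu.le) g2
      linarith
    · have hW0 : W ≤ 0 := by
        have h1 : ar X Y u y b * ar X Y p q a ≤ 0 := mul_nonpos_of_nonneg_of_nonpos hD.le g1
        have h2 : 0 ≤ ar X Y u y a * ar X Y p q b := mul_nonneg_of_nonpos_of_nonpos hta.le g2
        linarith
      have h0 : ar X Y u y b * ar X Y a b p * ar X Y p q u < 0 :=
        mul_neg_of_neg_of_pos (mul_neg_of_pos_of_neg hD hfp) hGu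
      have h1 : ar X Y u p b * W ≤ 0 := mul_nonpos_of_nonneg_of_nonpos hsp.le hW0
      have h2 : ar X Y u y p * ar X Y a b u * ar X Y p q b ≤ 0 :=
        mul_nonpos_of_nonneg_of_nonpos (mul_nonneg htp hfu.le) g2
      linarith
  have htq : 0 < ar X Y u y q := by
    by_contra h
    rw [not_lt] at h
    have h1 : ar X Y u z q * ar X Y u y p < 0 := mul_neg_of_pos_of_neg hB htp
    have h2 : 0 ≤ ar X Y u z p * ar X Y u y q := mul_nonneg_of_nonpos_of_nonpos hA.le h
    have h3 : 0 < ar X Y p q u * ar X Y u y z := mul_pos hGu htz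
    linarith
  refine ⟨htp, htq, ?_⟩
  by_contra hGy
  rw [not_lt] at hGy
  have hW0 : 0 < W := by
    have h1 : 0 ≤ ar X Y a b u * ar X Y p q y := mul_nonneg hfu.le hGy
    have h2 : ar X Y a b y * ar X Y p q u < 0 := mul_neg_of_neg_of_pos hfy hGu
    linarith
  have hsW : 0 ≤ ar X Y u z b * W := mul_nonneg hsz hW0.le
  have hGb : ar X Y p q b < 0 := by
    by_contra h
    rw [not_lt] at h
    have h2 : 0 ≤ ar X Y u y z * ar X Y a b u * ar X Y p q b :=
      mul_nonneg (mul_nonneg htz.le hfu.le) h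
    linarith
  have hGa : 0 < ar X Y p q a := by
    by_contra h
    rw [not_lt] at h
    have h1 : ar X Y u y b * ar X Y p q a ≤ 0 := mul_nonpos_of_nonneg_of_nonpos hD.le h
    have h2 : 0 < ar X Y u y a * ar X Y p q b := mul_pos_of_neg_of_neg hta hGb
    linarith
  have hpa : p ≠ a := by
    rintro rfl
    rw [(ar0 X Y p q).2.1] at hGa
    exact lt_irrefl _ hGa
  have hpb : p ≠ b := by
    rintro rfl
    rw [(ar0 X Y p q).2.1] at hGb
    exact lt_irrefl _ hGb
  have hqa : q ≠ a := by
    rintro rfl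
    rw [(ar0 X Y p q).2.2] at hGa
    exact lt_irrefl _ hGa
  have hqb : q ≠ b := by
    rintro rfl
    rw [(ar0 X Y p q).2.2] at hGb
    exact lt_irrefl _ hGb
  have hn := nc (hnd hpa hpb hqa hqb)
  have hfp : 0 ≤ ar X Y a b p := by
    by_contra h
    rw [not_le] at h
    have hfq : 0 < ar X Y a b q := by
      by_contra h'
      rw [not_lt] at h'
      have h1 : ar X Y u z q * ar X Y a b p < 0 := mul_neg_of_pos_of_neg hB h
      have h2 : 0 ≤ ar X Y u z p * ar X Y a b q := mul_nonneg_of_nonpos_of_nonpos hA.le h'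
      linarith
    exact hn ⟨mul_neg_of_neg_of_pos h hfq, mul_neg_of_pos_of_neg hGa hGb⟩
  -- combination of the two barycentric identities
  have e : (ar X Y u y b * ar X Y a b p * ar X Y p q u) * ar X Y u y z
      - (ar X Y u y b * ar X Y a b z * ar X Y p q u) * ar X Y u y p
      + (ar X Y u y z * ar X Y u p b - ar X Y u z b * ar X Y u y p) * W =
      - ((ar X Y u y b * ar X Y a b u * ar X Y p q z) * ar X Y u y p) := by
    linear_combination (-ar X Y u y z) * kp + (ar X Y u y p) * kz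
  have h1 : 0 ≤ (ar X Y u y b * ar X Y a b p * ar X Y p q u) * ar X Y u y z :=
    mul_nonneg (mul_nonneg (mul_nonneg hD.le hfp) hGu.le) htz.le
  have h2 : (ar X Y u y b * ar X Y a b z * ar X Y p q u) * ar X Y u y p ≤ 0 :=
    mul_nonpos_of_nonneg_of_nonpos hfz' htp.le
  have h3 : 0 < (ar X Y u y z * ar X Y u p b - ar X Y u z b * ar X Y u y p) * W := by
    refine mul_pos ?_ hW0
    have : ar X Y u y b * ar X Y u z p < 0 := mul_neg_of_pos_of_neg hD hA
    linarith
  have h4 : 0 < (ar X Y u y b * ar X Y a b u * ar X Y p q z) * ar X Y u y p :=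
    mul_pos_of_neg_of_neg hkz htp
  linarith

/-- The geometric statement when `b` is on the left of `u y`. -/
theorem core (n : ℕ) (X Y : ℕ → ℝ)
    (gp : ∀ a b c, a < n → b < n → c < n → a ≠ b → b ≠ c → a ≠ c → ar X Y a b c ≠ 0)
    (E : ℕ → ℕ → Prop) (hlt : ∀ a b, E a b → a < n ∧ b < n ∧ a ≠ b)
    (hsym : ∀ a b, E a b → E b a)
    (hnc : ∀ a b c d, E a b → E c d → [a, b, c, d].Nodup → ¬ CR X Y a b c d)
    (u y a b : ℕ) (hE : E a b) (hu : u < n) (hy : y < n) (hd : [u, y, a, b].Nodup)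
    (hcr : CR X Y u y a b) (hpos : 0 < ar X Y u y b) :
    ∃ z, (z = b ∨ (z < n ∧ [u, y, b, z].Nodup ∧ IT X Y u y b z)) ∧
      (∀ p q, E p q → [u, z, p, q].Nodup → CR X Y u z p q →
        [u, y, p, q].Nodup ∧ CR X Y u y p q) ∧
      ¬ ([u, z, a, b].Nodup ∧ CR X Y u z a b) := by
  classical
  obtain ⟨ha, hb, hab⟩ := hlt a b hE
  simp only [List.nodup_cons, List.mem_cons, List.not_mem_nil, or_false, not_or,
    List.nodup_nil, and_true, not_false_eq_true] at hd
  obtain ⟨⟨huy, hua, hub⟩, ⟨hya, hyb⟩, _⟩ := hd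
  obtain ⟨hc1, hc2⟩ := hcr
  have hta : ar X Y u y a < 0 := by
    rcases mul_neg_iff.1 hc1 with h | h
    · linarith [h.2]
    · exact h.1
  have i1 := id1 X Y u y a b
  obtain ⟨hfu, hfy⟩ := sgn hc2 (by rw [i1]; linarith)
  -- the first point around `u`
  set Q : Finset ℕ := insert b ((Finset.range n).filter
    (fun x => 0 < ar X Y u y x ∧ 0 < ar X Y u x b ∧ 0 < ar X Y a b x)) with hQ
  obtain ⟨z, hzQ, hzmax⟩ := Finset.exists_max_image Q
    (fun x => ar X Y u x b / ar X Y u y x) ⟨b, Finset.mem_insert_self _ _⟩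
  have hz : z = b ∨ (z < n ∧ 0 < ar X Y u y z ∧ 0 < ar X Y u z b ∧ 0 < ar X Y a b z) := by
    rcases Finset.mem_insert.1 hzQ with h | h
    · exact Or.inl h
    · rw [Finset.mem_filter, Finset.mem_range] at h
      exact Or.inr h
  have htz : 0 < ar X Y u y z := by
    rcases hz with h | h
    · rw [h]; exact hpos
    · exact h.2.1
  have hsz : 0 ≤ ar X Y u z b := by
    rcases hz with h | h
    · rw [h, (ar0 X Y u b).2.2]
    · exact h.2.2.1.le
  have hfz : 0 ≤ ar X Y a b z := by
    rcases hz with h | h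
    · rw [h, (ar0 X Y a b).2.2]
    · exact h.2.2.2.le
  have hmin : ∀ p, p < n → 0 < ar X Y u y p → 0 < ar X Y u p b → 0 < ar X Y a b p →
      0 ≤ ar X Y u z p := by
    intro p hp h1 h2 h3
    have hpQ : p ∈ Q := by
      rw [hQ]
      exact Finset.mem_insert_of_mem (Finset.mem_filter.2 ⟨Finset.mem_range.2 hp, h1, h2, h3⟩)
    have hm := hzmax p hpQ
    rw [div_le_div_iff₀ h1 htz] at hm
    have i4 := id4 X Y u y b z p
    by_contra h
    rw [not_le] at h
    have : ar X Y u y b * ar X Y u z p < 0 := mul_neg_of_pos_of_neg hpos h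
    linarith
  have key : ∀ p q, E p q → [u, z, p, q].Nodup → ar X Y u z p < 0 → CR X Y u z p q →
      [u, y, p, q].Nodup ∧ CR X Y u y p q := by
    intro p q hpq hnd hA hcr
    obtain ⟨hp, hq, hpq'⟩ := hlt p q hpq
    simp only [List.nodup_cons, List.mem_cons, List.not_mem_nil, or_false, not_or,
      List.nodup_nil, and_true, not_false_eq_true] at hnd
    obtain ⟨⟨huz, hup, huq⟩, ⟨hzp, hzq⟩, _⟩ := hnd
    obtain ⟨hr1, hr2⟩ := hcr
    have hB : 0 < ar X Y u z q := by
      rcases mul_neg_iff.1 hr1 with h | h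
      · linarith [h.1]
      · exact h.2
    have i6 := id6 X Y u z p q
    obtain ⟨hGu, hGz⟩ := sgn hr2 (by rw [i6]; linarith)
    obtain ⟨m1, m2, m3⟩ := main n X Y gp u y a b z p q hu hy ha hb hp huy hab hup hpq'
      (hnc a b p q hE hpq) hpos hta hfu hfy htz hsz hfz (hmin p hp) hA hB hGu hGz
    refine ⟨?_, mul_neg_of_neg_of_pos m1 m2, mul_neg_of_pos_of_neg hGu m3⟩
    have hyp : y ≠ p := by
      rintro rfl
      rw [(ar0 X Y u y).2.2] at m1
      exact lt_irrefl _ m1
    have hyq : y ≠ q := by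
      rintro rfl
      rw [(ar0 X Y u y).2.2] at m2
      exact lt_irrefl _ m2
    simp only [List.nodup_cons, List.mem_cons, List.not_mem_nil, or_false, not_or,
      List.nodup_nil, and_true, not_false_eq_true]
    exact ⟨⟨huy, hup, huq⟩, ⟨hyp, hyq⟩, hpq'⟩
  refine ⟨z, ?_, ?_, ?_⟩
  · rcases hz with h | ⟨hzn, h1, h2, h3⟩
    · exact Or.inl h
    · refine Or.inr ⟨hzn, ?_, ?_⟩
      · have hzu : u ≠ z := by
          rintro rfl
          rw [(ar0 X Y u y).2.1] at h1
          exact lt_irrefl _ h1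
        have hzy : y ≠ z := by
          rintro rfl
          rw [(ar0 X Y u y).2.2] at h1
          exact lt_irrefl _ h1
        have hzb : b ≠ z := by
          rintro rfl
          rw [(ar0 X Y u b).2.2] at h2
          exact lt_irrefl _ h2
        simp only [List.nodup_cons, List.mem_cons, List.not_mem_nil, or_false, not_or,
          List.nodup_nil, and_true, not_false_eq_true]
        exact ⟨⟨huy, hub, hzu⟩, ⟨hyb, hzy⟩, hzb⟩
      · have i7 := id7 X Y u y a b z
        have h4 : 0 < ar X Y u y b * ar X Y a b z := mul_pos hpos h3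
        have h5 : ar X Y a b y * ar X Y u z b < 0 := mul_neg_of_neg_of_pos hfy h2
        have h6 : 0 < ar X Y a b u * ar X Y y b z := by linarith
        have h7 : 0 < ar X Y y b z := (pos_iff_pos_of_mul_pos h6).1 hfu
        have h8 : ar X Y b u z = ar X Y u z b := by unfold ar; ring
        exact ⟨mul_pos h1 h7, mul_pos h7 (by rw [h8]; exact h2)⟩
  · intro p q hpq hnd hcr
    rcases mul_neg_iff.1 hcr.1 with h | h
    · -- exchange `p` and `q`
      have hnd' : [u, z, q, p].Nodup := by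
        simp only [List.nodup_cons, List.mem_cons, List.not_mem_nil, or_false, not_or,
          List.nodup_nil, and_true, not_false_eq_true] at hnd ⊢
        obtain ⟨⟨k1, k2, k3⟩, ⟨k4, k5⟩, k6⟩ := hnd
        exact ⟨⟨k1, k3, k2⟩, ⟨k5, k4⟩, fun h => k6 h.symm⟩
      obtain ⟨r1, r2⟩ := key q p (hsym p q hpq) hnd' h.2 (CR_swap X Y u z p q hcr)
      refine ⟨?_, CR_swap X Y u y q p r2⟩
      simp only [List.nodup_cons, List.mem_cons, List.not_mem_nil, or_false, not_or,
        List.nodup_nil, and_true, not_false_eq_true] at r1 ⊢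
      obtain ⟨⟨k1, k2, k3⟩, ⟨k4, k5⟩, k6⟩ := r1
      exact ⟨⟨k1, k3, k2⟩, ⟨k5, k4⟩, fun h => k6 h.symm⟩
    · exact key p q hpq hnd h.1 hcr
  · rintro ⟨hnd, hcr⟩
    rcases hz with h | ⟨_, _, _, h3⟩
    · rw [h] at hnd
      simp at hnd
    · have := mul_pos hfu h3
      linarith [hcr.2]

theorem cr_iff {I : In} {X Y : ℕ → ℝ}
    (h1 : ∀ a b c, a < nn I → b < nn I → c < nn I → (chi I a b c = true ↔ 0 < ar X Y a b c))
    (h2 : ∀ a b c, a < nn I → b < nn I → c < nn I → a ≠ b → b ≠ c → a ≠ c → ar X Y a b c ≠ 0)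
    {a b c d : ℕ} (hd : Ds I [a, b, c, d]) : cr I a b c d = true ↔ CR X Y a b c d := by
  obtain ⟨hn, hl⟩ := hd
  simp only [List.nodup_cons, List.mem_cons, List.not_mem_nil, or_false, not_or,
    List.nodup_nil, and_true, not_false_eq_true] at hn
  obtain ⟨⟨k1, k2, k3⟩, ⟨k4, k5⟩, k6⟩ := hn
  have la : a < nn I := hl a (by simp)
  have lb : b < nn I := hl b (by simp)
  have lc : c < nn I := hl c (by simp)
  have ld : d < nn I := hl d (by simp)
  have key : ∀ p q r s t w, p < nn I → q < nn I → r < nn I → s < nn I → t < nn I → w < nn I →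
      p ≠ q → q ≠ r → p ≠ r → s ≠ t → t ≠ w → s ≠ w →
      ((!(chi I p q r == chi I s t w)) = true ↔ ar X Y p q r * ar X Y s t w < 0) := by
    intro p q r s t w hp hq hr hs ht hw e1 e2 e3 e4 e5 e6
    have a1 := h1 p q r hp hq hr
    have a2 := h1 s t w hs ht hw
    have b1 := h2 p q r hp hq hr e1 e2 e3
    have b2 := h2 s t w hs ht hw e4 e5 e6
    generalize ar X Y p q r = v1 at a1 b1 ⊢
    generalize ar X Y s t w = v2 at a2 b2 ⊢
    generalize chi I p q r = c1 at a1 ⊢
    generalize chi I s t w = c2 at a2 ⊢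
    rcases lt_or_gt_of_ne b1 with g1 | g1 <;> rcases lt_or_gt_of_ne b2 with g2 | g2
    · have e1 : c1 = false := by
        cases c1
        · rfl
        · linarith [a1.1 rfl]
      have e2 : c2 = false := by
        cases c2
        · rfl
        · linarith [a2.1 rfl]
      rw [e1, e2]
      have := mul_pos_of_neg_of_neg g1 g2
      constructor
      · intro h; exact absurd h (by decide)
      · intro h; linarith
    · have e1 : c1 = false := by
        cases c1
        · rfl
        · linarith [a1.1 rfl]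
      have e2 : c2 = true := a2.2 g2
      rw [e1, e2]
      exact ⟨fun _ => mul_neg_of_neg_of_pos g1 g2, fun _ => rfl⟩
    · have e1 : c1 = true := a1.2 g1
      have e2 : c2 = false := by
        cases c2
        · rfl
        · linarith [a2.1 rfl]
      rw [e1, e2]
      exact ⟨fun _ => mul_neg_of_pos_of_neg g1 g2, fun _ => rfl⟩
    · have e1 : c1 = true := a1.2 g1
      have e2 : c2 = true := a2.2 g2
      rw [e1, e2]
      have := mul_pos g1 g2
      constructor
      · intro h; exact absurd h (by decide)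
      · intro h; linarith
  unfold cr CR
  rw [Bool.and_eq_true, key a b c a b d la lb lc la lb ld k1 k4 k2 k1 k5 k3,
    key c d a c d b lc ld la lc ld lb k6 (Ne.symm k3) (Ne.symm k2) k6 (Ne.symm k5) (Ne.symm k4)]

theorem inT_iff {I : In} {X Y : ℕ → ℝ}
    (h1 : ∀ a b c, a < nn I → b < nn I → c < nn I → (chi I a b c = true ↔ 0 < ar X Y a b c))
    {a b c d : ℕ} (la : a < nn I) (lb : b < nn I) (lc : c < nn I) (ld : d < nn I)
    (h : IT X Y a b c d) : inT I a b c d = true := by
  obtain ⟨g1, g2⟩ := h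
  have key : ∀ p q r s t w, p < nn I → q < nn I → r < nn I → s < nn I → t < nn I → w < nn I →
      0 < ar X Y p q r * ar X Y s t w → (chi I p q r == chi I s t w) = true := by
    intro p q r s t w hp hq hr hs ht hw g
    have a1 := h1 p q r hp hq hr
    have a2 := h1 s t w hs ht hw
    rw [beq_iff_eq, Bool.eq_iff_iff, a1, a2]
    exact pos_iff_pos_of_mul_pos g
  unfold inT
  rw [Bool.and_eq_true]
  exact ⟨key _ _ _ _ _ _ la lb ld lb lc ld g1, key _ _ _ _ _ _ lb lc ld lc la ld g2⟩

theorem fin {I : In} {X Y : ℕ → ℝ}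
    (h1 : ∀ a b c, a < nn I → b < nn I → c < nn I → (chi I a b c = true ↔ 0 < ar X Y a b c))
    (h2 : ∀ a b c, a < nn I → b < nn I → c < nn I → a ≠ b → b ≠ c → a ≠ c → ar X Y a b c ≠ 0)
    (E : ℕ → ℕ → Prop) (hM : Mx I E) (u y a b : ℕ) (hE : E a b) (hd : Ds I [u, y, a, b])
    (hcr : cr I u y a b = true) :
    ∃ z, (z = b ∨ (z < nn I ∧ [u, y, b, z].Nodup ∧ IT X Y u y b z)) ∧
      (∀ p q, E p q → [u, z, p, q].Nodup → CR X Y u z p q →
        [u, y, p, q].Nodup ∧ CR X Y u y p q) ∧
      ¬ ([u, z, a, b].Nodup ∧ CR X Y u z a b) := by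
  have hcr' := (cr_iff h1 h2 hd).1 hcr
  obtain ⟨hn, hl⟩ := hd
  have lu : u < nn I := hl u (by simp)
  have ly : y < nn I := hl y (by simp)
  have lb : b < nn I := hl b (by simp)
  have hnc : ∀ a b c d, E a b → E c d → [a, b, c, d].Nodup → ¬ CR X Y a b c d := by
    intro a b c d e1 e2 hnd hc
    obtain ⟨r1, r2, _⟩ := hM.lt a b e1
    obtain ⟨r3, r4, _⟩ := hM.lt c d e2
    have hD : Ds I [a, b, c, d] := by
      refine ⟨hnd, ?_⟩
      intro x hx
      simp only [List.mem_cons, List.not_mem_nil, or_false] at hx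
      rcases hx with rfl | rfl | rfl | rfl
      · exact r1
      · exact r2
      · exact r3
      · exact r4
    have := hM.nc a b c d e1 e2 hD
    rw [(cr_iff h1 h2 hD).2 hc] at this
    exact absurd this (by decide)
  have hne : ar X Y u y b ≠ 0 := by
    have hn' := hn
    simp only [List.nodup_cons, List.mem_cons, List.not_mem_nil, or_false, not_or,
      List.nodup_nil, and_true, not_false_eq_true] at hn'
    obtain ⟨⟨k1, k2, k3⟩, ⟨k4, k5⟩, k6⟩ := hn'
    exact h2 u y b lu ly lb k1 k5 k3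
  rcases lt_or_gt_of_ne hne with hneg | hpos
  · have h2' : ∀ a b c, a < nn I → b < nn I → c < nn I → a ≠ b → b ≠ c → a ≠ c →
        ar X (fun i => - Y i) a b c ≠ 0 := by
      intro a b c ha hb hc e1 e2 e3
      rw [ar_neg]
      exact neg_ne_zero.2 (h2 a b c ha hb hc e1 e2 e3)
    have hnc' : ∀ a b c d, E a b → E c d → [a, b, c, d].Nodup →
        ¬ CR X (fun i => - Y i) a b c d := by
      intro a b c d e1 e2 hnd
      rw [CR_neg]
      exact hnc a b c d e1 e2 hnd
    obtain ⟨z, z1, z2, z3⟩ := core (nn I) X (fun i => - Y i) h2' E hM.lt hM.sym hnc' u y a b hE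
      lu ly hn ((CR_neg X Y u y a b).2 hcr') (by rw [ar_neg]; linarith)
    simp only [CR_neg, IT_neg] at z1 z2 z3
    exact ⟨z, z1, z2, z3⟩
  · exact core (nn I) X Y h2 E hM.lt hM.sym hnc u y a b hE lu ly hn hcr' hpos

end IVz

/-- **Vz**: one step of the search for a visible point. -/
theorem pr_Vz : St_Vz := by
  intro I hI E hM u y a b hE hd hcr
  obtain ⟨X, Y, h1, h2⟩ := hI
  have hl := hd.2
  have lu : u < nn I := hl u (by simp)
  have ly : y < nn I := hl y (by simp)
  have la : a < nn I := hl a (by simp)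
  have lb : b < nn I := hl b (by simp)
  obtain ⟨z, z1, z2, z3⟩ := IVz.fin h1 h2 E hM u y a b hE hd hcr
  have lz : z < nn I := by
    rcases z1 with h | h
    · rw [h]; exact lb
    · exact h.1
  have hDs : ∀ {x y z w : ℕ}, x < nn I → y < nn I → z < nn I → w < nn I →
      [x, y, z, w].Nodup → Ds I [x, y, z, w] := by
    intro x y z w hx hy hz hw hn
    refine ⟨hn, ?_⟩
    intro v hv
    simp only [List.mem_cons, List.not_mem_nil, or_false] at hv
    rcases hv with rfl | rfl | rfl | rfl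
    · exact hx
    · exact hy
    · exact hz
    · exact hw
  refine ⟨z, ?_, ?_, ?_⟩
  · rcases z1 with h | ⟨h, hn, hT⟩
    · exact Or.inl h
    · exact Or.inr ⟨hDs lu ly lb h hn, IVz.inT_iff h1 lu ly lb h hT⟩
  · intro p q hpq hd' hc
    obtain ⟨lp, lq, _⟩ := hM.lt p q hpq
    obtain ⟨r1, r2⟩ := z2 p q hpq hd'.1 ((IVz.cr_iff h1 h2 hd').1 hc)
    have hd2 := hDs lu ly lp lq r1
    exact ⟨hd2, (IVz.cr_iff h1 h2 hd2).2 r2⟩
  · rintro ⟨hd', hc⟩
    exact z3 ⟨hd'.1, (IVz.cr_iff h1 h2 hd').1 hc⟩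

end Pool.Agent.Work.MP_c6c039_lc.CL
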