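import Pool.Agent.Work.MP_c6c039_lc.CL.I_An
import Pool.Agent.Work.MP_c6c039_lc.CL.I_Ap
import Pool.Agent.Work.MP_c6c039_lc.CL.I_At
import Pool.Agent.Work.MP_c6c039_lc.CL.I_Bt
import Pool.Agent.Work.MP_c6c039_lc.CL.I_Ca
import Pool.Agent.Work.MP_c6c039_lc.CL.I_Cb
import Pool.Agent.Work.MP_c6c039_lc.CL.I_Cc
import Pool.Agent.Work.MP_c6c039_lc.CL.I_Cf
import Pool.Agent.Work.MP_c6c039_lc.CL.I_Ck
import Pool.Agent.Work.MP_c6c039_lc.CL.I_Cl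
import Pool.Agent.Work.MP_c6c039_lc.CL.I_Cn
import Pool.Agent.Work.MP_c6c039_lc.CL.I_Ct
import Pool.Agent.Work.MP_c6c039_lc.CL.I_Cv
import Pool.Agent.Work.MP_c6c039_lc.CL.I_Di
import Pool.Agent.Work.MP_c6c039_lc.CL.I_Dl
import Pool.Agent.Work.MP_c6c039_lc.CL.I_Em
import Pool.Agent.Work.MP_c6c039_lc.CL.I_Er
import Pool.Agent.Work.MP_c6c039_lc.CL.I_Fa
import Pool.Agent.Work.MP_c6c039_lc.CL.I_Fc
import Pool.Agent.Work.MP_c6c039_lc.CL.I_Fi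
import Pool.Agent.Work.MP_c6c039_lc.CL.I_Fn
import Pool.Agent.Work.MP_c6c039_lc.CL.I_Fo
import Pool.Agent.Work.MP_c6c039_lc.CL.I_Fx
import Pool.Agent.Work.MP_c6c039_lc.CL.I_Ga
import Pool.Agent.Work.MP_c6c039_lc.CL.I_Gn
import Pool.Agent.Work.MP_c6c039_lc.CL.I_Gp
import Pool.Agent.Work.MP_c6c039_lc.CL.I_H1
import Pool.Agent.Work.MP_c6c039_lc.CL.I_Hb
import Pool.Agent.Work.MP_c6c039_lc.CL.I_Hs
import Pool.Agent.Work.MP_c6c039_lc.CL.I_Hx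
import Pool.Agent.Work.MP_c6c039_lc.CL.I_I1
import Pool.Agent.Work.MP_c6c039_lc.CL.I_I2
import Pool.Agent.Work.MP_c6c039_lc.CL.I_I4
import Pool.Agent.Work.MP_c6c039_lc.CL.I_Kb
import Pool.Agent.Work.MP_c6c039_lc.CL.I_Kc
import Pool.Agent.Work.MP_c6c039_lc.CL.I_Kh
import Pool.Agent.Work.MP_c6c039_lc.CL.I_Kp
import Pool.Agent.Work.MP_c6c039_lc.CL.I_Kt
import Pool.Agent.Work.MP_c6c039_lc.CL.I_Kv
import Pool.Agent.Work.MP_c6c039_lc.CL.I_La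
import Pool.Agent.Work.MP_c6c039_lc.CL.I_Lb
import Pool.Agent.Work.MP_c6c039_lc.CL.I_Le
import Pool.Agent.Work.MP_c6c039_lc.CL.I_Lx
import Pool.Agent.Work.MP_c6c039_lc.CL.I_Mq
import Pool.Agent.Work.MP_c6c039_lc.CL.I_Nj
import Pool.Agent.Work.MP_c6c039_lc.CL.I_Ns
import Pool.Agent.Work.MP_c6c039_lc.CL.I_Nx
import Pool.Agent.Work.MP_c6c039_lc.CL.I_P1
import Pool.Agent.Work.MP_c6c039_lc.CL.I_Pe
import Pool.Agent.Work.MP_c6c039_lc.CL.I_Pg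
import Pool.Agent.Work.MP_c6c039_lc.CL.I_Q1
import Pool.Agent.Work.MP_c6c039_lc.CL.I_R1
import Pool.Agent.Work.MP_c6c039_lc.CL.I_Rf
import Pool.Agent.Work.MP_c6c039_lc.CL.I_Rt
import Pool.Agent.Work.MP_c6c039_lc.CL.I_Rv
import Pool.Agent.Work.MP_c6c039_lc.CL.I_Rz
import Pool.Agent.Work.MP_c6c039_lc.CL.I_Sb
import Pool.Agent.Work.MP_c6c039_lc.CL.I_So
import Pool.Agent.Work.MP_c6c039_lc.CL.I_Sp
import Pool.Agent.Work.MP_c6c039_lc.CL.I_Sr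
import Pool.Agent.Work.MP_c6c039_lc.CL.I_Su
import Pool.Agent.Work.MP_c6c039_lc.CL.I_T1
import Pool.Agent.Work.MP_c6c039_lc.CL.I_T2
import Pool.Agent.Work.MP_c6c039_lc.CL.I_T3
import Pool.Agent.Work.MP_c6c039_lc.CL.I_T4
import Pool.Agent.Work.MP_c6c039_lc.CL.I_Ti
import Pool.Agent.Work.MP_c6c039_lc.CL.I_Ts
import Pool.Agent.Work.MP_c6c039_lc.CL.I_Uq
import Pool.Agent.Work.MP_c6c039_lc.CL.I_Vi
import Pool.Agent.Work.MP_c6c039_lc.CL.I_Vt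
import Pool.Agent.Work.MP_c6c039_lc.CL.I_Vz
import Pool.Agent.Work.MP_c6c039_lc.CL.Final
import Pool.Agent.Work.MP_c6c039_lc.NC.All
import Pool.Agent.Work.MP_c6c039_lc.FP.All

/-!
# Block CL: all items, the theorem (helper87)
-/

set_option autoImplicit false

namespace Pool.Agent.Work.MP_c6c039_lc.CL

open Pool.Agent.PT Pool.Agent.Work.MP_c6c039_lc.FP N487b59b3

theorem c_Cn : St_Cn := pr_Cn

theorem c_Dl : St_Dl := pr_Dl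

theorem c_Em : St_Em := pr_Em FP.c_Sy FP.c_Cs NC.c_Nc

theorem c_Fx : St_Fx := pr_Fx

theorem c_Gn : St_Gn := pr_Gn

theorem c_Hs : St_Hs := pr_Hs FP.c_Xt FP.c_HC

theorem c_Kc : St_Kc := pr_Kc

theorem c_Kp : St_Kp := pr_Kp

theorem c_Kt : St_Kt := pr_Kt

theorem c_La : St_La := pr_La NC.c_Px NC.c_Ed

theorem c_Nx : St_Nx := pr_Nx

theorem c_Rt : St_Rt := pr_Rt FP.c_Sy FP.c_Hl

theorem c_Rv : St_Rv := pr_Rv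

theorem c_Su : St_Su := pr_Su

theorem c_Uq : St_Uq := pr_Uq FP.c_Sy

theorem c_Vt : St_Vt := pr_Vt

theorem c_Vz : St_Vz := pr_Vz

theorem c_Ap : St_Ap := pr_Ap c_Uq

theorem c_At : St_At := pr_At NC.c_Al c_Rt c_La

theorem c_Cl : St_Cl := pr_Cl c_Uq

theorem c_Er : St_Er := pr_Er FP.c_Sy FP.c_Hl c_Rv c_Dl

theorem c_Fa : St_Fa := pr_Fa FP.c_Sy FP.c_HC c_Hs

theorem c_Fc : St_Fc := pr_Fc FP.c_Sy FP.c_HC c_Hs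

theorem c_Ga : St_Ga := pr_Ga c_Nx c_Vt

theorem c_Hb : St_Hb := pr_Hb FP.c_Sy FP.c_Hl c_Dl c_Hs

theorem c_Kb : St_Kb := pr_Kb FP.c_Sy FP.c_Hl c_Rv c_Dl

theorem c_Kh : St_Kh := pr_Kh FP.c_Sy FP.c_Hl c_Dl

theorem c_Lb : St_Lb := pr_Lb c_Vt c_Rv c_Rt c_La

theorem c_Le : St_Le := pr_Le FP.c_Sy FP.c_Xt FP.c_HC c_Hs

theorem c_Mq : St_Mq := pr_Mq c_Cn

theorem c_Vi : St_Vi := pr_Vi FP.c_Sy FP.c_Cs c_Vz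

theorem c_Ca : St_Ca := pr_Ca c_Nx c_Kc c_Er c_Ga

theorem c_Cc : St_Cc := pr_Cc c_Nx c_Vt c_Ga

theorem c_Cv : St_Cv := pr_Cv FP.c_Sy FP.c_HC c_Kc c_Mq c_Hb c_Fa c_Fc c_Gn

theorem c_Ns : St_Ns := pr_Ns c_Mq c_Hs c_Hb c_Fa c_Gn

theorem c_Pe : St_Pe := pr_Pe FP.c_Xt FP.c_CT FP.c_PI c_Vi c_Kp c_Su

theorem c_Sb : St_Sb := pr_Sb c_Vt c_Kb

theorem c_Ti : St_Ti := pr_Ti FP.c_Sy FP.c_Cs FP.c_T5 FP.c_Cq c_Vi c_Kt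

theorem c_An : St_An := pr_An c_Ti c_Uq

theorem c_Cb : St_Cb := pr_Cb c_Vt c_Kc c_Ga c_Ca c_Cc

theorem c_Fn : St_Fn := pr_Fn c_Ti c_Uq

theorem c_Lx : St_Lx := pr_Lx c_Vi c_Kp c_Ti

theorem c_H1 : St_H1 := pr_H1 FP.c_Sy c_Cl c_Fn

theorem c_Hx : St_Hx := pr_Hx FP.c_HC c_Hs c_Lx c_Le

theorem c_I1 : St_I1 := pr_I1 c_Uq c_Lx

theorem c_So : St_So := pr_So c_Sb c_Cb

theorem c_Sr : St_Sr := pr_Sr FP.c_Sy c_Uq c_Lx c_An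

theorem c_Fi : St_Fi := pr_Fi FP.c_Sy FP.c_Cs FP.c_HC c_Nx c_Vt c_Kc c_Kh c_So c_Hs c_Hb c_Ns c_Cv

theorem c_Fo : St_Fo := pr_Fo FP.c_Sy FP.c_Hl c_Hx c_Rt

theorem c_Rz : St_Rz := pr_Rz FP.c_HC c_Kh c_Hb c_Uq c_Lx c_Le c_Hx c_Rt

theorem c_Ck : St_Ck := pr_Ck c_Dl c_Fo

theorem c_Kv : St_Kv := pr_Kv c_Dl c_Rt c_Fo

theorem c_Ts : St_Ts := pr_Ts c_Fo

theorem c_Bt : St_Bt := pr_Bt FP.c_Sy FP.c_Hl c_Lx c_Rt c_Kv c_Lb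

theorem c_Di : St_Di := pr_Di c_Ap c_Cl c_Kv c_Ts

theorem c_Nj : St_Nj := pr_Nj FP.c_Sy FP.c_Hl c_Hx c_Rt c_Fo c_Kv

theorem c_Q1 : St_Q1 := pr_Q1 FP.c_HC c_Lx c_Hx c_Sr c_Fo c_Kv

theorem c_I2 : St_I2 := pr_I2 FP.c_Sy FP.c_Hl c_Hx c_Fo c_Kv c_Q1

theorem c_I4 : St_I4 := pr_I4 c_Lx c_Sr c_Rt c_Nj

theorem c_Pg : St_Pg := pr_Pg c_Lx c_Sr c_Rt c_Nj

theorem c_Sp : St_Sp := pr_Sp c_Kc c_Uq c_H1 c_Ck c_Di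

theorem c_Gp : St_Gp := pr_Gp c_Nx c_La c_I4

theorem c_P1 : St_P1 := pr_P1 c_Uq c_Sr c_Rt c_Nj c_Pg

theorem c_R1 : St_R1 := pr_R1 c_Uq c_Sr c_Rt c_Nj c_Pg

theorem c_T1 : St_T1 := pr_T1 c_Nx c_Lx c_Rt c_P1 c_Lb c_I1

theorem c_T2 : St_T2 := pr_T2 c_Nx c_Rt c_La c_Lb c_I2 c_Gp c_T1

theorem c_T3 : St_T3 := pr_T3 c_Nx c_R1 c_Rt c_La c_Lb c_I1 c_Gp c_T1

theorem c_T4 : St_T4 := pr_T4 c_Rt c_Lb c_T1 c_T2 c_T3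

theorem c_Ct : St_Ct := pr_Ct c_Ap c_Kv c_Sp c_T4 c_Bt c_At c_Fx

theorem c_Rf : St_Rf := pr_Rf FP.c_Sy FP.c_HC c_Nx c_Hx c_Rt c_Rz c_La c_Lb c_Gp c_Ct

theorem c_Cf : St_Cf := pr_Cf c_Em c_Rf

theorem main_theorem (k : ℕ) : ∃ f : List (ℚ × ℚ) × List (ℚ × ℚ) → Bool,
    N68a2faeb.IsPolyTime f ∧ ∀ I : List (ℚ × ℚ) × List (ℚ × ℚ), GenPos I →
      (f I = true → ∃ l : List (ℝ × ℝ), IsPath (pts I.1) (pts I.2) l) ∧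
      (Lyr k I → (∃ l : List (ℝ × ℝ), IsPath (pts I.1) (pts I.2) l) → f I = true) :=
  final FP.c_PF FP.c_GD FP.c_EX c_Fi c_Cf c_Pe k

end Pool.Agent.Work.MP_c6c039_lc.CL
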