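import Pool.Agent.Work.MP_c6c039_lc.NC.Defs

/-!
# SSAP for a bounded number of convex layers: definitions (block CL, captain helper87)

Every point lies on a short route to the hull.  A fact `(A, (B, J))` of the search consists of the
routes `A`, `B` of the two ends of a segment and of the gaps `J` of the path which are already filled
inside the region cut off by the segment and the two routes.  Every vertex of a route has a label,
its place `1, .., n` in the path; the gap of the mark `p` (a label, or `0`) goes from `p` to the next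
label (or to `n + 1`).
-/

set_option autoImplicit false

namespace Pool.Agent.Work.MP_c6c039_lc.CL

open Pool.Agent.PT Pool.Agent.Work.MP_c6c039_lc.FP Pool.Agent.Work.MP_c6c039_lc.NC

/-! ## The search -/

/-- labelled routes -/
abbrev Rt := List (ℕ × ℕ)
/-- facts -/
abbrev Ft := Rt × (Rt × List ℕ)

/-- the vertices of a route -/
def vs (A : Rt) : List ℕ := A.map Prod.fst
/-- the labels -/
def lb (A : Rt) : List ℕ := A.map Prod.snd
/-- the first vertex of a route -/
def hd (A : Rt) : ℕ := (vs A).headD 0
/-- the marks -/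
def mk (S : Rt) : List ℕ := 0 :: lb S
/-- the labelled vertices of a fact -/
def bg (F : Ft) : Rt := F.1 ++ F.2.1

/-- the next label -/
def nxt (I : In) (S : Rt) (p : ℕ) : ℕ :=
  ((List.range (nn I + 1)).filter fun q => decide (p < q) && decide (q ∈ lb S)).headD (nn I + 1)

/-- the vertex with the label `l` -/
def vt (S : Rt) (l : ℕ) : ℕ := hd (S.filter fun x => x.2 == l)

/-- different vertices have different labels, and conversely -/
def cons (I : In) (S : Rt) : Bool := S.all fun x =>
  (decide (x.1 < nn I) && (decide (0 < x.2) && decide (x.2 ≤ nn I))) &&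
    S.all fun y => (x.1 == y.1) == (x.2 == y.2)

/-- a route: no repetitions, the last vertex is the only hull vertex -/
def rv (I : In) (A : Rt) : Bool := decide (0 < A.length) && (ndp (vs A) &&
  (List.range A.length).all fun i => decide ((vs A).getD i 0 ∈ hu I) == (i + 1 == A.length))

/-- start of the derivations: the segment is a step of a route or an edge of the hull -/
def bas (I : In) (F : Ft) : Bool :=
  (rv I F.1 && (rv I F.2.1 && cons I (bg F))) && (F.2.2.isEmpty &&
    (decide (F.1.tail = F.2.1) || (decide (F.2.1.tail = F.1) ||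
      ((F.1.length == 1 && F.2.1.length == 1) && (List.range (mm I - 1)).any fun j =>
        (hd F.1 == hp I j && hd F.2.1 == hp I (j + 1)) ||
          (hd F.1 == hp I (j + 1) && hd F.2.1 == hp I j)))))

/-- `x y` is a new side of the triangle, or a new step of the route of its apex -/
def es (A B C : Rt) (x y : ℕ) : Bool :=
  (x == hd A && y == hd C) || ((x == hd C && y == hd B) ||
    ((List.range (C.length - 1)).any fun i => (vs C).getD i 0 == x && (vs C).getD (i + 1) 0 == y) &&
      (!decide (x ∈ vs A) && !decide (x ∈ vs B)))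

/-- the gap of the mark `p` is empty or one of the new edges -/
def lo (I : In) (A B C : Rt) (p : ℕ) : Bool :=
  nxt I (A ++ (B ++ C)) p == p + 1 && (p == 0 || (p == nn I ||
    (!(co I (vt (A ++ (B ++ C)) p) == co I (vt (A ++ (B ++ C)) (p + 1))) &&
      (es A B C (vt (A ++ (B ++ C)) p) (vt (A ++ (B ++ C)) (p + 1)) ||
        es A B C (vt (A ++ (B ++ C)) (p + 1)) (vt (A ++ (B ++ C)) p)))))

/-- the gap of the mark `p` is filled -/
def rz (I : In) (A B C : Rt) (JA JB : List ℕ) (p : ℕ) : Bool :=
  decide (p ∈ JA) || (decide (p ∈ JB) || lo I A B C p)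

/-- The fact `(A, (B, J))` follows from `(A, (C, JA))` and `(C, (B, JB))`. -/
def cmt (I : In) (A B C : Rt) (J JA JB : List ℕ) : Bool :=
  ((rv I A && (rv I B && (rv I C && cons I (A ++ (B ++ C))))) &&
    (chi I (hd A) (hd B) (hd C) && (List.range (nn I)).all fun x =>
      x == hd A || (x == hd B || (x == hd C || !inT I (hd A) (hd B) (hd C) x)))) &&
  (((JA.all fun p => decide (p ∈ mk (A ++ C)) &&
      (nxt I (A ++ C) p == nxt I (A ++ (B ++ C)) p && !decide (p ∈ JB))) &&
    (JB.all fun p => decide (p ∈ mk (C ++ B)) &&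
      nxt I (C ++ B) p == nxt I (A ++ (B ++ C)) p)) &&
  ((J.all fun p => decide (p ∈ mk (A ++ B))) && (mk (A ++ B)).all fun p =>
    if p ∈ J then (mk (A ++ (B ++ C))).all fun r =>
      decide (r < p) || (decide (nxt I (A ++ B) p ≤ r) || rz I A B C JA JB r)
    else nxt I (A ++ (B ++ C)) p == nxt I (A ++ B) p && (!decide (p ∈ JA) && !decide (p ∈ JB))))

/-- the fact `F` follows from `G` and `H` -/
def cmb (I : In) (F G H : Ft) : Bool :=
  (decide (F.1 = G.1) && (decide (F.2.1 = H.2.1) && decide (G.2.1 = H.1))) &&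
    cmt I F.1 F.2.1 H.1 F.2.2 G.2.2 H.2.2

/-- `F` follows from facts of `L` by one rule -/
def rule (I : In) (L : List Ft) (F : Ft) : Bool :=
  bas I F || L.any fun G => L.any fun H => cmb I F G H

/-- all facts with routes of at most `k` vertices -/
def allT (k : ℕ) (I : In) : List Ft :=
  List.product (allL k (List.product (List.range (nn I)) (List.range (nn I + 1))))
    (List.product (allL k (List.product (List.range (nn I)) (List.range (nn I + 1))))
      (allL (2 * k + 1) (List.range (nn I + 1))))

/-- one round -/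
def stp (k : ℕ) (I : In) (L : List Ft) : List Ft :=
  (allT k I).filter fun F => decide (F ∈ L) || rule I L F

/-- all derivable facts -/
def sat (k : ℕ) (I : In) : List Ft := (stp k I)^[(allT k I).length + 1] []

/-- the fact is about the last edge of the hull, and all gaps are filled -/
def fin (I : In) (F : Ft) : Bool :=
  ((F.1.length == 1 && F.2.1.length == 1) && (hd F.1 == hp I (mm I - 1) && hd F.2.1 == hp I 0)) &&
  (mk (bg F)).all fun p => decide (p ∈ F.2.2) || (nxt I (bg F) p == p + 1 &&
    (p == 0 || (p == nn I || !(co I (hd F.1) == co I (hd F.2.1)))))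

/-- the decision -/
def lay (k : ℕ) (I : In) : Bool :=
  if nn I < 3 then decide (nn I < 2) || !(co I 0 == co I 1) else (sat k I).any fun F => fin I F

/-! ## Chains -/

/-- the directed edge `u v` as a chain -/
def dl (u v x y : ℕ) : ℤ :=
  (if u = x ∧ v = y then 1 else 0) - (if u = y ∧ v = x then 1 else 0)

/-- the chain of a walk -/
def ch (A : List ℕ) (x y : ℕ) : ℤ := ((ed A).map fun e => dl e.1 e.2 x y).sum

/-- the sides of a triangle -/
def sl (t : ℕ × (ℕ × ℕ)) : List (ℕ × ℕ) := [(t.1, t.2.1), (t.2.1, t.2.2), (t.2.2, t.1)]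

/-- the boundary of a list of triangles -/
def bd (T : List (ℕ × (ℕ × ℕ))) (x y : ℕ) : ℤ :=
  (T.map fun t => dl t.1 t.2.1 x y + (dl t.2.1 t.2.2 x y + dl t.2.2 t.1 x y)).sum

/-- a route, continued along the hull to `hp I 0` -/
def fr (I : In) (A : List ℕ) : List ℕ :=
  A ++ ((hu I).take (px (hu I) (A.getLastD 0))).reverse

/-- the closed curve of a fact: the segment and the two routes -/
def kp (I : In) (A B : List ℕ) (x y : ℕ) : ℤ :=
  dl (A.headD 0) (B.headD 0) x y + (ch (fr I B) x y - ch (fr I A) x y)

/-- the boundary of the hull -/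
def hb (I : In) (x y : ℕ) : ℤ := dl (hp I (mm I - 1)) (hp I 0) x y + ch (hu I) x y

/-! ## Meaning of the facts -/

/-- a positively oriented triangle which contains no other point -/
structure TP (I : In) (t : ℕ × (ℕ × ℕ)) : Prop where
  lt : t.1 < nn I ∧ t.2.1 < nn I ∧ t.2.2 < nn I
  pos : chi I t.1 t.2.1 t.2.2 = true
  emp : ∀ x, Ds I [t.1, t.2.1, t.2.2, x] → inT I t.1 t.2.1 t.2.2 x = false

/-- an alternating side of a triangle of `T` -/
def AD (I : In) (T : List (ℕ × (ℕ × ℕ))) (x y : ℕ) : Prop :=
  co I x ≠ co I y ∧ ∃ t ∈ T, (x, y) ∈ sl t ∨ (y, x) ∈ sl t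

/-- The fact `F` holds: the region is filled with triangles, and the gaps with vertices. -/
structure SM (I : In) (F : Ft) (T : List (ℕ × (ℕ × ℕ))) (g : ℕ → ℕ) : Prop where
  r1 : rv I F.1 = true
  r2 : rv I F.2.1 = true
  cs : cons I (bg F) = true
  tr : ∀ t ∈ T, TP I t
  bdy : ∀ x y, bd T x y = kp I (vs F.1) (vs F.2.1) x y
  jm : ∀ p ∈ F.2.2, p ∈ mk (bg F)
  lab : ∀ x ∈ bg F, g x.2 = x.1
  adj : ∀ p ∈ F.2.2, ∀ i, p ≤ i → i < nxt I (bg F) p → 0 < i → i < nn I → AD I T (g i) (g (i + 1))
  cov : ∀ t ∈ T, ∀ e ∈ sl t, e.1 ∈ vs (bg F) ∨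
    ∃ p ∈ F.2.2, ∃ i, p < i ∧ i < nxt I (bg F) p ∧ g i = e.1

end Pool.Agent.Work.MP_c6c039_lc.CL
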