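import Pool.Agent.Work.MP_c6c039_lc.CL.StmtsW

/-!
# Block CL, item An: the weights of the triangles in an angle
-/

set_option autoImplicit false

namespace Pool.Agent.Work.MP_c6c039_lc.CL

open Pool.Agent.Work.MP_c6c039_lc.FP Pool.Agent.Work.MP_c6c039_lc.NC

namespace IAn

/-- the three term relation for the areas with the common point `z` -/
theorem idn (X Y : ℕ → ℝ) (z a y x b : ℕ) :
    ar X Y z a x * ar X Y z y b =
      ar X Y z a y * ar X Y z x b + ar X Y z a b * ar X Y z y x := by
  unfold ar
  ring

/-- transitivity on the left -/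
theorem left (I : In) (hR : Rl I) (z a y x b : ℕ) (hz : z < nn I) (ha : a < nn I) (hy : y < nn I)
    (hx : x < nn I) (hb : b < nn I) (hab : chi I z a b = true) (hax : chi I z a x = true)
    (hxb : chi I z x b = true) (hay : chi I z a y = true) (hyx : chi I z y x = true) :
    chi I z y b = true := by
  obtain ⟨X, Y, h, _⟩ := hR
  rw [h _ _ _ hz ha hb] at hab
  rw [h _ _ _ hz ha hx] at hax
  rw [h _ _ _ hz hx hb] at hxb
  rw [h _ _ _ hz ha hy] at hay
  rw [h _ _ _ hz hy hx] at hyx
  rw [h _ _ _ hz hy hb]
  have e := idn X Y z a y x b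
  have p : 0 < ar X Y z a x * ar X Y z y b := by
    rw [e]
    exact add_pos (mul_pos hay hxb) (mul_pos hab hyx)
  exact (pos_iff_pos_of_mul_pos p).1 hax

/-- transitivity on the right -/
theorem right (I : In) (hR : Rl I) (z a y x b : ℕ) (hz : z < nn I) (ha : a < nn I) (hy : y < nn I)
    (hx : x < nn I) (hb : b < nn I) (hab : chi I z a b = true) (hax : chi I z a x = true)
    (hxb : chi I z x b = true) (hxy : chi I z x y = true) (hyb : chi I z y b = true) :
    chi I z a y = true := by
  obtain ⟨X, Y, h, _⟩ := hR
  rw [h _ _ _ hz ha hb] at hab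
  rw [h _ _ _ hz ha hx] at hax
  rw [h _ _ _ hz hx hb] at hxb
  rw [h _ _ _ hz hx hy] at hxy
  rw [h _ _ _ hz hy hb] at hyb
  rw [h _ _ _ hz ha hy]
  have e := idn X Y z a x y b
  have p : 0 < ar X Y z a y * ar X Y z x b := by
    rw [e]
    exact add_pos (mul_pos hax hyb) (mul_pos hab hxy)
  exact (pos_iff_pos_of_mul_pos p).2 hxb

theorem deg (I : In) (hR : Rl I) (z x : ℕ) (hz : z < nn I) (hx : x < nn I) :
    ¬ chi I z x x = true := by
  obtain ⟨X, Y, h, _⟩ := hR
  rw [h _ _ _ hz hx hx]
  have e : ar X Y z x x = 0 := by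
    unfold ar
    ring
  rw [e]
  exact lt_irrefl 0

end IAn

open Classical in
theorem pr_An (hTi : St_Ti) (hUq : St_Uq) : St_An := by
  intro I hR E hE w hw z
  have key : ∀ n : ℕ, ∀ a b, ((Finset.range (nn I)).filter (fun x => E z x ∧
      chi I z a x = true ∧ chi I z x b = true)).card < n → E z a → E z b → chi I z a b = true →
      (∀ x, E z x → chi I z a x = true → chi I z x b = true → w z x = w x z) →
      w z a = w b z := by
    intro n
    induction n with
    | zero => exact fun a b h => absurd h (Nat.not_lt_zero _)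
    | succ n ih =>
      intro a b hn ha hb hab hx
      by_cases hex : ∃ x, E z x ∧ chi I z a x = true ∧ chi I z x b = true
      · obtain ⟨x, hzx, hax, hxb⟩ := hex
        obtain ⟨hz, ha', _⟩ := hE.lt z a ha
        obtain ⟨_, hb', _⟩ := hE.lt z b hb
        obtain ⟨_, hx', _⟩ := hE.lt z x hzx
        have hmem : x ∈ (Finset.range (nn I)).filter (fun x => E z x ∧
            chi I z a x = true ∧ chi I z x b = true) := by
          rw [Finset.mem_filter, Finset.mem_range]
          exact ⟨hx', hzx, hax, hxb⟩
        have h1 : w z a = w x z := by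
          refine ih a x ?_ ha hzx hax ?_
          · refine lt_of_lt_of_le (Finset.card_lt_card ?_) (Nat.lt_succ_iff.1 hn)
            rw [Finset.ssubset_iff_of_subset]
            · refine ⟨x, hmem, ?_⟩
              rw [Finset.mem_filter]
              exact fun h => IAn.deg I hR z x hz hx' h.2.2.2
            · intro y hy
              rw [Finset.mem_filter, Finset.mem_range] at hy ⊢
              obtain ⟨h1, h2, h3, h4⟩ := hy
              exact ⟨h1, h2, h3, IAn.left I hR z a y x b hz ha' h1 hx' hb' hab hax hxb h3 h4⟩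
          · intro y hzy h3 h4
            exact hx y hzy h3
              (IAn.left I hR z a y x b hz ha' (hE.lt z y hzy).2.1 hx' hb' hab hax hxb h3 h4)
        have h2 : w z x = w b z := by
          refine ih x b ?_ hzx hb hxb ?_
          · refine lt_of_lt_of_le (Finset.card_lt_card ?_) (Nat.lt_succ_iff.1 hn)
            rw [Finset.ssubset_iff_of_subset]
            · refine ⟨x, hmem, ?_⟩
              rw [Finset.mem_filter]
              exact fun h => IAn.deg I hR z x hz hx' h.2.2.1
            · intro y hy
              rw [Finset.mem_filter, Finset.mem_range] at hy ⊢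
              obtain ⟨h1, h2, h3, h4⟩ := hy
              exact ⟨h1, h2, IAn.right I hR z a y x b hz ha' h1 hx' hb' hab hax hxb h3 h4, h4⟩
          · intro y hzy h3 h4
            exact hx y hzy
              (IAn.right I hR z a y x b hz ha' (hE.lt z y hzy).2.1 hx' hb' hab hax hxb h3 h4) h4
        rw [h1, ← hx x hzx hax hxb, h2]
      · have hT : Tr I E z a b := hTi I hR E hE z a b ha hb hab fun x h1 h2 =>
          hex ⟨x, h1, h2.1, h2.2⟩
        rw [hw.rot z a b hT, hw.rot a b z ((hUq I hR E hE).1 z a b hT)]
  intro a b ha hb hab hx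
  exact key _ a b (Nat.lt_succ_self _) ha hb hab hx

end Pool.Agent.Work.MP_c6c039_lc.CL
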