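import Pool.Agent.Work.MP_c6c039_lc.CL.StmtsW

set_option autoImplicit false

namespace Pool.Agent.Work.MP_c6c039_lc.CL

open Pool.Agent.Work.MP_c6c039_lc.FP Pool.Agent.Work.MP_c6c039_lc.NC

theorem pr_Cl (hUq : St_Uq) : St_Cl := by
  intro I hI E hE w hw
  obtain ⟨hrot, huq⟩ := hUq I hI E hE
  have hex : ∀ a b, w a b ≠ 0 → ∃ c, Tr I E a b c :=
    fun a b h => by_contra fun h' => h (hw.out a b h')
  refine ⟨fun x y => by ring, ?_, ?_⟩
  · intro x y h
    by_cases h1 : w x y = 0
    · have h2 : w y x ≠ 0 := by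
        intro h2
        apply h
        rw [h1, h2]
        ring
      obtain ⟨c, hc⟩ := hex _ _ h2
      exact hE.sym _ _ hc.e1
    · obtain ⟨c, hc⟩ := hex _ _ h1
      exact hc.e1
  · intro a
    rw [Finset.sum_sub_distrib, sub_eq_zero]
    choose f hf using hex
    refine Finset.sum_bij_ne_zero (fun y _ h => f a y h) ?_ ?_ ?_ ?_
    · intro y _ h
      rw [Finset.mem_range]
      exact (hE.lt _ _ (hf a y h).e3).1
    · intro y _ h y' _ h' heq
      have t1 : Tr I E (f a y h) a y := hrot _ _ _ (hrot _ _ _ (hf a y h))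
      have t2 : Tr I E (f a y' h') a y' := hrot _ _ _ (hrot _ _ _ (hf a y' h'))
      have heq' : f a y h = f a y' h' := heq
      rw [heq'] at t1
      exact huq _ _ _ _ t1 t2
    · intro c _ hc
      have t1 : Tr I E c a (f c a hc) := hf c a hc
      have t2 : Tr I E a (f c a hc) c := hrot _ _ _ t1
      have h1 : w a (f c a hc) ≠ 0 := by
        rw [← hw.rot _ _ _ t1]
        exact hc
      refine ⟨f c a hc, ?_, h1, ?_⟩
      · rw [Finset.mem_range]
        exact (hE.lt _ _ t1.e3).1
      · exact huq _ _ _ _ (hf a (f c a hc) h1) t2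
    · intro y _ h
      have t1 := hf a y h
      rw [hw.rot _ _ _ t1, hw.rot _ _ _ (hrot _ _ _ t1)]

end Pool.Agent.Work.MP_c6c039_lc.CL
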