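import Pool.Agent.Work.MP_c6c039_lc.CL.StmtsS

/-!
# Block CL, item Fi: soundness
-/

set_option autoImplicit false

namespace Pool.Agent.Work.MP_c6c039_lc.CL

open Pool.Agent.Work.MP_c6c039_lc.FP Pool.Agent.Work.MP_c6c039_lc.NC

namespace IFi

/-- few points -/
theorem small (I : In) (k : ℕ) (hn : nn I < 3) (h : lay k I = true) : ∃ p, SP I p := by
  unfold lay at h
  rw [if_pos hn] at h
  refine ⟨List.range (nn I), List.nodup_range, fun p => List.mem_range, ?_, ?_⟩
  · intro i hi
    rw [List.length_range] at hi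
    have h2 : nn I = 2 := by omega
    have hi0 : i = 0 := by omega
    subst hi0
    rw [h2] at h ⊢
    simp at h
    intro hc
    apply h
    exact hc
  · intro i j h1 h2
    rw [List.length_range] at h2
    omega

theorem sl_lt (I : In) (t : ℕ × (ℕ × ℕ)) (h : TP I t) (x y : ℕ) (hx : (x, y) ∈ sl t) :
    x < nn I ∧ y < nn I := by
  have hl := h.lt
  unfold sl at hx
  simp only [List.mem_cons, Prod.mk.injEq, List.not_mem_nil, or_false] at hx
  rcases hx with ⟨rfl, rfl⟩ | ⟨rfl, rfl⟩ | ⟨rfl, rfl⟩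
  · exact ⟨hl.1, hl.2.1⟩
  · exact ⟨hl.2.1, hl.2.2⟩
  · exact ⟨hl.2.2, hl.1⟩

theorem ad_lt (I : In) (T : List (ℕ × (ℕ × ℕ))) (hT : ∀ t ∈ T, TP I t) (x y : ℕ)
    (h : AD I T x y) : x < nn I ∧ y < nn I := by
  obtain ⟨_, t, ht, h1⟩ := h
  rcases h1 with h1 | h1
  · exact sl_lt I t (hT t ht) x y h1
  · exact (sl_lt I t (hT t ht) y x h1).symm

/-- a surjection of `range n` is injective -/
theorem inj (n : ℕ) (g : ℕ → ℕ) (h1 : ∀ i, 0 < i → i ≤ n → g i < n)
    (h2 : ∀ w, w < n → ∃ i, 0 < i ∧ i ≤ n ∧ g i = w) :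
    ∀ i j, 0 < i → i ≤ n → 0 < j → j ≤ n → g i = g j → i = j := by
  have hf : ∃ f : Fin n → Fin n, ∀ i, (f i : ℕ) = g (i + 1) :=
    ⟨fun i => ⟨g (i + 1), h1 _ (by omega) (by omega)⟩, fun i => rfl⟩
  obtain ⟨f, hf⟩ := hf
  have hs : Function.Surjective f := by
    intro w
    obtain ⟨i, hi0, hi, hw⟩ := h2 w w.2
    refine ⟨⟨i - 1, by omega⟩, ?_⟩
    apply Fin.ext
    rw [hf]
    show g (i - 1 + 1) = w
    rw [Nat.sub_add_cancel hi0]
    exact hw
  have hi := Finite.injective_iff_surjective.2 hs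
  intro i j hi0 hin hj0 hjn he
  have := @hi ⟨i - 1, by omega⟩ ⟨j - 1, by omega⟩ (by
    apply Fin.ext
    rw [hf, hf]
    show g (i - 1 + 1) = g (j - 1 + 1)
    rw [Nat.sub_add_cancel hi0, Nat.sub_add_cancel hj0]
    exact he)
  have h3 : i - 1 = j - 1 := congrArg Fin.val this
  omega

theorem gd (n : ℕ) (g : ℕ → ℕ) (i : ℕ) (hi : i < n) :
    ((List.range n).map fun i => g (i + 1)).getD i 0 = g (i + 1) := by
  rw [List.getD_eq_getElem _ _ (by simpa using hi)]
  simp

/-- the path from the places -/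
theorem path (I : In) (g : ℕ → ℕ) (T : List (ℕ × (ℕ × ℕ))) (hCs : FP.St_Cs) (hC : CH I)
    (hT : ∀ t ∈ T, TP I t) (hn : 3 ≤ nn I)
    (had : ∀ i, 0 < i → i < nn I → AD I T (g i) (g (i + 1)))
    (hcov : ∀ w, w < nn I → ∃ i, 0 < i ∧ i ≤ nn I ∧ g i = w)
    (hns : ∀ t ∈ T, ∀ s ∈ T, ∀ e ∈ sl t, ∀ f ∈ sl s,
      Ds I [e.1, e.2, f.1, f.2] → cr I e.1 e.2 f.1 f.2 = false) : ∃ p, SP I p := by
  have hlt : ∀ i, 0 < i → i ≤ nn I → g i < nn I := by
    intro i h0 hi
    rcases Nat.lt_or_ge i (nn I) with h | h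
    · exact (ad_lt I T hT _ _ (had i h0 h)).1
    · have hh := (ad_lt I T hT _ _ (had (i - 1) (by omega) (by omega))).2
      rw [Nat.sub_add_cancel h0] at hh
      exact hh
  have hinj := inj (nn I) g hlt hcov
  refine ⟨(List.range (nn I)).map fun i => g (i + 1), ?_, ?_, ?_, ?_⟩
  · refine List.Nodup.map_on ?_ List.nodup_range
    intro a ha b hb he
    rw [List.mem_range] at ha hb
    have := hinj (a + 1) (b + 1) (by omega) (by omega) (by omega) (by omega) he
    omega
  · intro w
    rw [List.mem_map]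
    constructor
    · rintro ⟨i, hi, rfl⟩
      rw [List.mem_range] at hi
      exact hlt _ (by omega) (by omega)
    · intro hw
      obtain ⟨i, h0, hi, he⟩ := hcov w hw
      refine ⟨i - 1, by rw [List.mem_range]; omega, ?_⟩
      rw [Nat.sub_add_cancel h0]
      exact he
  · intro i hi
    rw [List.length_map, List.length_range] at hi
    rw [gd _ _ _ (by omega), gd _ _ _ hi]
    exact (had (i + 1) (by omega) hi).1
  · intro i j hij hj
    rw [List.length_map, List.length_range] at hj
    rw [gd _ _ _ (by omega), gd _ _ _ (by omega), gd _ _ _ (by omega), gd _ _ _ hj]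
    obtain ⟨_, t, ht, h1⟩ := had (i + 1) (by omega) (by omega)
    obtain ⟨_, s, hs, h2⟩ := had (j + 1) (by omega) (by omega)
    have hD : Ds I [g (i + 1), g (i + 1 + 1), g (j + 1), g (j + 1 + 1)] := by
      constructor
      · simp only [List.nodup_cons, List.mem_cons, List.not_mem_nil, or_false, not_or,
          not_false_eq_true, List.nodup_nil, and_true]
        refine ⟨⟨?_, ?_, ?_⟩, ⟨?_, ?_⟩, ?_⟩ <;> intro he
        · have := hinj _ _ (by omega) (by omega) (by omega) (by omega) he
          omega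
        · have := hinj _ _ (by omega) (by omega) (by omega) (by omega) he
          omega
        · have := hinj _ _ (by omega) (by omega) (by omega) (by omega) he
          omega
        · have := hinj _ _ (by omega) (by omega) (by omega) (by omega) he
          omega
        · have := hinj _ _ (by omega) (by omega) (by omega) (by omega) he
          omega
        · have := hinj _ _ (by omega) (by omega) (by omega) (by omega) he
          omega
      · intro a ha
        simp only [List.mem_cons, List.not_mem_nil, or_false] at ha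
        rcases ha with rfl | rfl | rfl | rfl
        · exact hlt _ (by omega) (by omega)
        · exact hlt _ (by omega) (by omega)
        · exact hlt _ (by omega) (by omega)
        · exact hlt _ (by omega) (by omega)
    revert hD h1 h2
    generalize g (i + 1) = a
    generalize g (i + 1 + 1) = b
    generalize g (j + 1) = c
    generalize g (j + 1 + 1) = d
    intro h1 h2 hD
    have hsw1 : ∀ x y z w, Ds I [x, y, z, w] → Ds I [y, x, z, w] := by
      intro x y z w h
      obtain ⟨hnd, hl⟩ := h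
      refine ⟨(List.Perm.swap x y [z, w]).nodup_iff.2 hnd, fun a ha => hl a ?_⟩
      simp only [List.mem_cons, List.not_mem_nil, or_false] at ha ⊢
      tauto
    have hsw2 : ∀ x y z w, Ds I [x, y, z, w] → Ds I [x, y, w, z] := by
      intro x y z w h
      obtain ⟨hnd, hl⟩ := h
      refine ⟨(((List.Perm.swap z w []).cons y).cons x).nodup_iff.2 hnd, fun a ha => hl a ?_⟩
      simp only [List.mem_cons, List.not_mem_nil, or_false] at ha ⊢
      tauto
    rcases h1 with h1 | h1 <;> rcases h2 with h2 | h2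
    · exact hns t ht s hs (a, b) h1 (c, d) h2 hD
    · rw [← (hCs I hC a b c d hD).2.1]
      exact hns t ht s hs (a, b) h1 (d, c) h2 (hsw2 _ _ _ _ hD)
    · rw [← (hCs I hC a b c d hD).1]
      exact hns t ht s hs (b, a) h1 (c, d) h2 (hsw1 _ _ _ _ hD)
    · rw [← (hCs I hC a b c d hD).1, ← (hCs I hC b a c d (hsw1 _ _ _ _ hD)).2.1]
      exact hns t ht s hs (b, a) h1 (d, c) h2 (hsw2 _ _ _ _ (hsw1 _ _ _ _ hD))

end IFi

theorem pr_Fi (hSy : FP.St_Sy) (hCs : FP.St_Cs) (hHC : FP.St_HC) (hNx : St_Nx) (hVt : St_Vt)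
    (hKc : St_Kc) (hKh : St_Kh) (hSo : St_So) (hHs : St_Hs) (hHb : St_Hb) (hNs : St_Ns)
    (hCv : St_Cv) : St_Fi := by
  intro I hG k h
  rcases Nat.lt_or_ge (nn I) 3 with hn | hn
  · exact IFi.small I k hn h
  unfold lay at h
  rw [if_neg (by omega), List.any_eq_true] at h
  obtain ⟨F, hF, hfin⟩ := h
  obtain ⟨T, g, hS⟩ := hSo I hG k F hF
  obtain ⟨A, B, J⟩ := F
  have hC := hSy I hG.real
  have hH := hHC I hG (by omega)
  have hm := (hHs I hG hn).1
  unfold fin at hfin
  simp only [Bool.and_eq_true, beq_iff_eq] at hfin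
  obtain ⟨⟨⟨hA, hB⟩, hA1, hB1⟩, hall⟩ := hfin
  obtain ⟨x, rfl⟩ := List.length_eq_one_iff.1 hA
  obtain ⟨y, rfl⟩ := List.length_eq_one_iff.1 hB
  have hx : x.1 = hp I (mm I - 1) := hA1
  have hy : y.1 = hp I 0 := hB1
  have hper : hp I (mm I - 1 + 1) = hp I 0 := by
    have := hH.per 0
    rw [show mm I - 1 + 1 = 0 + mm I by omega]
    exact this
  have hbd : ∀ u v, bd T u v = hb I u v := by
    intro u v
    have h1 := hS.bdy u v
    have h2 : vs [x] = [hp I (mm I - 1)] := by
      unfold vs
      rw [List.map_singleton, hx]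
    have h3 : vs [y] = [hp I 0] := by
      unfold vs
      rw [List.map_singleton, hy]
    rw [h1]
    show kp I (vs [x]) (vs [y]) u v = hb I u v
    rw [h2, h3]
    exact hKh I hG (by omega) u v
  have hside : ∃ t ∈ T, (x.1, y.1) ∈ sl t ∨ (y.1, x.1) ∈ sl t := by
    apply hKc.2.2
    rw [hbd, hx, hy, ← hper, ((hHb I hG hn).1 (mm I - 1)).1]
    exact one_ne_zero
  have hbg : bg ([x], ([y], J)) = [x, y] := rfl
  have hcs := hS.cs
  have hlab := hS.lab
  have hjm := hS.jm
  have hadj := hS.adj
  have hcov := hS.cov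
  rw [hbg] at hcs hlab hjm hadj hcov hall
  have hV := hVt I [x, y] hcs
  have hlb : lb [x, y] = [x.2, y.2] := rfl
  have hmk : mk [x, y] = [0, x.2, y.2] := rfl
  have hxr := hV.1 x (by simp)
  have hyr := hV.1 y (by simp)
  have hgx : g x.2 = x.1 := hlab x (by simp)
  have hgy : g y.2 = y.1 := hlab y (by simp)
  obtain ⟨n1, n2, n3, n4, n5, n6⟩ := hNx I [x, y]
  rw [List.all_eq_true] at hall
  have had : ∀ i, 0 < i → i < nn I → AD I T (g i) (g (i + 1)) := by
    intro i h0 hi
    obtain ⟨p, hp1, hp2, hp3⟩ := n5 i (by omega)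
    have h1 := hall p hp1
    rw [Bool.or_eq_true, decide_eq_true_iff] at h1
    rcases h1 with h1 | h1
    · exact hadj p h1 i hp2 hp3 h0 hi
    · simp only [Bool.and_eq_true, Bool.or_eq_true, beq_iff_eq, Bool.not_eq_true',
        beq_eq_false_iff_ne, ne_eq] at h1
      obtain ⟨h2, h3⟩ := h1
      have hip : i = p := by omega
      subst hip
      have hco : co I x.1 ≠ co I y.1 := by
        rcases h3 with h3 | h3 | h3
        · omega
        · omega
        · exact h3
      have hlb1 : i = x.2 ∨ i = y.2 := by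
        rw [hmk] at hp1
        simp only [List.mem_cons, List.not_mem_nil, or_false] at hp1
        rcases hp1 with h | h | h
        · omega
        · exact Or.inl h
        · exact Or.inr h
      have hlb2 : i + 1 = x.2 ∨ i + 1 = y.2 := by
        rcases n2 i with h | h
        · omega
        · rw [h2, hlb] at h
          simpa using h
      rcases hlb1 with h4 | h4
      · have h5 : i + 1 = y.2 := by
          rcases hlb2 with h | h
          · omega
          · exact h
        rw [h5, h4, hgx, hgy]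
        exact ⟨hco, hside⟩
      · have h5 : i + 1 = x.2 := by
          rcases hlb2 with h | h
          · exact h
          · omega
        rw [h5, h4, hgx, hgy]
        obtain ⟨t, ht, hh⟩ := hside
        exact ⟨hco.symm, t, ht, hh.symm⟩
  have hT : ∀ t ∈ T, TP I t := hS.tr
  refine IFi.path I g T hCs hC hT hn had ?_
    (hNs I hG hn T (fun t ht => ⟨(hT t ht).lt, (hT t ht).pos⟩) hbd)
  intro w hw
  obtain ⟨t, ht, e, he, hew⟩ := hCv I hG hn T hT hbd w hw
  rcases hcov t ht e he with h1 | ⟨p, hp, i, hpi, hi, hgi⟩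
  · have h2 : e.1 = x.1 ∨ e.1 = y.1 := by
      have : vs [x, y] = [x.1, y.1] := rfl
      rw [this] at h1
      simpa using h1
    rcases h2 with h2 | h2
    · exact ⟨x.2, hxr.2.1, hxr.2.2.1, by rw [hgx, ← h2, hew]⟩
    · exact ⟨y.2, hyr.2.1, hyr.2.2.1, by rw [hgy, ← h2, hew]⟩
  · have h3 : p ≤ nn I := by
      have := hjm p hp
      rw [hmk] at this
      simp only [List.mem_cons, List.not_mem_nil, or_false] at this
      rcases this with h | h | h
      · omega
      · rw [h]
        exact hxr.2.2.1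
      · rw [h]
        exact hyr.2.2.1
    have h4 := (n1 p h3).2
    exact ⟨i, by omega, by omega, by rw [hgi, hew]⟩

end Pool.Agent.Work.MP_c6c039_lc.CL
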