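import Pool.Agent.Work.MP_c6c039_lc.CL.StmtsG

/-! Item Hx of block CL -/

set_option autoImplicit false

namespace Pool.Agent.Work.MP_c6c039_lc.CL

open Pool.Agent.Work.MP_c6c039_lc.FP Pool.Agent.Work.MP_c6c039_lc.NC

theorem pr_Hx (hHC : FP.St_HC) (hHs : St_Hs) (hLx : St_Lx) (hLe : St_Le) : St_Hx := by
  intro I hG h3 E hE j
  have hc := hHC I hG (by omega)
  obtain ⟨hm, hs⟩ := hHs I hG h3
  have huv : hp I j ≠ hp I (j + 1) := hc.inj j (j + 1) (by omega) (by omega)
  have hEuv : E (hp I j) (hp I (j + 1)) := by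
    apply hE.max _ _ (hc.lt _) (hc.lt _) huv
    intro c d _ hD
    obtain ⟨hn, hl⟩ := hD
    have hn' := hn
    simp only [List.nodup_cons, List.mem_cons, not_or, List.not_mem_nil, not_false_eq_true,
      and_true, List.nodup_nil] at hn'
    obtain ⟨⟨n1, n2, n3⟩, ⟨n4, n5⟩, n6⟩ := hn'
    have hcl : c < nn I := hl c (by simp)
    have hdl : d < nn I := hl d (by simp)
    have e1 := hs j c hcl (Ne.symm n2) (Ne.symm n4)
    have e2 := hs j d hdl (Ne.symm n3) (Ne.symm n5)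
    unfold cr
    rw [e1, e2]
    rfl
  refine ⟨hEuv, ?_, ?_⟩
  · exact (hLx I hG.real E hE _ _ hEuv).1 (hp I (j + 2)) (hc.lt _)
      (hc.cyc j (j + 1) (j + 2) (by omega) (by omega) (by omega))
  · rintro ⟨c, hT⟩
    have hcl : c < nn I := (hE.lt _ _ hT.e2).2.1
    have h1 := (hLe I hG h3).2 j c hcl
    rw [hT.pos] at h1
    exact absurd h1 (by decide)

end Pool.Agent.Work.MP_c6c039_lc.CL
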