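import Pool.Agent.Work.MP_c6c039_lc.CL.StmtsL

/-! # Item La of block CL: labels -/

set_option autoImplicit false

namespace Pool.Agent.Work.MP_c6c039_lc.CL

open Pool.Agent.Work.MP_c6c039_lc.FP Pool.Agent.Work.MP_c6c039_lc.NC

namespace ILa

/-- a path has `n` points -/
theorem len (I : In) (l : List ℕ) (h : SP I l) : l.length = nn I := by
  have h1 : l.toFinset = Finset.range (nn I) := by
    ext p
    rw [List.mem_toFinset, Finset.mem_range]
    exact h.span p
  rw [← List.toFinset_card_of_nodup h.nodup, h1, Finset.card_range]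

end ILa

theorem pr_La (hPx : NC.St_Px) (hEd : NC.St_Ed) : St_La := by
  intro I E par ly k l hP
  have hlen := ILa.len I l hP.sp
  obtain ⟨hp1, hp2⟩ := hPx l
  have hp3 := hp2 hP.sp.nodup
  refine ⟨?_, ?_, ?_⟩
  · intro v hv
    obtain ⟨h1, h2⟩ := hp1 v ((hP.sp.span v).2 hv)
    refine ⟨Nat.succ_pos _, ?_, ?_⟩
    · unfold la
      omega
    · unfold lv la
      rw [Nat.add_sub_cancel]
      exact h2
  · intro i h0 hi
    have h1 : i - 1 < l.length := by omega
    refine ⟨?_, ?_⟩
    · unfold lv
      rw [List.getD_eq_getElem l 0 h1]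
      exact (hP.sp.span _).1 (List.getElem_mem h1)
    · unfold la lv
      rw [hp3 (i - 1) h1]
      omega
  · intro i h0 hi
    have h1 : (i - 1) + 1 < l.length := by omega
    have h2 : i - 1 < l.length := by omega
    have h3 : i + 1 - 1 = (i - 1) + 1 := by omega
    have h4 := hEd.2.2.2.2.2.2 ℕ l (i - 1) h1
    have h5 := hP.le _ h4
    have h6 := hP.sp.alt (i - 1) h1
    unfold lv
    rw [h3]
    refine ⟨?_, h6⟩
    rw [List.getD_eq_getElem l 0 h1, List.getD_eq_getElem l 0 h2]
    exact h5

end Pool.Agent.Work.MP_c6c039_lc.CL
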