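import Pool.Agent.Work.MP_c6c039_lc.CL.StmtsW

/-!
# Block CL, item Pg: the weight is constant along a route
-/

set_option autoImplicit false

namespace Pool.Agent.Work.MP_c6c039_lc.CL

open Pool.Agent.Work.MP_c6c039_lc.FP Pool.Agent.Work.MP_c6c039_lc.NC

/-- **Pg.** -/
theorem pr_Pg (hLx : St_Lx) (hSr : St_Sr) (hRt : St_Rt) (hNj : St_Nj) : St_Pg := by
  intro I E par ly k hC u v hu hv w hw hb
  have main : ∀ (m z : ℕ) (s : ℤ), ly z ≤ m → z < nn I → z ∉ rl I par k u → z ∉ rl I par k v →
      SS I E w z s → ∀ y ∈ rl I par k z, y ∉ rl I par k u → y ∉ rl I par k v → SS I E w y s := by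
    intro m
    induction m with
    | zero =>
      intro z s hm hz hzu hzv hS y hy hyu hyv
      obtain ⟨h1, h2, h3, h4, h5, h6, h7, h8, h9, h10⟩ := hRt I E par ly k hC z hz
      cases he : ext I z with
      | true =>
        rw [h1 he, List.mem_singleton] at hy
        rw [hy]; exact hS
      | false =>
        have := (hC.pa z hz he).2
        omega
    | succ m ih =>
      intro z s hm hz hzu hzv hS y hy hyu hyv
      by_cases hyz : y = z
      · rw [hyz]; exact hS
      obtain ⟨h1, h2, h3, h4, h5, h6, h7, h8, h9, h10⟩ := hRt I E par ly k hC z hz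
      cases he : ext I z with
      | true =>
        rw [h1 he, List.mem_singleton] at hy
        exact absurd hy hyz
      | false =>
        obtain ⟨hE, hl⟩ := hC.pa z hz he
        obtain ⟨-, hp, -⟩ := hC.mx.lt _ _ hE
        rw [h2 he, List.mem_cons] at hy
        have hy' : y ∈ rl I par k (par z) := by
          rcases hy with h | h
          · exact absurd h hyz
          · exact h
        have hpu : par z ∉ rl I par k u := fun h => hyu
          ((hRt I E par ly k hC u hu).2.2.2.2.2.2.2.2.1 _ h _ hy')
        have hpv : par z ∉ rl I par k v := fun h => hyv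
          ((hRt I E par ly k hC v hv).2.2.2.2.2.2.2.2.1 _ h _ hy')
        have hR : Rl I := hC.good.real
        have hSp : SS I E w (par z) s := by
          refine hSr I hR E hC.mx w hw (par z) ?_ s ⟨z, ?_⟩
          · intro x hx1 hx2
            exact hNj I E par ly k hC u v hu hv w hw hb (par z) hp hpu hpv x hx1 hx2
          · rcases (hLx I hR E hC.mx z (par z) hE).2 hC.n3 with h | h
            · exact Or.inr ⟨h, hS.1 _ h⟩
            · exact Or.inl ⟨h, hS.2 _ h⟩
        exact ih (par z) s (by omega) hp hpu hpv hSp y hy' hyu hyv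
  intro z s hz hzu hzv hS y hy hyu hyv
  exact main (ly z) z s le_rfl hz hzu hzv hS y hy hyu hyv

end Pool.Agent.Work.MP_c6c039_lc.CL
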