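import Pool.Agent.Work.MP_c6c039_lc.CL.StmtsW

/-!
# Block CL, item Sr: the star of a point
-/

set_option autoImplicit false

namespace Pool.Agent.Work.MP_c6c039_lc.CL

open Pool.Agent.Work.MP_c6c039_lc.FP Pool.Agent.Work.MP_c6c039_lc.NC

namespace ISr

theorem ds3 {I : In} {z a b : ℕ} (hz : z < nn I) (ha : a < nn I) (hb : b < nn I) (h1 : z ≠ a)
    (h2 : z ≠ b) (h3 : a ≠ b) : Ds I [z, a, b] := by
  refine ⟨?_, ?_⟩
  · simp [h1, h2, h3]
  · intro x hx
    simp only [List.mem_cons, List.not_mem_nil, or_false] at hx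
    rcases hx with rfl | rfl | rfl <;> assumption

theorem claimA {I : In} (hR : Rl I) (H : CH I) {E : ℕ → ℕ → Prop} (hM : Mx I E)
    {w : ℕ → ℕ → ℤ} (hw : RI I E w) (hLx : St_Lx) (hAn : St_An) (z : ℕ)
    (hz : ∀ x, (∃ c, Tr I E z x c) → (∃ c, Tr I E x z c) → w z x = w x z) (a b : ℕ)
    (ha : E z a) (hb : E z b) (hab : chi I z a b = true) : w z a = w b z := by
  refine hAn I hR E hM w hw z a b ha hb hab ?_
  intro x hx h1 h2
  obtain ⟨hzn, han, hza⟩ := hM.lt z a ha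
  obtain ⟨-, hbn, hzb⟩ := hM.lt z b hb
  obtain ⟨-, hxn, hzx⟩ := hM.lt z x hx
  have hax : a ≠ x := by
    rintro rfl
    rw [(H.deg z a hzn han).2.2] at h1
    exact Bool.false_ne_true h1
  have h3 : chi I x z a = true := by
    rw [H.cyc a x z (ds3 han hxn hzn hax hza.symm hzx.symm),
      H.cyc z a x (ds3 hzn han hxn hza hzx hax)]
    exact h1
  exact hz x ((hLx I hR E hM z x hx).1 b hbn h2) ((hLx I hR E hM x z (hM.sym z x hx)).1 a han h3)

theorem claimB {I : In} (hR : Rl I) (H : CH I) {E : ℕ → ℕ → Prop} (hM : Mx I E)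
    {w : ℕ → ℕ → ℤ} (hw : RI I E w) (hLx : St_Lx) (hAn : St_An) (z : ℕ)
    (hz : ∀ x, (∃ c, Tr I E z x c) → (∃ c, Tr I E x z c) → w z x = w x z) (a b : ℕ)
    (ha : ∃ c, Tr I E z a c) (hb : ∃ c, Tr I E b z c) : w z a = w b z := by
  by_cases hab : a = b
  · subst hab
    exact hz a ha hb
  · have hEa : E z a := ha.choose_spec.e1
    have hEb' : E b z := hb.choose_spec.e1
    have hEb : E z b := hM.sym b z hEb'
    have hEa' : E a z := hM.sym z a hEa
    obtain ⟨hzn, han, hza⟩ := hM.lt z a hEa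
    obtain ⟨-, hbn, hzb⟩ := hM.lt z b hEb
    cases hc : chi I z a b with
    | true => exact claimA hR H hM hw hLx hAn z hz a b hEa hEb hc
    | false =>
      have h1 : chi I a z b = true := by
        rw [H.anti z a b (ds3 hzn han hbn hza hzb hab), hc]
        rfl
      have h2 : chi I z b a = true := by
        rw [H.cyc a z b (ds3 han hzn hbn hza.symm hab hzb)]
        exact h1
      have h3 := hz a ha ((hLx I hR E hM a z hEa').1 b hbn h1)
      have h4 := hz b ((hLx I hR E hM z b hEb).1 a han h2) hb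
      have h5 := claimA hR H hM hw hLx hAn z hz b a hEb hEa h2
      rw [h3, ← h5, h4]

end ISr

open ISr in
/-- Item Sr. -/
theorem pr_Sr (hSy : FP.St_Sy) (hUq : St_Uq) (hLx : St_Lx) (hAn : St_An) : St_Sr := by
  intro I hR E hM w hw z hz s hs
  have H := hSy I hR
  obtain ⟨hrot, -⟩ := hUq I hR E hM
  obtain ⟨a₀, c₀, htr, hval⟩ : ∃ a₀ c₀, Tr I E z a₀ c₀ ∧ w z a₀ = s := by
    obtain ⟨a, ⟨⟨c, hc⟩, ha⟩ | ⟨⟨c, hc⟩, ha⟩⟩ := hs
    · exact ⟨a, c, hc, ha⟩
    · exact ⟨c, a, hrot _ _ _ hc, by rw [← hw.rot a z c hc, ha]⟩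
  have h1 : Tr I E c₀ z a₀ := hrot _ _ _ (hrot _ _ _ htr)
  have h2 : w c₀ z = s := by rw [hw.rot c₀ z a₀ h1, hval]
  refine ⟨fun a ha => ?_, fun a ha => ?_⟩
  · rw [claimB hR H hM hw hLx hAn z hz a c₀ ha ⟨a₀, h1⟩, h2]
  · rw [← claimB hR H hM hw hLx hAn z hz a₀ a ⟨c₀, htr⟩ ha, hval]

end Pool.Agent.Work.MP_c6c039_lc.CL
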