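import Pool.Agent.Work.MP_c6c039_lc.CL.StmtsS

/-!
# Block CL, item Vt: labels and vertices
-/

set_option autoImplicit false

namespace Pool.Agent.Work.MP_c6c039_lc.CL

open Pool.Agent.Work.MP_c6c039_lc.FP Pool.Agent.Work.MP_c6c039_lc.NC

namespace IVt

theorem beq_iff (a b c d : ℕ) : ((a == b) == (c == d)) = true ↔ (a = b ↔ c = d) := by
  by_cases h1 : a = b <;> by_cases h2 : c = d <;> simp [h1, h2]

theorem cons_iff (I : In) (S : Rt) : cons I S = true ↔
    ∀ x ∈ S, (x.1 < nn I ∧ 0 < x.2 ∧ x.2 ≤ nn I) ∧ ∀ y ∈ S, (x.1 = y.1 ↔ x.2 = y.2) := by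
  unfold cons
  rw [List.all_eq_true]
  refine forall₂_congr fun x _ => ?_
  rw [Bool.and_eq_true, Bool.and_eq_true, Bool.and_eq_true, decide_eq_true_iff,
    decide_eq_true_iff, decide_eq_true_iff, List.all_eq_true]
  refine and_congr Iff.rfl (forall₂_congr fun y _ => ?_)
  exact beq_iff _ _ _ _

end IVt

/-- Vt. -/
theorem pr_Vt : St_Vt := by
  intro I S hS
  have h := (IVt.cons_iff I S).1 hS
  refine ⟨fun x hx => ?_, fun x hx y hy => (h x hx).2 y hy, fun S' hS' => ?_⟩
  · obtain ⟨⟨h1, h2, h3⟩, h4⟩ := h x hx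
    refine ⟨h1, h2, h3, ?_⟩
    have hmem : x ∈ S.filter fun z => z.2 == x.2 := by
      rw [List.mem_filter]
      exact ⟨hx, beq_self_eq_true _⟩
    unfold vt hd vs
    rcases hl : (S.filter fun z => z.2 == x.2) with _ | ⟨z, t⟩
    · rw [hl] at hmem
      exact absurd hmem (List.not_mem_nil)
    · have hz : z ∈ S.filter fun z => z.2 == x.2 := by
        rw [hl]
        exact List.mem_cons_self
      rw [List.mem_filter, beq_iff_eq] at hz
      rw [hl]
      show z.1 = x.1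
      exact ((h4 z hz.1).2 hz.2.symm).symm
  · rw [IVt.cons_iff]
    exact fun x hx => ⟨(h x (hS' x hx)).1, fun y hy => (h x (hS' x hx)).2 y (hS' y hy)⟩

end Pool.Agent.Work.MP_c6c039_lc.CL
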