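import Pool.Agent.Work.MP_c6c039_lc.CL.StmtsS
import Pool.Agent.Work.MP_c6c039_lc.NC.StmtsK

/-!
# Block CL, part G: maximal noncrossing sets of segments (captain helper87)

Every docstring is the complete proof.  Item `X`: statement `St_X`, file `CL/I_X.lean`, theorem
`pr_X`, with the statements named after USES as hypotheses `(hA : St_A)` (a name `FP.A` means
`(hA : FP.St_A)`, a name `NC.A` means `(hA : NC.St_A)`, proved statements of the blocks FP and NC);
namespace as here, auxiliary lemmas in the NEW sub-namespace `IX`.  `T`/`F` are `true`/`false`.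
-/

set_option autoImplicit false

namespace Pool.Agent.Work.MP_c6c039_lc.CL

open Pool.Agent.Work.MP_c6c039_lc.FP Pool.Agent.Work.MP_c6c039_lc.NC

/-- a maximal set of pairwise noncrossing segments -/
structure Mx (I : In) (E : ℕ → ℕ → Prop) : Prop where
  lt : ∀ a b, E a b → a < nn I ∧ b < nn I ∧ a ≠ b
  sym : ∀ a b, E a b → E b a
  nc : ∀ a b c d, E a b → E c d → Ds I [a, b, c, d] → cr I a b c d = false
  max : ∀ a b, a < nn I → b < nn I → a ≠ b →
    (∀ c d, E c d → Ds I [a, b, c, d] → cr I a b c d = false) → E a b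

/-- an empty positively oriented triangle with sides in `E` -/
structure Tr (I : In) (E : ℕ → ℕ → Prop) (a b c : ℕ) : Prop where
  e1 : E a b
  e2 : E b c
  e3 : E c a
  pos : chi I a b c = true
  emp : ∀ x, Ds I [a, b, c, x] → inT I a b c x = false

/-- Vz (MEDIUM-HARD).  ONE STEP OF THE SEARCH FOR A VISIBLE POINT.  Coordinates `X, Y` of `Rl I`; `[xyz] = ar X Y x y z`.  Let
`s = chi u y b`; multiply all areas by the sign of `s`, so in the following `[uyb] > 0`, `[uya] < 0`.  `w = u + λ (y - u)`, `0 < λ < 1`, is the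
common point with `a b`; `[abu] > 0`, `[aby] < 0`, because their signs are different and `[abu] - [aby] = [uyb] - [uya]`.
Let `Q` be the set of `b` and of all points `x` with `[uyx] > 0`, `[uxb] > 0`, `[abx] > 0`.  Choose `y' ∈ Q` such that no `x ∈ Q` has
`[uxy'] > 0` (the first one in the order around `u`, which is a strict order on the points with `[uyx] > 0`:
`[uxx'] > 0`, `[ux'x''] > 0` imply `[uxx''] > 0`).  `y' = b` or `y'` is in the interior of the triangle `u, w, b`, so in that of
`u, y, b` (affine functions: `[yby'] > 0` since `[ybu] > 0`, `[ybw] > 0`, `[ybb] = 0` and `y'` is a convex combination).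
The segment `u y'` does not cross `a b` (`[aby'] ≥ 0`, `[abu] > 0`).
Now let `(p, q) ∈ E` cross `u y'`, `[uy'p] < 0`, `[uy'q] > 0` (or exchange), `G x = [pqx]`: `G u > 0`, `G y' < 0`; let `σ` be the common
point of `u y'` and `p q`.  (1) `G w ≤ 0`.  Suppose `G w > 0`.  `y'` is a convex combination of `u, w, b`, so `G b < 0`, and `G a > 0` (`w` is
between `a` and `b`); so `p, q, a, b` are distinct and, as `E` is noncrossing, `[abp]`, `[abq]` have the same sign, the sign of
`[abσ] > 0`.  If `[uyp] > 0` then `[upb] > 0` (from `[upy'] > 0`, `[uy'b] ≥ 0` in the half plane), so `p ∈ Q` is before `y'`: impossible; so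
`[uyp] < 0` (not `0`: `p ≠ y` because `[aby] < 0`).  `[uyσ] > 0`, so the segment `p σ` meets the line `u y` in a point `x0 = u + t (y - u)`; `G x0 = 0`, `G u > 0`,
`G w > 0` so `x0` is not between `u` and `w`; `[abx0] > 0` so `t < λ`; so `t < 0`, and `[uy'x0] = t [uy'y] > 0` (`[uy'y] < 0`), but all
points between `p` and `σ` have `[uy'·] < 0`: contradiction.  (2) So `G w ≤ 0 < G u`, `G y < 0`.  Let `x0` be the point of the line `p q` on
`u y`: `x0 = u + t (y - u)`, `0 < t ≤ λ`, `[uy'x0] < 0`, `[abx0] ≥ 0`.  From `σ` the points `p` and `x0` of the line are on the same side.  If `p` is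
between `σ` and `x0` (or `p = x0`, impossible) then `[uyp] > 0`, `[abp] > 0`, and `[upb] > 0`: `p ∈ Q` before `y'`: contradiction.  So `x0` is
between `σ` and `p`: `[uyp] < 0`, `[uyq] > 0`.  With `G u > 0 > G y`: `p q` crosses `u y`, and `p, q` are different from `u, y`. -/
def St_Vz : Prop := ∀ I : In, Rl I → ∀ E : ℕ → ℕ → Prop, Mx I E → ∀ u y a b, E a b →
  Ds I [u, y, a, b] → cr I u y a b = true →
  ∃ y', (y' = b ∨ (Ds I [u, y, b, y'] ∧ inT I u y b y' = true)) ∧
    (∀ p q, E p q → Ds I [u, y', p, q] → cr I u y' p q = true →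
      Ds I [u, y, p, q] ∧ cr I u y p q = true) ∧
    ¬ (Ds I [u, y', a, b] ∧ cr I u y' a b = true)

/-- Vi (EASY-MEDIUM).  A VISIBLE POINT.  For `y ∈ K` let `N y` be the number of pairs `(p, q)` of numbers `< nn I` with `E p q`, `Ds I [u, y, p, q]`,
`cr I u y p q = T`.  Choose `y ∈ K` with `N y` minimal.  `N y = 0`: `E u y` by `Mx.max`.  Otherwise take such a pair `(a, b)`;
`K a` or `K b`, and by symmetry (`E b a`, FP.Cs) `K b`.  Vz gives `y'`, which is in `K` (`y' = b`, or the first closure property for `y`, `b`), and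
`N y' < N y`: the pairs of `y'` are pairs of `y`, and `(a, b)` is one of `y` but not of `y'`.  USES FP.Sy FP.Cs Vz. -/
def St_Vi : Prop := ∀ I : In, Rl I → ∀ E : ℕ → ℕ → Prop, Mx I E → ∀ (u : ℕ) (K : ℕ → Prop),
  u < nn I → (∀ y, K y → y < nn I ∧ y ≠ u) →
  (∀ y z x, K y → K z → Ds I [u, y, z, x] → inT I u y z x = true → K x) →
  (∀ y a b, K y → E a b → Ds I [u, y, a, b] → cr I u y a b = true → K a ∨ K b) →
  (∃ y, K y) → ∃ y, K y ∧ E u y

/-- Kp (EASY-MEDIUM).  HALF PLANES.  `f x = p X x + q Y x`.  (1) `inT u y z x = T`: the areas `[uyx], [yzx], [zux]` have the same sign, their sum is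
`[uyz]`, and `[yzx] f u + [zux] f y + [uyx] f z = [uyz] f x` (`ring`).  (2) `cr u y a b = T`: with `α = [aby]`, `β = [abu]` (opposite
signs) and `γ = [uya]`, `δ = [uyb]` (opposite signs): `(β f y - α f u) / (β - α) = (δ f a - γ f b) / (δ - γ)` (the common point; both sides times
the denominators: `ring`), the left side is `> f u` (`0 < β / (β - α) < 1`), the right side is a convex combination of `f a`, `f b`. -/
def St_Kp : Prop := ∀ (I : In) (X Y : ℕ → ℝ), RL I X Y → ∀ (p q : ℝ) (u : ℕ), u < nn I →
  (∀ y z x, Ds I [u, y, z, x] → inT I u y z x = true → p * X u + q * Y u < p * X y + q * Y y →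
    p * X u + q * Y u < p * X z + q * Y z → p * X u + q * Y u < p * X x + q * Y x) ∧
  ∀ y a b, Ds I [u, y, a, b] → cr I u y a b = true → p * X u + q * Y u < p * X y + q * Y y →
    p * X u + q * Y u < p * X a + q * Y a ∨ p * X u + q * Y u < p * X b + q * Y b

/-- Kt (MEDIUM).  TRIANGLES.  `inside x` means `Ds I [u, v, w, x] ∧ inT I u v w x = T`.  Coordinates; by the mirror image (or signs) let `[uvw] > 0`; inside
means `[uvx], [vwx], [wux] > 0`.  (1) `x` is a combination of `u, y, z` with positive coefficients, so the three affine functions are positive at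
`x` (`≥ 0` at `u`, `> 0` at `y, z`; `[vwu] > 0`).  (2) Let `σ` be the common point of `u y` and `a b`: it is between `u` and `y`, so inside.  Suppose
neither `a` nor `b` is inside.  Claim: `[vwa] ≤ 0`.  Suppose `[vwa] > 0`; then `a ≠ v, w, u`, and `[uva] < 0` or `[wua] < 0` (not `0`, general
position).  The points of the segment from `σ` to `a` have `[vw·] > 0`; let `r` be the first one with `[uvr] = 0` or `[wur] = 0`, say `[uvr] = 0`,
`[wur] ≥ 0`.  `r ≠ u` (`a, b, u` are not collinear), so `r` is an inner point of the segment `u v` and of `a b` (if `b ∈ {v}`: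
the line `a b` meets the line `u v` only in `v`, but `[vwr] > 0`; so `b ≠ v`): `cr a b u v = T`, against `Mx.nc`.  The same for `w u`.  So `[vwa] ≤ 0`,
`[vwb] ≤ 0`, but `σ` is between `a` and `b` and `[vwσ] > 0`: contradiction. -/
def St_Kt : Prop := ∀ I : In, Rl I → ∀ E : ℕ → ℕ → Prop, Mx I E → ∀ u v w, E u v → E u w →
  Ds I [u, v, w] →
  (∀ y z x, Ds I [u, v, w, y] → inT I u v w y = true → Ds I [u, v, w, z] →
    inT I u v w z = true → Ds I [u, y, z, x] → inT I u y z x = true →
    Ds I [u, v, w, x] ∧ inT I u v w x = true) ∧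
  ∀ y a b, Ds I [u, v, w, y] → inT I u v w y = true → E a b → Ds I [u, y, a, b] →
    cr I u y a b = true → (Ds I [u, v, w, a] ∧ inT I u v w a = true) ∨
      (Ds I [u, v, w, b] ∧ inT I u v w b = true)

/-- Ti (EASY-MEDIUM).  CONSECUTIVE NEIGHBOURS.  `K` = the points inside the triangle `z a b`.  If there is one: Kt and Vi (`u = z`) give `x ∈ K`, `E z x`; then
`chi z a x = T`, `chi z x b = T` (`inT`, `CH.cyc`; the common sign is `T`: if all three were `F`, `CH.four` gives `chi z a b = F`): excluded.  So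
the triangle is empty.  `E a b` by `Mx.max`: let `(c, d) ∈ E` cross `a b`.  `c ≠ z`: a neighbour `d` of `z` with `z d` crossing `a b` has
`chi z a d = T`, `chi z d b = T` (FP.Cq and its symmetric form: `chi a z b ≠ ..`); the same for `d ≠ z`.  So `z, a, b, c, d` are distinct and
FP.T5 for the triangle `z a b` and the segment `c d`: `cr z a c d = F`, `cr b z c d = F` (`Mx.nc`), `cr a b c d = T`, so exactly one of `c`, `d` is in
the triangle: but it is empty.  USES FP.Sy FP.Cs FP.T5 FP.Cq Vi Kt. -/
def St_Ti : Prop := ∀ I : In, Rl I → ∀ E : ℕ → ℕ → Prop, Mx I E → ∀ z a b, E z a → E z b →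
  chi I z a b = true → (∀ x, E z x → ¬ (chi I z a x = true ∧ chi I z x b = true)) → Tr I E z a b

/-- Uq (EASY).  Rotation: `CH.cyc`; `inT` under rotation.  Uniqueness: suppose `c ≠ c'`; both are left of `a b`; let `chi a c c' = T` (the other
case is symmetric).  `chi b c c' = T`, otherwise `c` is inside `a b c'` (`chi a b c = T`, `chi b c' c = T`, `chi c' a c = T`).  So `b` and
`c'` are on different sides of `a c` (`chi a c b = F`, `chi a c c' = T`) and `a`, `c` on different sides of `b c'`
(`chi b c' a = T`, `chi b c' c = F`): `cr a c b c' = T`, against `Mx.nc`.  USES FP.Sy. -/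
def St_Uq : Prop := ∀ I : In, Rl I → ∀ E : ℕ → ℕ → Prop, Mx I E →
  (∀ a b c, Tr I E a b c → Tr I E b c a) ∧ ∀ a b c c', Tr I E a b c → Tr I E a b c' → c = c'

/-- Lx (EASY-MEDIUM).  THE TRIANGLE ON THE LEFT.  `K` = the points `x < nn I` with `chi a b x = T`: `[abx] > 0`, a half plane with `a` on its border:
`f x = - (Y b - Y a) X x + (X b - X a) Y x`, `f x > f a` iff `[abx] > 0` (Kp).  Vi: there is a neighbour `c` of `a` in `K`; choose one such that the
number of neighbours `x` of `a` with `chi a b x = T`, `chi a x c = T` is minimal; then it is `0` (such an `x` has fewer: transitivity of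
`chi a · ·` on the half plane: `chi a b x, chi a x x', chi a x' c` ..: coordinates or `CH.four`).  Ti for `a; b, c`: `Tr a b c`.
Second clause: a third point `x` (`nn I ≥ 3`) is left of `a b` or of `b a`.  USES FP.Sy Vi Kp Ti. -/
def St_Lx : Prop := ∀ I : In, Rl I → ∀ E : ℕ → ℕ → Prop, Mx I E → ∀ a b, E a b →
  (∀ x, x < nn I → chi I a b x = true → ∃ c, Tr I E a b c) ∧
  (3 ≤ nn I → (∃ c, Tr I E a b c) ∨ ∃ c, Tr I E b a c)

/-- Le (EASY-MEDIUM).  NO POINT ON THE LEFT.  All other points are left of `b a`.  So `a` and `b` are extreme (if `a` were in a triangle `d e g` of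
other points then `[bax]` is `≥ 0` at `d, e, g` and positive at two of them, but `[baa] = 0` is a convex combination with positive
coefficients).  `b = hp r`, `a = hp s`, `r < s < r + mm` (`HC.sur`).  If `s > r + 1` then `chi (hp r) (hp (r + 1)) (hp s) = T` (`HC.cyc`), so
`chi b a (hp (r + 1)) = F`: contradiction.  Second clause: Hs (`chi (hp j) (hp (j + 1)) x = T` for the other points), `CH.anti`,
`CH.deg`.  USES FP.Sy FP.Xt FP.HC Hs. -/
def St_Le : Prop := ∀ I : In, Good I → 3 ≤ nn I →
  (∀ a b, a < nn I → b < nn I → a ≠ b → (∀ x, x < nn I → chi I a b x = false) →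
    ∃ j, a = hp I (j + 1) ∧ b = hp I j) ∧
  ∀ j x, x < nn I → chi I (hp I (j + 1)) (hp I j) x = false

/-- Hx (EASY).  `Mx.max`: for `c, d` different from `hp j`, `hp (j + 1)` both are left of `hp j, hp (j + 1)` (Hs), so `cr = F`; `HC`.
`Tr`: Lx (`nn I ≥ 3`; a third point is on the left).  No triangle on the other side: Le.  USES FP.Sy FP.HC Hs Lx Le. -/
def St_Hx : Prop := ∀ I : In, Good I → 3 ≤ nn I → ∀ E : ℕ → ℕ → Prop, Mx I E → ∀ j,
  E (hp I j) (hp I (j + 1)) ∧ (∃ c, Tr I E (hp I j) (hp I (j + 1)) c) ∧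
    ¬ ∃ c, Tr I E (hp I (j + 1)) (hp I j) c

/-- Em (EASY-MEDIUM).  EXISTENCE.  Consider the sets `S` of pairs of different numbers `< nn I` (finite sets, `Finset (ℕ × ℕ)` in
`range ×ˢ range`) which are symmetric, contain `ed l`, and such that no two of their elements cross (`Ds I [..] → cr = F`).  The set of all `(x, y)`,
`(y, x)`, `(x, y) ∈ ed l` is one: NC.Nc, with FP.Cs for the directions (`Ds` gives `dj`).  Take one with the greatest number of elements
(`Finset.exists_max_image`) and `E a b` iff `(a, b) ∈ S`.  `max`: otherwise add `(a, b)` and `(b, a)`.  USES FP.Sy FP.Cs NC.Nc. -/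
def St_Em : Prop := ∀ I : In, Rl I → ∀ l : List ℕ, SP I l →
  ∃ E : ℕ → ℕ → Prop, Mx I E ∧ ∀ e ∈ ed l, E e.1 e.2

end Pool.Agent.Work.MP_c6c039_lc.CL
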