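import Pool.Agent.Work.MP_c6c039_lc.CL.StmtsG

/-!
# Block CL, part W: chains of triangles (captain helper87)

Every docstring is the complete proof.  Item `X`: statement `St_X`, file `CL/I_X.lean`, theorem
`pr_X`, with the statements named after USES as hypotheses `(hA : St_A)` (a name `FP.A` means
`(hA : FP.St_A)`, a proved statement of block FP); namespace as here, auxiliary lemmas in the NEW
sub-namespace `IX`.  `T`/`F` are `true`/`false`.

A function `w : ℕ → ℕ → ℤ` with `RI I E w` is a weight of the triangles: `w a b` is the weight of the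
triangle to the left of `a b` (`0` if there is none); its boundary is `w x y - w y x`.
-/

set_option autoImplicit false

namespace Pool.Agent.Work.MP_c6c039_lc.CL

open Pool.Agent.Work.MP_c6c039_lc.FP Pool.Agent.Work.MP_c6c039_lc.NC

/-- a weight of the triangles -/
structure RI (I : In) (E : ℕ → ℕ → Prop) (w : ℕ → ℕ → ℤ) : Prop where
  rot : ∀ a b c, Tr I E a b c → w a b = w b c
  out : ∀ a b, (¬ ∃ c, Tr I E a b c) → w a b = 0

/-- a closed chain of segments -/
structure CC (I : In) (E : ℕ → ℕ → Prop) (γ : ℕ → ℕ → ℤ) : Prop where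
  anti : ∀ x y, γ x y = - γ y x
  sup : ∀ x y, γ x y ≠ 0 → E x y
  clo : ∀ x, ∑ y ∈ Finset.range (nn I), γ x y = 0

/-! ## Boundaries -/

/-- Cl (EASY-MEDIUM).  THE BOUNDARY OF A WEIGHT IS CLOSED.  `sup`: one of `w x y`, `w y x` is not `0`, so there is a triangle with this side.
`clo`: for fixed `a`, the numbers `y` with a triangle `Tr a y c` correspond bijectively to the numbers `c` with a triangle `Tr c a y` (Uq:
rotation, uniqueness), and `w a y = w y c = w c a`; so `Σ_y w a y = Σ_c w c a` (`Finset.sum_bij_ne_zero` or `Finset.sum_nbij'` on the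
filtered sets; all these numbers are `< nn I`, the other terms are `0`).  USES Uq. -/
def St_Cl : Prop := ∀ I : In, Rl I → ∀ E : ℕ → ℕ → Prop, Mx I E → ∀ w, RI I E w →
  CC I E (fun x y => w x y - w y x)

/-- Ap (MEDIUM).  POSITIVITY.  Coordinates, `α x y = X x * Y y - X y * Y x` (antisymmetric); `α a b + α b c + α c a = ar a b c > 0` for a
triangle.  `Σ_{a, b < n} w a b α a b = 0` (`w` symmetric, `α` antisymmetric: exchange the names).  On the other hand, with `c = c(a, b)` the apex over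
`a b`, `Σ_{(a, b)} w a b α a b = Σ w b c α b c = Σ w c a α c a` (sums over the pairs with a triangle; `(a, b) ↦ (b, c)` is a bijection of this set,
Uq) `= Σ w a b α b c = Σ w a b α c a`.  So `0 = Σ w a b (α a b + α b c + α c a)` with terms `≥ 0`, all are `0`, and `w a b = 0`.
USES Uq. -/
def St_Ap : Prop := ∀ I : In, Rl I → ∀ E : ℕ → ℕ → Prop, Mx I E → ∀ w, RI I E w →
  (∀ x y, 0 ≤ w x y) → (∀ x y, w x y = w y x) → ∀ x y, w x y = 0

/-- Fn (EASY-MEDIUM).  THE FAN BETWEEN TWO NEIGHBOURS OF `z`.  Induction on the number of neighbours `x` of `z` strictly between `a` and `b`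
(`chi z a x = T`, `chi z x b = T`).  None: `Tr z a b` (Ti); `w x y = 1` for `(x, y) ∈ {(z, a), (a, b), (b, z)}`, `0` otherwise: `RI` (Uq), boundary
`dl z a + dl a b + dl b z`.  Otherwise `x` between: the sum of the weights for `a, x` and `x, b`: `dl x z + dl z x = 0`; the cones are
contained in that of `a, b` (transitivity: all in the half plane left of `z a` or equal to `a`; coordinates or `CH.four`).
USES FP.Sy Ti Uq. -/
def St_Fn : Prop := ∀ I : In, Rl I → ∀ E : ℕ → ℕ → Prop, Mx I E → ∀ z a b, E z a → E z b →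
  chi I z a b = true → ∃ w, RI I E w ∧ ∀ x y,
    (w x y - w y x) - (dl z a x y + dl b z x y) ≠ 0 →
      (x = a ∨ x = b ∨ (chi I z a x = true ∧ chi I z x b = true)) ∧
      (y = a ∨ y = b ∨ (chi I z a y = true ∧ chi I z y b = true))

/-- H1 (MEDIUM).  EVERY CLOSED CHAIN IS A BOUNDARY.  Coordinates; `x` is above `z` if `Y z < Y x`, or `Y z = Y x` and `X z < X x` (a strict total
order on the numbers `< n`, as the points are distinct: `nn I ≥ 3`; for `nn I < 3` a closed chain is `0`).  `N z` = the number of points above `z`.  Induction on `m`: a closed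
chain with `γ x y ≠ 0 → N x < m` is a boundary.  `m = 0`: `γ = 0`, `w = 0`.  `m + 1`: if no `z` has `N z = m` nothing is to do; let `N z = m`;
second induction on `Σ_{y < n} |γ z y|`.  If it is `0`, all `x` in the support have `N x < m`.  Otherwise (`clo`) there are `a`, `b` with
`γ z a > 0`, `γ z b < 0`; they are above `z` (`N a, N b ≤ m`, `≠ z`), `E z a`, `E z b`, `a ≠ b`.  If `chi z a b = T`: Fn, `γ' = γ - ∂w`; `∂w` is
`dl z a + dl b z` plus a chain on points `x` of the closed cone of `a`, `b` (different from `z`), which are above `z` (`x - z` is a combination of `a - z`,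
`b - z` with coefficients `≥ 0`, not both `0`); `γ' z a = γ z a - 1`, `γ' z b = γ z b + 1`, the other `γ' z y = γ z y`: the sum
decreases by 2; `γ'` is closed (Cl) and its support has `N ≤ m`.  If `chi z b a = T`: `γ' = γ + ∂w` for `Fn z b a`.  Weights can be added.
USES Cl Fn. -/
def St_H1 : Prop := ∀ I : In, Rl I → ∀ E : ℕ → ℕ → Prop, Mx I E → ∀ γ, CC I E γ →
  ∃ w, RI I E w ∧ ∀ x y, w x y - w y x = γ x y

/-! ## The triangles around a point -/

/-- An (EASY-MEDIUM).  Induction on the number of neighbours `x` of `z` strictly between `a` and `b`.  None: `Tr z a b` (Ti),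
`w z a = w a b = w b z` (Uq).  Otherwise `w z a = w x z = w z x = w b z` (the neighbours strictly between `a` and `x`, or `x` and `b`, are strictly
between `a` and `b`, and fewer).  USES FP.Sy Ti Uq. -/
def St_An : Prop := ∀ I : In, Rl I → ∀ E : ℕ → ℕ → Prop, Mx I E → ∀ w, RI I E w →
  ∀ z a b, E z a → E z b → chi I z a b = true →
    (∀ x, E z x → chi I z a x = true → chi I z x b = true → w z x = w x z) → w z a = w b z

/-- `s` is the weight of all triangles with the vertex `z` -/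
def SS (I : In) (E : ℕ → ℕ → Prop) (w : ℕ → ℕ → ℤ) (z : ℕ) (s : ℤ) : Prop :=
  (∀ a, (∃ c, Tr I E z a c) → w z a = s) ∧ ∀ a, (∃ c, Tr I E a z c) → w a z = s

/-- Sr (EASY-MEDIUM).  THE STAR.  Claim: `w z a = w b z` if `z a` has a triangle (on its left) and `b z` has one.  `a = b`: hypothesis.
`chi z a b = T`: An; a neighbour `x` strictly between has triangles on both sides (Lx: `b` is left of `z x`, `a` is left of `x z`).
`chi z b a = T` (the remaining case): `a z` has a triangle because `b` is left of `a z`, `z b` has one because `a` is left of `z b` (Lx); so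
`w z a = w a z`, `w z b = w b z`, and An for `b, a`: `w z b = w a z`.  Now if `Tr z a c` then `Tr c z a` and `w c z = w z a` (Uq), so edges of both
kinds exist as soon as one exists, and all values are equal to `s`.  USES FP.Sy Uq Lx An. -/
def St_Sr : Prop := ∀ I : In, Rl I → ∀ E : ℕ → ℕ → Prop, Mx I E → ∀ w, RI I E w → ∀ z,
  (∀ x, (∃ c, Tr I E z x c) → (∃ c, Tr I E x z c) → w z x = w x z) → ∀ s : ℤ,
  (∃ a, ((∃ c, Tr I E z a c) ∧ w z a = s) ∨ ((∃ c, Tr I E a z c) ∧ w a z = s)) → SS I E w z s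

/-! ## Routes -/

/-- the setting: every inner point has a neighbour in a lower layer -/
structure Cx (I : In) (E : ℕ → ℕ → Prop) (par ly : ℕ → ℕ) (k : ℕ) : Prop where
  good : Good I
  n3 : 3 ≤ nn I
  mx : Mx I E
  lk : ∀ v, v < nn I → ly v < k
  pa : ∀ v, v < nn I → ext I v = false → E v (par v) ∧ ly (par v) < ly v

/-- the route to the hull, with at most `f` steps -/
def rl (I : In) (par : ℕ → ℕ) : ℕ → ℕ → List ℕ
  | 0, v => [v]
  | f + 1, v => if ext I v = true then [v] else v :: rl I par f (par v)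

/-- the next point on the way to `hp I 0` -/
def pf (I : In) (par : ℕ → ℕ) (v : ℕ) : ℕ :=
  if ext I v = true then hp I (px (hu I) v - 1) else par v

/-- the route to `hp I 0` -/
def fo (I : In) (par : ℕ → ℕ) (k v : ℕ) : List ℕ := fr I (rl I par k v)

/-- a rank which decreases along the routes -/
def rn (I : In) (ly : ℕ → ℕ) (v : ℕ) : ℕ := if ext I v = true then px (hu I) v else mm I + ly v

/-- Rt (EASY-MEDIUM).  `rl f v = rl f' v` if `ly v ≤ f, f'` (induction on `f`; a point with `ly v = 0` is extreme, otherwise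
`ly (par v) < 0`).  So for `ly v < k`: `rl k v = v :: rl k (par v)` if `v` is not extreme.  Induction on `ly v` for the other clauses:
length `≤ ly v + 1 ≤ k`; `ly` decreases strictly along the list as long as the points are not extreme, so it is nodup; the last point is extreme
(in `hu I`, FP.Hl), the others are not.  USES FP.Sy FP.Hl. -/
def St_Rt : Prop := ∀ (I : In) (E : ℕ → ℕ → Prop) (par ly : ℕ → ℕ) (k : ℕ), Cx I E par ly k →
  ∀ v, v < nn I → (ext I v = true → rl I par k v = [v]) ∧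
    (ext I v = false → rl I par k v = v :: rl I par k (par v)) ∧
    (rl I par k v).length ≤ k ∧ (rl I par k v).Nodup ∧ (∀ a ∈ rl I par k v, a < nn I) ∧
    (rl I par k v).headD 0 = v ∧ v ∈ rl I par k v ∧
    (∀ i, i < (rl I par k v).length →
      ((rl I par k v).getD i 0 ∈ hu I ↔ i + 1 = (rl I par k v).length)) ∧
    (∀ a ∈ rl I par k v, ∀ b ∈ rl I par k a, b ∈ rl I par k v) ∧
    ∀ x y, (x, y) ∈ ed (rl I par k v) ↔ (x ∈ rl I par k v ∧ ext I x = false ∧ y = par x)

/-- Fo (EASY-MEDIUM).  `v = hp j` (`j < mm I`, `px (hu I) v = j`): `fo v = [hp j, hp (j - 1), .., hp 0]`, `pf v = hp (j - 1)`, an edge of the hull (Hx) and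
`rn` decreases; not extreme: `fo v = v :: fo (par v)` (Rt; `getLastD` of the list is that of its tail), `rn (par v) < rn v` (`px < mm I`, or
`Cx.pa`).  Induction on `rn v` for the other clauses.  A point of `fo v` which is not extreme is in the part `rl k v`.
USES FP.Sy FP.Hl Hx Rt. -/
def St_Fo : Prop := ∀ (I : In) (E : ℕ → ℕ → Prop) (par ly : ℕ → ℕ) (k : ℕ), Cx I E par ly k →
  fo I par k (hp I 0) = [hp I 0] ∧ ∀ v, v < nn I →
    (v ≠ hp I 0 → fo I par k v = v :: fo I par k (pf I par v) ∧ E v (pf I par v) ∧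
      pf I par v < nn I ∧ rn I ly (pf I par v) < rn I ly v) ∧
    (fo I par k v).Nodup ∧ (∀ a ∈ fo I par k v, a < nn I ∧ rn I ly a ≤ rn I ly v) ∧
    v ∈ fo I par k v ∧ hp I 0 ∈ fo I par k v ∧
    (∀ a ∈ fo I par k v, ∀ b ∈ fo I par k a, b ∈ fo I par k v) ∧
    (∀ x y, (x, y) ∈ ed (fo I par k v) ↔ (x ∈ fo I par k v ∧ x ≠ hp I 0 ∧ y = pf I par x)) ∧
    (∀ a ∈ fo I par k v, ext I a = false → a ∈ rl I par k v) ∧
    ∀ a ∈ rl I par k v, a ∈ fo I par k v

open Classical in
/-- the chain of the route of `v`: `1` at the steps `x, pf x` -/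
noncomputable def tc (I : In) (par : ℕ → ℕ) (k v x y : ℕ) : ℤ :=
  (if x ∈ fo I par k v ∧ x ≠ hp I 0 ∧ y = pf I par x then 1 else 0) -
    (if y ∈ fo I par k v ∧ y ≠ hp I 0 ∧ x = pf I par y then 1 else 0)

/-- Kv (EASY-MEDIUM).  `ch (fo v) x y = tc v x y` (Dl, Fo: the list is nodup, its edges are the steps; both terms are not `1` together, as `rn`
decreases).  So `kp (rl k u) (rl k v) = dl u v + (tc v - tc u)`.  Second: for `v = pf u`: `fo u = u :: fo v`, `tc u = dl u v + tc v` (or Dl), so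
`kp u v = 0`, and `kp v u = dl v u + tc u - tc v = 0`.  Third: `tc v u v = tc u u v = 0`.  USES Dl Rt Fo. -/
def St_Kv : Prop := ∀ (I : In) (E : ℕ → ℕ → Prop) (par ly : ℕ → ℕ) (k : ℕ), Cx I E par ly k →
  (∀ u v, u < nn I → v < nn I → ∀ x y, kp I (rl I par k u) (rl I par k v) x y =
    dl u v x y + (tc I par k v x y - tc I par k u x y)) ∧
  (∀ u, u < nn I → u ≠ hp I 0 → ∀ x y,
    kp I (rl I par k u) (rl I par k (pf I par u)) x y = 0 ∧
    kp I (rl I par k (pf I par u)) (rl I par k u) x y = 0) ∧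
  ∀ u v, u < nn I → v < nn I → u ≠ v → ¬ (u ≠ hp I 0 ∧ v = pf I par u) →
    ¬ (v ≠ hp I 0 ∧ u = pf I par v) → kp I (rl I par k u) (rl I par k v) u v = 1

/-- Ck (EASY-MEDIUM).  `anti`: Kv, Dl.  `sup`: `{x, y} = {u, v}` or a step (Fo: `E x (pf x)`).  `clo`: `Σ_{y < n} dl u v x y = [x = u] - [x = v]`; along
the walk `fo v` from `v` to `hp 0`: `Σ_y ch (fo v) x y = [x = v] - [x = hp 0]` (induction on the list with Dl: telescoping).  USES Dl Fo Kv. -/
def St_Ck : Prop := ∀ (I : In) (E : ℕ → ℕ → Prop) (par ly : ℕ → ℕ) (k : ℕ), Cx I E par ly k →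
  ∀ u v, E u v → CC I E (fun x y => kp I (rl I par k u) (rl I par k v) x y)

/-- Ts (EASY-MEDIUM).  A CLOSED CHAIN ON THE TREE IS `0`.  Otherwise take `x` with `γ x (pf x) ≠ 0`, `x ≠ hp 0`, `rn x` maximal (by `anti` there is such
an `x`; `x < nn I`).  The terms `γ x y`, `y ≠ pf x`, of the sum `clo x` are `0`: otherwise `y ≠ hp 0`, `x = pf y`, `γ y (pf y) ≠ 0`,
`rn y > rn x`.  So `γ x (pf x) = 0`: contradiction.  USES Fo. -/
def St_Ts : Prop := ∀ (I : In) (E : ℕ → ℕ → Prop) (par ly : ℕ → ℕ) (k : ℕ), Cx I E par ly k →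
  ∀ γ, CC I E γ → (∀ x y, γ x y ≠ 0 → (x ≠ hp I 0 ∧ y = pf I par x) ∨
    (y ≠ hp I 0 ∧ x = pf I par y)) → ∀ x y, γ x y = 0

/-- Di (MEDIUM).  THE INSIDE OF A CLOSED CURVE.  `κ = kp (rl k u) (rl k v)`, `a = w v u`.  (1) `u v` a step (`v = pf u`, `u ≠ hp 0`, or conversely):
`κ = 0` (Kv), `w` is symmetric; the weights `[w ≥ 1]` and `[w ≤ - 1]` (indicators; `RI`) are symmetric and `≥ 0`, so `0` (Ap): `w = 0`.
(2) Otherwise `κ u v = 1` (Kv), `w u v = a + 1`.  For `l ≥ 1` let `f = [w ≥ l]` (`RI`).  `λ = f u v - f v u = [l = a + 1]`.  The chain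
`∂f - λ κ` is closed (Cl, Ck) and supported on steps: if `f x y ≠ f y x` then `w x y ≠ w y x`, `κ x y ≠ 0`, so `{x, y} = {u, v}` or a step (Kv), and
at `u v` it is `0`.  So it is `0` (Ts): `∂f = λ κ`; if `l ≠ a + 1` then `f = 0` (Ap).  For `l ≤ 0` the same for `f = [w < l]`: `λ = - [l = a + 1]`.
`a ≥ 0`: no values `< 0` (`l = 0 ≠ a + 1`).  If `a ≥ 1` then no values `≥ 1` (`l = 1 ≠ a + 1`), but `w v u = a ≥ 1`: contradiction.  So `a = 0`, no
values `≥ 2`: values `0, 1`.  `a ≤ - 1`: no values `≥ 1`; if `a ≤ - 2` then no values `< 0` (`l = 0 ≠ a + 1`), contradiction; so `a = - 1`, no values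
`< - 1` (`l = - 1`): values `0, - 1`.  USES Ap Cl Kv Ck Ts. -/
def St_Di : Prop := ∀ (I : In) (E : ℕ → ℕ → Prop) (par ly : ℕ → ℕ) (k : ℕ), Cx I E par ly k →
  ∀ u v, E u v → ∀ w, RI I E w →
    (∀ x y, w x y - w y x = kp I (rl I par k u) (rl I par k v) x y) →
    (w v u = 0 ∧ ∀ x y, w x y = 0 ∨ w x y = 1) ∨ (w v u = -1 ∧ ∀ x y, w x y = 0 ∨ w x y = -1)

open Classical in
/-- the weight of one triangle -/
noncomputable def ot (u v c x y : ℕ) : ℤ := if (x, y) ∈ sl (u, (v, c)) then 1 else 0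

/-- Sp (MEDIUM).  CUTTING A REGION.  `κ(u, v)` for `kp (rl k u) (rl k v)`.  H1 and Ck: `wA` with boundary `κ(u, c)`.  `wB = w - ot u v c - wA`.
`ot` is a weight (Uq) with boundary `dl u v + dl v c + dl c u`, so `wB` has the boundary `κ(c, v)` (Kc).  Di for `u c` and for `c v`:
`wA c u, wB v c ∈ {0, - 1}`.  `w v c = w u v = 1`, `ot v c = 1`, `wA v c = wA u v = wA c u` (`RI.rot`, Uq), so
`wB v c = - wA c u`: both are `0`, and `wA`, `wB` have values `0, 1` (Di).  USES Kc Uq H1 Ck Di. -/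
def St_Sp : Prop := ∀ (I : In) (E : ℕ → ℕ → Prop) (par ly : ℕ → ℕ) (k : ℕ), Cx I E par ly k →
  ∀ u v c, Tr I E u v c → ∀ w, RI I E w → (∀ x y, w x y = 0 ∨ w x y = 1) →
    (∀ x y, w x y - w y x = kp I (rl I par k u) (rl I par k v) x y) → w u v = 1 →
  ∃ wA wB : ℕ → ℕ → ℤ, RI I E wA ∧ RI I E wB ∧ (∀ x y, wA x y = 0 ∨ wA x y = 1) ∧
    (∀ x y, wB x y = 0 ∨ wB x y = 1) ∧
    (∀ x y, wA x y - wA y x = kp I (rl I par k u) (rl I par k c) x y) ∧
    (∀ x y, wB x y - wB y x = kp I (rl I par k c) (rl I par k v) x y) ∧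
    wA c u = 0 ∧ wB v c = 0 ∧ ∀ x y, w x y = wA x y + (wB x y + ot u v c x y)

open Classical in
/-- the weight `1` of all triangles -/
noncomputable def w1 (I : In) (E : ℕ → ℕ → Prop) (x y : ℕ) : ℤ := if ∃ c, Tr I E x y c then 1 else 0

/-- Rz (EASY-MEDIUM).  `RI`: Uq.  Boundary: `rl k (hp j) = [hp j]` (Rt), so the right side is `hb x y` (Kh).  Edges of the hull: Hx, Hb
(`hb = ± 1`).  Other segments of `E` have triangles on both sides: otherwise (Lx) all points are on one side, and Le makes it an edge of the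
hull; and `hb = 0` there (Hb).  Not in `E`: `0 = 0` (Hb, Hx).  USES FP.Sy FP.HC Kh Hb Uq Lx Le Hx Rt. -/
def St_Rz : Prop := ∀ (I : In) (E : ℕ → ℕ → Prop) (par ly : ℕ → ℕ) (k : ℕ), Cx I E par ly k →
  RI I E (w1 I E) ∧ ∀ x y, w1 I E x y - w1 I E y x =
    kp I (rl I par k (hp I (mm I - 1))) (rl I par k (hp I 0)) x y

/-! ## Points outside of the two routes -/

/-- Nj (EASY-MEDIUM).  `κ z b = 0`: otherwise (Kv) `{z, b} = {u, v}`, excluded (`u ∈ rl k u`, `v ∈ rl k v`), or `tc .. z b ≠ 0` for `u` or `v`, say `v`: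
`b = pf z`, `z ∈ fo v`, or `z = pf b`, `b ∈ fo v`.  `z` and `b` are not both extreme with one the `pf` of the other: that is an edge of the
hull, which has a triangle only on one side (Hx).  First case: `z` is not extreme, so `z ∈ rl k v` (Fo), excluded.  Second case: `z ∈ fo v`; `z` is
extreme (otherwise `z ∈ rl k v`), so `b` is not, `b ∈ rl k v`, `z = par b ∈ rl k v` (Rt), excluded.  USES FP.Sy FP.Hl Hx Rt Fo Kv. -/
def St_Nj : Prop := ∀ (I : In) (E : ℕ → ℕ → Prop) (par ly : ℕ → ℕ) (k : ℕ), Cx I E par ly k →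
  ∀ u v, u < nn I → v < nn I → ∀ w, RI I E w →
    (∀ x y, w x y - w y x = kp I (rl I par k u) (rl I par k v) x y) →
    ∀ z, z < nn I → z ∉ rl I par k u → z ∉ rl I par k v →
      ∀ b, (∃ c, Tr I E z b c) → (∃ c, Tr I E b z c) → w z b = w b z

/-- Pg (EASY-MEDIUM).  Induction on `ly z`.  `y = z`: hypothesis.  Otherwise `z` is not extreme, `y ∈ rl k (par z)` (Rt), and `p = par z` is not in
`rl k u` (otherwise `y ∈ rl k p` is in it, Rt), not in `rl k v`.  One of `z p`, `p z` has a triangle (Lx, `E z p`), with weight `s` (`SS` at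
`z`); Nj and Sr: `SS p s`.  USES Lx Sr Rt Nj. -/
def St_Pg : Prop := ∀ (I : In) (E : ℕ → ℕ → Prop) (par ly : ℕ → ℕ) (k : ℕ), Cx I E par ly k →
  ∀ u v, u < nn I → v < nn I → ∀ w, RI I E w →
    (∀ x y, w x y - w y x = kp I (rl I par k u) (rl I par k v) x y) →
    ∀ (z : ℕ) (s : ℤ), z < nn I → z ∉ rl I par k u → z ∉ rl I par k v → SS I E w z s →
      ∀ y ∈ rl I par k z, y ∉ rl I par k u → y ∉ rl I par k v → SS I E w y s

/-- P1 (EASY).  `v ∉ rl k u`, `v ∉ rl k c` (otherwise `y ∈ rl k v` is in them, Rt).  `Tr v c u`, `wA v c = wA c u = 0` (Uq, `RI.rot`); Nj and Sr: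
`SS wA v 0`; Pg.  Second clause: the same with `Tr u v c`, `wB u v = wB v c = 0`, starting at `u`.  USES Uq Sr Rt Nj Pg. -/
def St_P1 : Prop := ∀ (I : In) (E : ℕ → ℕ → Prop) (par ly : ℕ → ℕ) (k : ℕ), Cx I E par ly k →
  ∀ u v c, Tr I E u v c → (∀ wA, RI I E wA →
    (∀ x y, wA x y - wA y x = kp I (rl I par k u) (rl I par k c) x y) → wA c u = 0 →
    ∀ y ∈ rl I par k v, y ∉ rl I par k u → y ∉ rl I par k c → SS I E wA y 0) ∧
  ∀ wB, RI I E wB →
    (∀ x y, wB x y - wB y x = kp I (rl I par k c) (rl I par k v) x y) → wB v c = 0 →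
    ∀ y ∈ rl I par k u, y ∉ rl I par k c → y ∉ rl I par k v → SS I E wB y 0

/-- R1 (EASY).  `c ∉ rl k u`, `c ∉ rl k v` (Rt, as in P1).  `Tr c u v`, `w c u = w u v = 1`; Nj, Sr: `SS w c 1`; Pg.  USES Uq Sr Rt Nj Pg. -/
def St_R1 : Prop := ∀ (I : In) (E : ℕ → ℕ → Prop) (par ly : ℕ → ℕ) (k : ℕ), Cx I E par ly k →
  ∀ u v c, Tr I E u v c → ∀ w, RI I E w →
    (∀ x y, w x y - w y x = kp I (rl I par k u) (rl I par k v) x y) → w u v = 1 →
    ∀ y ∈ rl I par k c, y ∉ rl I par k u → y ∉ rl I par k v → SS I E w y 1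

/-- Q1 (MEDIUM).  ABOVE THE COMMON PART OF THE ROUTES.  `h = hp 0`.  `u, v ≠ h` (`fo h = [h]`).  Let `z = pf y`; induction on `rn z`.  (1) No jump at
`z`: for every `b`, `κ z b = dl u v z b + tc v z b - tc u z b = 0` (Kv): `z ≠ u, v` (`rn z < rn y ≤ rn u, rn v`); `z ∈ fo u`, `z ∈ fo v`, so
the terms with `b = pf z` cancel; `b ∈ fo v`, `b ≠ h`, `z = pf b` holds only for `b = y` (`(b, z), (y, z) ∈ ed (fo v)`, nodup), the same for `u`: these
terms cancel too.  (2) `z = h`: `hp (mm - 1), h` is an edge of the hull with a triangle on its left, none on the other side (Hx), so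
`w (hp (mm - 1)) h = κ (hp (mm - 1)) h = 0`: not `{u, v}`, and no step: `pf (hp (mm - 1)) = hp (mm - 2) ≠ h` (`mm ≥ 3`, Hs).  Sr: `SS w z 0`.
(3) `z ≠ h`: induction for `y := z`: `SS w (pf z) 0`, so the triangle at `z (pf z)` or `(pf z) z` (Lx) has weight `0`; Sr.
USES FP.Sy FP.Hl FP.HC Hs Lx Hx Sr Fo Kv. -/
def St_Q1 : Prop := ∀ (I : In) (E : ℕ → ℕ → Prop) (par ly : ℕ → ℕ) (k : ℕ), Cx I E par ly k →
  ∀ u v, E u v → ∀ w, RI I E w →
    (∀ x y, w x y - w y x = kp I (rl I par k u) (rl I par k v) x y) →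
    ∀ y, y ∈ fo I par k u → y ∈ fo I par k v → y ≠ hp I 0 → SS I E w (pf I par y) 0

end Pool.Agent.Work.MP_c6c039_lc.CL
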